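import Mathlib

/-!
# [PCM-CA1] a convex cut-off of `log`

With `x = log s`, for `s ≥ 1`: `kap s = k(x)`, `k(x) = x - 2 + (x+2) e^{-x}`, `k'(x) = 1 - (1+x) e^{-x}`, `k''(x) = x e^{-x}`,
`k(0) = k'(0) = k''(0) = 0`.  `kap1 s = k'(x)/s`, `kap2 s = (k''(x) - k'(x))/s^2`.
The derivatives at `s ≠ 1` are computed directly; at `s = 1` both one-sided derivatives are `0`
(`HasDerivWithinAt` on `Iic 1` and `Ici 1`, union; the formulas extend to `s = 1` with the value `0`).
`k ≥ 0`, `k > 0` for `x > 0`: `k' > 0` for `x > 0` (`1 + x < e^x`).  `k(x) ≤ x`: `(x+2) e^{-x} ≤ 2`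
(`x + 2 ≤ 2 + 2x ≤ 2 e^x`).  `kap1 s + s kap2 s = k''(x)/s = log s / s^2 ≥ 0` for `s > 1`, and `0` for `s ≤ 1`.
-/

open MeasureTheory Set Filter Topology

namespace PCM

noncomputable def kap (s : ℝ) : ℝ := if s ≤ 1 then 0 else Real.log s - 2 + (Real.log s + 2) / s

noncomputable def kap1 (s : ℝ) : ℝ := if s ≤ 1 then 0 else (1 - (1 + Real.log s) / s) / s

noncomputable def kap2 (s : ℝ) : ℝ :=
  if s ≤ 1 then 0 else (Real.log s / s - (1 - (1 + Real.log s) / s)) / s ^ 2

private theorem ca1_piece (g g' : ℝ → ℝ) (hg : ∀ s, 1 ≤ s → HasDerivAt g (g' s) s) (h0 : g 1 = 0) (h1 : g' 1 = 0)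
    (s : ℝ) : HasDerivAt (fun s => if s ≤ 1 then 0 else g s) (if s ≤ 1 then 0 else g' s) s := by
  rcases lt_trichotomy s 1 with hs | hs | hs
  · rw [if_pos hs.le]
    refine (hasDerivAt_const s (0 : ℝ)).congr_of_eventuallyEq ?_
    filter_upwards [Iio_mem_nhds hs] with t ht
    exact if_pos (le_of_lt ht)
  · subst hs
    rw [if_pos le_rfl]
    have e1 : HasDerivWithinAt (fun s => if s ≤ 1 then 0 else g s) 0 (Iic 1) 1 := by
      refine (hasDerivWithinAt_const (1 : ℝ) (Iic 1) (0 : ℝ)).congr (fun t ht => if_pos ht) (if_pos le_rfl)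
    have e2 : HasDerivWithinAt (fun s => if s ≤ 1 then 0 else g s) 0 (Ici 1) 1 := by
      have e3 := (hg 1 le_rfl).hasDerivWithinAt (s := Ici 1)
      rw [h1] at e3
      refine e3.congr (fun t ht => ?_) ?_
      · rcases eq_or_lt_of_le (mem_Ici.1 ht) with h | h
        · subst h
          rw [if_pos le_rfl, h0]
        · rw [if_neg (not_le.2 h)]
      · rw [if_pos le_rfl, h0]
    have e4 := e1.union e2
    rw [Iic_union_Ici, hasDerivWithinAt_univ] at e4
    exact e4
  · rw [if_neg (not_le.2 hs)]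
    refine (hg s hs.le).congr_of_eventuallyEq ?_
    filter_upwards [Ioi_mem_nhds hs] with t ht
    exact if_neg (not_le.2 ht)

private theorem ca1_d0 (s : ℝ) (hs : 1 ≤ s) :
    HasDerivAt (fun s => Real.log s - 2 + (Real.log s + 2) / s) ((1 - (1 + Real.log s) / s) / s) s := by
  have h0 : s ≠ 0 := by positivity
  have h1 := Real.hasDerivAt_log h0
  have h2 := (h1.sub_const 2).add ((h1.add_const 2).div (hasDerivAt_id s) h0)
  refine h2.congr_deriv ?_
  simp only [id]
  field_simp
  ring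

private theorem ca1_d1 (s : ℝ) (hs : 1 ≤ s) :
    HasDerivAt (fun s => (1 - (1 + Real.log s) / s) / s) ((Real.log s / s - (1 - (1 + Real.log s) / s)) / s ^ 2) s := by
  have h0 : s ≠ 0 := by positivity
  have h1 := Real.hasDerivAt_log h0
  have h2 := (((h1.const_add 1).div (hasDerivAt_id s) h0).const_sub 1).div (hasDerivAt_id s) h0
  refine h2.congr_deriv ?_
  simp only [id, Pi.div_apply]
  field_simp
  ring

private theorem ca1_k1pos {s : ℝ} (h : 1 < s) : 0 < (1 - (1 + Real.log s) / s) / s := by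
  have h0 : 0 < s := by linarith
  have h1 := Real.log_lt_sub_one_of_pos h0 h.ne'
  refine div_pos ?_ h0
  rw [sub_pos, div_lt_one h0]
  linarith

theorem hasDerivAt_kap (s : ℝ) : HasDerivAt kap (kap1 s) s := by
  exact ca1_piece _ _ ca1_d0 (by norm_num) (by norm_num) s

theorem hasDerivAt_kap1 (s : ℝ) : HasDerivAt kap1 (kap2 s) s := by
  exact ca1_piece _ _ ca1_d1 (by norm_num) (by norm_num) s

theorem continuous_kap2 : Continuous kap2 := by
  have h1 : kap2 = fun s => (Real.log (max s 1) / max s 1 - (1 - (1 + Real.log (max s 1)) / max s 1)) / (max s 1) ^ 2 := by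
    funext s
    unfold kap2
    split_ifs with h
    · rw [max_eq_right h]
      norm_num
    · rw [max_eq_left (not_le.1 h).le]
  rw [h1]
  have h2 : Continuous fun s : ℝ => max s 1 := continuous_id.max continuous_const
  have h3 : ∀ s : ℝ, max s 1 ≠ 0 := fun s => (lt_of_lt_of_le one_pos (le_max_right s 1)).ne'
  have h4 : Continuous fun s : ℝ => Real.log (max s 1) := h2.log h3
  exact ((h4.div h2 h3).sub (continuous_const.sub ((continuous_const.add h4).div h2 h3))).div (h2.pow 2)
    fun s => pow_ne_zero 2 (h3 s)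

private theorem ca1_kap_pos {s : ℝ} (h : 1 < s) : 0 < kap s := by
  have h1 : StrictMonoOn kap (Ici 1) := by
    refine strictMonoOn_of_deriv_pos (convex_Ici 1)
      (fun t _ => (hasDerivAt_kap t).continuousAt.continuousWithinAt) fun t ht => ?_
    rw [interior_Ici] at ht
    rw [(hasDerivAt_kap t).deriv, kap1, if_neg (not_le.2 ht)]
    exact ca1_k1pos ht
  have h2 := h1 (mem_Ici.2 le_rfl) (mem_Ici.2 h.le) h
  have h3 : kap 1 = 0 := if_pos le_rfl
  rwa [h3] at h2

theorem kap_nonneg (s : ℝ) : 0 ≤ kap s := by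
  rcases le_or_gt s 1 with h | h
  · rw [kap, if_pos h]
  · exact (ca1_kap_pos h).le

theorem kap_pos {s : ℝ} (h : 1 < s) : 0 < kap s := by
  exact ca1_kap_pos h

theorem kap_le {s : ℝ} (h : 1 ≤ s) : kap s ≤ Real.log s := by
  rcases eq_or_lt_of_le h with h1 | h1
  · subst h1
    rw [kap, if_pos le_rfl, Real.log_one]
  · have h0 : 0 < s := by linarith
    rw [kap, if_neg (not_le.2 h1)]
    have h2 := Real.log_le_sub_one_of_pos h0
    have h3 : (Real.log s + 2) / s ≤ 2 := by
      rw [div_le_iff₀ h0]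
      linarith
    linarith

theorem kap_sub {s : ℝ} (h : 0 ≤ s) : 0 ≤ kap1 s + s * kap2 s := by
  rcases le_or_gt s 1 with h1 | h1
  · rw [kap1, kap2, if_pos h1, if_pos h1, mul_zero, add_zero]
  · have h0 : 0 < s := by linarith
    rw [kap1, kap2, if_neg (not_le.2 h1), if_neg (not_le.2 h1)]
    have h2 : (1 - (1 + Real.log s) / s) / s + s * ((Real.log s / s - (1 - (1 + Real.log s) / s)) / s ^ 2) =
        Real.log s / s ^ 2 := by
      field_simp
      ring
    rw [h2]
    exact div_nonneg (Real.log_nonneg h1.le) (by positivity)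

end PCM
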