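import Pool.Agent.PCM.CA1

/-!
# [PCM-CA2] the function `U(t,θ) = kap (|H(e^{t+iθ})|^2)` is subharmonic

`h ζ = H (exp ζ)` is entire; `h'`, `h''` its derivatives (`deriv h`, `deriv (deriv h)`, entire).  With `ζ = t + iθ`,
`∂_t h = h'`, `∂_θ h = i h'`.  `n = ‖h‖^2 = (Re h)^2 + (Im h)^2`:
`n_t = 2 Re (conj h * h')`, `n_θ = 2 Re (conj h * (i h')) = -2 Im (conj h * h')`,
`n_tt = 2 ‖h'‖^2 + 2 Re (conj h * h'')`, `n_θθ = 2 ‖h'‖^2 - 2 Re (conj h * h'')`.
`Ut = kap1 n * n_t`, `Uth = kap1 n * n_θ`, `Utt = kap2 n * n_t^2 + kap1 n * n_tt`, `Uhh = kap2 n * n_θ^2 + kap1 n * n_θθ`.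
`n_t^2 + n_θ^2 = 4 ‖conj h * h'‖^2 = 4 n ‖h'‖^2`, so `Utt + Uhh = 4 ‖h'‖^2 (n kap2 n + kap1 n) ≥ 0` (`kap_sub`).
Continuity: `kap1`, `kap2` are continuous, everything else is a composition of continuous functions.
-/

open MeasureTheory Set Filter Topology

namespace PCM

/-- `U(t,θ)` -/
noncomputable def UU (H : ℂ → ℂ) (t θ : ℝ) : ℝ :=
  kap (‖H (Complex.exp ((t : ℂ) + (θ : ℂ) * Complex.I))‖ ^ 2)

/-- the derivatives of `‖h(t + iθ)‖^2` -/
private theorem ca2_t {g g' : ℂ → ℂ} (hg : ∀ z, HasDerivAt g (g' z) z) (t θ : ℝ) :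
    HasDerivAt (fun t : ℝ => g ((t : ℂ) + (θ : ℂ) * Complex.I))
      (g' ((t : ℂ) + (θ : ℂ) * Complex.I)) t := by
  have h1 : HasDerivAt (fun t : ℂ => t + (θ : ℂ) * Complex.I) 1 (t : ℂ) :=
    (hasDerivAt_id (t : ℂ)).add_const _
  have h2 := (hg ((t : ℂ) + (θ : ℂ) * Complex.I)).comp (t : ℂ) h1
  rw [mul_one] at h2
  exact h2.comp_ofReal

private theorem ca2_h {g g' : ℂ → ℂ} (hg : ∀ z, HasDerivAt g (g' z) z) (t θ : ℝ) :
    HasDerivAt (fun θ : ℝ => g ((t : ℂ) + (θ : ℂ) * Complex.I))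
      (g' ((t : ℂ) + (θ : ℂ) * Complex.I) * Complex.I) θ := by
  have h1 : HasDerivAt (fun θ : ℂ => (t : ℂ) + θ * Complex.I) Complex.I (θ : ℂ) := by
    have h0 := ((hasDerivAt_id (θ : ℂ)).mul_const Complex.I).const_add (t : ℂ)
    rw [one_mul] at h0
    exact h0
  have h2 := (hg ((t : ℂ) + (θ : ℂ) * Complex.I)).comp (θ : ℂ) h1
  exact h2.comp_ofReal

private theorem ca2_re {f : ℝ → ℂ} {f' : ℂ} {x : ℝ} (h : HasDerivAt f f' x) :
    HasDerivAt (fun x => (f x).re) f'.re x := by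
  have := (Complex.reCLM.hasFDerivAt (x := f x)).comp_hasDerivAt x h
  exact this

private theorem ca2_im {f : ℝ → ℂ} {f' : ℂ} {x : ℝ} (h : HasDerivAt f f' x) :
    HasDerivAt (fun x => (f x).im) f'.im x := by
  have := (Complex.imCLM.hasFDerivAt (x := f x)).comp_hasDerivAt x h
  exact this

/-- derivative of `Re (conj f * g)` -/
private theorem ca2_pair {f g : ℝ → ℂ} {f' g' : ℂ} {x : ℝ} (hf : HasDerivAt f f' x)
    (hg : HasDerivAt g g' x) :
    HasDerivAt (fun x => (f x).re * (g x).re + (f x).im * (g x).im)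
      (f'.re * (g x).re + f'.im * (g x).im + ((f x).re * g'.re + (f x).im * g'.im)) x := by
  refine (((ca2_re hf).mul (ca2_re hg)).add ((ca2_im hf).mul (ca2_im hg))).congr_deriv ?_
  ring

private theorem ca2_norm (z : ℂ) : ‖z‖ ^ 2 = z.re * z.re + z.im * z.im := by
  rw [← Complex.normSq_eq_norm_sq, Complex.normSq_apply]

private theorem ca2_cont_kap1 : Continuous kap1 :=
  continuous_iff_continuousAt.2 fun x => (hasDerivAt_kap1 x).continuousAt

private theorem ca2_cont_kap : Continuous kap :=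
  continuous_iff_continuousAt.2 fun x => (hasDerivAt_kap x).continuousAt

theorem exists_U (H : ℂ → ℂ) (hH : Differentiable ℂ H) :
    ∃ Ut Uh Utt Uhh : ℝ → ℝ → ℝ,
      (∀ t θ, HasDerivAt (fun t => UU H t θ) (Ut t θ) t) ∧
      (∀ t θ, HasDerivAt (fun t => Ut t θ) (Utt t θ) t) ∧
      (∀ t θ, HasDerivAt (fun θ => UU H t θ) (Uh t θ) θ) ∧
      (∀ t θ, HasDerivAt (fun θ => Uh t θ) (Uhh t θ) θ) ∧
      (Continuous fun p : ℝ × ℝ => UU H p.1 p.2) ∧
      (Continuous fun p : ℝ × ℝ => Ut p.1 p.2) ∧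
      (Continuous fun p : ℝ × ℝ => Uh p.1 p.2) ∧
      (Continuous fun p : ℝ × ℝ => Utt p.1 p.2) ∧
      (Continuous fun p : ℝ × ℝ => Uhh p.1 p.2) ∧
      ∀ t θ, 0 ≤ Utt t θ + Uhh t θ := by
  let h : ℂ → ℂ := fun z => H (Complex.exp z)
  have hh : Differentiable ℂ h := hH.comp Complex.differentiable_exp
  have hh1 : Differentiable ℂ (deriv h) := fun z =>
    (hh.analyticAt z).deriv.differentiableAt
  have hh2 : Differentiable ℂ (deriv (deriv h)) := fun z =>
    (hh1.analyticAt z).deriv.differentiableAt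
  have D0 : ∀ z, HasDerivAt h (deriv h z) z := fun z => (hh z).hasDerivAt
  have D1 : ∀ z, HasDerivAt (deriv h) (deriv (deriv h) z) z := fun z => (hh1 z).hasDerivAt
  have D1I : ∀ z, HasDerivAt (fun z => deriv h z * Complex.I) (deriv (deriv h) z * Complex.I) z :=
    fun z => (D1 z).mul_const _
  let Z : ℝ → ℝ → ℂ := fun t θ => (t : ℂ) + (θ : ℂ) * Complex.I
  have hZ : Continuous fun p : ℝ × ℝ => Z p.1 p.2 :=
    (Complex.continuous_ofReal.comp continuous_fst).add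
      ((Complex.continuous_ofReal.comp continuous_snd).mul continuous_const)
  -- the three functions
  let u : ℝ → ℝ → ℂ := fun t θ => h (Z t θ)
  let p : ℝ → ℝ → ℂ := fun t θ => deriv h (Z t θ)
  let q : ℝ → ℝ → ℂ := fun t θ => deriv (deriv h) (Z t θ)
  let pI : ℝ → ℝ → ℂ := fun t θ => p t θ * Complex.I
  let qI : ℝ → ℝ → ℂ := fun t θ => q t θ * Complex.I
  let qII : ℝ → ℝ → ℂ := fun t θ => q t θ * Complex.I * Complex.I
  have cu : Continuous fun x : ℝ × ℝ => u x.1 x.2 := hh.continuous.comp hZ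
  have cp : Continuous fun x : ℝ × ℝ => p x.1 x.2 := hh1.continuous.comp hZ
  have cq : Continuous fun x : ℝ × ℝ => q x.1 x.2 := hh2.continuous.comp hZ
  have cpI : Continuous fun x : ℝ × ℝ => pI x.1 x.2 := cp.mul continuous_const
  have cqI : Continuous fun x : ℝ × ℝ => qI x.1 x.2 := cq.mul continuous_const
  have cqII : Continuous fun x : ℝ × ℝ => qII x.1 x.2 := cqI.mul continuous_const
  let B : ℂ → ℂ → ℝ := fun a b => a.re * b.re + a.im * b.im
  have cB : ∀ {f g : ℝ × ℝ → ℂ}, Continuous f → Continuous g → Continuous fun x => B (f x) (g x) :=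
    fun hf hg => ((Complex.continuous_re.comp hf).mul (Complex.continuous_re.comp hg)).add
      ((Complex.continuous_im.comp hf).mul (Complex.continuous_im.comp hg))
  let n : ℝ → ℝ → ℝ := fun t θ => B (u t θ) (u t θ)
  have cn : Continuous fun x : ℝ × ℝ => n x.1 x.2 := cB cu cu
  have hUU : ∀ t θ, UU H t θ = kap (n t θ) := by
    intro t θ
    show kap (‖h (Z t θ)‖ ^ 2) = kap (n t θ)
    rw [ca2_norm]
  -- the derivatives of n
  have nt : ∀ t θ, HasDerivAt (fun t => n t θ) (2 * B (u t θ) (p t θ)) t := by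
    intro t θ
    refine (ca2_pair (ca2_t D0 t θ) (ca2_t D0 t θ)).congr_deriv ?_
    show (deriv h (Z t θ)).re * (h (Z t θ)).re + (deriv h (Z t θ)).im * (h (Z t θ)).im +
      ((h (Z t θ)).re * (deriv h (Z t θ)).re + (h (Z t θ)).im * (deriv h (Z t θ)).im) =
      2 * ((h (Z t θ)).re * (deriv h (Z t θ)).re + (h (Z t θ)).im * (deriv h (Z t θ)).im)
    ring
  have nh : ∀ t θ, HasDerivAt (fun θ => n t θ) (2 * B (u t θ) (pI t θ)) θ := by
    intro t θ
    refine (ca2_pair (ca2_h D0 t θ) (ca2_h D0 t θ)).congr_deriv ?_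
    show (pI t θ).re * (u t θ).re + (pI t θ).im * (u t θ).im +
      ((u t θ).re * (pI t θ).re + (u t θ).im * (pI t θ).im) =
      2 * ((u t θ).re * (pI t θ).re + (u t θ).im * (pI t θ).im)
    ring
  have ntt : ∀ t θ, HasDerivAt (fun t => 2 * B (u t θ) (p t θ))
      (2 * (B (p t θ) (p t θ) + B (u t θ) (q t θ))) t := fun t θ =>
    (ca2_pair (ca2_t D0 t θ) (ca2_t D1 t θ)).const_mul 2
  have nhh : ∀ t θ, HasDerivAt (fun θ => 2 * B (u t θ) (pI t θ))
      (2 * (B (pI t θ) (pI t θ) + B (u t θ) (qII t θ))) θ := fun t θ =>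
    (ca2_pair (ca2_h D0 t θ) (ca2_h D1I t θ)).const_mul 2
  let Nt : ℝ → ℝ → ℝ := fun t θ => 2 * B (u t θ) (p t θ)
  let Nh : ℝ → ℝ → ℝ := fun t θ => 2 * B (u t θ) (pI t θ)
  let Ntt : ℝ → ℝ → ℝ := fun t θ => 2 * (B (p t θ) (p t θ) + B (u t θ) (q t θ))
  let Nhh : ℝ → ℝ → ℝ := fun t θ => 2 * (B (pI t θ) (pI t θ) + B (u t θ) (qII t θ))
  have cNt : Continuous fun x : ℝ × ℝ => Nt x.1 x.2 := continuous_const.mul (cB cu cp)
  have cNh : Continuous fun x : ℝ × ℝ => Nh x.1 x.2 := continuous_const.mul (cB cu cpI)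
  have cNtt : Continuous fun x : ℝ × ℝ => Ntt x.1 x.2 :=
    continuous_const.mul ((cB cp cp).add (cB cu cq))
  have cNhh : Continuous fun x : ℝ × ℝ => Nhh x.1 x.2 :=
    continuous_const.mul ((cB cpI cpI).add (cB cu cqII))
  have ck1 : Continuous fun x : ℝ × ℝ => kap1 (n x.1 x.2) := ca2_cont_kap1.comp cn
  have ck2 : Continuous fun x : ℝ × ℝ => kap2 (n x.1 x.2) := continuous_kap2.comp cn
  refine ⟨fun t θ => kap1 (n t θ) * Nt t θ, fun t θ => kap1 (n t θ) * Nh t θ,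
    fun t θ => kap2 (n t θ) * Nt t θ * Nt t θ + kap1 (n t θ) * Ntt t θ,
    fun t θ => kap2 (n t θ) * Nh t θ * Nh t θ + kap1 (n t θ) * Nhh t θ, ?_, ?_, ?_, ?_, ?_, ?_, ?_,
    ?_, ?_, ?_⟩
  · intro t θ
    have e : (fun t => UU H t θ) = fun t => kap (n t θ) := funext fun t => hUU t θ
    rw [e]
    exact (hasDerivAt_kap (n t θ)).comp t (nt t θ)
  · intro t θ
    exact ((hasDerivAt_kap1 (n t θ)).comp t (nt t θ)).mul (ntt t θ)
  · intro t θ
    have e : (fun θ => UU H t θ) = fun θ => kap (n t θ) := funext fun θ => hUU t θ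
    rw [e]
    exact (hasDerivAt_kap (n t θ)).comp θ (nh t θ)
  · intro t θ
    exact ((hasDerivAt_kap1 (n t θ)).comp θ (nh t θ)).mul (nhh t θ)
  · have e : (fun x : ℝ × ℝ => UU H x.1 x.2) = fun x => kap (n x.1 x.2) :=
      funext fun x => hUU x.1 x.2
    rw [e]
    exact ca2_cont_kap.comp cn
  · exact ck1.mul cNt
  · exact ck1.mul cNh
  · exact ((ck2.mul cNt).mul cNt).add (ck1.mul cNtt)
  · exact ((ck2.mul cNh).mul cNh).add (ck1.mul cNhh)
  · intro t θ
    have hn : 0 ≤ n t θ := by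
      show 0 ≤ (u t θ).re * (u t θ).re + (u t θ).im * (u t θ).im
      exact add_nonneg (mul_self_nonneg _) (mul_self_nonneg _)
    have hk := kap_sub hn
    have e : kap2 (n t θ) * Nt t θ * Nt t θ + kap1 (n t θ) * Ntt t θ +
        (kap2 (n t θ) * Nh t θ * Nh t θ + kap1 (n t θ) * Nhh t θ) =
        4 * B (p t θ) (p t θ) * (kap1 (n t θ) + n t θ * kap2 (n t θ)) := by
      have r1 : (pI t θ).re = -(p t θ).im := by
        show (p t θ * Complex.I).re = _
        rw [Complex.mul_I_re]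
      have r2 : (pI t θ).im = (p t θ).re := by
        show (p t θ * Complex.I).im = _
        rw [Complex.mul_I_im]
      have r3 : (qII t θ).re = -(q t θ).re := by
        show (q t θ * Complex.I * Complex.I).re = _
        rw [Complex.mul_I_re, Complex.mul_I_im]
      have r4 : (qII t θ).im = -(q t θ).im := by
        show (q t θ * Complex.I * Complex.I).im = _
        rw [Complex.mul_I_im, Complex.mul_I_re]
      have s1 : Nt t θ ^ 2 + Nh t θ ^ 2 = 4 * (n t θ * B (p t θ) (p t θ)) := by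
        show (2 * ((u t θ).re * (p t θ).re + (u t θ).im * (p t θ).im)) ^ 2 +
          (2 * ((u t θ).re * (pI t θ).re + (u t θ).im * (pI t θ).im)) ^ 2 =
          4 * (((u t θ).re * (u t θ).re + (u t θ).im * (u t θ).im) *
            ((p t θ).re * (p t θ).re + (p t θ).im * (p t θ).im))
        rw [r1, r2]
        ring
      have s2 : Ntt t θ + Nhh t θ = 4 * B (p t θ) (p t θ) := by
        show 2 * (((p t θ).re * (p t θ).re + (p t θ).im * (p t θ).im) +
            ((u t θ).re * (q t θ).re + (u t θ).im * (q t θ).im)) +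
          2 * (((pI t θ).re * (pI t θ).re + (pI t θ).im * (pI t θ).im) +
            ((u t θ).re * (qII t θ).re + (u t θ).im * (qII t θ).im)) =
          4 * ((p t θ).re * (p t θ).re + (p t θ).im * (p t θ).im)
        rw [r1, r2, r3, r4]
        ring
      calc _ = kap2 (n t θ) * (Nt t θ ^ 2 + Nh t θ ^ 2) + kap1 (n t θ) * (Ntt t θ + Nhh t θ) := by
            ring
        _ = _ := by
            rw [s1, s2]
            ring
    show 0 ≤ kap2 (n t θ) * Nt t θ * Nt t θ + kap1 (n t θ) * Ntt t θ +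
        (kap2 (n t θ) * Nh t θ * Nh t θ + kap1 (n t θ) * Nhh t θ)
    rw [e]
    have hp : 0 ≤ B (p t θ) (p t θ) := by
      show 0 ≤ (p t θ).re * (p t θ).re + (p t θ).im * (p t θ).im
      exact add_nonneg (mul_self_nonneg _) (mul_self_nonneg _)
    positivity

end PCM
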