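import Mathlib

/-!
# [PCM-CA3] differentiation of an integral with a parameter

`intervalIntegral.hasDerivAt_integral_of_dominated_loc_of_deriv_le` with the constant bound
`sup ‖Kt‖` on the compact set `[t-1,t+1] × [a,b]` (`hKt` continuous).  Measurability: continuity.
`continuous_param`: `intervalIntegral.continuous_parametric_intervalIntegral_of_continuous'` or
`continuous_parametric_intervalIntegral_of_continuous`.
-/

open MeasureTheory Set Filter Topology

namespace PCM

theorem hasDerivAt_param (K Kt : ℝ → ℝ → ℝ) (a b : ℝ)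
    (hK : ∀ t θ, HasDerivAt (fun t => K t θ) (Kt t θ) t)
    (hKc : Continuous fun p : ℝ × ℝ => K p.1 p.2)
    (hKt : Continuous fun p : ℝ × ℝ => Kt p.1 p.2) (t : ℝ) :
    HasDerivAt (fun t => ∫ θ in a..b, K t θ) (∫ θ in a..b, Kt t θ) t := by
  have hcomp : IsCompact (Icc (t - 1) (t + 1) ×ˢ uIcc a b) := isCompact_Icc.prod isCompact_uIcc
  obtain ⟨C, hC⟩ := hcomp.exists_bound_of_continuousOn hKt.continuousOn
  have hs : Icc (t - 1) (t + 1) ∈ 𝓝 t := Icc_mem_nhds (by linarith) (by linarith)
  have h1 : ∀ s : ℝ, Continuous (K s) := fun s =>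
    hKc.comp (Continuous.prodMk_right s)
  have h2 : ∀ s : ℝ, Continuous (Kt s) := fun s =>
    hKt.comp (Continuous.prodMk_right s)
  have key := intervalIntegral.hasDerivAt_integral_of_dominated_loc_of_deriv_le
    (μ := volume) (a := a) (b := b) (F := K) (F' := Kt) (x₀ := t) (s := Icc (t - 1) (t + 1))
    (bound := fun _ => C) hs
    (Eventually.of_forall fun s => (h1 s).aestronglyMeasurable)
    ((h1 t).intervalIntegrable a b)
    ((h2 t).aestronglyMeasurable)
    (Eventually.of_forall fun θ hθ s hs => hC (s, θ) ⟨hs, uIoc_subset_uIcc hθ⟩)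
    (continuous_const.intervalIntegrable a b)
    (Eventually.of_forall fun θ _ s _ => hK s θ)
  exact key.2

theorem continuous_param (K : ℝ → ℝ → ℝ) (a b : ℝ)
    (hKc : Continuous fun p : ℝ × ℝ => K p.1 p.2) :
    Continuous fun t => ∫ θ in a..b, K t θ := by
  exact intervalIntegral.continuous_parametric_intervalIntegral_of_continuous' hKc a b

end PCM
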