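import Mathlib

/-!
# [PCM-CA4] Wirtinger's inequality with an additional zero

Let `-π/2 < a ≤ b < π/2`.  Since `tan' = 1 + tan^2`,
`∫_a^b (v' + tan θ v)^2 = ∫_a^b (v'^2 - v^2) + tan b v(b)^2 - tan a v(a)^2`
(expand the square; `(tan v^2)' = (1 + tan^2) v^2 + 2 tan v v'`).
As `b → π/2`, `tan b v(b)^2 → 0` (`|v b| ≤ L (π/2 - b)` with `L = sup |v'|` on `[-π/2,π/2]`, and
`tan b ≤ 1/(π/2 - b)·const`, e.g. `tan b = cos(π/2-b)/sin(π/2-b) ≤ (π/2)/(π/2-b)`), same at `-π/2`.
So `J = ∫_{-π/2}^{π/2} (v'^2 - v^2) ≥ ∫_a^b (v' + tan v)^2 ≥ 0` in the limit sense: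
for all `a ≤ b` inside, `∫_a^b (v' + tan v)^2 ≤ J` (the integrand is nonnegative, take larger intervals and let them
tend to the full interval).  This gives `wirtinger`.
For `wirtinger_zero`: let `w = v / cos` on `(-π/2, π/2)`; `w' = (v' + tan v)/cos`, `w x = 0`, so for `y` inside
`w(y)^2 ≤ |∫_x^y (v'+tan v)^2| |∫_x^y cos^{-2}| ≤ J |tan y - tan x|` (Cauchy-Schwarz), hence
`v(y)^2 ≤ J cos^2 y (|tan y| + |tan x|) ≤ J (1/2 + |tan x|)`, and `|tan x| ≤ tan (π/2 - η) = cot η ≤ 1/η`.  With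
`1/2 + 1/η ≤ 2/η` (`η ≤ π/2 ≤ 2`): `∫ v^2 ≤ π (2/η) J`, that is `J ≥ η/(2π) ∫ v^2`.
-/

open MeasureTheory Set Filter Topology

namespace PCM

private theorem ca4_lim (v : ℝ → ℝ) (w c : ℝ) (hc : Real.cos c = 0) (hv : HasDerivAt v w c)
    (hvc : v c = 0) : Tendsto (fun x => Real.tan x * v x ^ 2) (𝓝[≠] c) (𝓝 0) := by
  have hs : Real.sin c ≠ 0 := by
    intro h
    have h0 := Real.sin_sq_add_cos_sq c
    rw [h, hc] at h0
    norm_num at h0
  have h1 := hasDerivAt_iff_tendsto_slope.1 hv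
  have h2 := hasDerivAt_iff_tendsto_slope.1 (Real.hasDerivAt_cos c)
  have h3 : Tendsto Real.sin (𝓝[≠] c) (𝓝 (Real.sin c)) :=
    (Real.continuous_sin.tendsto c).mono_left nhdsWithin_le_nhds
  have h4 : Tendsto v (𝓝[≠] c) (𝓝 (v c)) := hv.continuousAt.tendsto.mono_left nhdsWithin_le_nhds
  have h5 := ((h3.mul h4).mul h1).div h2 (neg_ne_zero.2 hs)
  rw [hvc, mul_zero, zero_mul, zero_div] at h5
  refine h5.congr' ?_
  filter_upwards [self_mem_nhdsWithin] with x hx
  have hxc : x - c ≠ 0 := sub_ne_zero.2 hx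
  show Real.sin x * v x * slope v c x / slope Real.cos c x = Real.tan x * v x ^ 2
  rw [slope_def_field, slope_def_field, hvc, hc, sub_zero, sub_zero, Real.tan_eq_sin_div_cos]
  by_cases hcx : Real.cos x = 0
  · rw [hcx]
    simp
  · field_simp

private theorem ca4_cos {a b x : ℝ} (ha : -(Real.pi / 2) < a) (hb : b < Real.pi / 2)
    (hx : x ∈ Icc a b) : 0 < Real.cos x :=
  Real.cos_pos_of_mem_Ioo ⟨lt_of_lt_of_le ha hx.1, lt_of_le_of_lt hx.2 hb⟩

private theorem ca4_tan_cont {a b : ℝ} (ha : -(Real.pi / 2) < a) (hb : b < Real.pi / 2) :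
    ContinuousOn Real.tan (Icc a b) :=
  Real.continuousOn_tan_Ioo.mono fun _ hx => ⟨lt_of_lt_of_le ha hx.1, lt_of_le_of_lt hx.2 hb⟩

private theorem ca4_key (v v' : ℝ → ℝ) (hv : ∀ x, HasDerivAt v (v' x) x) (hv' : Continuous v')
    {a b : ℝ} (ha : -(Real.pi / 2) < a) (hb : b < Real.pi / 2) (hab : a ≤ b) :
    ∫ x in a..b, (v' x + Real.tan x * v x) ^ 2 = (∫ x in a..b, (v' x ^ 2 - v x ^ 2)) +
      (Real.tan b * v b ^ 2 - Real.tan a * v a ^ 2) := by
  have hvc : Continuous v := continuous_iff_continuousAt.2 fun x => (hv x).continuousAt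
  have hu : uIcc a b = Icc a b := uIcc_of_le hab
  have ht := ca4_tan_cont ha hb
  have hi1 : IntervalIntegrable (fun x => (v' x + Real.tan x * v x) ^ 2) volume a b := by
    refine ContinuousOn.intervalIntegrable ?_
    rw [hu]
    exact (hv'.continuousOn.add (ht.mul hvc.continuousOn)).pow 2
  have hi2 : IntervalIntegrable (fun x => v' x ^ 2 - v x ^ 2) volume a b :=
    ((hv'.pow 2).sub (hvc.pow 2)).intervalIntegrable _ _
  have hF : ∀ x ∈ uIcc a b, HasDerivAt (fun x => Real.tan x * v x ^ 2)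
      ((v' x + Real.tan x * v x) ^ 2 - (v' x ^ 2 - v x ^ 2)) x := by
    intro x hx
    rw [hu] at hx
    have hcx : Real.cos x ≠ 0 := (ca4_cos ha hb hx).ne'
    have h1 := (Real.hasDerivAt_tan hcx).mul ((hv x).pow 2)
    refine h1.congr_deriv ?_
    have h2 : 1 / Real.cos x ^ 2 = 1 + Real.tan x ^ 2 := by
      rw [Real.tan_eq_sin_div_cos, div_pow]
      field_simp
      linarith [Real.sin_sq_add_cos_sq x]
    rw [h2]
    simp only [Nat.cast_ofNat, Nat.add_one_sub_one, pow_one, Pi.pow_apply]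
    ring
  have h := intervalIntegral.integral_eq_sub_of_hasDerivAt hF (hi1.sub hi2)
  rw [intervalIntegral.integral_sub hi1 hi2] at h
  linarith

private theorem ca4_J (v v' : ℝ → ℝ) (hv : ∀ x, HasDerivAt v (v' x) x) (hv' : Continuous v')
    (h1 : v (-(Real.pi / 2)) = 0) (h2 : v (Real.pi / 2) = 0)
    {a b : ℝ} (ha : -(Real.pi / 2) < a) (hb : b < Real.pi / 2) (hab : a ≤ b) :
    ∫ x in a..b, (v' x + Real.tan x * v x) ^ 2 ≤
      ∫ x in (-(Real.pi / 2))..(Real.pi / 2), (v' x ^ 2 - v x ^ 2) := by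
  have hvc : Continuous v := continuous_iff_continuousAt.2 fun x => (hv x).continuousAt
  have hgc : Continuous fun x => v' x ^ 2 - v x ^ 2 := (hv'.pow 2).sub (hvc.pow 2)
  have hgi : ∀ p q : ℝ, IntervalIntegrable (fun x => v' x ^ 2 - v x ^ 2) volume p q :=
    fun p q => hgc.intervalIntegrable _ _
  have hG : Continuous fun y => ∫ x in (0 : ℝ)..y, (v' x ^ 2 - v x ^ 2) :=
    intervalIntegral.continuous_primitive hgi 0
  have hP : Real.cos (Real.pi / 2) = 0 := Real.cos_pi_div_two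
  have hP' : Real.cos (-(Real.pi / 2)) = 0 := by rw [Real.cos_neg, hP]
  -- the two end points
  have e1 : Tendsto (fun t : ℝ => Real.pi / 2 - t) (𝓝[>] 0) (𝓝[≠] (Real.pi / 2)) := by
    refine tendsto_nhdsWithin_iff.2 ⟨?_, ?_⟩
    · have : Tendsto (fun t : ℝ => Real.pi / 2 - t) (𝓝 0) (𝓝 (Real.pi / 2 - 0)) :=
        (continuous_const.sub continuous_id).tendsto 0
      rw [sub_zero] at this
      exact this.mono_left nhdsWithin_le_nhds
    · filter_upwards [self_mem_nhdsWithin] with t ht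
      have ht' : (0 : ℝ) < t := ht
      intro h
      have h' : Real.pi / 2 - t = Real.pi / 2 := h
      linarith
  have e2 : Tendsto (fun t : ℝ => -(Real.pi / 2 - t)) (𝓝[>] 0) (𝓝[≠] (-(Real.pi / 2))) := by
    refine tendsto_nhdsWithin_iff.2 ⟨?_, ?_⟩
    · have : Tendsto (fun t : ℝ => -(Real.pi / 2 - t)) (𝓝 0) (𝓝 (-(Real.pi / 2 - 0))) :=
        ((continuous_const.sub continuous_id).neg).tendsto 0
      rw [sub_zero] at this
      exact this.mono_left nhdsWithin_le_nhds
    · filter_upwards [self_mem_nhdsWithin] with t ht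
      have ht' : (0 : ℝ) < t := ht
      intro h
      have h' : -(Real.pi / 2 - t) = -(Real.pi / 2) := h
      linarith
  have f1 := (ca4_lim v (v' _) _ hP (hv _) h2).comp e1
  have f2 := (ca4_lim v (v' _) _ hP' (hv _) h1).comp e2
  have g1 : Tendsto (fun t : ℝ => ∫ x in (0 : ℝ)..(Real.pi / 2 - t), (v' x ^ 2 - v x ^ 2)) (𝓝[>] 0)
      (𝓝 (∫ x in (0 : ℝ)..(Real.pi / 2), (v' x ^ 2 - v x ^ 2))) :=
    ((hG.tendsto _).mono_left nhdsWithin_le_nhds).comp e1
  have g2 : Tendsto (fun t : ℝ => ∫ x in (0 : ℝ)..(-(Real.pi / 2 - t)), (v' x ^ 2 - v x ^ 2))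
      (𝓝[>] 0) (𝓝 (∫ x in (0 : ℝ)..(-(Real.pi / 2)), (v' x ^ 2 - v x ^ 2))) :=
    ((hG.tendsto _).mono_left nhdsWithin_le_nhds).comp e2
  have lim := (g1.sub g2).add (f1.sub f2)
  have hJ : (∫ x in (0 : ℝ)..(Real.pi / 2), (v' x ^ 2 - v x ^ 2)) -
      (∫ x in (0 : ℝ)..(-(Real.pi / 2)), (v' x ^ 2 - v x ^ 2)) + (0 - 0) =
      ∫ x in (-(Real.pi / 2))..(Real.pi / 2), (v' x ^ 2 - v x ^ 2) := by
    rw [intervalIntegral.integral_interval_sub_left (hgi _ _) (hgi _ _), sub_zero, add_zero]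
  rw [hJ] at lim
  refine ge_of_tendsto lim ?_
  have hpos : (0 : ℝ) < min (Real.pi / 2 - b) (a + Real.pi / 2) := by
    refine lt_min ?_ ?_ <;> linarith
  filter_upwards [Ioo_mem_nhdsGT hpos] with t ht
  have ht0 : 0 < t := ht.1
  have ht1 : t < Real.pi / 2 - b := lt_of_lt_of_le ht.2 (min_le_left _ _)
  have ht2 : t < a + Real.pi / 2 := lt_of_lt_of_le ht.2 (min_le_right _ _)
  have k1 : -(Real.pi / 2) < -(Real.pi / 2 - t) := by linarith
  have k2 : Real.pi / 2 - t < Real.pi / 2 := by linarith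
  have k3 : -(Real.pi / 2 - t) ≤ a := by linarith
  have k4 : b ≤ Real.pi / 2 - t := by linarith
  have k5 : -(Real.pi / 2 - t) ≤ Real.pi / 2 - t := by linarith
  have hi : IntervalIntegrable (fun x => (v' x + Real.tan x * v x) ^ 2) volume
      (-(Real.pi / 2 - t)) (Real.pi / 2 - t) := by
    refine ContinuousOn.intervalIntegrable ?_
    rw [uIcc_of_le k5]
    exact (hv'.continuousOn.add ((ca4_tan_cont k1 k2).mul hvc.continuousOn)).pow 2
  have hm := intervalIntegral.integral_mono_interval k3 hab k4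
    (Filter.Eventually.of_forall fun x => sq_nonneg (v' x + Real.tan x * v x)) hi
  refine hm.trans (le_of_eq ?_)
  rw [ca4_key v v' hv hv' k1 k2 k5]
  show _ = (∫ x in (0 : ℝ)..(Real.pi / 2 - t), (v' x ^ 2 - v x ^ 2)) -
      (∫ x in (0 : ℝ)..(-(Real.pi / 2 - t)), (v' x ^ 2 - v x ^ 2)) +
      (Real.tan (Real.pi / 2 - t) * v (Real.pi / 2 - t) ^ 2 -
        Real.tan (-(Real.pi / 2 - t)) * v (-(Real.pi / 2 - t)) ^ 2)
  rw [intervalIntegral.integral_interval_sub_left (hgi _ _) (hgi _ _)]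

private theorem ca4_J_eq (v v' : ℝ → ℝ) (hv : ∀ x, HasDerivAt v (v' x) x) (hv' : Continuous v') :
    ∫ x in (-(Real.pi / 2))..(Real.pi / 2), (v' x ^ 2 - v x ^ 2) =
      (∫ x in (-(Real.pi / 2))..(Real.pi / 2), v' x ^ 2) -
      ∫ x in (-(Real.pi / 2))..(Real.pi / 2), v x ^ 2 := by
  have hvc : Continuous v := continuous_iff_continuousAt.2 fun x => (hv x).continuousAt
  exact intervalIntegral.integral_sub ((hv'.pow 2).intervalIntegrable _ _)
    ((hvc.pow 2).intervalIntegrable _ _)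

private theorem ca4_J_nonneg (v v' : ℝ → ℝ) (hv : ∀ x, HasDerivAt v (v' x) x)
    (hv' : Continuous v') (h1 : v (-(Real.pi / 2)) = 0) (h2 : v (Real.pi / 2) = 0) :
    0 ≤ ∫ x in (-(Real.pi / 2))..(Real.pi / 2), (v' x ^ 2 - v x ^ 2) := by
  have hpi := Real.pi_pos
  have h := ca4_J v v' hv hv' h1 h2 (a := 0) (b := 0) (by linarith) (by linarith) le_rfl
  rwa [intervalIntegral.integral_same] at h

theorem wirtinger (v v' : ℝ → ℝ) (hv : ∀ x, HasDerivAt v (v' x) x) (hv' : Continuous v')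
    (h1 : v (-(Real.pi / 2)) = 0) (h2 : v (Real.pi / 2) = 0) :
    ∫ x in (-(Real.pi / 2))..(Real.pi / 2), v x ^ 2 ≤
      ∫ x in (-(Real.pi / 2))..(Real.pi / 2), v' x ^ 2 := by
  have h := ca4_J_nonneg v v' hv hv' h1 h2
  rw [ca4_J_eq v v' hv hv'] at h
  linarith

/-- Cauchy-Schwarz on an interval -/
private theorem ca4_cs (f g : ℝ → ℝ) {a b : ℝ} (hab : a ≤ b) (hf : ContinuousOn f (Icc a b))
    (hg : ContinuousOn g (Icc a b)) :
    (∫ x in a..b, f x * g x) ^ 2 ≤ (∫ x in a..b, f x ^ 2) * ∫ x in a..b, g x ^ 2 := by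
  have hu : uIcc a b = Icc a b := uIcc_of_le hab
  have i1 : IntervalIntegrable (fun x => f x ^ 2) volume a b := by
    refine ContinuousOn.intervalIntegrable ?_
    rw [hu]
    exact hf.pow 2
  have i2 : IntervalIntegrable (fun x => g x ^ 2) volume a b := by
    refine ContinuousOn.intervalIntegrable ?_
    rw [hu]
    exact hg.pow 2
  have i3 : IntervalIntegrable (fun x => f x * g x) volume a b := by
    refine ContinuousOn.intervalIntegrable ?_
    rw [hu]
    exact hf.mul hg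
  have h : ∀ l : ℝ, 0 ≤ (∫ x in a..b, g x ^ 2) * (l * l) + (2 * ∫ x in a..b, f x * g x) * l +
      ∫ x in a..b, f x ^ 2 := by
    intro l
    have h0 : 0 ≤ ∫ x in a..b, (f x + l * g x) ^ 2 :=
      intervalIntegral.integral_nonneg hab fun x _ => sq_nonneg _
    have h1 : ∫ x in a..b, (f x + l * g x) ^ 2 =
        ∫ x in a..b, (f x ^ 2 + ((2 * l) * (f x * g x) + (l * l) * g x ^ 2)) := by
      refine intervalIntegral.integral_congr fun x _ => ?_
      show (f x + l * g x) ^ 2 = f x ^ 2 + ((2 * l) * (f x * g x) + (l * l) * g x ^ 2)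
      ring
    rw [h1, intervalIntegral.integral_add i1 ((i3.const_mul _).add (i2.const_mul _)),
      intervalIntegral.integral_add (i3.const_mul _) (i2.const_mul _),
      intervalIntegral.integral_const_mul, intervalIntegral.integral_const_mul] at h0
    linarith
  have hd := discrim_le_zero h
  unfold discrim at hd
  nlinarith

private theorem ca4_w (v v' : ℝ → ℝ) (hv : ∀ x, HasDerivAt v (v' x) x) (hv' : Continuous v')
    (h1 : v (-(Real.pi / 2)) = 0) (h2 : v (Real.pi / 2) = 0)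
    {a b : ℝ} (ha : -(Real.pi / 2) < a) (hb : b < Real.pi / 2) (hab : a ≤ b) :
    (v b / Real.cos b - v a / Real.cos a) ^ 2 ≤
      (∫ x in (-(Real.pi / 2))..(Real.pi / 2), (v' x ^ 2 - v x ^ 2)) *
        (Real.tan b - Real.tan a) := by
  have hvc : Continuous v := continuous_iff_continuousAt.2 fun x => (hv x).continuousAt
  have hu : uIcc a b = Icc a b := uIcc_of_le hab
  have ht := ca4_tan_cont ha hb
  have hcc : ContinuousOn (fun x => (Real.cos x)⁻¹) (Icc a b) :=
    Real.continuous_cos.continuousOn.inv₀ fun x hx => (ca4_cos ha hb hx).ne'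
  have hfc : ContinuousOn (fun x => v' x + Real.tan x * v x) (Icc a b) :=
    hv'.continuousOn.add (ht.mul hvc.continuousOn)
  have e1 : ∫ x in a..b, (v' x + Real.tan x * v x) * (Real.cos x)⁻¹ =
      v b / Real.cos b - v a / Real.cos a := by
    refine intervalIntegral.integral_eq_sub_of_hasDerivAt (f := fun x => v x / Real.cos x) ?_ ?_
    · intro x hx
      rw [hu] at hx
      have hcx : Real.cos x ≠ 0 := (ca4_cos ha hb hx).ne'
      refine ((hv x).div (Real.hasDerivAt_cos x) hcx).congr_deriv ?_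
      rw [Real.tan_eq_sin_div_cos]
      field_simp
      ring
    · refine ContinuousOn.intervalIntegrable ?_
      rw [hu]
      exact hfc.mul hcc
  have e2 : ∫ x in a..b, ((Real.cos x)⁻¹) ^ 2 = Real.tan b - Real.tan a := by
    refine intervalIntegral.integral_eq_sub_of_hasDerivAt ?_ ?_
    · intro x hx
      rw [hu] at hx
      have hcx : Real.cos x ≠ 0 := (ca4_cos ha hb hx).ne'
      refine (Real.hasDerivAt_tan hcx).congr_deriv ?_
      rw [one_div, inv_pow]
    · refine ContinuousOn.intervalIntegrable ?_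
      rw [hu]
      exact hcc.pow 2
  have h := ca4_cs _ _ hab hfc hcc
  rw [e1, e2] at h
  refine h.trans (mul_le_mul_of_nonneg_right (ca4_J v v' hv hv' h1 h2 ha hb hab) ?_)
  rw [← e2]
  exact intervalIntegral.integral_nonneg hab fun x _ => sq_nonneg _

private theorem ca4_tan_le {x η : ℝ} (hη : 0 < η) (hx : |x| ≤ Real.pi / 2 - η) :
    |Real.tan x| ≤ 1 / η := by
  have hpi := Real.pi_pos
  have h0 : 0 ≤ |x| := abs_nonneg x
  have e : |Real.tan x| = Real.tan |x| := by
    rcases le_total 0 x with h | h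
    · rw [abs_of_nonneg h] at hx ⊢
      exact abs_of_nonneg (Real.tan_nonneg_of_nonneg_of_le_pi_div_two h (by linarith))
    · rw [abs_of_nonpos h] at hx ⊢
      rw [Real.tan_neg]
      exact abs_of_nonpos (Real.tan_nonpos_of_nonpos_of_neg_pi_div_two_le h (by linarith))
  rw [e]
  rcases eq_or_lt_of_le (show η ≤ Real.pi / 2 by linarith) with h | h
  · have h3 : |x| = 0 := le_antisymm (by linarith) h0
    rw [h3, Real.tan_zero]
    positivity
  · have h1 : Real.tan |x| ≤ Real.tan (Real.pi / 2 - η) := by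
      rcases eq_or_lt_of_le hx with h5 | h5
      · rw [h5]
      · exact (Real.tan_lt_tan_of_lt_of_lt_pi_div_two (by linarith) (by linarith) h5).le
    have h2 : η < Real.tan η := Real.lt_tan hη h
    rw [Real.tan_pi_div_two_sub] at h1
    refine h1.trans ?_
    rw [← one_div]
    exact one_div_le_one_div_of_le hη h2.le

theorem wirtinger_zero (v v' : ℝ → ℝ) (hv : ∀ x, HasDerivAt v (v' x) x) (hv' : Continuous v')
    (h1 : v (-(Real.pi / 2)) = 0) (h2 : v (Real.pi / 2) = 0) (η : ℝ) (hη : 0 < η)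
    (hη2 : η ≤ Real.pi / 2) (x : ℝ) (hx : |x| ≤ Real.pi / 2 - η) (hvx : v x = 0) :
    (1 + η / (2 * Real.pi)) * ∫ x in (-(Real.pi / 2))..(Real.pi / 2), v x ^ 2 ≤
      ∫ x in (-(Real.pi / 2))..(Real.pi / 2), v' x ^ 2 := by
  have hpi := Real.pi_pos
  have hvc : Continuous v := continuous_iff_continuousAt.2 fun x => (hv x).continuousAt
  have hJ := ca4_J_nonneg v v' hv hv' h1 h2
  have hJe := ca4_J_eq v v' hv hv'
  obtain ⟨J, hJdef⟩ : ∃ J : ℝ, J = ∫ x in (-(Real.pi / 2))..(Real.pi / 2), (v' x ^ 2 - v x ^ 2) :=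
    ⟨_, rfl⟩
  have hW : ∀ {a b : ℝ}, -(Real.pi / 2) < a → b < Real.pi / 2 → a ≤ b →
      (v b / Real.cos b - v a / Real.cos a) ^ 2 ≤ J * (Real.tan b - Real.tan a) := by
    intro a b ha hb hab
    rw [hJdef]
    exact ca4_w v v' hv hv' h1 h2 ha hb hab
  rw [← hJdef] at hJ hJe
  have hx2 := abs_le.1 hx
  have hxa : -(Real.pi / 2) < x := by linarith [hx2.1]
  have hxb : x < Real.pi / 2 := by linarith [hx2.2]
  have htx := ca4_tan_le hη hx
  have hη4 : η ≤ 2 := by linarith [Real.pi_le_four]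
  have h12 : 1 / 2 + 1 / η ≤ 2 / η := by
    have : (1 : ℝ) / 2 ≤ 1 / η := one_div_le_one_div_of_le hη hη4
    have e : 2 / η = 1 / η + 1 / η := by ring
    linarith
  have hpt : ∀ y ∈ Icc (-(Real.pi / 2)) (Real.pi / 2), v y ^ 2 ≤ J * (2 / η) := by
    intro y hy
    have hJ2 : 0 ≤ J * (2 / η) := by positivity
    rcases eq_or_lt_of_le hy.1 with h3 | h3
    · rw [← h3, h1]
      simpa using hJ2
    rcases eq_or_lt_of_le hy.2 with h4 | h4
    · rw [h4, h2]
      simpa using hJ2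
    have hcy : 0 < Real.cos y := Real.cos_pos_of_mem_Ioo ⟨h3, h4⟩
    have hw : (v y / Real.cos y) ^ 2 ≤ J * (|Real.tan y| + |Real.tan x|) := by
      rcases le_total x y with h5 | h5
      · have h6 := hW hxa h4 h5
        rw [hvx, zero_div, sub_zero] at h6
        refine h6.trans (mul_le_mul_of_nonneg_left ?_ hJ)
        linarith [le_abs_self (Real.tan y), neg_abs_le (Real.tan x)]
      · have h6 := hW h3 hxb h5
        rw [hvx, zero_div, zero_sub, neg_sq] at h6
        refine h6.trans (mul_le_mul_of_nonneg_left ?_ hJ)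
        linarith [le_abs_self (Real.tan x), neg_abs_le (Real.tan y)]
    have hcy2 : 0 ≤ Real.cos y ^ 2 := sq_nonneg _
    have e1 : v y ^ 2 = Real.cos y ^ 2 * (v y / Real.cos y) ^ 2 := by
      rw [div_pow]
      field_simp
    have e2 : Real.cos y ^ 2 * |Real.tan y| = |Real.sin y| * Real.cos y := by
      rw [Real.tan_eq_sin_div_cos, abs_div, abs_of_pos hcy]
      field_simp
    have e3 : |Real.sin y| * Real.cos y ≤ 1 / 2 := by
      have h7 := Real.sin_sq_add_cos_sq y
      have h8 := sq_nonneg (|Real.sin y| - Real.cos y)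
      have h9 : |Real.sin y| ^ 2 = Real.sin y ^ 2 := sq_abs _
      nlinarith
    have e4 : Real.cos y ^ 2 * |Real.tan x| ≤ 1 / η := by
      have h7 : Real.cos y ^ 2 ≤ 1 := Real.cos_sq_le_one y
      calc Real.cos y ^ 2 * |Real.tan x| ≤ 1 * |Real.tan x| :=
            mul_le_mul_of_nonneg_right h7 (abs_nonneg _)
        _ = |Real.tan x| := one_mul _
        _ ≤ 1 / η := htx
    calc v y ^ 2 = Real.cos y ^ 2 * (v y / Real.cos y) ^ 2 := e1
      _ ≤ Real.cos y ^ 2 * (J * (|Real.tan y| + |Real.tan x|)) :=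
          mul_le_mul_of_nonneg_left hw hcy2
      _ = J * (Real.cos y ^ 2 * |Real.tan y| + Real.cos y ^ 2 * |Real.tan x|) := by ring
      _ ≤ J * (1 / 2 + 1 / η) := by
          refine mul_le_mul_of_nonneg_left ?_ hJ
          rw [e2]
          exact add_le_add e3 e4
      _ ≤ J * (2 / η) := mul_le_mul_of_nonneg_left h12 hJ
  have hint : ∫ x in (-(Real.pi / 2))..(Real.pi / 2), v x ^ 2 ≤ Real.pi * (J * (2 / η)) := by
    have h3 := intervalIntegral.integral_mono_on (by linarith : -(Real.pi / 2) ≤ Real.pi / 2)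
      ((hvc.pow 2).intervalIntegrable (μ := volume) _ _)
      ((continuous_const (y := J * (2 / η))).intervalIntegrable _ _) hpt
    refine h3.trans (le_of_eq ?_)
    rw [intervalIntegral.integral_const, smul_eq_mul]
    ring
  have hfin : η / (2 * Real.pi) * (∫ x in (-(Real.pi / 2))..(Real.pi / 2), v x ^ 2) ≤ J := by
    have h3 : η / (2 * Real.pi) * (∫ x in (-(Real.pi / 2))..(Real.pi / 2), v x ^ 2) ≤
        η / (2 * Real.pi) * (Real.pi * (J * (2 / η))) :=
      mul_le_mul_of_nonneg_left hint (by positivity)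
    refine h3.trans (le_of_eq ?_)
    field_simp
  linarith

end PCM
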