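import Pool.Agent.PCM.CA2
import Pool.Agent.PCM.CA3
import Pool.Agent.PCM.CA4

/-!
# [PCM-CA5] Carleman's differential inequality

Let `Ut, Uh, Utt, Uhh` be from `exists_U`, `I = [-π/2, π/2]`.  `A1 t = ∫_I 2 U Ut`, `A2 t = ∫_I 2 (Ut^2 + U Utt)`
(`hasDerivAt_param` twice, `continuous_param`).
`U(t,±π/2) = 0`: there `Re exp = 0`, so `‖H‖ ≤ 1` and `kap = 0`.
`∫_I U Utt ≥ -∫_I U Uhh = ∫_I Uh^2` (integration by parts in `θ`, boundary terms vanish; `U ≥ 0`, `Utt ≥ -Uhh`).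
`∫_I Uh^2 ≥ (1 + ep/(8π)) ∫_I U^2`, where `ep = ep H t`: if `ep = 0` use `wirtinger`.  If `ep > 0`, there is a point `x` of
`{θ ∈ (-π/2,π/2), ‖H(e^{t+iθ})‖ ≤ 1}` with `|x| ≤ π/2 - ep/4` (otherwise this set is contained in
`{|θ| > π/2 - ep/4}`, of measure `ep/2 < ep`), `U(t,x) = 0`; `ep/4 ≤ π/4`; `wirtinger_zero` with `η = ep/4`.
Cauchy-Schwarz: `A1^2 = 4 (∫ U Ut)^2 ≤ 4 A ∫ Ut^2`.
`A2 ≥ 2 ∫ Ut^2 + 2 (1 + ep/(8π)) A ≥ 0`, so
`2 A A2 ≥ 4 A ∫ Ut^2 + 4 (1 + ep/(8π)) A^2 ≥ A1^2 + 4 (1 + ep/(8π)) A^2`.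
-/

open MeasureTheory Set Filter Topology

namespace PCM

/-- `A(t) = ∫ U(t,θ)^2 dθ` -/
noncomputable def AA (H : ℂ → ℂ) (t : ℝ) : ℝ :=
  ∫ θ in (-(Real.pi / 2))..(Real.pi / 2), UU H t θ ^ 2

/-- the measure of the set of directions where `|H| ≤ 1` -/
noncomputable def ep (H : ℂ → ℂ) (t : ℝ) : ℝ :=
  (volume {θ : ℝ | θ ∈ Ioo (-(Real.pi / 2)) (Real.pi / 2) ∧
    ‖H (Complex.exp ((t : ℂ) + (θ : ℂ) * Complex.I))‖ ≤ 1}).toReal

theorem ca5_kap {s : ℝ} (h : s ≤ 1) : kap s = 0 := by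
  unfold kap
  rw [if_pos h]

theorem ca5_zero {H : ℂ → ℂ} {t θ : ℝ} (h : ‖H (Complex.exp ((t : ℂ) + (θ : ℂ) * Complex.I))‖ ≤ 1) :
    UU H t θ = 0 := by
  unfold UU
  apply ca5_kap
  have h1 := norm_nonneg (H (Complex.exp ((t : ℂ) + (θ : ℂ) * Complex.I)))
  nlinarith

theorem ca5_bdry {H : ℂ → ℂ} (h0 : ∀ w : ℂ, w.re ≤ 0 → ‖H w‖ ≤ 1) {t θ : ℝ} (hθ : Real.cos θ = 0) :
    UU H t θ = 0 := by
  apply ca5_zero
  apply h0
  rw [Complex.exp_re]
  have h1 : ((t : ℂ) + (θ : ℂ) * Complex.I).im = θ := by simp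
  rw [h1, hθ, mul_zero]

/-- Cauchy-Schwarz -/
theorem ca5_cs (f g : ℝ → ℝ) (hf : Continuous f) (hg : Continuous g) {a b : ℝ} (hab : a ≤ b) :
    (∫ x in a..b, f x * g x) ^ 2 ≤ (∫ x in a..b, f x ^ 2) * ∫ x in a..b, g x ^ 2 := by
  have h1 : ∀ y : ℝ, 0 ≤ (∫ x in a..b, f x ^ 2) * (y * y) + (2 * ∫ x in a..b, f x * g x) * y +
      ∫ x in a..b, g x ^ 2 := by
    intro y
    have h2 : 0 ≤ ∫ x in a..b, (y * f x + g x) ^ 2 :=
      intervalIntegral.integral_nonneg hab fun x _ => sq_nonneg _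
    have h3 : ∫ x in a..b, (y * f x + g x) ^ 2 = ∫ x in a..b, (y * y * (f x ^ 2) +
        (2 * y * (f x * g x) + g x ^ 2)) := by
      congr 1
      funext x
      ring
    have i1 : IntervalIntegrable (fun x => y * y * (f x ^ 2)) volume a b :=
      (continuous_const.mul (hf.pow 2)).intervalIntegrable _ _
    have i2 : IntervalIntegrable (fun x => 2 * y * (f x * g x)) volume a b :=
      (continuous_const.mul (hf.mul hg)).intervalIntegrable _ _
    have i3 : IntervalIntegrable (fun x => g x ^ 2) volume a b := (hg.pow 2).intervalIntegrable _ _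
    rw [h3, intervalIntegral.integral_add i1 (i2.add i3), intervalIntegral.integral_add i2 i3,
      intervalIntegral.integral_const_mul, intervalIntegral.integral_const_mul] at h2
    linarith
  have h2 := discrim_le_zero h1
  unfold discrim at h2
  nlinarith

theorem ca5_ep_le (H : ℂ → ℂ) (t : ℝ) : ep H t ≤ Real.pi := by
  unfold ep
  refine ENNReal.toReal_le_of_le_ofReal Real.pi_pos.le ?_
  refine (measure_mono (fun θ hθ => hθ.1)).trans ?_
  rw [Real.volume_Ioo]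
  exact ENNReal.ofReal_le_ofReal (by linarith)

theorem ca5_point (H : ℂ → ℂ) (t : ℝ) (he : 0 < ep H t) : ∃ x : ℝ, |x| ≤ Real.pi / 2 - ep H t / 4 ∧
    ‖H (Complex.exp ((t : ℂ) + (x : ℂ) * Complex.I))‖ ≤ 1 := by
  by_contra hcon
  push Not at hcon
  have h1 : {θ : ℝ | θ ∈ Ioo (-(Real.pi / 2)) (Real.pi / 2) ∧
      ‖H (Complex.exp ((t : ℂ) + (θ : ℂ) * Complex.I))‖ ≤ 1} ⊆
      Ioo (-(Real.pi / 2)) (-(Real.pi / 2 - ep H t / 4)) ∪ Ioo (Real.pi / 2 - ep H t / 4) (Real.pi / 2) := by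
    intro θ hθ
    obtain ⟨h2, h3⟩ := hθ
    have h4 : Real.pi / 2 - ep H t / 4 < |θ| := by
      by_contra h5
      exact absurd h3 (not_le.2 (hcon θ (not_lt.1 h5)))
    rcases lt_abs.1 h4 with h5 | h5
    · exact Or.inr ⟨h5, h2.2⟩
    · exact Or.inl ⟨h2.1, by linarith⟩
  have h2 : ep H t ≤ ep H t / 2 := by
    conv_lhs => unfold ep
    refine ENNReal.toReal_le_of_le_ofReal (by linarith) ?_
    refine (measure_mono h1).trans ((measure_union_le _ _).trans ?_)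
    rw [Real.volume_Ioo, Real.volume_Ioo, ← ENNReal.ofReal_add (by linarith) (by linarith)]
    exact ENNReal.ofReal_le_ofReal (by linarith)
  linarith

theorem carleman_ineq (H : ℂ → ℂ) (hH : Differentiable ℂ H)
    (h0 : ∀ w : ℂ, w.re ≤ 0 → ‖H w‖ ≤ 1) :
    ∃ A1 A2 : ℝ → ℝ, (∀ t, HasDerivAt (AA H) (A1 t) t) ∧ (∀ t, HasDerivAt A1 (A2 t) t) ∧
      Continuous A2 ∧ (∀ t, 0 ≤ A2 t) ∧
      ∀ t, A1 t ^ 2 + 4 * (1 + ep H t / (8 * Real.pi)) * AA H t ^ 2 ≤ 2 * AA H t * A2 t := by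
  obtain ⟨Ut, Uh, Utt, Uhh, hUt, hUtt, hUh, hUhh, cU, cUt, cUh, cUtt, cUhh, hsub⟩ := exists_U H hH
  have hpi : -(Real.pi / 2) ≤ Real.pi / 2 := by linarith [Real.pi_pos]
  have sU : ∀ t, Continuous (UU H t) := fun t => cU.comp (Continuous.prodMk continuous_const continuous_id)
  have sUt : ∀ t, Continuous (Ut t) := fun t => cUt.comp (Continuous.prodMk continuous_const continuous_id)
  have sUh : ∀ t, Continuous (Uh t) := fun t => cUh.comp (Continuous.prodMk continuous_const continuous_id)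
  have sUtt : ∀ t, Continuous (Utt t) := fun t => cUtt.comp (Continuous.prodMk continuous_const continuous_id)
  have sUhh : ∀ t, Continuous (Uhh t) := fun t => cUhh.comp (Continuous.prodMk continuous_const continuous_id)
  have b1 : ∀ t, UU H t (-(Real.pi / 2)) = 0 := fun t => ca5_bdry h0 (by rw [Real.cos_neg, Real.cos_pi_div_two])
  have b2 : ∀ t, UU H t (Real.pi / 2) = 0 := fun t => ca5_bdry h0 Real.cos_pi_div_two
  have hnn : ∀ t θ, 0 ≤ UU H t θ := fun t θ => kap_nonneg _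
  -- integration by parts
  have hparts : ∀ t, ∫ θ in (-(Real.pi / 2))..(Real.pi / 2), Uh t θ ^ 2 ≤
      ∫ θ in (-(Real.pi / 2))..(Real.pi / 2), UU H t θ * Utt t θ := by
    intro t
    have h1 := intervalIntegral.integral_mul_deriv_eq_deriv_mul (a := -(Real.pi / 2)) (b := Real.pi / 2)
      (fun x _ => hUh t x) (fun x _ => hUhh t x) ((sUh t).intervalIntegrable _ _)
      ((sUhh t).intervalIntegrable _ _)
    rw [b1 t, b2 t, zero_mul, zero_mul, sub_zero, zero_sub] at h1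
    have h2 : 0 ≤ ∫ θ in (-(Real.pi / 2))..(Real.pi / 2), UU H t θ * (Utt t θ + Uhh t θ) :=
      intervalIntegral.integral_nonneg hpi fun x _ => mul_nonneg (hnn t x) (hsub t x)
    have h3 : ∫ θ in (-(Real.pi / 2))..(Real.pi / 2), UU H t θ * (Utt t θ + Uhh t θ) =
        (∫ θ in (-(Real.pi / 2))..(Real.pi / 2), UU H t θ * Utt t θ) +
          ∫ θ in (-(Real.pi / 2))..(Real.pi / 2), UU H t θ * Uhh t θ := by
      have i1 : IntervalIntegrable (fun θ => UU H t θ * Utt t θ) volume (-(Real.pi / 2)) (Real.pi / 2) :=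
        ((sU t).mul (sUtt t)).intervalIntegrable _ _
      have i2 : IntervalIntegrable (fun θ => UU H t θ * Uhh t θ) volume (-(Real.pi / 2)) (Real.pi / 2) :=
        ((sU t).mul (sUhh t)).intervalIntegrable _ _
      rw [← intervalIntegral.integral_add i1 i2]
      congr 1
      funext x
      ring
    have h4 : ∫ θ in (-(Real.pi / 2))..(Real.pi / 2), Uh t θ ^ 2 =
        ∫ θ in (-(Real.pi / 2))..(Real.pi / 2), Uh t θ * Uh t θ := by
      congr 1
      funext x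
      ring
    rw [h3, h1] at h2
    rw [h4]
    linarith
  -- the eigenvalue
  have heig : ∀ t, (1 + ep H t / (8 * Real.pi)) * AA H t ≤
      ∫ θ in (-(Real.pi / 2))..(Real.pi / 2), Uh t θ ^ 2 := by
    intro t
    have he0 : 0 ≤ ep H t := ENNReal.toReal_nonneg
    rcases he0.eq_or_lt with he | he
    · rw [← he, zero_div, add_zero, one_mul]
      exact wirtinger (UU H t) (Uh t) (hUh t) (sUh t) (b1 t) (b2 t)
    · obtain ⟨x, hx1, hx2⟩ := ca5_point H t he
      have hp := Real.pi_pos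
      have h1 := wirtinger_zero (UU H t) (Uh t) (hUh t) (sUh t) (b1 t) (b2 t) (ep H t / 4) (by linarith)
        (by linarith [ca5_ep_le H t]) x hx1 (ca5_zero hx2)
      have h2 : ep H t / 4 / (2 * Real.pi) = ep H t / (8 * Real.pi) := by
        rw [div_div]
        congr 1
        ring
      rw [h2] at h1
      exact h1
  have hAA : ∀ t, 0 ≤ AA H t := fun t => intervalIntegral.integral_nonneg hpi fun x _ => sq_nonneg _
  have hC : ∀ t, 0 ≤ ∫ θ in (-(Real.pi / 2))..(Real.pi / 2), Ut t θ ^ 2 := fun t =>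
    intervalIntegral.integral_nonneg hpi fun x _ => sq_nonneg _
  have hD : ∀ t, 0 ≤ ∫ θ in (-(Real.pi / 2))..(Real.pi / 2), Uh t θ ^ 2 := fun t =>
    intervalIntegral.integral_nonneg hpi fun x _ => sq_nonneg _
  have eA1 : ∀ t, ∫ θ in (-(Real.pi / 2))..(Real.pi / 2), 2 * (UU H t θ * Ut t θ) =
      2 * ∫ θ in (-(Real.pi / 2))..(Real.pi / 2), UU H t θ * Ut t θ := fun t =>
    intervalIntegral.integral_const_mul _ _
  have eA2 : ∀ t, ∫ θ in (-(Real.pi / 2))..(Real.pi / 2), 2 * (Ut t θ ^ 2 + UU H t θ * Utt t θ) =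
      2 * ((∫ θ in (-(Real.pi / 2))..(Real.pi / 2), Ut t θ ^ 2) +
        ∫ θ in (-(Real.pi / 2))..(Real.pi / 2), UU H t θ * Utt t θ) := by
    intro t
    have i1 : IntervalIntegrable (fun θ => Ut t θ ^ 2) volume (-(Real.pi / 2)) (Real.pi / 2) :=
      ((sUt t).pow 2).intervalIntegrable _ _
    have i2 : IntervalIntegrable (fun θ => UU H t θ * Utt t θ) volume (-(Real.pi / 2)) (Real.pi / 2) :=
      ((sU t).mul (sUtt t)).intervalIntegrable _ _
    rw [intervalIntegral.integral_const_mul, intervalIntegral.integral_add i1 i2]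
  refine ⟨fun t => ∫ θ in (-(Real.pi / 2))..(Real.pi / 2), 2 * (UU H t θ * Ut t θ),
    fun t => ∫ θ in (-(Real.pi / 2))..(Real.pi / 2), 2 * (Ut t θ ^ 2 + UU H t θ * Utt t θ),
    fun t => ?_, fun t => ?_, ?_, fun t => ?_, fun t => ?_⟩
  · refine hasDerivAt_param (fun t θ => UU H t θ ^ 2) (fun t θ => 2 * (UU H t θ * Ut t θ)) _ _
      (fun t θ => ?_) (cU.pow 2) (continuous_const.mul (cU.mul cUt)) t
    exact ((hUt t θ).pow 2).congr_deriv (by ring)
  · refine hasDerivAt_param (fun t θ => 2 * (UU H t θ * Ut t θ))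
      (fun t θ => 2 * (Ut t θ ^ 2 + UU H t θ * Utt t θ)) _ _
      (fun t θ => ?_) (continuous_const.mul (cU.mul cUt))
      (continuous_const.mul ((cUt.pow 2).add (cU.mul cUtt))) t
    exact (((hUt t θ).mul (hUtt t θ)).const_mul 2).congr_deriv (by ring)
  · exact continuous_param (fun t θ => 2 * (Ut t θ ^ 2 + UU H t θ * Utt t θ)) _ _
      (continuous_const.mul ((cUt.pow 2).add (cU.mul cUtt)))
  · beta_reduce
    rw [eA2 t]
    linarith [hC t, hD t, hparts t]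
  · beta_reduce
    rw [eA1 t, eA2 t]
    have h1 := ca5_cs (UU H t) (Ut t) (sU t) (sUt t) hpi
    have h2 := (heig t).trans (hparts t)
    have h3 := mul_le_mul_of_nonneg_left h2 (hAA t)
    have h4 : (∫ θ in (-(Real.pi / 2))..(Real.pi / 2), UU H t θ ^ 2) = AA H t := rfl
    rw [h4] at h1
    nlinarith [h1, h3]

end PCM
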