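import Mathlib

/-!
# [PCM-CA6] the ordinary differential inequality

`A1` is nondecreasing (`h2`).  If `A1 t1 < 0` then `A t ≥ A t1 + A1 t1 (t - t1)` for `t < t1` (mean value), which tends
to `+∞` as `t → -∞`, contradicting `A t ≤ C exp (2t)`.  So `A1 ≥ 0`, `A` is nondecreasing.
Suppose `A t0 > 0`.  For `t ≥ t0`, `A t ≥ A t0 > 0`.  Let `φ = √A`, `φ' = A1/(2φ)`, `φ'' = (2 A A2 - A1^2)/(4 φ^3)`, so
`φ'' ≥ (1+e) φ` by `hi`, and `φ' ≥ 0`.
`(φ' + φ) exp (-t)` is nondecreasing (derivative `(φ'' - φ) exp (-t) ≥ 0`), so `φ' + φ ≥ φ(t0) exp (t - t0)`; hence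
`(φ exp t)' ≥ φ(t0) exp (2t - t0)` and `φ t exp t ≥ φ(t0) exp t0 + φ(t0) (exp (2t - t0) - exp t0)/2`, so
`g := φ exp (-t) ≥ g0 := φ(t0) exp (-t0)/2 > 0` for `t ≥ t0`.
`y := (φ' - φ) exp t = exp (2t) g'`, `y' = (φ'' - φ) exp t ≥ e φ exp t = e exp (2t) g ≥ g0 e exp (2t)`, so
`y t ≥ y t0 + g0 ∫_{t0}^t e(s) exp (2s) ds`, `g' = exp (-2t) y`, and for `T ≥ t0 + 1`
`g T - g t0 ≥ -|y t0| exp (-2 t0)/2 + g0 ∫_{t0}^T ∫_{t0}^t e(s) exp (2(s-t)) ds dt
 = const + g0 ∫_{t0}^T e(s) (1 - exp (-2(T-s)))/2 ds ≥ const + (g0/4) ∫_{t0}^{T-1} e(s) ds` (`1 - e^{-2} ≥ 1/2`).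
The right side tends to `∞` (`hinf`, `e ≤ 1`), but `g ≤ √C`.  Contradiction.
(To avoid the double integral: let `E t = ∫_{t0}^t e(s) exp (2s) ds`, then `(exp (-2t) E t)' = e t - 2 exp (-2t) E t`, so
`2 ∫_{t0}^T exp (-2t) E t dt = ∫_{t0}^T e - exp (-2T) E T` and `exp (-2T) E T ≤ 1/2`.)
-/

open MeasureTheory Set Filter Topology

namespace PCM

/-- a function with nonnegative derivative on a half line -/
theorem ca6_mono {f f' : ℝ → ℝ} {a : ℝ} (hf : ∀ t, a ≤ t → HasDerivAt f (f' t) t)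
    (h0 : ∀ t, a ≤ t → 0 ≤ f' t) {t t' : ℝ} (ht : a ≤ t) (htt : t ≤ t') : f t ≤ f t' := by
  have h1 : MonotoneOn f (Ici a) := by
    apply monotoneOn_of_deriv_nonneg (convex_Ici a)
    · exact fun t ht => (hf t ht).continuousAt.continuousWithinAt
    · intro t ht
      rw [interior_Ici] at ht
      exact (hf t (le_of_lt ht)).differentiableAt.differentiableWithinAt
    · intro t ht
      rw [interior_Ici] at ht
      rw [(hf t (le_of_lt ht)).deriv]
      exact h0 t (le_of_lt ht)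
  exact h1 ht (ht.trans htt) htt

/-- the first derivative is nonnegative -/
theorem ca6_A1 (A A1 A2 : ℝ → ℝ) (C : ℝ) (hA : ∀ t, HasDerivAt A (A1 t) t)
    (hA1 : ∀ t, HasDerivAt A1 (A2 t) t) (h0 : ∀ t, 0 ≤ A t)
    (h2 : ∀ t, 0 ≤ A2 t) (hg : ∀ t, A t ≤ C * Real.exp (2 * t)) (t : ℝ) : 0 ≤ A1 t := by
  by_contra hneg
  push Not at hneg
  have hC : 0 ≤ C := by
    have h3 := (h0 0).trans (hg 0)
    simpa using h3
  obtain ⟨s, hs⟩ : ∃ s : ℝ, s = (C * Real.exp (2 * t) + 1) / (-A1 t) := ⟨_, rfl⟩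
  have hA1n : 0 < -A1 t := by linarith
  have hs0 : 0 < s := by rw [hs]; positivity
  have hs1 : (-A1 t) * s = C * Real.exp (2 * t) + 1 := by
    rw [hs, mul_comm, div_mul_cancel₀ _ hA1n.ne']
  obtain ⟨c, hc, hc'⟩ := exists_hasDerivAt_eq_slope A A1 (show t - s < t by linarith)
    (fun x _ => (hA x).continuousAt.continuousWithinAt) (fun x _ => hA x)
  have h3 : A1 c ≤ A1 t := ca6_mono (a := c) (fun x _ => hA1 x) (fun x _ => h2 x) le_rfl hc.2.le
  have h4 : A1 c * s = A t - A (t - s) := by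
    rw [hc']
    have : t - (t - s) = s := by ring
    rw [this]
    field_simp
  have h5 : A1 c * s ≤ A1 t * s := mul_le_mul_of_nonneg_right h3 hs0.le
  have h6 := h0 t
  have h7 := hg (t - s)
  have h8 : C * Real.exp (2 * (t - s)) ≤ C * Real.exp (2 * t) :=
    mul_le_mul_of_nonneg_left (Real.exp_le_exp.2 (by linarith)) hC
  linarith

theorem ode_zero (A A1 A2 e : ℝ → ℝ) (C : ℝ) (hA : ∀ t, HasDerivAt A (A1 t) t)
    (hA1 : ∀ t, HasDerivAt A1 (A2 t) t) (hc : Continuous A2) (h0 : ∀ t, 0 ≤ A t)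
    (h2 : ∀ t, 0 ≤ A2 t) (hg : ∀ t, A t ≤ C * Real.exp (2 * t)) (he0 : ∀ t, 0 ≤ e t)
    (he1 : ∀ t, e t ≤ 1) (hem : Measurable e)
    (hi : ∀ t, A1 t ^ 2 + 4 * (1 + e t) * A t ^ 2 ≤ 2 * A t * A2 t)
    (hinf : ∫⁻ t in Ioi (0 : ℝ), ENNReal.ofReal (e t) = ⊤) : ∀ t, A t = 0 := by
  intro tt
  by_contra hne
  have hApos : 0 < A tt := lt_of_le_of_ne (h0 tt) (Ne.symm hne)
  have hA1n := ca6_A1 A A1 A2 C hA hA1 h0 h2 hg
  have hAmono : ∀ {s t : ℝ}, s ≤ t → A s ≤ A t := fun {s t} hst =>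
    ca6_mono (a := s) (fun x _ => hA x) (fun x _ => hA1n x) le_rfl hst
  obtain ⟨t0, ht0, hAt0⟩ : ∃ t0 : ℝ, 0 ≤ t0 ∧ 0 < A t0 :=
    ⟨max tt 0, le_max_right _ _, hApos.trans_le (hAmono (le_max_left _ _))⟩
  have hAp : ∀ t, t0 ≤ t → 0 < A t := fun t ht => hAt0.trans_le (hAmono ht)
  have hC : 0 ≤ C := by
    have h3 := (h0 0).trans (hg 0)
    simpa using h3
  -- the square root
  obtain ⟨φ, hφ⟩ : ∃ φ : ℝ → ℝ, φ = fun t => √(A t) := ⟨_, rfl⟩
  have hφ0 : ∀ t, t0 ≤ t → 0 < φ t := by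
    intro t ht
    rw [hφ]
    exact Real.sqrt_pos.2 (hAp t ht)
  have hφn : ∀ t, 0 ≤ φ t := by
    intro t
    rw [hφ]
    exact Real.sqrt_nonneg _
  have hφ2 : ∀ t, φ t ^ 2 = A t := by
    intro t
    rw [hφ]
    exact Real.sq_sqrt (h0 t)
  have hdφ : ∀ t, t0 ≤ t → HasDerivAt φ (A1 t / (2 * φ t)) t := by
    intro t ht
    rw [hφ]
    exact (hA t).sqrt (hAp t ht).ne'
  have hdexp : ∀ t, HasDerivAt (fun t : ℝ => Real.exp (-t)) (-Real.exp (-t)) t := by
    intro t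
    exact ((hasDerivAt_neg t).exp).congr_deriv (by ring)
  -- `g` and `h`
  obtain ⟨g, hgd⟩ : ∃ g : ℝ → ℝ, g = fun t => φ t * Real.exp (-t) := ⟨_, rfl⟩
  obtain ⟨h, hhd⟩ : ∃ h : ℝ → ℝ, h = fun t => (A1 t / (2 * φ t) + φ t) * Real.exp (-t) := ⟨_, rfl⟩
  obtain ⟨h1, hh1⟩ : ∃ h1 : ℝ → ℝ, h1 = fun t =>
    ((2 * A t * A2 t - A1 t ^ 2) / (4 * φ t ^ 3) - φ t) * Real.exp (-t) := ⟨_, rfl⟩
  have hdg : ∀ t, t0 ≤ t → HasDerivAt g (h t - 2 * g t) t := by
    intro t ht
    rw [hgd, hhd]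
    refine ((hdφ t ht).mul (hdexp t)).congr_deriv ?_
    ring
  have hdh : ∀ t, t0 ≤ t → HasDerivAt h (h1 t) t := by
    intro t ht
    have hp := hφ0 t ht
    rw [hhd, hh1]
    refine (((hA1 t).fun_div ((hdφ t ht).const_mul 2) (by positivity)).fun_add (hdφ t ht)).fun_mul
      (hdexp t) |>.congr_deriv ?_
    show _ = ((2 * A t * A2 t - A1 t ^ 2) / (4 * φ t ^ 3) - φ t) * Real.exp (-t)
    rw [← hφ2 t]
    field_simp
    ring
  have hh1e : ∀ t, t0 ≤ t → e t * g t ≤ h1 t := by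
    intro t ht
    have hp := hφ0 t ht
    rw [hgd, hh1]
    have h3 : (1 + e t) * φ t ≤ (2 * A t * A2 t - A1 t ^ 2) / (4 * φ t ^ 3) := by
      rw [le_div_iff₀ (by positivity)]
      have h4 := hi t
      have h5 : (1 + e t) * φ t * (4 * φ t ^ 3) = 4 * (1 + e t) * A t ^ 2 := by
        rw [← hφ2 t]
        ring
      rw [h5]
      linarith
    have h6 := Real.exp_pos (-t)
    show e t * (φ t * Real.exp (-t)) ≤ _ * Real.exp (-t)
    rw [← mul_assoc]
    refine mul_le_mul_of_nonneg_right ?_ h6.le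
    linarith
  have hgn : ∀ t, 0 ≤ g t := by
    intro t
    rw [hgd]
    exact mul_nonneg (hφn t) (Real.exp_pos _).le
  have hh1n : ∀ t, t0 ≤ t → 0 ≤ h1 t := fun t ht =>
    (mul_nonneg (he0 t) (hgn t)).trans (hh1e t ht)
  have hhmono : ∀ {s t : ℝ}, t0 ≤ s → s ≤ t → h s ≤ h t := fun {s t} hs hst =>
    ca6_mono hdh hh1n hs hst
  -- lower bound for `g`
  obtain ⟨g0, hg0⟩ : ∃ g0 : ℝ, g0 = g t0 / 2 := ⟨_, rfl⟩
  have hgt0 : 0 < g t0 := by
    rw [hgd]
    exact mul_pos (hφ0 t0 le_rfl) (Real.exp_pos _)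
  have hg00 : 0 < g0 := by rw [hg0]; linarith
  have hht0 : 2 * g0 ≤ h t0 := by
    rw [hg0, hgd, hhd]
    have h3 : 0 ≤ A1 t0 / (2 * φ t0) := div_nonneg (hA1n t0) (by have := hφn t0; linarith)
    have h6 := Real.exp_pos (-t0)
    show 2 * (φ t0 * Real.exp (-t0) / 2) ≤ (A1 t0 / (2 * φ t0) + φ t0) * Real.exp (-t0)
    nlinarith
  have hglow : ∀ t, t0 ≤ t → g0 ≤ g t := by
    intro t ht
    have hdexp2 : ∀ t, HasDerivAt (fun t : ℝ => Real.exp (2 * t)) (2 * Real.exp (2 * t)) t := by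
      intro t
      exact (((hasDerivAt_id t).const_mul 2).exp).congr_deriv (by simp only [id]; ring)
    have h3 := ca6_mono (f := fun t => (g t - g0) * Real.exp (2 * t))
      (f' := fun t => (h t - 2 * g0) * Real.exp (2 * t)) (a := t0) (by
        intro t ht
        refine (((hdg t ht).sub_const g0).fun_mul (hdexp2 t)).congr_deriv ?_
        ring) (by
        intro t ht
        have h4 := hhmono le_rfl ht
        exact mul_nonneg (by linarith) (Real.exp_pos _).le) le_rfl ht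
    have h4 : 0 ≤ (g t0 - g0) * Real.exp (2 * t0) :=
      mul_nonneg (by rw [hg0]; linarith) (Real.exp_pos _).le
    have h5 : 0 ≤ (g t - g0) * Real.exp (2 * t) := h4.trans h3
    have h6 := nonneg_of_mul_nonneg_left h5 (Real.exp_pos (2 * t))
    linarith
  -- upper bounds
  have hgup : ∀ t, g t ≤ C + 1 := by
    intro t
    by_contra hlt
    push Not at hlt
    have h3 : g t ^ 2 ≤ C := by
      rw [hgd]
      show (φ t * Real.exp (-t)) ^ 2 ≤ C
      rw [mul_pow, hφ2, ← Real.exp_nat_mul]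
      have h4 := mul_le_mul_of_nonneg_right (hg t) (Real.exp_pos (((2 : ℕ) : ℝ) * -t)).le
      refine h4.trans (le_of_eq ?_)
      rw [mul_assoc, ← Real.exp_add]
      have h5 : 2 * t + ((2 : ℕ) : ℝ) * -t = 0 := by push_cast; ring
      rw [h5, Real.exp_zero, mul_one]
    nlinarith
  have hhup : ∀ t, t0 ≤ t → h t ≤ 2 * (C + 1) + 1 := by
    intro T hT
    by_contra hlt
    push Not at hlt
    have h3 := ca6_mono (f := fun t => g t - t) (f' := fun t => h t - 2 * g t - 1) (a := T) (by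
        intro t ht
        exact (hdg t (hT.trans ht)).fun_sub (hasDerivAt_id t)) (by
        intro t ht
        have h4 := hhmono hT ht
        have h5 := hgup t
        linarith) le_rfl (show T ≤ T + (C + 2) by linarith)
    have h4 := hgup (T + (C + 2))
    have h5 := hgn T
    linarith
  -- the integral
  have hei : ∀ a b : ℝ, IntervalIntegrable e volume a b := by
    intro a b
    refine (intervalIntegrable_const (c := (1 : ℝ))).mono_fun' hem.aestronglyMeasurable ?_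
    refine Filter.Eventually.of_forall fun t => ?_
    show ‖e t‖ ≤ 1
    rw [Real.norm_of_nonneg (he0 t)]
    exact he1 t
  have hA1c : Continuous A1 := continuous_iff_continuousAt.2 fun t => (hA1 t).continuousAt
  have hAc : Continuous A := continuous_iff_continuousAt.2 fun t => (hA t).continuousAt
  have hφc : Continuous φ := by
    rw [hφ]
    exact hAc.sqrt
  have hint : ∀ T, t0 ≤ T → ∫ t in t0..T, e t ≤ (2 * (C + 1) + 1) / g0 := by
    intro T hT
    rw [le_div_iff₀ hg00]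
    have hh1c : ContinuousOn h1 (Icc t0 T) := by
      rw [hh1]
      refine ContinuousOn.mul (ContinuousOn.sub (ContinuousOn.div ?_ ?_ ?_) hφc.continuousOn) ?_
      · exact (((continuous_const.mul hAc).mul hc).sub (hA1c.pow 2)).continuousOn
      · exact (continuous_const.mul (hφc.pow 3)).continuousOn
      · intro t ht
        have := hφ0 t ht.1
        positivity
      · exact (Real.continuous_exp.comp continuous_neg).continuousOn
    have hh1i : IntervalIntegrable h1 volume t0 T := hh1c.intervalIntegrable_of_Icc hT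
    have h3 : ∫ t in t0..T, h1 t = h T - h t0 := by
      apply intervalIntegral.integral_eq_sub_of_hasDerivAt
      · intro t ht
        rw [uIcc_of_le hT] at ht
        exact hdh t ht.1
      · exact hh1i
    have h4 : ∫ t in t0..T, e t * g0 ≤ ∫ t in t0..T, h1 t := by
      apply intervalIntegral.integral_mono_on hT ((hei t0 T).mul_const g0) hh1i
      intro t ht
      exact (mul_le_mul_of_nonneg_left (hglow t ht.1) (he0 t)).trans (hh1e t ht.1)
    rw [intervalIntegral.integral_mul_const] at h4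
    have h5 := hhup T hT
    linarith
  have hIoi : IntegrableOn e (Ioi t0) := by
    refine integrableOn_Ioi_of_intervalIntegral_norm_bounded ((2 * (C + 1) + 1) / g0) t0
      (b := fun n : ℕ => t0 + n) (l := atTop) (fun n => ?_) ?_ ?_
    · exact (intervalIntegrable_iff_integrableOn_Ioc_of_le
        (by have : (0 : ℝ) ≤ n := Nat.cast_nonneg n; linarith)).1 (hei t0 (t0 + n))
    · exact tendsto_atTop_add_const_left _ _ tendsto_natCast_atTop_atTop
    · refine Filter.Eventually.of_forall fun n => ?_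
      have h3 : ∫ t in t0..(t0 + (n : ℝ)), ‖e t‖ = ∫ t in t0..(t0 + (n : ℝ)), e t := by
        congr 1
        funext t
        exact Real.norm_of_nonneg (he0 t)
      show ∫ t in t0..(t0 + (n : ℝ)), ‖e t‖ ≤ _
      rw [h3]
      exact hint _ (by have : (0 : ℝ) ≤ n := Nat.cast_nonneg n; linarith)
  have hIoi0 : IntegrableOn e (Ioi 0) := by
    rw [← Ioc_union_Ioi_eq_Ioi ht0]
    exact ((intervalIntegrable_iff_integrableOn_Ioc_of_le ht0).1 (hei 0 t0)).union hIoi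
  exact absurd hinf hIoi0.lintegral_lt_top.ne

end PCM
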