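import Mathlib

/-!
# [PCM-CA7] infinite logarithmic area in logarithmic polar coordinates

`m r = volume {θ ∈ (-π/2,π/2) | r e^{iθ} ∈ E} ≤ π`.  Polar coordinates (`Complex.lintegral_comp_polarCoord_symm`; points of `E`
have positive real part, so only `θ ∈ (-π/2,π/2)` counts): `⊤ = ∫⁻_{r>0} ofReal (r/(1+r^2)) * m r`.  The part
`0 < r ≤ 1` is `≤ π`.  So `∫⁻_{r>1} ofReal (1/r) * m r = ⊤` (`r/(1+r^2) ≤ 1/r`).  Substitute `r = exp t`
(`lintegral_image_eq_lintegral_abs_deriv_mul`, `exp '' Ioi 0 = Ioi 1`): `∫⁻_{t>0} m (exp t) = ⊤`, and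
`exp t * e^{iθ} = exp (t + θ i)`.  Measurability of `m`: sections of a measurable set
(`measurable_measure_prodMk_left`).
-/

open MeasureTheory Set Filter Topology

namespace PCM

/-- the sections -/
private noncomputable def ca7S (E : Set ℂ) (r : ℝ) : Set ℝ :=
  {θ : ℝ | θ ∈ Ioo (-(Real.pi / 2)) (Real.pi / 2) ∧
    (r : ℂ) * (Real.cos θ + Real.sin θ * Complex.I) ∈ E}

private theorem ca7_exp (t θ : ℝ) : ((Real.exp t : ℝ) : ℂ) * (Real.cos θ + Real.sin θ * Complex.I) =
    Complex.exp ((t : ℂ) + (θ : ℂ) * Complex.I) := by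
  rw [Complex.exp_add, Complex.exp_mul_I, Complex.ofReal_exp, Complex.ofReal_cos,
    Complex.ofReal_sin]

private theorem ca7_norm {r : ℝ} (hr : 0 < r) (θ : ℝ) :
    ‖(r : ℂ) * (Real.cos θ + Real.sin θ * Complex.I)‖ = r := by
  have h : ((Real.cos θ : ℝ) : ℂ) + (Real.sin θ : ℝ) * Complex.I = Complex.exp ((θ : ℂ) * Complex.I) := by
    rw [Complex.exp_mul_I, Complex.ofReal_cos, Complex.ofReal_sin]
  rw [h, norm_mul, Complex.norm_exp_ofReal_mul_I, mul_one, Complex.norm_real, Real.norm_eq_abs,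
    abs_of_pos hr]

private theorem ca7_re (r θ : ℝ) :
    ((r : ℂ) * (Real.cos θ + Real.sin θ * Complex.I)).re = r * Real.cos θ := by
  rw [Complex.re_ofReal_mul, Complex.add_re, Complex.ofReal_re, Complex.re_ofReal_mul,
    Complex.I_re, mul_zero, add_zero]

private theorem ca7_cont : Continuous fun p : ℝ × ℝ =>
    (p.1 : ℂ) * (Real.cos p.2 + Real.sin p.2 * Complex.I) := by
  fun_prop

private theorem ca7_measS (E : Set ℂ) (hE : MeasurableSet E) (r : ℝ) : MeasurableSet (ca7S E r) := by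
  have h : Continuous fun θ : ℝ => (r : ℂ) * (Real.cos θ + Real.sin θ * Complex.I) := by fun_prop
  exact measurableSet_Ioo.inter (h.measurable hE)

private theorem ca7_le (E : Set ℂ) (r : ℝ) : volume (ca7S E r) ≤ ENNReal.ofReal Real.pi := by
  calc volume (ca7S E r) ≤ volume (Ioo (-(Real.pi / 2)) (Real.pi / 2)) :=
        measure_mono fun θ h => h.1
    _ = ENNReal.ofReal Real.pi := by
        rw [Real.volume_Ioo]
        congr 1
        ring

private theorem ca7_inner (E : Set ℂ) (hE : MeasurableSet E) (hEr : ∀ w ∈ E, 0 < w.re) {r : ℝ}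
    (hr : 0 < r) :
    ∫⁻ θ in Ioo (-Real.pi) Real.pi, ENNReal.ofReal r *
      E.indicator (fun w => ENNReal.ofReal (1 / (1 + ‖w‖ ^ 2)))
        ((r : ℂ) * (Real.cos θ + Real.sin θ * Complex.I)) ≤
      ENNReal.ofReal (r / (1 + r ^ 2)) * volume (ca7S E r) := by
  have hpt : ∀ θ ∈ Ioo (-Real.pi) Real.pi, ENNReal.ofReal r *
      E.indicator (fun w => ENNReal.ofReal (1 / (1 + ‖w‖ ^ 2)))
        ((r : ℂ) * (Real.cos θ + Real.sin θ * Complex.I)) ≤
      (ca7S E r).indicator (fun _ => ENNReal.ofReal (r / (1 + r ^ 2))) θ := by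
    intro θ hθ
    by_cases h : (r : ℂ) * (Real.cos θ + Real.sin θ * Complex.I) ∈ E
    · have h1 := hEr _ h
      rw [ca7_re] at h1
      have h2 : 0 < Real.cos θ := (mul_pos_iff_of_pos_left hr).1 h1
      have h3 : θ ∈ Ioo (-(Real.pi / 2)) (Real.pi / 2) := by
        by_contra hn
        rw [mem_Ioo, not_and_or, not_lt, not_lt] at hn
        have h4 : Real.cos θ ≤ 0 := by
          rcases hn with hn | hn
          · rw [← Real.cos_neg]
            exact Real.cos_nonpos_of_pi_div_two_le_of_le (by linarith)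
              (by have := hθ.1; have := Real.pi_pos; linarith)
          · exact Real.cos_nonpos_of_pi_div_two_le_of_le hn
              (by have := hθ.2; have := Real.pi_pos; linarith)
        linarith
      have hmem : θ ∈ ca7S E r := ⟨h3, h⟩
      rw [indicator_of_mem h, indicator_of_mem hmem, ca7_norm hr, ← ENNReal.ofReal_mul hr.le]
      refine ENNReal.ofReal_le_ofReal (le_of_eq ?_)
      ring
    · rw [indicator_of_notMem h, mul_zero]
      exact zero_le
  calc _ ≤ ∫⁻ θ in Ioo (-Real.pi) Real.pi,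
        (ca7S E r).indicator (fun _ => ENNReal.ofReal (r / (1 + r ^ 2))) θ :=
        setLIntegral_mono' measurableSet_Ioo hpt
    _ ≤ ∫⁻ θ, (ca7S E r).indicator (fun _ => ENNReal.ofReal (r / (1 + r ^ 2))) θ :=
        setLIntegral_le_lintegral _ _
    _ = _ := lintegral_indicator_const (ca7_measS E hE r) _

private theorem ca7_polar (E : Set ℂ) (hE : MeasurableSet E) (hEr : ∀ w ∈ E, 0 < w.re) :
    ∫⁻ w in E, ENNReal.ofReal (1 / (1 + ‖w‖ ^ 2)) ≤
      ∫⁻ r in Ioi (0 : ℝ), ENNReal.ofReal (r / (1 + r ^ 2)) * volume (ca7S E r) := by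
  have hf : Measurable (E.indicator fun w : ℂ => ENNReal.ofReal (1 / (1 + ‖w‖ ^ 2))) := by
    refine Measurable.indicator ?_ hE
    fun_prop
  have hF : Measurable fun p : ℝ × ℝ => ENNReal.ofReal p.1 *
      E.indicator (fun w => ENNReal.ofReal (1 / (1 + ‖w‖ ^ 2)))
        ((p.1 : ℂ) * (Real.cos p.2 + Real.sin p.2 * Complex.I)) :=
    (ENNReal.measurable_ofReal.comp measurable_fst).mul (hf.comp ca7_cont.measurable)
  calc ∫⁻ w in E, ENNReal.ofReal (1 / (1 + ‖w‖ ^ 2))
      = ∫⁻ w, E.indicator (fun w : ℂ => ENNReal.ofReal (1 / (1 + ‖w‖ ^ 2))) w :=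
        (lintegral_indicator hE _).symm
    _ = ∫⁻ p in polarCoord.target, ENNReal.ofReal p.1 •
          E.indicator (fun w : ℂ => ENNReal.ofReal (1 / (1 + ‖w‖ ^ 2)))
            (Complex.polarCoord.symm p) := (Complex.lintegral_comp_polarCoord_symm _).symm
    _ = ∫⁻ p in Ioi (0 : ℝ) ×ˢ Ioo (-Real.pi) Real.pi, ENNReal.ofReal p.1 *
          E.indicator (fun w => ENNReal.ofReal (1 / (1 + ‖w‖ ^ 2)))
            ((p.1 : ℂ) * (Real.cos p.2 + Real.sin p.2 * Complex.I)) := by
        rw [polarCoord_target]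
        refine lintegral_congr fun p => ?_
        rw [Complex.polarCoord_symm_apply, smul_eq_mul]
    _ = ∫⁻ r in Ioi (0 : ℝ), ∫⁻ θ in Ioo (-Real.pi) Real.pi, ENNReal.ofReal r *
          E.indicator (fun w => ENNReal.ofReal (1 / (1 + ‖w‖ ^ 2)))
            ((r : ℂ) * (Real.cos θ + Real.sin θ * Complex.I)) := by
        rw [Measure.volume_eq_prod, ← Measure.prod_restrict]
        exact lintegral_prod _ hF.aemeasurable
    _ ≤ _ := setLIntegral_mono' measurableSet_Ioi fun r hr => ca7_inner E hE hEr hr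

theorem measurable_section (E : Set ℂ) (hE : MeasurableSet E) :
    Measurable fun t : ℝ => volume {θ : ℝ | θ ∈ Ioo (-(Real.pi / 2)) (Real.pi / 2) ∧
      Complex.exp ((t : ℂ) + (θ : ℂ) * Complex.I) ∈ E} := by
  have h1 : Continuous fun p : ℝ × ℝ => Complex.exp ((p.1 : ℂ) + (p.2 : ℂ) * Complex.I) := by
    fun_prop
  have h2 : MeasurableSet {p : ℝ × ℝ | p.2 ∈ Ioo (-(Real.pi / 2)) (Real.pi / 2) ∧
      Complex.exp ((p.1 : ℂ) + (p.2 : ℂ) * Complex.I) ∈ E} :=
    (measurable_snd measurableSet_Ioo).inter (h1.measurable hE)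
  exact measurable_measure_prodMk_left h2

theorem area_to_log (E : Set ℂ) (hE : MeasurableSet E) (hEr : ∀ w ∈ E, 0 < w.re)
    (harea : ∫⁻ w in E, ENNReal.ofReal (1 / (1 + ‖w‖ ^ 2)) = ⊤) :
    ∫⁻ t in Ioi (0 : ℝ), volume {θ : ℝ | θ ∈ Ioo (-(Real.pi / 2)) (Real.pi / 2) ∧
      Complex.exp ((t : ℂ) + (θ : ℂ) * Complex.I) ∈ E} = ⊤ := by
  have hG : ∀ t : ℝ, {θ : ℝ | θ ∈ Ioo (-(Real.pi / 2)) (Real.pi / 2) ∧
      Complex.exp ((t : ℂ) + (θ : ℂ) * Complex.I) ∈ E} = ca7S E (Real.exp t) := by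
    intro t
    ext θ
    unfold ca7S
    rw [mem_ofPred_eq, mem_ofPred_eq, ca7_exp]
  simp only [hG]
  have h1 := ca7_polar E hE hEr
  rw [harea, top_le_iff] at h1
  have h2 : ∫⁻ r in Ioc (0 : ℝ) 1, ENNReal.ofReal (r / (1 + r ^ 2)) * volume (ca7S E r) ≤
      ENNReal.ofReal Real.pi := by
    calc _ ≤ ∫⁻ _ in Ioc (0 : ℝ) 1, ENNReal.ofReal Real.pi := by
          refine setLIntegral_mono' measurableSet_Ioc fun r hr => ?_
          have h3 : ENNReal.ofReal (r / (1 + r ^ 2)) ≤ 1 := by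
            rw [← ENNReal.ofReal_one]
            refine ENNReal.ofReal_le_ofReal ?_
            rw [div_le_one (by positivity)]
            nlinarith [hr.2, sq_nonneg r]
          calc _ ≤ 1 * ENNReal.ofReal Real.pi := mul_le_mul' h3 (ca7_le E r)
            _ = _ := one_mul _
      _ = ENNReal.ofReal Real.pi := by
          rw [setLIntegral_const, Real.volume_Ioc, sub_zero, ENNReal.ofReal_one, mul_one]
  have h4 : ∫⁻ r in Ioi (1 : ℝ), ENNReal.ofReal (r / (1 + r ^ 2)) * volume (ca7S E r) ≤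
      ∫⁻ t in Ioi (0 : ℝ), volume (ca7S E (Real.exp t)) := by
    have himg : Real.exp '' Ioi 0 = Ioi 1 := by
      ext r
      constructor
      · rintro ⟨t, ht, rfl⟩
        exact Real.one_lt_exp_iff.2 ht
      · intro hr
        have hr0 : 0 < r := lt_trans one_pos hr
        exact ⟨Real.log r, Real.log_pos hr, Real.exp_log hr0⟩
    calc _ ≤ ∫⁻ r in Ioi (1 : ℝ), ENNReal.ofReal (1 / r) * volume (ca7S E r) := by
          refine setLIntegral_mono' measurableSet_Ioi fun r hr => ?_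
          have hr0 : 0 < r := lt_trans one_pos hr
          refine mul_le_mul' (ENNReal.ofReal_le_ofReal ?_) le_rfl
          rw [div_le_div_iff₀ (by positivity) hr0]
          nlinarith
      _ = ∫⁻ t in Ioi (0 : ℝ), ENNReal.ofReal |Real.exp t| *
            (ENNReal.ofReal (1 / Real.exp t) * volume (ca7S E (Real.exp t))) := by
          rw [← himg]
          exact lintegral_image_eq_lintegral_abs_deriv_mul measurableSet_Ioi
            (fun t _ => (Real.hasDerivAt_exp t).hasDerivWithinAt) Real.exp_injective.injOn _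
      _ = _ := by
          refine lintegral_congr fun t => ?_
          rw [← mul_assoc, ← ENNReal.ofReal_mul (abs_nonneg _), abs_of_pos (Real.exp_pos t),
            mul_one_div_cancel (Real.exp_pos t).ne', ENNReal.ofReal_one, one_mul]
  have h5 : (⊤ : ENNReal) ≤ ENNReal.ofReal Real.pi +
      ∫⁻ t in Ioi (0 : ℝ), volume (ca7S E (Real.exp t)) := by
    calc (⊤ : ENNReal) = ∫⁻ r in Ioi (0 : ℝ), ENNReal.ofReal (r / (1 + r ^ 2)) *
          volume (ca7S E r) := h1.symm
      _ = ∫⁻ r in Ioc (0 : ℝ) 1 ∪ Ioi 1, ENNReal.ofReal (r / (1 + r ^ 2)) *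
          volume (ca7S E r) := by rw [Ioc_union_Ioi_eq_Ioi zero_le_one]
      _ ≤ _ := (lintegral_union_le _ _ _).trans (add_le_add h2 h4)
  rw [top_le_iff, ENNReal.add_eq_top] at h5
  exact h5.resolve_left ENNReal.ofReal_ne_top

end PCM
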