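import Mathlib

/-!
# [PCM-T9] growth in the right half-plane

Let `b = |a|` (or `max a 0`).  `G w = H w * exp (-(b w))` satisfies `‖G‖ ≤ 1` on the imaginary axis, is bounded by
`max a 1` on the positive real axis, and has order one growth; by Phragmén-Lindelöf in the right half-plane
(`PhragmenLindelof.right_half_plane_of_bounded_on_real`, exponent `c = 1 < 2`) `‖G‖ ≤ 1` on `0 ≤ Re w`.
-/

open MeasureTheory Set Filter Topology

namespace PCM

theorem growth_right (H : ℂ → ℂ) (hH : Differentiable ℂ H) (a : ℝ)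
    (ha : ∀ w, ‖H w‖ ≤ a * Real.exp (a * ‖w‖)) (h0 : ∀ w : ℂ, w.re ≤ 0 → ‖H w‖ ≤ 1) :
    ∃ b : ℝ, 0 ≤ b ∧ ∀ w : ℂ, 0 ≤ w.re → ‖H w‖ ≤ Real.exp (b * w.re) := by
  have ha' : ∀ w, ‖H w‖ ≤ |a| * Real.exp (|a| * ‖w‖) := by
    intro w
    refine (ha w).trans ?_
    have h1 : Real.exp (a * ‖w‖) ≤ Real.exp (|a| * ‖w‖) :=
      Real.exp_le_exp.2 (mul_le_mul_of_nonneg_right (le_abs_self a) (norm_nonneg w))
    exact (mul_le_mul_of_nonneg_right (le_abs_self a) (Real.exp_pos _).le).trans
      (mul_le_mul_of_nonneg_left h1 (abs_nonneg a))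
  have hnorm : ∀ w : ℂ, ‖H w * Complex.exp (-((|a| : ℝ) * w))‖ = ‖H w‖ * Real.exp (-(|a| * w.re)) := by
    intro w
    rw [norm_mul, Complex.norm_exp]
    congr 2
    simp
  refine ⟨|a|, abs_nonneg a, fun w hw => ?_⟩
  have key : ‖H w * Complex.exp (-((|a| : ℝ) * w))‖ ≤ 1 := by
    refine PhragmenLindelof.right_half_plane_of_bounded_on_real
      (f := fun w => H w * Complex.exp (-((|a| : ℝ) * w))) ?_ ?_ ?_ ?_ hw
    · have hd : Differentiable ℂ (fun w : ℂ => H w * Complex.exp (-((|a| : ℝ) * w))) := by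
        apply hH.mul
        apply Differentiable.cexp
        fun_prop
      exact hd.diffContOnCl
    · refine ⟨1, by norm_num, 2 * |a|, ?_⟩
      refine Asymptotics.IsBigO.of_bound |a| ?_
      refine Filter.Eventually.of_forall fun z => ?_
      rw [hnorm, Real.norm_of_nonneg (Real.exp_pos _).le]
      have h2 : Real.exp (-(|a| * z.re)) ≤ Real.exp (|a| * ‖z‖) := by
        apply Real.exp_le_exp.2
        have h3 : -z.re ≤ ‖z‖ := (neg_le_abs z.re).trans (Complex.abs_re_le_norm z)
        calc -(|a| * z.re) = |a| * (-z.re) := by ring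
          _ ≤ |a| * ‖z‖ := mul_le_mul_of_nonneg_left h3 (abs_nonneg a)
      calc ‖H z‖ * Real.exp (-(|a| * z.re))
          ≤ (|a| * Real.exp (|a| * ‖z‖)) * Real.exp (|a| * ‖z‖) :=
            mul_le_mul (ha' z) h2 (Real.exp_pos _).le (by positivity)
        _ = |a| * Real.exp (2 * |a| * ‖z‖ ^ (1 : ℝ)) := by
            rw [mul_assoc, ← Real.exp_add, Real.rpow_one]
            congr 2
            ring
    · refine Filter.isBoundedUnder_of_eventually_le (a := |a|) ?_
      filter_upwards [Filter.eventually_ge_atTop (0 : ℝ)] with x hx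
      have e := hnorm (x : ℂ)
      simp only [Complex.ofReal_re] at e
      rw [e]
      have h4 := ha' (x : ℂ)
      rw [Complex.norm_real, Real.norm_of_nonneg hx] at h4
      calc ‖H (x : ℂ)‖ * Real.exp (-(|a| * x))
          ≤ (|a| * Real.exp (|a| * x)) * Real.exp (-(|a| * x)) :=
            mul_le_mul_of_nonneg_right h4 (Real.exp_pos _).le
        _ = |a| := by rw [mul_assoc, ← Real.exp_add, add_neg_cancel, Real.exp_zero, mul_one]
    · intro x
      rw [hnorm]
      have hre : ((x : ℂ) * Complex.I).re = 0 := by simp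
      rw [hre, mul_zero, neg_zero, Real.exp_zero, mul_one]
      exact h0 _ (le_of_eq hre)
  rw [hnorm] at key
  have h5 : ‖H w‖ = ‖H w‖ * Real.exp (-(|a| * w.re)) * Real.exp (|a| * w.re) := by
    rw [mul_assoc, ← Real.exp_add, neg_add_cancel, Real.exp_zero, mul_one]
  rw [h5]
  calc ‖H w‖ * Real.exp (-(|a| * w.re)) * Real.exp (|a| * w.re)
      ≤ 1 * Real.exp (|a| * w.re) := mul_le_mul_of_nonneg_right key (Real.exp_pos _).le
    _ = Real.exp (|a| * w.re) := one_mul _

end PCM
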