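import Pool.Agent.PCM.CA5
import Pool.Agent.PCM.CA6
import Pool.Agent.PCM.CA7
import Pool.Agent.PCM.T9

/-!
# [PCM-CA8] Carleman-Beurling theorem for entire functions of exponential type

`E = {w | 0 < Re w ∧ ‖H w‖ ≤ 1}` is measurable (`H` continuous).  `growth_right`: `‖H w‖ ≤ exp (b Re w)` on `0 ≤ Re w`.
For `|θ| ≤ π/2`, `w = exp (t+iθ)`, `0 ≤ Re w ≤ e^t`: `UU H t θ ≤ log (‖H w‖^2) ≤ 2 b e^t` if `‖H w‖ > 1` (`kap_le`), and
`UU = 0` otherwise; so `AA H t ≤ π (2 b e^t)^2 = 4 π b^2 exp (2t)`.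
`carleman_ineq`, `e t = ep H t / (8π)` (`0 ≤ ep ≤ π`), measurable by `measurable_section`, and
`∫⁻_{t>0} ofReal (e t) = ⊤` from `area_to_log` (`ENNReal.ofReal_toReal`, the measure is finite).  `ode_zero`: `AA H t = 0` for
all `t`; the integrand is continuous and nonnegative (`exists_U` gives the continuity of `UU`), so `UU H t θ = 0` for
`|θ| ≤ π/2`, so `‖H w‖ ≤ 1` (`kap_pos`) for `w = exp (t+iθ)`: every `w` with `0 < Re w` is of this form
(`Complex.exp_log`, `|arg w| < π/2`).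
-/

open MeasureTheory Set Filter Topology

namespace PCM

theorem ca8_re (t θ : ℝ) : (Complex.exp ((t : ℂ) + (θ : ℂ) * Complex.I)).re = Real.exp t * Real.cos θ := by
  rw [Complex.exp_re]
  simp

theorem ca8_le (H : ℂ → ℂ) {b : ℝ} (hb0 : 0 ≤ b)
    (hb : ∀ w : ℂ, 0 ≤ w.re → ‖H w‖ ≤ Real.exp (b * w.re)) {t θ : ℝ}
    (hθ : θ ∈ Icc (-(Real.pi / 2)) (Real.pi / 2)) : UU H t θ ≤ 2 * b * Real.exp t := by
  unfold UU
  by_cases h : ‖H (Complex.exp ((t : ℂ) + (θ : ℂ) * Complex.I))‖ ^ 2 ≤ 1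
  · rw [kap, if_pos h]
    positivity
  · rw [not_le] at h
    refine (kap_le h.le).trans ?_
    have hcos : 0 ≤ Real.cos θ := Real.cos_nonneg_of_mem_Icc hθ
    have hre : 0 ≤ (Complex.exp ((t : ℂ) + (θ : ℂ) * Complex.I)).re := by
      rw [ca8_re]
      positivity
    have h1 := hb _ hre
    have hpos : 0 < ‖H (Complex.exp ((t : ℂ) + (θ : ℂ) * Complex.I))‖ := by
      rcases (norm_nonneg (H (Complex.exp ((t : ℂ) + (θ : ℂ) * Complex.I)))).eq_or_lt with h2 | h2
      · rw [← h2] at h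
        norm_num at h
      · exact h2
    have h2 : Real.log ‖H (Complex.exp ((t : ℂ) + (θ : ℂ) * Complex.I))‖ ≤
        b * (Complex.exp ((t : ℂ) + (θ : ℂ) * Complex.I)).re := by
      rw [Real.log_le_iff_le_exp hpos]
      exact h1
    rw [Real.log_pow, ca8_re] at *
    have h3 : b * (Real.exp t * Real.cos θ) ≤ b * Real.exp t := by
      refine mul_le_mul_of_nonneg_left ?_ hb0
      have := Real.cos_le_one θ
      have := Real.exp_pos t
      nlinarith
    push_cast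
    nlinarith

theorem ca8_AA_le (H : ℂ → ℂ) (hH : Differentiable ℂ H) {b : ℝ} (hb0 : 0 ≤ b)
    (hb : ∀ w : ℂ, 0 ≤ w.re → ‖H w‖ ≤ Real.exp (b * w.re)) (t : ℝ) :
    AA H t ≤ (4 * Real.pi * b ^ 2) * Real.exp (2 * t) := by
  obtain ⟨Ut, Uh, Utt, Uhh, -, -, -, -, hU, -⟩ := exists_U H hH
  have hcont : Continuous fun θ : ℝ => UU H t θ := hU.comp (continuous_const.prodMk continuous_id)
  have hpi := Real.pi_pos
  have h1 : AA H t ≤ ∫ _θ in (-(Real.pi / 2))..(Real.pi / 2), (2 * b * Real.exp t) ^ 2 := by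
    refine intervalIntegral.integral_mono_on (by linarith) ((hcont.pow 2).intervalIntegrable _ _)
      (continuous_const.intervalIntegrable _ _) fun θ hθ => ?_
    exact pow_le_pow_left₀ (kap_nonneg _) (ca8_le H hb0 hb hθ) 2
  rw [intervalIntegral.integral_const] at h1
  refine h1.trans_eq ?_
  rw [smul_eq_mul, show 2 * t = t + t by ring, Real.exp_add]
  ring

theorem carleman (H : ℂ → ℂ) (hH : Differentiable ℂ H) (a : ℝ)
    (ha : ∀ w, ‖H w‖ ≤ a * Real.exp (a * ‖w‖)) (h0 : ∀ w : ℂ, w.re ≤ 0 → ‖H w‖ ≤ 1)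
    (harea : ∫⁻ w in {w : ℂ | 0 < w.re ∧ ‖H w‖ ≤ 1}, ENNReal.ofReal (1 / (1 + ‖w‖ ^ 2)) = ⊤) :
    ∀ w, ‖H w‖ ≤ 1 := by
  obtain ⟨b, hb0, hb⟩ := growth_right H hH a ha h0
  obtain ⟨A1, A2, hA, hA1, hc, hA20, hi⟩ := carleman_ineq H hH h0
  have hpi := Real.pi_pos
  have hEm : MeasurableSet {w : ℂ | 0 < w.re ∧ ‖H w‖ ≤ 1} :=
    (measurableSet_lt measurable_const Complex.measurable_re).inter
      (measurableSet_le hH.continuous.norm.measurable measurable_const)
  have hsec : ∀ t : ℝ, {θ : ℝ | θ ∈ Ioo (-(Real.pi / 2)) (Real.pi / 2) ∧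
      Complex.exp ((t : ℂ) + (θ : ℂ) * Complex.I) ∈ {w : ℂ | 0 < w.re ∧ ‖H w‖ ≤ 1}} =
      {θ : ℝ | θ ∈ Ioo (-(Real.pi / 2)) (Real.pi / 2) ∧
        ‖H (Complex.exp ((t : ℂ) + (θ : ℂ) * Complex.I))‖ ≤ 1} := by
    intro t
    ext θ
    constructor
    · rintro ⟨h1, h2⟩
      exact ⟨h1, h2.2⟩
    · rintro ⟨h1, h2⟩
      refine ⟨h1, ?_, h2⟩
      rw [ca8_re]
      exact mul_pos (Real.exp_pos t) (Real.cos_pos_of_mem_Ioo h1)
  have hfin : ∀ t : ℝ, volume {θ : ℝ | θ ∈ Ioo (-(Real.pi / 2)) (Real.pi / 2) ∧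
        ‖H (Complex.exp ((t : ℂ) + (θ : ℂ) * Complex.I))‖ ≤ 1} ≤ ENNReal.ofReal Real.pi := by
    intro t
    refine (measure_mono fun θ h => h.1).trans_eq ?_
    rw [Real.volume_Ioo]
    congr 1
    ring
  have hms := measurable_section _ hEm
  have hlog := area_to_log _ hEm (fun w hw => hw.1) harea
  simp only [hsec] at hms hlog
  have hz : ∀ t, AA H t = 0 := by
    refine ode_zero (AA H) A1 A2 (fun t => ep H t / (8 * Real.pi)) (4 * Real.pi * b ^ 2) hA hA1 hc ?_ hA20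
      (ca8_AA_le H hH hb0 hb) ?_ ?_ ?_ hi ?_
    · intro t
      exact intervalIntegral.integral_nonneg (by linarith) fun _ _ => sq_nonneg _
    · intro t
      exact div_nonneg ENNReal.toReal_nonneg (by positivity)
    · intro t
      have h1 : ep H t ≤ Real.pi := ENNReal.toReal_le_of_le_ofReal hpi.le (hfin t)
      show ep H t / (8 * Real.pi) ≤ 1
      rw [div_le_one (by positivity)]
      linarith
    · exact hms.ennreal_toReal.div_const _
    · have h2 : ∀ t : ℝ, ENNReal.ofReal (ep H t / (8 * Real.pi)) = ENNReal.ofReal (1 / (8 * Real.pi)) *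
          volume {θ : ℝ | θ ∈ Ioo (-(Real.pi / 2)) (Real.pi / 2) ∧
            ‖H (Complex.exp ((t : ℂ) + (θ : ℂ) * Complex.I))‖ ≤ 1} := by
        intro t
        rw [show ep H t / (8 * Real.pi) = 1 / (8 * Real.pi) * ep H t by ring,
          ENNReal.ofReal_mul (by positivity), ep,
          ENNReal.ofReal_toReal (ne_top_of_le_ne_top ENNReal.ofReal_ne_top (hfin t))]
      simp_rw [h2]
      rw [lintegral_const_mul _ hms, hlog, ENNReal.mul_top]
      rw [Ne, ENNReal.ofReal_eq_zero, not_le]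
      positivity
  intro w
  rcases le_or_gt w.re 0 with hw | hw
  · exact h0 w hw
  obtain ⟨Ut, Uh, Utt, Uhh, -, -, -, -, hU, -⟩ := exists_U H hH
  have hcont : Continuous fun θ : ℝ => UU H (Real.log ‖w‖) θ :=
    hU.comp (continuous_const.prodMk continuous_id)
  have hw0 : w ≠ 0 := by
    rintro rfl
    simp at hw
  have harg : |Complex.arg w| < Real.pi / 2 := Complex.abs_arg_lt_pi_div_two_iff.2 (Or.inl hw)
  have hexp : Complex.exp ((Real.log ‖w‖ : ℂ) + (Complex.arg w : ℂ) * Complex.I) = w :=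
    Complex.exp_log hw0
  by_contra hcon
  rw [not_le] at hcon
  have hpos : 0 < UU H (Real.log ‖w‖) (Complex.arg w) := by
    unfold UU
    rw [hexp]
    exact kap_pos (by nlinarith)
  have h3 : 0 < AA H (Real.log ‖w‖) := by
    refine intervalIntegral.integral_pos (by linarith) (hcont.pow 2).continuousOn
      (fun _ _ => sq_nonneg _) ⟨Complex.arg w, ?_, by positivity⟩
    exact abs_le.1 harg.le
  rw [hz] at h3
  exact lt_irrefl _ h3

end PCM
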