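import Pool.Agent.PCM.P20

/-!
# [PCM-T] range condition: definitions
-/

open MeasureTheory Set Filter Topology

namespace PCM

/-- every entire function of exponential type which is bounded on `L` is constant -/
def Det (L : Set ℂ) : Prop :=
  ∀ H : ℂ → ℂ, Differentiable ℂ H → (∃ a : ℝ, ∀ w, ‖H w‖ ≤ a * Real.exp (a * ‖w‖)) →
    (∃ a : ℝ, ∀ w ∈ L, ‖H w‖ ≤ a) → ∃ c : ℂ, ∀ w, H w = c

/-- the points at distance at least `δ` from the values of `F` on the ball -/
def Om {d : ℕ} (F : A d) (δ : ℝ) : Set ℂ := {w | ∀ z ∈ Ball d, δ ≤ ‖ev F z - w‖}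

/-- the multi-indices of degree `n` -/
noncomputable def dg (d n : ℕ) : Finset (Fin d →₀ ℕ) :=
  (Finset.univ : Finset (Fin d)).finsuppAntidiag n

theorem mem_dg {d n : ℕ} {α : Fin d →₀ ℕ} : α ∈ dg d n ↔ ∑ i, α i = n := by
  unfold dg
  rw [Finset.mem_finsuppAntidiag]
  simp

/-- the homogeneous part of degree `n`, as a function -/
noncomputable def hp {d : ℕ} (a : A d) (n : ℕ) (z : Fin d → ℂ) : ℂ :=
  ∑ α ∈ dg d n, MvPowerSeries.coeff α a * ∏ i, z i ^ α i

end PCM
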