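import Pool.Agent.PCM.CA8
import Pool.Agent.PCM.TDefs

/-!
# [PCM-CA9] sets of infinite logarithmic area are determining

Let `H` be entire with `‖H w‖ ≤ a exp (a ‖w‖)` and `‖H w‖ ≤ a'` on `L`; let `A' = max a' 1`, `c1 = max c0 0`,
`H1 w = H (w - c1) / A'`.  Then `‖H1 w‖ ≤ 1` for `Re w ≤ 0`, `H1` is entire of exponential type, and
`‖H1 w‖ ≤ 1` for `w - c1 ∈ L`.  `{w | 0 < Re w ∧ ‖H1 w‖ ≤ 1} ⊇ (L ∩ {0 < Re}) + c1`, and by translation invariance of
the Lebesgue measure and `1 + ‖w + c1‖^2 ≤ 2 (1 + c1^2) (1 + ‖w‖^2)` the logarithmic area is infinite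
(`L` need not be measurable: use the measurable set `{w | 0 < Re w ∧ ‖H1 (w + c1)‖ ≤ 1} ⊇ L ∩ {0 < Re}` and monotonicity of
`∫⁻` in the set).  `carleman`: `‖H1‖ ≤ 1` everywhere; Liouville (`Differentiable.apply_eq_apply_of_bounded` or
`Differentiable.exists_const_forall_eq_of_bounded`): `H1` is constant.
-/

open MeasureTheory Set Filter Topology

namespace PCM

theorem det_of_area (L : Set ℂ) (c0 : ℝ) (hL : ∀ w : ℂ, w.re ≤ -c0 → w ∈ L)
    (harea : ∫⁻ w in L ∩ {w : ℂ | 0 < w.re}, ENNReal.ofReal (1 / (1 + ‖w‖ ^ 2)) = ⊤) :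
    Det L := by
  intro H hH hexp hbd
  obtain ⟨a, ha⟩ := hexp
  obtain ⟨a', ha'⟩ := hbd
  obtain ⟨A', hA'⟩ : ∃ A', A' = max a' 1 := ⟨_, rfl⟩
  obtain ⟨c1, hc1⟩ : ∃ c1, c1 = max c0 0 := ⟨_, rfl⟩
  have hA1 : 1 ≤ A' := hA' ▸ le_max_right _ _
  have hA2 : a' ≤ A' := hA' ▸ le_max_left _ _
  have hA0 : 0 < A' := by linarith
  have hc2 : c0 ≤ c1 := hc1 ▸ le_max_left _ _
  have hc3 : 0 ≤ c1 := hc1 ▸ le_max_right _ _
  have hL2 : ∀ w ∈ L, ‖H w‖ ≤ A' := fun w hw => (ha' w hw).trans hA2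
  have ha0 : 0 ≤ a := by
    have h1 := ha 0
    rw [norm_zero, mul_zero, Real.exp_zero, mul_one] at h1
    exact (norm_nonneg _).trans h1
  obtain ⟨H1, hH1⟩ : ∃ H1 : ℂ → ℂ, H1 = fun w => H (w - (c1 : ℂ)) / (A' : ℂ) := ⟨_, rfl⟩
  have hn : ∀ w, ‖H1 w‖ = ‖H (w - (c1 : ℂ))‖ / A' := by
    intro w
    rw [hH1]
    show ‖H (w - (c1 : ℂ)) / (A' : ℂ)‖ = _
    rw [norm_div, Complex.norm_real, Real.norm_eq_abs, abs_of_pos hA0]
  have hle : ∀ w, ‖H (w - (c1 : ℂ))‖ ≤ A' → ‖H1 w‖ ≤ 1 := by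
    intro w hw
    rw [hn, div_le_one hA0]
    exact hw
  have hd : Differentiable ℂ H1 := by
    rw [hH1]
    exact (hH.comp (differentiable_id.sub_const _)).div_const _
  have hexp1 : ∀ w, ‖H1 w‖ ≤ (a * Real.exp (a * c1)) * Real.exp ((a * Real.exp (a * c1)) * ‖w‖) := by
    intro w
    have h1 : ‖H1 w‖ ≤ ‖H (w - (c1 : ℂ))‖ := by
      rw [hn]
      exact div_le_self (norm_nonneg _) hA1
    have h2 : ‖w - (c1 : ℂ)‖ ≤ ‖w‖ + c1 := by
      have h3 := norm_sub_le w (c1 : ℂ)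
      rw [Complex.norm_real, Real.norm_eq_abs, abs_of_nonneg hc3] at h3
      exact h3
    have h4 : 1 ≤ Real.exp (a * c1) := Real.one_le_exp (mul_nonneg ha0 hc3)
    calc ‖H1 w‖ ≤ a * Real.exp (a * ‖w - (c1 : ℂ)‖) := h1.trans (ha _)
      _ ≤ a * Real.exp (a * c1 + a * Real.exp (a * c1) * ‖w‖) := by
        apply mul_le_mul_of_nonneg_left _ ha0
        apply Real.exp_le_exp.2
        have h5 : a * ‖w - (c1 : ℂ)‖ ≤ a * (‖w‖ + c1) := mul_le_mul_of_nonneg_left h2 ha0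
        have h6 : a * ‖w‖ ≤ a * Real.exp (a * c1) * ‖w‖ := by
          apply mul_le_mul_of_nonneg_right _ (norm_nonneg _)
          exact le_mul_of_one_le_right ha0 h4
        linarith [mul_add a ‖w‖ c1]
      _ = _ := by rw [Real.exp_add]; ring
  have h0 : ∀ w : ℂ, w.re ≤ 0 → ‖H1 w‖ ≤ 1 := by
    intro w hw
    apply hle
    apply hL2
    apply hL
    rw [Complex.sub_re, Complex.ofReal_re]
    linarith
  have hcont : Continuous H1 := hd.continuous
  obtain ⟨E, hE⟩ : ∃ E : Set ℂ, E = {w : ℂ | 0 < w.re ∧ ‖H1 w‖ ≤ 1} := ⟨_, rfl⟩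
  have hEm : MeasurableSet E := by
    rw [hE]
    exact (measurableSet_lt measurable_const Complex.measurable_re).inter
      (measurableSet_le hcont.norm.measurable measurable_const)
  obtain ⟨S, hS⟩ : ∃ S : Set ℂ, S = {w : ℂ | 0 < w.re ∧ ‖H1 (w + (c1 : ℂ))‖ ≤ 1} := ⟨_, rfl⟩
  have hSm : MeasurableSet S := by
    rw [hS]
    exact (measurableSet_lt measurable_const Complex.measurable_re).inter
      (measurableSet_le (hcont.comp (continuous_id.add continuous_const)).norm.measurable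
        measurable_const)
  have hLS : L ∩ {w : ℂ | 0 < w.re} ⊆ S := by
    rintro w ⟨hw1, hw2⟩
    rw [hS]
    refine ⟨hw2, ?_⟩
    apply hle
    rw [add_sub_cancel_right]
    exact hL2 w hw1
  have harea1 : ∫⁻ w in E, ENNReal.ofReal (1 / (1 + ‖w‖ ^ 2)) = ⊤ := by
    obtain ⟨k, hk⟩ : ∃ k : ℝ, k = 1 / (2 * (1 + c1 ^ 2)) := ⟨_, rfl⟩
    have hk0 : 0 < k := by rw [hk]; positivity
    have e1 : ∫⁻ w in E, ENNReal.ofReal (1 / (1 + ‖w‖ ^ 2)) =
        ∫⁻ w, E.indicator (fun w : ℂ => ENNReal.ofReal (1 / (1 + ‖w‖ ^ 2))) (w + (c1 : ℂ)) := by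
      rw [lintegral_add_right_eq_self
        (E.indicator (fun w : ℂ => ENNReal.ofReal (1 / (1 + ‖w‖ ^ 2)))) (c1 : ℂ),
        lintegral_indicator hEm]
    have e2 : ∀ w : ℂ, S.indicator (fun w : ℂ => ENNReal.ofReal k *
        ENNReal.ofReal (1 / (1 + ‖w‖ ^ 2))) w ≤
        E.indicator (fun w : ℂ => ENNReal.ofReal (1 / (1 + ‖w‖ ^ 2))) (w + (c1 : ℂ)) := by
      intro w
      by_cases hw : w ∈ S
      · have hw' := hw
        rw [hS] at hw'
        have hwE : w + (c1 : ℂ) ∈ E := by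
          rw [hE]
          refine ⟨?_, hw'.2⟩
          rw [Complex.add_re, Complex.ofReal_re]
          have := hw'.1
          linarith
        rw [indicator_of_mem hw, indicator_of_mem hwE, ← ENNReal.ofReal_mul hk0.le]
        apply ENNReal.ofReal_le_ofReal
        rw [hk, div_mul_div_comm, one_mul]
        apply one_div_le_one_div_of_le (by positivity)
        have h3 := norm_add_le w (c1 : ℂ)
        rw [Complex.norm_real, Real.norm_eq_abs, abs_of_nonneg hc3] at h3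
        have h4 : ‖w + (c1 : ℂ)‖ ^ 2 ≤ (‖w‖ + c1) ^ 2 :=
          pow_le_pow_left₀ (norm_nonneg _) h3 2
        nlinarith [sq_nonneg (‖w‖ - c1), mul_nonneg (sq_nonneg c1) (sq_nonneg ‖w‖)]
      · rw [indicator_of_notMem hw]
        exact bot_le
    have e3 : (⊤ : ENNReal) ≤ ∫⁻ w, S.indicator (fun w : ℂ => ENNReal.ofReal k *
        ENNReal.ofReal (1 / (1 + ‖w‖ ^ 2))) w := by
      rw [lintegral_indicator hSm, lintegral_const_mul']
      · have e4 : ∫⁻ w in S, ENNReal.ofReal (1 / (1 + ‖w‖ ^ 2)) = ⊤ := by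
          rw [eq_top_iff, ← harea]
          exact lintegral_mono_set hLS
        rw [e4, ENNReal.mul_top]
        exact (ENNReal.ofReal_pos.2 hk0).ne'
      · exact ENNReal.ofReal_ne_top
    rw [eq_top_iff, e1]
    exact e3.trans (lintegral_mono e2)
  have hfin := carleman H1 hd _ hexp1 h0 (hE ▸ harea1)
  have hb : Bornology.IsBounded (range H1) := by
    rw [isBounded_iff_forall_norm_le]
    refine ⟨1, ?_⟩
    rintro _ ⟨w, rfl⟩
    exact hfin w
  obtain ⟨c, hc⟩ := hd.exists_const_forall_eq_of_bounded hb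
  refine ⟨(A' : ℂ) * c, fun w => ?_⟩
  have h7 := hc (w + (c1 : ℂ))
  rw [hH1] at h7
  have h8 : H (w + (c1 : ℂ) - (c1 : ℂ)) / (A' : ℂ) = c := h7
  rw [add_sub_cancel_right, div_eq_iff (by exact_mod_cast hA0.ne')] at h8
  rw [h8, mul_comm]

end PCM
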