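import Pool.Agent.PCM.TDefs

/-!
# [PCM-T2c] a series with bounded homogeneous parts converges

Let `μ` be a law for `m = d` (`exists_law d d`).  For fixed `n` let `p` be the series with the coefficients of
`b` of degree `n` and `0` otherwise; it has finitely many nonzero coefficients, so `Conv p`, and
`ev p z = hp b n z`.  `parseval` for `p`, `0 ≤ r < 1`: `Σ_{|α|=n} ‖b_α‖^2 r^{2n} vv d α = ∫ ‖hp b n (r z)‖^2 ≤ C^2`
(for a.e. `z`, `r z` is in the ball).  Let `r → 1`: `Σ_{|α|=n} ‖b_α‖^2 vv d α ≤ C^2`.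
Let `z` be in the ball, `x = Σ ‖z i‖^2 < 1`.  `vv d α = wt α d! n!/(n+d)!`, so `1/vv d α ≤ (n+1)^d / wt α`
(`(n+d)!/(d! n!) ≤ (n+1)^d`), and `Σ_{|α|=n} (wt α)⁻¹ ∏ ‖z i‖^{2 α i} = x^n` (multinomial theorem, or from
`hasSum_multinomial`: the sum is `≤ x^n (1+...)`; an upper bound `≤ 1/(1-y) (x/y)^n` for `x < y < 1` from
`hasSum_multinomial` applied to `‖z i‖^2 y/x` is enough).  Cauchy-Schwarz:
`Σ_{|α|=n} ‖b_α‖ ∏ ‖z i‖^{α i} ≤ C (n+1)^{d/2} (geometric term)^{1/2}`, summable in `n`.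
-/

open MeasureTheory Set Filter Topology

namespace PCM

variable {d : ℕ}

/-- the part of degree `n` -/
private noncomputable def t2c_p (b : A d) (n : ℕ) : A d := fun α =>
  if α ∈ dg d n then MvPowerSeries.coeff α b else 0

private theorem t2c_coeff (b : A d) (n : ℕ) (α : Fin d →₀ ℕ) :
    MvPowerSeries.coeff α (t2c_p b n) = if α ∈ dg d n then MvPowerSeries.coeff α b else 0 := rfl

private theorem t2c_conv (b : A d) (n : ℕ) : Conv (t2c_p b n) := by
  intro z _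
  refine summable_of_ne_finset_zero (s := dg d n) fun α hα => ?_
  rw [t2c_coeff, if_neg hα, norm_zero, zero_mul]

private theorem t2c_ev (b : A d) (n : ℕ) (z : Fin d → ℂ) : ev (t2c_p b n) z = hp b n z := by
  unfold ev hp
  rw [tsum_eq_sum (s := dg d n) fun α hα => by rw [t2c_coeff, if_neg hα, zero_mul]]
  refine Finset.sum_congr rfl fun α hα => ?_
  rw [t2c_coeff, if_pos hα]

private theorem t2c_fact (n d : ℕ) :
    ((n + d).factorial : ℝ) ≤ ((n : ℝ) + 1) ^ d * ((d.factorial : ℝ) * (n.factorial : ℝ)) := by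
  induction d with
  | zero => simp
  | succ d ih =>
    have h1 : ((n + (d + 1)).factorial : ℝ) = ((n : ℝ) + d + 1) * ((n + d).factorial : ℝ) := by
      rw [← add_assoc, Nat.factorial_succ]
      push_cast
      ring
    have h2 : ((d + 1).factorial : ℝ) = ((d : ℝ) + 1) * (d.factorial : ℝ) := by
      rw [Nat.factorial_succ]
      push_cast
      ring
    rw [h1, h2, pow_succ]
    have h3 : (n : ℝ) + d + 1 ≤ ((n : ℝ) + 1) * ((d : ℝ) + 1) := by
      have : (0 : ℝ) ≤ (n : ℝ) * d := by positivity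
      nlinarith
    calc ((n : ℝ) + d + 1) * ((n + d).factorial : ℝ)
        ≤ (((n : ℝ) + 1) * ((d : ℝ) + 1)) *
          (((n : ℝ) + 1) ^ d * ((d.factorial : ℝ) * (n.factorial : ℝ))) :=
          mul_le_mul h3 ih (by positivity) (by positivity)
      _ = _ := by ring

private theorem t2c_wt (α : Fin d →₀ ℕ) :
    wt α ≤ (((∑ i, α i : ℕ) : ℝ) + 1) ^ d * vv d α := by
  unfold wt vv
  have hP : (0 : ℝ) < ∏ i, ((α i).factorial : ℝ) := by positivity
  set P : ℝ := ∏ i, ((α i).factorial : ℝ)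
  set n : ℕ := ∑ i, α i
  have h := t2c_fact n d
  have h1 : (0 : ℝ) < (n.factorial : ℝ) := by positivity
  have h2 : (0 : ℝ) < ((n + d).factorial : ℝ) := by positivity
  rw [div_le_iff₀ h1]
  have h3 : ((n : ℝ) + 1) ^ d * (P * (d.factorial : ℝ) / ((n + d).factorial : ℝ)) *
      (n.factorial : ℝ) = P * ((((n : ℝ) + 1) ^ d * ((d.factorial : ℝ) * (n.factorial : ℝ))) /
      ((n + d).factorial : ℝ)) := by ring
  rw [h3]
  have h4 : 1 ≤ (((n : ℝ) + 1) ^ d * ((d.factorial : ℝ) * (n.factorial : ℝ))) /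
      ((n + d).factorial : ℝ) := by
    rw [le_div_iff₀ h2, one_mul]
    exact h
  calc P = P * 1 := (mul_one P).symm
    _ ≤ _ := mul_le_mul_of_nonneg_left h4 hP.le

private theorem t2c_level {b : A d} {C : ℝ} (h : ∀ z ∈ Ball d, ∀ n, ‖hp b n z‖ ≤ C) (n : ℕ) :
    ∑ α ∈ dg d n, ‖MvPowerSeries.coeff α b‖ ^ 2 * vv d α ≤ C ^ 2 := by
  obtain ⟨μ, hμ⟩ := exists_law d d (Nat.le_succ d)
  have := hμ.prob
  set S := ∑ α ∈ dg d n, ‖MvPowerSeries.coeff α b‖ ^ 2 * vv d α with hS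
  have h1 : ∀ r : ℝ, 0 ≤ r → r < 1 → r ^ (2 * n) * S ≤ C ^ 2 := by
    intro r hr0 hr1
    have h2 := parseval (t2c_conv b n) hr0 hr1 d μ hμ
    have h3 : ∫ z, ‖ev (t2c_p b n) (fun i => (r : ℂ) * z i)‖ ^ 2 ∂μ ≤ C ^ 2 := by
      have h4 : ∫ z, ‖ev (t2c_p b n) (fun i => (r : ℂ) * z i)‖ ^ 2 ∂μ ≤ ∫ _z, C ^ 2 ∂μ := by
        refine integral_mono_ae (integrable_sq (t2c_conv b n) hr0 hr1 d μ hμ)
          (integrable_const _) ?_
        filter_upwards [hμ.supp] with z hz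
        have h5 : (fun i => (r : ℂ) * z i) ∈ Ball d := by
          show ∑ i, ‖(r : ℂ) * z i‖ ^ 2 < 1
          have h6 : ∑ i, ‖(r : ℂ) * z i‖ ^ 2 = r ^ 2 * ∑ i, ‖z i‖ ^ 2 := by
            rw [Finset.mul_sum]
            refine Finset.sum_congr rfl fun i _ => ?_
            rw [norm_mul, mul_pow, Complex.norm_real, Real.norm_of_nonneg hr0]
          rw [h6]
          calc r ^ 2 * ∑ i, ‖z i‖ ^ 2 ≤ r ^ 2 * 1 := mul_le_mul_of_nonneg_left hz (by positivity)
            _ < 1 := by nlinarith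
        have h7 := h _ h5 n
        rw [t2c_ev]
        exact pow_le_pow_left₀ (norm_nonneg _) h7 2
      rw [integral_const, probReal_univ, one_smul] at h4
      exact h4
    have h8 := sum_le_hasSum (dg d n) (fun α _ => by
      have := vv_pos d α
      positivity) h2
    refine le_trans (le_of_eq ?_) (h8.trans h3)
    rw [hS, Finset.mul_sum]
    refine Finset.sum_congr rfl fun α hα => ?_
    rw [t2c_coeff, if_pos hα, mem_dg.1 hα]
    ring
  have h9 : Tendsto (fun r : ℝ => r ^ (2 * n) * S) (𝓝[<] 1) (𝓝 ((1 : ℝ) ^ (2 * n) * S)) :=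
    (((continuous_pow (2 * n)).mul continuous_const).tendsto 1).mono_left nhdsWithin_le_nhds
  rw [one_pow, one_mul] at h9
  refine le_of_tendsto h9 ?_
  filter_upwards [Ico_mem_nhdsLT (show (0 : ℝ) < 1 by norm_num)] with r hr
  exact h1 r hr.1 hr.2

theorem conv_of_hp_bound {b : A d} {C : ℝ} (h : ∀ z ∈ Ball d, ∀ n, ‖hp b n z‖ ≤ C) : Conv b := by
  intro z hz
  have hz1 : ∑ i, ‖z i‖ ^ 2 < 1 := hz
  set x : ℝ := ∑ i, ‖z i‖ ^ 2 with hx
  have hx0 : 0 ≤ x := Finset.sum_nonneg fun i _ => by positivity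
  set s : ℝ := (1 + x) / 2 with hs
  have hs0 : 0 < s := by rw [hs]; linarith
  have hs1 : s < 1 := by rw [hs]; linarith
  have hsx : x < s ^ 2 := by
    rw [hs]
    nlinarith [mul_pos (sub_pos.2 hz1) (sub_pos.2 hz1)]
  clear_value s
  -- the first series
  have hA : Summable fun α : Fin d →₀ ℕ =>
      s ^ (∑ i, α i) * (‖MvPowerSeries.coeff α b‖ ^ 2 * vv d α) := by
    have hpos : ∀ α : Fin d →₀ ℕ,
        0 ≤ s ^ (∑ i, α i) * (‖MvPowerSeries.coeff α b‖ ^ 2 * vv d α) := fun α => by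
      have := vv_pos d α
      positivity
    refine summable_of_sum_le (c := C ^ 2 * (1 - s)⁻¹) hpos fun u => ?_
    set N := u.sup (fun α => ∑ i, α i) + 1 with hN
    have hmap : ∀ α ∈ u, (∑ i, α i) ∈ Finset.range N := fun α hα =>
      Finset.mem_range.2 (Nat.lt_succ_of_le (Finset.le_sup (f := fun α => ∑ i, α i) hα))
    rw [← Finset.sum_fiberwise_of_maps_to hmap]
    have h1 : ∀ n ∈ Finset.range N, ∑ α ∈ u with (∑ i, α i) = n,
        s ^ (∑ i, α i) * (‖MvPowerSeries.coeff α b‖ ^ 2 * vv d α) ≤ C ^ 2 * s ^ n := by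
      intro n _
      calc ∑ α ∈ u with (∑ i, α i) = n,
            s ^ (∑ i, α i) * (‖MvPowerSeries.coeff α b‖ ^ 2 * vv d α)
          ≤ ∑ α ∈ dg d n, s ^ (∑ i, α i) * (‖MvPowerSeries.coeff α b‖ ^ 2 * vv d α) := by
            refine Finset.sum_le_sum_of_subset_of_nonneg (fun α hα => ?_) fun α _ _ => hpos α
            exact mem_dg.2 (Finset.mem_filter.1 hα).2
        _ = s ^ n * ∑ α ∈ dg d n, ‖MvPowerSeries.coeff α b‖ ^ 2 * vv d α := by
            rw [Finset.mul_sum]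
            refine Finset.sum_congr rfl fun α hα => ?_
            rw [mem_dg.1 hα]
        _ ≤ s ^ n * C ^ 2 := mul_le_mul_of_nonneg_left (t2c_level h n) (by positivity)
        _ = C ^ 2 * s ^ n := mul_comm _ _
    refine (Finset.sum_le_sum h1).trans ?_
    rw [← Finset.mul_sum]
    refine mul_le_mul_of_nonneg_left ?_ (by positivity)
    exact sum_le_hasSum _ (fun n _ => by positivity) (hasSum_geometric_of_lt_one hs0.le hs1)
  -- the second series
  have hB : Summable fun α : Fin d →₀ ℕ => (wt α)⁻¹ * ∏ i, ((‖z i‖ / s) ^ 2) ^ α i := by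
    refine (hasSum_multinomial (fun i => (‖z i‖ / s) ^ 2) (fun i => by positivity) ?_).summable
    have h1 : ∑ i, (‖z i‖ / s) ^ 2 = x / s ^ 2 := by
      rw [hx, Finset.sum_div]
      refine Finset.sum_congr rfl fun i _ => ?_
      rw [div_pow]
    rw [h1, div_lt_one (by positivity)]
    exact hsx
  -- the polynomial factor
  obtain ⟨M, hM⟩ := (tendsto_pow_const_mul_const_pow_of_lt_one d hs0.le hs1).bddAbove_range
  have hM' : ∀ n : ℕ, ((n : ℝ) + 1) ^ d * s ^ n ≤ M / s := by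
    intro n
    rw [le_div_iff₀ hs0]
    have h1 := hM ⟨n + 1, rfl⟩
    simp only at h1
    push_cast at h1
    calc ((n : ℝ) + 1) ^ d * s ^ n * s = ((n : ℝ) + 1) ^ d * s ^ (n + 1) := by rw [pow_succ]; ring
      _ ≤ M := h1
  refine Summable.of_nonneg_of_le (fun α => by positivity) (fun α => ?_)
    (hA.add (hB.mul_left (M / s)))
  set n : ℕ := ∑ i, α i with hn
  set a : ℝ := ‖MvPowerSeries.coeff α b‖ with ha
  set c : ℝ := ∏ i, ‖z i‖ ^ α i with hc
  set Q : ℝ := ∏ i, ((‖z i‖ / s) ^ 2) ^ α i with hQ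
  have hQ0 : 0 ≤ Q := Finset.prod_nonneg fun i _ => by positivity
  have hv := vv_pos d α
  have hw := wt_pos α
  have hsn : 0 < s ^ n := by positivity
  have he : 0 < s ^ n * vv d α := mul_pos hsn hv
  have h1 : c ^ 2 = (s ^ n) ^ 2 * Q := by
    have h2 : (s ^ n) ^ 2 = ∏ i, (s ^ 2) ^ α i := by
      rw [Finset.prod_pow_eq_pow_sum, ← hn]
      ring
    rw [h2, hQ, hc, ← Finset.prod_mul_distrib, ← Finset.prod_pow]
    refine Finset.prod_congr rfl fun i _ => ?_
    rw [← mul_pow, div_pow, mul_div_cancel₀ _ (by positivity : s ^ 2 ≠ 0)]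
    ring
  have h2 : a * c ≤ (s ^ n * vv d α) * a ^ 2 + c ^ 2 / (s ^ n * vv d α) := by
    have h3 : 0 ≤ ((s ^ n * vv d α) * a - c) ^ 2 / (s ^ n * vv d α) := by positivity
    have h4 : ((s ^ n * vv d α) * a - c) ^ 2 / (s ^ n * vv d α) =
        (s ^ n * vv d α) * a ^ 2 - 2 * (a * c) + c ^ 2 / (s ^ n * vv d α) := by
      field_simp
      ring
    have h5 : 0 ≤ a * c := mul_nonneg (norm_nonneg _) (Finset.prod_nonneg fun i _ => by positivity)
    linarith
  have h6 : c ^ 2 / (s ^ n * vv d α) ≤ M / s * ((wt α)⁻¹ * Q) := by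
    have h7 : c ^ 2 / (s ^ n * vv d α) = s ^ n * Q * (vv d α)⁻¹ := by
      rw [h1]
      field_simp
    have h8 : (vv d α)⁻¹ ≤ ((n : ℝ) + 1) ^ d * (wt α)⁻¹ := by
      rw [inv_le_iff_one_le_mul₀ hv]
      have h9 := t2c_wt α
      rw [← hn] at h9
      calc (1 : ℝ) = wt α * (wt α)⁻¹ := (mul_inv_cancel₀ hw.ne').symm
        _ ≤ (((n : ℝ) + 1) ^ d * vv d α) * (wt α)⁻¹ :=
            mul_le_mul_of_nonneg_right h9 (by positivity)
        _ = _ := by ring
    rw [h7]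
    calc s ^ n * Q * (vv d α)⁻¹ ≤ s ^ n * Q * (((n : ℝ) + 1) ^ d * (wt α)⁻¹) :=
          mul_le_mul_of_nonneg_left h8 (by positivity)
      _ = (((n : ℝ) + 1) ^ d * s ^ n) * ((wt α)⁻¹ * Q) := by ring
      _ ≤ M / s * ((wt α)⁻¹ * Q) := mul_le_mul_of_nonneg_right (hM' n) (by positivity)
  calc a * c ≤ (s ^ n * vv d α) * a ^ 2 + c ^ 2 / (s ^ n * vv d α) := h2
    _ ≤ s ^ n * (a ^ 2 * vv d α) + M / s * ((wt α)⁻¹ * Q) := by
        refine add_le_add (le_of_eq ?_) h6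
        ring

end PCM
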