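import Pool.Agent.PCM.T2b
import Pool.Agent.PCM.T2c

/-!
# [PCM-T2] inverse of a series bounded from below
-/

open MeasureTheory Set Filter Topology

namespace PCM

variable {d : ℕ}

theorem exists_inv {a : A d} (ha : Conv a) {δ : ℝ} (hδ : 0 < δ)
    (h : ∀ z ∈ Ball d, δ ≤ ‖ev a z‖) :
    ∃ b : A d, Conv b ∧ a * b = 1 ∧ ∀ z ∈ Ball d, ev b z = (ev a z)⁻¹ := by
  have h0 : MvPowerSeries.coeff 0 a ≠ 0 := by
    rw [← ev_zero_point]
    have h1 := h _ p20_zero_mem_ball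
    intro h2
    rw [h2, norm_zero] at h1
    linarith
  have hu : IsUnit a := by
    rw [MvPowerSeries.isUnit_iff_constantCoeff]
    exact isUnit_iff_ne_zero.2 h0
  obtain ⟨b, hb⟩ := hu.exists_right_inv
  have hbc : Conv b := conv_of_hp_bound (C := δ⁻¹) fun z hz n => hp_inv_bound ha hb hδ h hz n
  refine ⟨b, hbc, hb, fun z hz => ?_⟩
  have h1 : ev a z * ev b z = 1 := by
    rw [← ev_mul ha hbc hz, hb, ev_one]
  have h2 : ev a z ≠ 0 := left_ne_zero_of_mul_eq_one h1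
  exact eq_inv_of_mul_eq_one_right h1

end PCM
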