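import Pool.Agent.PCM.T1
import Pool.Agent.PCM.T2

/-!
# [PCM-D1] a multiplier bounded from below is invertible

Let `k = d/2` (`Nat` division), `μ` a law for `(d, 2k)` (`exists_law`, `d ≤ 2k+1`).  From `a * b = 1`: `R b = -(b^2 * R a)`
(`R_mul`, `R_one`).  Apply `mult_bound_gen` with `f := a` and `G i = ((-1)^i i!) • b^(i+1)`:
`R (b^{i+1}) = (i+1) b^i R b = -(i+1) b^{i+2} R a`, so `R (G i) = G (i+1) * R a`; `‖ev b z‖ ≤ 1/δ` (`ev_mul`, `ev_one`),
so `‖ev (G i) z‖ ≤ i! δ^{-(i+1)}`.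
-/

open MeasureTheory Set Filter Topology

namespace PCM

variable {d : ℕ}

private theorem d1_R_inv {a b : A d} (hab : a * b = 1) : R d b = -(b ^ 2 * R d a) := by
  have h1 : R d (a * b) = 0 := by rw [hab, R_one]
  rw [R_mul] at h1
  have h2 : b * (R d a * b + a * R d b) = 0 := by rw [h1, mul_zero]
  have h3 : R d b = (a * b) * R d b := by rw [hab, one_mul]
  have h4 : b * (R d a * b + a * R d b) = b ^ 2 * R d a + (a * b) * R d b := by ring
  rw [h4, ← h3] at h2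
  exact eq_neg_of_add_eq_zero_right h2

private theorem d1_R_pow {a b : A d} (hab : a * b = 1) (i : ℕ) :
    R d (b ^ (i + 1)) = -(((i : ℂ) + 1) • (b ^ (i + 2) * R d a)) := by
  induction i with
  | zero =>
    rw [zero_add, pow_one, d1_R_inv hab, Nat.cast_zero, zero_add, one_smul, zero_add]
  | succ i ih =>
    rw [pow_succ, R_mul, ih, d1_R_inv hab]
    push_cast
    simp only [MvPowerSeries.smul_eq_C_mul, map_add, map_one]
    ring

theorem isMult_inv {a b : A d} (ha : IsMult a) (hb : Conv b) (hab : a * b = 1) {δ : ℝ}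
    (hδ : 0 < δ) (h : ∀ z ∈ Ball d, δ ≤ ‖ev a z‖) : IsMult b := by
  obtain ⟨μ, hμ⟩ := exists_law d (2 * (d / 2)) (by omega)
  obtain ⟨M, hM1, hM⟩ := bounded_of_mult ha
  obtain ⟨C0, hC0, hC⟩ := mult_bound_gen (d / 2) μ hμ ha hM1 hM
  have hac : Conv a := conv_of_mem (mem_of_mult ha)
  have hbz : ∀ z ∈ Ball d, ‖ev b z‖ ≤ δ⁻¹ := by
    intro z hz
    have h1 : ev a z * ev b z = 1 := by rw [← ev_mul hac hb hz, hab, ev_one]
    have h2 : ‖ev a z‖ * ‖ev b z‖ = 1 := by rw [← norm_mul, h1, norm_one]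
    have h3 : δ * ‖ev b z‖ ≤ 1 := h2 ▸ mul_le_mul_of_nonneg_right (h z hz) (norm_nonneg _)
    rw [← one_div, le_div_iff₀ hδ, mul_comm]
    exact h3
  let G : ℕ → A d := fun i => (((-1 : ℂ) ^ i) * (i.factorial : ℂ)) • b ^ (i + 1)
  have hG0 : G 0 = b := by
    show (((-1 : ℂ) ^ 0) * ((Nat.factorial 0 : ℕ) : ℂ)) • b ^ (0 + 1) = b
    rw [pow_zero, Nat.factorial_zero, Nat.cast_one, one_mul, one_smul, zero_add, pow_one]
  have hGR : ∀ i, R d (G i) = G (i + 1) * R d a := by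
    intro i
    show R d ((((-1 : ℂ) ^ i) * (i.factorial : ℂ)) • b ^ (i + 1)) =
      ((((-1 : ℂ) ^ (i + 1)) * ((i + 1).factorial : ℂ)) • b ^ (i + 1 + 1)) * R d a
    rw [map_smul, d1_R_pow hab, Nat.factorial_succ, smul_neg, smul_smul, smul_mul_assoc, ← neg_smul]
    congr 1
    push_cast
    ring
  let A0 : ℝ := ∑ i ∈ Finset.range (d / 2 + 1), (i.factorial : ℝ) * (δ⁻¹) ^ (i + 1)
  have hA0 : 0 ≤ A0 := Finset.sum_nonneg fun i _ => by positivity
  have hGA : ∀ i ≤ d / 2, ∀ z ∈ Ball d, ‖ev (G i) z‖ ≤ A0 := by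
    intro i hi z hz
    have h1 : ‖ev (G i) z‖ = (i.factorial : ℝ) * ‖ev b z‖ ^ (i + 1) := by
      show ‖ev ((((-1 : ℂ) ^ i) * (i.factorial : ℂ)) • b ^ (i + 1)) z‖ = _
      rw [ev_smul, ev_pow hb _ hz, norm_mul, norm_mul, norm_pow, norm_neg, norm_one, one_pow,
        one_mul, Complex.norm_natCast, norm_pow]
    have h2 : (i.factorial : ℝ) * ‖ev b z‖ ^ (i + 1) ≤ (i.factorial : ℝ) * (δ⁻¹) ^ (i + 1) :=
      mul_le_mul_of_nonneg_left (pow_le_pow_left₀ (norm_nonneg _) (hbz z hz) _) (by positivity)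
    have h3 : (i.factorial : ℝ) * (δ⁻¹) ^ (i + 1) ≤ A0 :=
      Finset.single_le_sum (f := fun i : ℕ => (i.factorial : ℝ) * (δ⁻¹) ^ (i + 1))
        (fun j _ => by positivity) (Finset.mem_range.2 (Nat.lt_succ_of_le hi))
    rw [h1]
    exact h2.trans h3
  intro g hg
  have := (hC G A0 hA0 (fun i _ => conv_smul _ (conv_pow hb _)) (fun i _ => hGR i) hGA g hg).1
  rwa [hG0] at this

end PCM
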