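import Mathlib

/-!
# [PCM-D2] weak limits of bounded sequences stay in a closed subspace

Let `y` be orthogonal to `S`.  For a finset `s` let `y_s` be the truncation of `y`; `inner y_s (x j) → inner y_s x0`
(finite sums of coordinates), and `‖inner (y - y_s) (x j)‖ ≤ ‖y - y_s‖ B`, which is small (`lp.hasSum_single`).  So
`inner y (x j) → inner y x0`; the left side is `0`.  Hence `x0 ∈ Sᗮᗮ = S` (`S` closed in a complete space,
`Submodule.orthogonal_orthogonal`; see the proof of `hilbert_identity` in `P18.lean` for the pattern).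
-/

open MeasureTheory Set Filter Topology

namespace PCM

theorem mem_of_weak {ι : Type*} (S : Submodule ℂ (lp (fun _ : ι => ℂ) 2))
    (hS : IsClosed (S : Set (lp (fun _ : ι => ℂ) 2))) (x : ℕ → lp (fun _ : ι => ℂ) 2)
    (x0 : lp (fun _ : ι => ℂ) 2) (B : ℝ) (hB : ∀ j, ‖x j‖ ≤ B)
    (hx : ∀ i, Tendsto (fun j => x j i) atTop (𝓝 (x0 i))) (hmem : ∀ j, x j ∈ S) : x0 ∈ S := by
  classical
  have hcomp : CompleteSpace S := hS.completeSpace_coe
  rw [← Submodule.orthogonal_orthogonal S, Submodule.mem_orthogonal]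
  intro y hy
  have hy0 : ∀ j, inner ℂ y (x j) = 0 := fun j => by
    have h1 := (Submodule.mem_orthogonal S y).1 hy (x j) (hmem j)
    exact inner_eq_zero_symm.1 h1
  have key : Tendsto (fun j => inner ℂ y (x j)) atTop (𝓝 (inner ℂ y x0)) := by
    rw [Metric.tendsto_atTop]
    intro ε hε
    have hC : 0 < |B| + ‖x0‖ + 1 := by positivity
    obtain ⟨s, hs⟩ : ∃ s : Finset ι, ‖y - ∑ i ∈ s, lp.single 2 i (y i)‖ <
        ε / (2 * (|B| + ‖x0‖ + 1)) := by
      have h1 := lp.hasSum_single (E := fun _ : ι => ℂ) (p := 2) (by norm_num) y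
      have h2 := (Metric.tendsto_nhds.1 h1) (ε / (2 * (|B| + ‖x0‖ + 1))) (by positivity)
      obtain ⟨s, hs⟩ := h2.exists
      refine ⟨s, ?_⟩
      rw [← norm_neg, neg_sub]
      rwa [dist_eq_norm] at hs
    have h2 : Tendsto (fun j => inner ℂ (∑ i ∈ s, lp.single 2 i (y i)) (x j)) atTop
        (𝓝 (inner ℂ (∑ i ∈ s, lp.single 2 i (y i)) x0)) := by
      simp only [sum_inner, lp.inner_single_left]
      exact tendsto_finsetSum _ fun i _ => tendsto_const_nhds.inner (hx i)
    obtain ⟨N, hN⟩ := (Metric.tendsto_atTop.1 h2) (ε / 2) (by positivity)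
    refine ⟨N, fun j hj => ?_⟩
    have h3 := hN j hj
    rw [dist_eq_norm] at h3 ⊢
    have h4 : inner ℂ y (x j) - inner ℂ y x0 =
        inner ℂ (y - ∑ i ∈ s, lp.single 2 i (y i)) (x j - x0) +
        (inner ℂ (∑ i ∈ s, lp.single 2 i (y i)) (x j) -
          inner ℂ (∑ i ∈ s, lp.single 2 i (y i)) x0) := by
      rw [inner_sub_left, inner_sub_right, inner_sub_right]
      ring
    rw [h4]
    have h5 : ‖inner ℂ (y - ∑ i ∈ s, lp.single 2 i (y i)) (x j - x0)‖ ≤ ε / 2 := by
      have h6 : ‖x j - x0‖ ≤ |B| + ‖x0‖ + 1 := by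
        have h7 := norm_sub_le (x j) x0
        have h8 := hB j
        have h9 := le_abs_self B
        linarith
      calc ‖inner ℂ (y - ∑ i ∈ s, lp.single 2 i (y i)) (x j - x0)‖
          ≤ ‖y - ∑ i ∈ s, lp.single 2 i (y i)‖ * ‖x j - x0‖ := norm_inner_le_norm _ _
        _ ≤ (ε / (2 * (|B| + ‖x0‖ + 1))) * (|B| + ‖x0‖ + 1) :=
            mul_le_mul hs.le h6 (norm_nonneg _) (by positivity)
        _ = ε / 2 := by field_simp
    calc _ ≤ _ := norm_add_le _ _
      _ < ε / 2 + ε / 2 := add_lt_add_of_le_of_lt h5 h3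
      _ = ε := by ring
  have h0 : Tendsto (fun _ : ℕ => (0 : ℂ)) atTop (𝓝 (inner ℂ y x0)) := by
    refine key.congr fun j => hy0 j
  exact tendsto_nhds_unique h0 tendsto_const_nhds

end PCM
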