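import Pool.Agent.PCM.TDefs

open MeasureTheory Set Filter Topology

namespace PCM

variable {d : ℕ}

private theorem d3_bdd (f : A d) (h0 : MvPowerSeries.coeff 0 f ≠ 0) (l : ℕ → ℂ)
    (hl : Tendsto l atTop (𝓝 0)) (J : ℕ → A d) (hJ : ∀ j, (f - l j • (1 : A d)) * J j = 1)
    (n : ℕ) : ∀ α : Fin d →₀ ℕ, ∑ i, α i = n →
      ∃ B : ℝ, ∀ᶠ j in atTop, ‖MvPowerSeries.coeff α (J j)‖ ≤ B := by
  classical
  induction n using Nat.strong_induction_on with
  | _ n ih =>
    intro α hα
    have hrest : ∀ p ∈ (Finset.HasAntidiagonal.antidiagonal α).erase (0, α),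
        ∃ B : ℝ, ∀ᶠ j in atTop, ‖MvPowerSeries.coeff p.2 (J j)‖ ≤ B := by
      intro p hp
      rw [Finset.mem_erase, Finset.HasAntidiagonal.mem_antidiagonal] at hp
      have h1 : ∑ i, p.1 i + ∑ i, p.2 i = n := by
        rw [← hα, ← hp.2, ← Finset.sum_add_distrib]
        rfl
      have h2 : p.1 ≠ 0 := by
        intro h
        apply hp.1
        have h3 := hp.2
        rw [h, zero_add] at h3
        exact Prod.ext h h3
      have h3 : 0 < ∑ i, p.1 i := by
        rw [Nat.pos_iff_ne_zero]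
        intro h4
        apply h2
        ext i
        exact (Finset.sum_eq_zero_iff.1 h4) i (Finset.mem_univ i)
      exact ih (∑ i, p.2 i) (by omega) p.2 rfl
    have hrest2 : ∃ B : ℝ, ∀ᶠ j in atTop,
        ‖∑ p ∈ (Finset.HasAntidiagonal.antidiagonal α).erase (0, α),
          MvPowerSeries.coeff p.1 f * MvPowerSeries.coeff p.2 (J j)‖ ≤ B := by
      revert hrest
      generalize (Finset.HasAntidiagonal.antidiagonal α).erase (0, α) = s
      intro hrest
      induction s using Finset.induction_on with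
      | empty => exact ⟨0, Eventually.of_forall fun j => by simp⟩
      | insert a s ha ihs =>
        obtain ⟨B1, hB1⟩ := ihs fun p hp => hrest p (Finset.mem_insert_of_mem hp)
        obtain ⟨B2, hB2⟩ := hrest a (Finset.mem_insert_self _ _)
        refine ⟨‖MvPowerSeries.coeff a.1 f‖ * B2 + B1, ?_⟩
        filter_upwards [hB1, hB2] with j h1 h2
        rw [Finset.sum_insert ha]
        refine (norm_add_le _ _).trans (add_le_add ?_ h1)
        rw [norm_mul]
        exact mul_le_mul_of_nonneg_left h2 (norm_nonneg _)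
    obtain ⟨B, hB⟩ := hrest2
    have hpos : 0 < ‖MvPowerSeries.coeff 0 f‖ := norm_pos_iff.2 h0
    have hsmall : ∀ᶠ j in atTop, ‖l j‖ < ‖MvPowerSeries.coeff 0 f‖ / 2 := by
      have h1 : Tendsto (fun j => ‖l j‖) atTop (𝓝 0) := by
        have := hl.norm
        rwa [norm_zero] at this
      exact h1.eventually_lt_const (by linarith)
    refine ⟨2 * (1 + B) / ‖MvPowerSeries.coeff 0 f‖, ?_⟩
    filter_upwards [hB, hsmall] with j h1 h2
    have h3 : MvPowerSeries.coeff α ((f - l j • (1 : A d)) * J j) =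
        MvPowerSeries.coeff α (1 : A d) := by rw [hJ j]
    rw [sub_mul, smul_mul_assoc, one_mul, map_sub, map_smul, MvPowerSeries.coeff_mul,
      ← Finset.add_sum_erase (Finset.HasAntidiagonal.antidiagonal α)
        (fun p => MvPowerSeries.coeff p.1 f * MvPowerSeries.coeff p.2 (J j))
        (a := (0, α)) (by rw [Finset.HasAntidiagonal.mem_antidiagonal]; simp), smul_eq_mul] at h3
    have h4 : ‖MvPowerSeries.coeff α (1 : A d)‖ ≤ 1 := by
      rw [MvPowerSeries.coeff_one]
      split_ifs <;> simp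
    have h5 : (MvPowerSeries.coeff 0 f - l j) * MvPowerSeries.coeff α (J j) =
        MvPowerSeries.coeff α (1 : A d) -
          ∑ p ∈ (Finset.HasAntidiagonal.antidiagonal α).erase (0, α),
            MvPowerSeries.coeff p.1 f * MvPowerSeries.coeff p.2 (J j) := by
      rw [← h3]
      ring
    have h6 : ‖MvPowerSeries.coeff 0 f - l j‖ * ‖MvPowerSeries.coeff α (J j)‖ ≤ 1 + B := by
      rw [← norm_mul, h5]
      exact (norm_sub_le _ _).trans (add_le_add h4 h1)
    have h7 : ‖MvPowerSeries.coeff 0 f‖ / 2 ≤ ‖MvPowerSeries.coeff 0 f - l j‖ := by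
      have := norm_sub_norm_le (MvPowerSeries.coeff 0 f) (l j)
      linarith
    rw [le_div_iff₀ hpos]
    have h8 : 0 ≤ ‖MvPowerSeries.coeff α (J j)‖ := norm_nonneg _
    nlinarith

theorem coeff_tendsto (f b : A d) (h0 : MvPowerSeries.coeff 0 f ≠ 0) (l : ℕ → ℂ)
    (hl : Tendsto l atTop (𝓝 0)) (J : ℕ → A d) (hJ : ∀ j, (f - l j • (1 : A d)) * J j = 1)
    (α : Fin d →₀ ℕ) :
    Tendsto (fun j => MvPowerSeries.coeff α (l j • (b * J j))) atTop (𝓝 0) := by
  classical
  have h1 : ∀ j, MvPowerSeries.coeff α (l j • (b * J j)) =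
      ∑ p ∈ Finset.HasAntidiagonal.antidiagonal α,
        MvPowerSeries.coeff p.1 b * (l j * MvPowerSeries.coeff p.2 (J j)) := by
    intro j
    rw [map_smul, MvPowerSeries.coeff_mul, smul_eq_mul, Finset.mul_sum]
    exact Finset.sum_congr rfl fun p _ => by ring
  have h2 : Tendsto (fun j => ∑ p ∈ Finset.HasAntidiagonal.antidiagonal α,
      MvPowerSeries.coeff p.1 b * (l j * MvPowerSeries.coeff p.2 (J j))) atTop
      (𝓝 (∑ p ∈ Finset.HasAntidiagonal.antidiagonal α, MvPowerSeries.coeff p.1 b * 0)) := by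
    refine tendsto_finsetSum _ fun p _ => Tendsto.const_mul _ ?_
    obtain ⟨B, hB⟩ := d3_bdd f h0 l hl J hJ _ p.2 rfl
    exact hl.zero_mul_isBoundedUnder_le ⟨B, by simpa using hB⟩
  simp only [mul_zero, Finset.sum_const_zero] at h2
  exact h2.congr fun j => (h1 j).symm

end PCM
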