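import Mathlib

/-!
# [PCM-T4] weakly continuous functions into `ℓ^2`

For a finset `s` let `y_s` be the truncation of `y` (`lp.single` sums); `‖y - y_s‖ → 0` (`lp.hasSum_single`), and
`inner ℂ y_s (x t) = Σ_{i ∈ s} conj (y i) * x t i` is continuous in `t`; `‖inner ℂ (y - y_s) (x t)‖ ≤ ‖y - y_s‖ B`.
So `t ↦ inner ℂ y (x t)` is a uniform limit on `[0,N]` of continuous functions (a).
(b) `inner ℂ y_s z = Σ_{i ∈ s} conj (y i) ∫ w t * x t i = ∫ w t * inner ℂ y_s (x t)`, and both sides converge: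
`‖∫ w t * inner ℂ (y - y_s) (x t)‖ ≤ N sup‖w‖ ‖y - y_s‖ B`.
-/

open MeasureTheory Set Filter Topology

namespace PCM

/-- truncation to a finset -/
private noncomputable def t4_tr {ι : Type*} (y : lp (fun _ : ι => ℂ) 2) (s : Finset ι) :
    lp (fun _ : ι => ℂ) 2 := by
  classical
  exact ∑ i ∈ s, lp.single 2 i (y i)

private theorem t4_tr_inner {ι : Type*} (y : lp (fun _ : ι => ℂ) 2) (s : Finset ι)
    (x : lp (fun _ : ι => ℂ) 2) :
    inner ℂ (t4_tr y s) x = ∑ i ∈ s, (x i) * (starRingEnd ℂ) (y i) := by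
  classical
  unfold t4_tr
  rw [sum_inner]
  refine Finset.sum_congr rfl fun i _ => ?_
  rw [lp.inner_single_left]
  rfl

private theorem t4_tr_tendsto {ι : Type*} (y : lp (fun _ : ι => ℂ) 2) :
    Tendsto (fun s : Finset ι => ‖y - t4_tr y s‖) atTop (𝓝 0) := by
  classical
  have h := lp.hasSum_single (p := 2) (by norm_num) y
  have h1 : Tendsto (fun s : Finset ι => t4_tr y s) atTop (𝓝 y) := h
  have h2 := (tendsto_const_nhds (x := y)).sub h1
  rw [sub_self] at h2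
  simpa using h2.norm

private theorem t4_exists {ι : Type*} (y : lp (fun _ : ι => ℂ) 2) (ε : ℝ) (hε : 0 < ε) :
    ∃ s : Finset ι, ‖y - t4_tr y s‖ < ε := by
  have h := (t4_tr_tendsto y).eventually (gt_mem_nhds hε)
  exact h.exists

private theorem t4_cont {ι : Type*} (x : ℝ → lp (fun _ : ι => ℂ) 2) (N : ℝ)
    (hx : ∀ i, ContinuousOn (fun t => x t i) (Icc 0 N))
    (y : lp (fun _ : ι => ℂ) 2) (s : Finset ι) :
    ContinuousOn (fun t => inner ℂ (t4_tr y s) (x t)) (Icc 0 N) := by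
  have e : (fun t => inner ℂ (t4_tr y s) (x t)) =
      fun t => ∑ i ∈ s, (x t i) * (starRingEnd ℂ) (y i) := by
    funext t
    exact t4_tr_inner y s (x t)
  rw [e]
  refine continuousOn_finsetSum _ fun i _ => ?_
  exact (hx i).mul continuousOn_const

theorem lp_inner_continuousOn {ι : Type*} (x : ℝ → lp (fun _ : ι => ℂ) 2) (N B : ℝ)
    (hB : ∀ t ∈ Icc (0 : ℝ) N, ‖x t‖ ≤ B) (hx : ∀ i, ContinuousOn (fun t => x t i) (Icc 0 N))
    (y : lp (fun _ : ι => ℂ) 2) : ContinuousOn (fun t => inner ℂ y (x t)) (Icc 0 N) := by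
  have hu : TendstoUniformlyOn (fun (s : Finset ι) t => inner ℂ (t4_tr y s) (x t))
      (fun t => inner ℂ y (x t)) atTop (Icc 0 N) := by
    rw [Metric.tendstoUniformlyOn_iff]
    intro ε hε
    have hpos : 0 < ε / (|B| + 1) := by positivity
    filter_upwards [(t4_tr_tendsto y).eventually (gt_mem_nhds hpos)] with s hs t ht
    rw [dist_eq_norm, ← inner_sub_left]
    have h1 : ‖(inner ℂ (y - t4_tr y s) (x t) : ℂ)‖ ≤ ‖y - t4_tr y s‖ * ‖x t‖ := norm_inner_le_norm _ _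
    have h2 : ‖x t‖ ≤ |B| := (hB t ht).trans (le_abs_self B)
    have hB1 : 0 < |B| + 1 := by positivity
    calc ‖(inner ℂ (y - t4_tr y s) (x t) : ℂ)‖ ≤ ‖y - t4_tr y s‖ * ‖x t‖ := h1
      _ ≤ ‖y - t4_tr y s‖ * |B| := mul_le_mul_of_nonneg_left h2 (norm_nonneg _)
      _ ≤ ‖y - t4_tr y s‖ * (|B| + 1) :=
          mul_le_mul_of_nonneg_left (by linarith) (norm_nonneg _)
      _ < ε / (|B| + 1) * (|B| + 1) := mul_lt_mul_of_pos_right hs hB1
      _ = ε := div_mul_cancel₀ ε hB1.ne'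
  exact hu.continuousOn (Filter.Frequently.of_forall fun s => t4_cont x N hx y s)

theorem lp_inner_integral {ι : Type*} (x : ℝ → lp (fun _ : ι => ℂ) 2) (N B : ℝ) (hN : 0 ≤ N)
    (hB : ∀ t ∈ Icc (0 : ℝ) N, ‖x t‖ ≤ B) (hx : ∀ i, ContinuousOn (fun t => x t i) (Icc 0 N))
    (y : lp (fun _ : ι => ℂ) 2) (w : ℝ → ℂ) (hw : Continuous w) (z : lp (fun _ : ι => ℂ) 2)
    (hz : ∀ i, z i = ∫ t in (0 : ℝ)..N, w t * x t i) :
    inner ℂ y z = ∫ t in (0 : ℝ)..N, w t * inner ℂ y (x t) := by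
  obtain ⟨W, hW0, hW⟩ : ∃ W : ℝ, 0 ≤ W ∧ ∀ t ∈ Icc (0 : ℝ) N, ‖w t‖ ≤ W := by
    obtain ⟨C, hC⟩ := (isCompact_Icc (a := (0 : ℝ)) (b := N)).exists_bound_of_continuousOn
      hw.continuousOn
    exact ⟨|C|, abs_nonneg C, fun t ht => (hC t ht).trans (le_abs_self C)⟩
  have huIcc : uIcc (0 : ℝ) N = Icc 0 N := uIcc_of_le hN
  have hfin : ∀ s : Finset ι,
      inner ℂ (t4_tr y s) z = ∫ t in (0 : ℝ)..N, w t * inner ℂ (t4_tr y s) (x t) := by
    intro s
    rw [t4_tr_inner]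
    have e1 : ∀ t, w t * inner ℂ (t4_tr y s) (x t) =
        ∑ i ∈ s, (w t * x t i) * (starRingEnd ℂ) (y i) := by
      intro t
      rw [t4_tr_inner, Finset.mul_sum]
      exact Finset.sum_congr rfl fun i _ => by ring
    simp_rw [e1]
    rw [intervalIntegral.integral_finsetSum]
    · refine Finset.sum_congr rfl fun i _ => ?_
      rw [intervalIntegral.integral_mul_const, ← hz i]
    · intro i _
      apply ContinuousOn.intervalIntegrable
      rw [huIcc]
      exact (hw.continuousOn.mul (hx i)).mul continuousOn_const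
  have hint : ∀ u : lp (fun _ : ι => ℂ) 2, IntervalIntegrable
      (fun t => w t * inner ℂ u (x t)) volume 0 N := by
    intro u
    apply ContinuousOn.intervalIntegrable
    rw [huIcc]
    exact hw.continuousOn.mul (lp_inner_continuousOn x N B hB hx u)
  have hbd : ∀ s : Finset ι,
      ‖inner ℂ y z - ∫ t in (0 : ℝ)..N, w t * inner ℂ y (x t)‖ ≤
        ‖y - t4_tr y s‖ * (‖z‖ + W * |B| * N) := by
    intro s
    have e2 : inner ℂ y z - ∫ t in (0 : ℝ)..N, w t * inner ℂ y (x t) =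
        inner ℂ (y - t4_tr y s) z - ∫ t in (0 : ℝ)..N, w t * inner ℂ (y - t4_tr y s) (x t) := by
      have e3 : (fun t => w t * inner ℂ (y - t4_tr y s) (x t)) =
          fun t => w t * inner ℂ y (x t) - w t * inner ℂ (t4_tr y s) (x t) := by
        funext t
        rw [inner_sub_left]
        ring
      rw [e3, intervalIntegral.integral_sub (hint y) (hint (t4_tr y s)), inner_sub_left, ← hfin s]
      ring
    rw [e2]
    have h1 : ‖(inner ℂ (y - t4_tr y s) z : ℂ)‖ ≤ ‖y - t4_tr y s‖ * ‖z‖ := norm_inner_le_norm _ _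
    have h2 : ‖∫ t in (0 : ℝ)..N, w t * inner ℂ (y - t4_tr y s) (x t)‖ ≤
        (W * (‖y - t4_tr y s‖ * |B|)) * |N - 0| := by
      apply intervalIntegral.norm_integral_le_of_norm_le_const
      intro t ht
      have ht' : t ∈ Icc (0 : ℝ) N := by
        rw [uIoc_of_le hN] at ht
        exact ⟨ht.1.le, ht.2⟩
      rw [norm_mul]
      have h3 : ‖(inner ℂ (y - t4_tr y s) (x t) : ℂ)‖ ≤ ‖y - t4_tr y s‖ * |B| :=
        (norm_inner_le_norm _ _).trans
          (mul_le_mul_of_nonneg_left ((hB t ht').trans (le_abs_self B)) (norm_nonneg _))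
      exact mul_le_mul (hW t ht') h3 (norm_nonneg _) hW0
    rw [sub_zero, abs_of_nonneg hN] at h2
    calc ‖(inner ℂ (y - t4_tr y s) z : ℂ) - ∫ t in (0 : ℝ)..N, w t * inner ℂ (y - t4_tr y s) (x t)‖
        ≤ ‖(inner ℂ (y - t4_tr y s) z : ℂ)‖ +
          ‖∫ t in (0 : ℝ)..N, w t * inner ℂ (y - t4_tr y s) (x t)‖ := norm_sub_le _ _
      _ ≤ ‖y - t4_tr y s‖ * ‖z‖ + (W * (‖y - t4_tr y s‖ * |B|)) * N := add_le_add h1 h2
      _ = ‖y - t4_tr y s‖ * (‖z‖ + W * |B| * N) := by ring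
  have hlim : Tendsto (fun s : Finset ι => ‖y - t4_tr y s‖ * (‖z‖ + W * |B| * N)) atTop (𝓝 0) := by
    have := (t4_tr_tendsto y).mul_const (‖z‖ + W * |B| * N)
    rwa [zero_mul] at this
  have h0 : ‖inner ℂ y z - ∫ t in (0 : ℝ)..N, w t * inner ℂ y (x t)‖ ≤ 0 :=
    ge_of_tendsto' hlim hbd
  exact sub_eq_zero.1 (norm_le_zero_iff.1 h0)

end PCM
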