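import Pool.Agent.PCM.T3
import Pool.Agent.PCM.T4

/-!
# [PCM-T5] the resolvent identity

Put `N = k + 1`.  For every `α` the function `φ t = exp (w t) * coeff α (P (k+t) * J)` of the real variable `t` has the
derivative `exp (w t) (w coeff α (P J) - coeff α (F P J)) = - exp (w t) coeff α (P (k+t) * ((F - w • 1) * J))
= - exp (w t) coeff α (P (k+t))` (`hasDerivAt_coeff_mul`, chain rule, `hJ`); hence (FTC)
`coeff α (f^k J) - exp (w N) coeff α (f^{2k+1} J) = ∫_0^N exp (w t) coeff α (P (k+t)) dt`.  Multiply by `√(wt α)`: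
the vector `z = toE (f^k J) - exp (w N) • toE (f^{2k+1} J)` satisfies the hypothesis of `lp_inner_integral` with the
weight `exp (w t)`; the coordinates of `x t` are `√(wt α) coeff α (P (k+t))`, continuous in `t` (`hPd`).  Since
`inner y (toE (f^{2k+1} J)) = 0` the claim follows.
-/

open MeasureTheory Set Filter Topology

namespace PCM

variable {d : ℕ}

theorem inner_resolvent (k : ℕ) (f F : A d) (hF : Conv F) (P : ℂ → A d)
    (hPc : ∀ s, Conv (P s))
    (hPe : ∀ s, ∀ z ∈ Ball d, ev (P s) z = Complex.exp (-(s * ev F z)))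
    (hPd : ∀ α, Differentiable ℂ (fun s => MvPowerSeries.coeff α (P s)))
    (hPn : ∀ n : ℕ, P (n : ℂ) = f ^ n) (B : ℝ)
    (hmem : ∀ t ∈ Icc (0 : ℝ) ((k : ℝ) + 1), P ((k : ℂ) + (t : ℂ)) ∈ H2 d)
    (x : ℝ → E d) (hxB : ∀ t ∈ Icc (0 : ℝ) ((k : ℝ) + 1), ‖x t‖ ≤ B)
    (hx : ∀ t (ht : t ∈ Icc (0 : ℝ) ((k : ℝ) + 1)), x t = toE (P ((k : ℂ) + (t : ℂ))) (hmem t ht))
    (y : E d) (w : ℂ) (J : A d) (hJ : (F - w • (1 : A d)) * J = 1)
    (hm1 : f ^ k * J ∈ H2 d) (hm2 : f ^ (2 * k + 1) * J ∈ H2 d)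
    (hy : inner ℂ y (toE (f ^ (2 * k + 1) * J) hm2) = 0) :
    inner ℂ y (toE (f ^ k * J) hm1) =
      ∫ t in (0 : ℝ)..((k : ℝ) + 1), Complex.exp (w * t) * inner ℂ y (x t) := by
  have hN0 : (0 : ℝ) ≤ (k : ℝ) + 1 := by positivity
  have hcont : ∀ α, Continuous (fun t : ℝ => MvPowerSeries.coeff α (P ((k : ℂ) + (t : ℂ)))) :=
    fun α => (hPd α).continuous.comp (continuous_const.add Complex.continuous_ofReal)
  have hexp : Continuous (fun t : ℝ => Complex.exp (w * (t : ℂ))) :=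
    Complex.continuous_exp.comp (continuous_const.mul Complex.continuous_ofReal)
  have hder : ∀ α (t : ℝ), HasDerivAt
      (fun t : ℝ => Complex.exp (w * (t : ℂ)) * MvPowerSeries.coeff α (P ((k : ℂ) + (t : ℂ)) * J))
      (-(Complex.exp (w * (t : ℂ)) * MvPowerSeries.coeff α (P ((k : ℂ) + (t : ℂ))))) t := by
    intro α t
    have h1 : HasDerivAt (fun s : ℂ => MvPowerSeries.coeff α (P s * J))
        (-MvPowerSeries.coeff α (F * (P ((k : ℂ) + (t : ℂ)) * J))) ((k : ℂ) + (t : ℂ)) :=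
      hasDerivAt_coeff_mul F hF P hPc hPe hPd J α _
    have h2 : HasDerivAt (fun s : ℂ => (k : ℂ) + s) 1 (t : ℂ) := by
      simpa using (hasDerivAt_id (t : ℂ)).const_add (k : ℂ)
    have h3 : HasDerivAt (fun s : ℂ => MvPowerSeries.coeff α (P ((k : ℂ) + s) * J))
        (-MvPowerSeries.coeff α (F * (P ((k : ℂ) + (t : ℂ)) * J)) * 1) (t : ℂ) :=
      HasDerivAt.comp (t : ℂ) h1 h2
    have h4 : HasDerivAt (fun s : ℂ => Complex.exp (w * s)) (Complex.exp (w * (t : ℂ)) * w)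
        (t : ℂ) := by
      simpa using ((hasDerivAt_id (t : ℂ)).const_mul w).cexp
    have h5 := (h4.mul h3).comp_ofReal
    have h6 : F * (P ((k : ℂ) + (t : ℂ)) * J) =
        P ((k : ℂ) + (t : ℂ)) + w • (P ((k : ℂ) + (t : ℂ)) * J) := by
      have h7 : F * (P ((k : ℂ) + (t : ℂ)) * J) - w • (P ((k : ℂ) + (t : ℂ)) * J) =
          P ((k : ℂ) + (t : ℂ)) * ((F - w • (1 : A d)) * J) := by
        rw [MvPowerSeries.smul_eq_C_mul, MvPowerSeries.smul_eq_C_mul]
        ring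
      rw [hJ, mul_one] at h7
      exact sub_eq_iff_eq_add.1 h7
    refine HasDerivAt.congr_deriv h5 ?_
    rw [h6, map_add, map_smul, smul_eq_mul]
    ring
  have hint : ∀ α, MvPowerSeries.coeff α (f ^ k * J) -
      Complex.exp (w * (((k : ℝ) + 1 : ℝ) : ℂ)) * MvPowerSeries.coeff α (f ^ (2 * k + 1) * J) =
      ∫ t in (0 : ℝ)..((k : ℝ) + 1), Complex.exp (w * (t : ℂ)) *
        MvPowerSeries.coeff α (P ((k : ℂ) + (t : ℂ))) := by
    intro α
    have h1 := intervalIntegral.integral_eq_sub_of_hasDerivAt (a := 0) (b := (k : ℝ) + 1)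
      (fun t _ => hder α t) ((hexp.mul (hcont α)).neg.intervalIntegrable _ _)
    rw [intervalIntegral.integral_neg] at h1
    have h2 : P ((k : ℂ) + (((k : ℝ) + 1 : ℝ) : ℂ)) = f ^ (2 * k + 1) := by
      rw [← hPn]
      congr 1
      push_cast
      ring
    have h3 : P ((k : ℂ) + ((0 : ℝ) : ℂ)) = f ^ k := by
      rw [← hPn]
      congr 1
      push_cast
      ring
    rw [h2, h3, Complex.ofReal_zero, mul_zero, Complex.exp_zero, one_mul] at h1
    linear_combination h1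
  have hxc : ∀ (α : Fin d →₀ ℕ) (t : ℝ), t ∈ Icc (0 : ℝ) ((k : ℝ) + 1) →
      (x t : ∀ _ : (Fin d →₀ ℕ), ℂ) α = ((Real.sqrt (wt α) : ℝ) : ℂ) *
        MvPowerSeries.coeff α (P ((k : ℂ) + (t : ℂ))) := by
    intro α t ht
    rw [hx t ht]
    rfl
  have key := lp_inner_integral x ((k : ℝ) + 1) B hN0 hxB
    (fun α => (continuous_const.mul (hcont α)).continuousOn.congr (fun t ht => hxc α t ht)) y
    (fun t => Complex.exp (w * (t : ℂ))) hexp
    (toE (f ^ k * J) hm1 - Complex.exp (w * (((k : ℝ) + 1 : ℝ) : ℂ)) •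
      toE (f ^ (2 * k + 1) * J) hm2) ?_
  · rw [inner_sub_right, inner_smul_right, hy, mul_zero, sub_zero] at key
    exact key
  · intro α
    have h1 : (toE (f ^ k * J) hm1 - Complex.exp (w * (((k : ℝ) + 1 : ℝ) : ℂ)) •
        toE (f ^ (2 * k + 1) * J) hm2 : ∀ _ : (Fin d →₀ ℕ), ℂ) α =
        ((Real.sqrt (wt α) : ℝ) : ℂ) * MvPowerSeries.coeff α (f ^ k * J) -
        Complex.exp (w * (((k : ℝ) + 1 : ℝ) : ℂ)) *
        (((Real.sqrt (wt α) : ℝ) : ℂ) * MvPowerSeries.coeff α (f ^ (2 * k + 1) * J)) := rfl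
    rw [intervalIntegral.integral_congr (g := fun t : ℝ => ((Real.sqrt (wt α) : ℝ) : ℂ) *
      (Complex.exp (w * (t : ℂ)) * MvPowerSeries.coeff α (P ((k : ℂ) + (t : ℂ)))))]
    · rw [intervalIntegral.integral_const_mul, ← hint α]
      refine h1.trans ?_
      ring
    · intro t ht
      rw [uIcc_of_le hN0] at ht
      show Complex.exp (w * (t : ℂ)) * (x t : ∀ _ : (Fin d →₀ ℕ), ℂ) α = _
      rw [hxc α t ht]
      ring

end PCM
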