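import Pool.Agent.PCM.T1

/-!
# [PCM-T6] multiplier norm of `f^k u` when `f R u = Q(u) R f`

Define polynomials `q_0 = X`, `q_{i+1} = (k-i) q_i + Q q_i'` (derivative `Polynomial.derivative`), and
`G i = f^(k-i) * aeval u (q_i)` for `i ≤ k`.  For `i < k`:
`R (G i) = (k-i) f^{k-i-1} R f q_i(u) + f^{k-i} q_i'(u) R u` (`R_mul`; `R (aeval u q) = aeval u q' * R u` by
`Polynomial.induction_on` from `R_mul`, `R_one`, linearity; `R (f^{m+1}) = (m+1) f^m R f`), and
`f^{k-i} R u = f^{k-i-1} Q(u) R f` by the hypothesis; so `R (G i) = G (i+1) * R f`.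
`G i` is convergent (`conv_pow`, `conv_mul`, `conv_sum`, `Polynomial.aeval_eq_sum_range`), and
`‖ev (G i) z‖ ≤ M^k * Σ_j ‖coeff j q_i‖ U^j` (`sup_bound` gives `‖ev f z‖ ≤ M`, `M ≥ 1`; WLOG `U ≥ 0`, otherwise use
`max U 0`).  Apply `mult_bound_gen` with `A0` = the maximum (or the sum) over `i ≤ k` of these bounds; it depends only on
`k, Q, U, M`.
-/

open MeasureTheory Set Filter Topology

namespace PCM

variable {d : ℕ}

private theorem t6_R_pow (h : A d) (p : ℕ) : R d (h ^ (p + 1)) = ((p + 1 : ℕ) : ℂ) • (h ^ p * R d h) := by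
  induction p with
  | zero => simp
  | succ p ih =>
    rw [pow_succ, R_mul, ih, MvPowerSeries.smul_eq_C_mul, MvPowerSeries.smul_eq_C_mul]
    push_cast
    rw [map_add, map_add, map_add, map_one]
    ring

private theorem t6_R_aeval (u : A d) (q : Polynomial ℂ) :
    R d (Polynomial.aeval u q) = Polynomial.aeval u q.derivative * R d u := by
  induction q using Polynomial.induction_on' with
  | add p q hp hq =>
    rw [map_add, map_add, hp, hq, Polynomial.derivative_add, map_add, add_mul]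
  | monomial n c =>
    rw [Polynomial.derivative_monomial, Polynomial.aeval_monomial, Polynomial.aeval_monomial]
    cases n with
    | zero =>
      rw [pow_zero, mul_one, Nat.cast_zero, mul_zero, map_zero, zero_mul, zero_mul,
        Algebra.algebraMap_eq_smul_one, map_smul, R_one, smul_zero]
    | succ n =>
      rw [Algebra.algebraMap_eq_smul_one, Algebra.algebraMap_eq_smul_one, smul_mul_assoc, one_mul,
        map_smul, t6_R_pow, Nat.add_sub_cancel, smul_smul, smul_mul_assoc, smul_mul_assoc, one_mul]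

private theorem t6_conv {u : A d} (hu : Conv u) (q : Polynomial ℂ) : Conv (Polynomial.aeval u q) := by
  induction q using Polynomial.induction_on' with
  | add p q hp hq =>
    rw [map_add]
    exact conv_add hp hq
  | monomial n c =>
    rw [Polynomial.aeval_monomial, Algebra.algebraMap_eq_smul_one, smul_mul_assoc, one_mul]
    exact conv_smul c (conv_pow hu n)

private theorem t6_ev {u : A d} (hu : Conv u) (q : Polynomial ℂ) {z : Fin d → ℂ} (hz : z ∈ Ball d) :
    ev (Polynomial.aeval u q) z = q.eval (ev u z) := by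
  induction q using Polynomial.induction_on' with
  | add p q hp hq =>
    rw [map_add, ev_add (t6_conv hu p) (t6_conv hu q) hz, hp, hq, Polynomial.eval_add]
  | monomial n c =>
    rw [Polynomial.aeval_monomial, Algebra.algebraMap_eq_smul_one, smul_mul_assoc, one_mul,
      ev_smul, ev_pow hu n hz, Polynomial.eval_monomial]

private theorem t6_bound (q : Polynomial ℂ) {x : ℂ} {V : ℝ} (hx : ‖x‖ ≤ V) :
    ‖q.eval x‖ ≤ ∑ j ∈ q.support, ‖q.coeff j‖ * V ^ j := by
  rw [Polynomial.eval_eq_sum]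
  unfold Polynomial.sum
  refine (norm_sum_le _ _).trans (Finset.sum_le_sum fun j _ => ?_)
  rw [norm_mul, norm_pow]
  exact mul_le_mul_of_nonneg_left (pow_le_pow_left₀ (norm_nonneg _) hx j) (norm_nonneg _)

/-- the polynomials `q_i` -/
private noncomputable def t6_q (k : ℕ) (Q : Polynomial ℂ) : ℕ → Polynomial ℂ
  | 0 => Polynomial.X
  | i + 1 => Polynomial.C (((k - i : ℕ) : ℕ) : ℂ) * t6_q k Q i + Q * (t6_q k Q i).derivative

theorem mult_poly (k : ℕ) (μ : Measure (Fin d → ℂ)) (hμ : IsLaw d (2 * k) μ) {f : A d}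
    (hf : IsMult f) {M : ℝ} (hM1 : 1 ≤ M) (hM : ∀ g ∈ H2 d, nrm (f * g) ≤ M * nrm g)
    (Q : Polynomial ℂ) (U : ℝ) :
    ∃ C1 : ℝ, 0 ≤ C1 ∧ ∀ u : A d, Conv u → (∀ z ∈ Ball d, ‖ev u z‖ ≤ U) →
      f * R d u = Polynomial.aeval u Q * R d f →
      ∀ g ∈ H2 d, f ^ k * u * g ∈ H2 d ∧ nrm (f ^ k * u * g) ≤ C1 * nrm g := by
  obtain ⟨C0, hC0, hmain⟩ := mult_bound_gen k μ hμ hf hM1 hM
  have hfc : Conv f := conv_of_mem (mem_of_mult hf)
  have hM0 : 0 ≤ M := by linarith
  set V : ℝ := max U 0 with hV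
  have hV0 : 0 ≤ V := le_max_right _ _
  set B : ℕ → ℝ := fun i => ∑ j ∈ (t6_q k Q i).support, ‖(t6_q k Q i).coeff j‖ * V ^ j with hB
  have hB0 : ∀ i, 0 ≤ B i := fun i => Finset.sum_nonneg fun j _ => by positivity
  set A0 : ℝ := ∑ i ∈ Finset.range (k + 1), M ^ k * B i with hA0
  have hA00 : 0 ≤ A0 := Finset.sum_nonneg fun i _ => mul_nonneg (pow_nonneg hM0 _) (hB0 i)
  refine ⟨C0 * A0, mul_nonneg hC0 hA00, fun u hu hub hfu g hg => ?_⟩
  have h1 := hmain (fun i => f ^ (k - i) * Polynomial.aeval u (t6_q k Q i)) A0 hA00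
    (fun i _ => conv_mul (conv_pow hfc _) (t6_conv hu _)) ?_ ?_ g hg
  · have h2 : f ^ (k - 0) * Polynomial.aeval u (t6_q k Q 0) = f ^ k * u := by
      rw [Nat.sub_zero]
      unfold t6_q
      rw [Polynomial.aeval_X]
    rw [h2] at h1
    exact h1
  · intro i hi
    obtain ⟨m, hm⟩ : ∃ m, k - i = m + 1 := ⟨k - i - 1, by omega⟩
    have hm2 : k - (i + 1) = m := by omega
    rw [hm, hm2, R_mul, t6_R_pow, t6_R_aeval]
    have h3 : t6_q k Q (i + 1) = Polynomial.C (((k - i : ℕ) : ℕ) : ℂ) * t6_q k Q i +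
        Q * (t6_q k Q i).derivative := rfl
    rw [h3, hm, map_add, map_mul, map_mul, Polynomial.aeval_C, Algebra.algebraMap_eq_smul_one]
    simp only [MvPowerSeries.smul_eq_C_mul]
    have h4 : f ^ (m + 1) * (Polynomial.aeval u (t6_q k Q i).derivative * R d u) =
        f ^ m * Polynomial.aeval u (t6_q k Q i).derivative * (f * R d u) := by
      rw [pow_succ]
      ring
    rw [h4, hfu]
    ring
  · intro i hi z hz
    rw [ev_mul (conv_pow hfc _) (t6_conv hu _) hz, ev_pow hfc _ hz, t6_ev hu _ hz, norm_mul, norm_pow]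
    have h5 : ‖ev f z‖ ^ (k - i) ≤ M ^ k :=
      (pow_le_pow_left₀ (norm_nonneg _) (sup_bound hf hM1 hM hz) _).trans
        (pow_le_pow_right₀ hM1 (Nat.sub_le k i))
    have h6 : ‖(t6_q k Q i).eval (ev u z)‖ ≤ B i := t6_bound _ ((hub z hz).trans (le_max_left _ _))
    calc ‖ev f z‖ ^ (k - i) * ‖(t6_q k Q i).eval (ev u z)‖ ≤ M ^ k * B i :=
          mul_le_mul h5 h6 (norm_nonneg _) (pow_nonneg hM0 _)
      _ ≤ A0 := Finset.single_le_sum (f := fun i => M ^ k * B i)
          (fun j _ => mul_nonneg (pow_nonneg hM0 _) (hB0 j))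
          (Finset.mem_range.2 (Nat.lt_succ_of_le hi))

end PCM
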