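import Mathlib

/-!
# [PCM-T7] finite Laplace transforms

`laplace_entire`: differentiate under the integral sign (`intervalIntegral.hasDerivAt_integral_of_dominated_loc_of_deriv_le`
or `hasDerivAt_integral_of_dominated_loc_of_deriv_le`; `h` is bounded by `B` on `[0,N]`), bound
`‖∫‖ ≤ N B exp (N ‖w‖)`; take `a = max (N B) N` (and `a ≥ 0`).
`laplace_const`: put `w = -x`, `x → ∞` real.  `∫_0^N exp (-x t) h t dt → 0` (its norm is `≤ B/x`), so `c = 0`.  Also
`x ∫_0^N exp (-x t) h t dt → h 0`: `x ∫_0^N exp (-x t) dt = 1 - exp (-x N) → 1`, and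
`x ∫_0^N exp (-x t) ‖h t - h 0‖ dt ≤ sup_{t ≤ η} ‖h t - h 0‖ + 2 B exp (-x η)` for every `0 < η ≤ N`.  Hence `h 0 = 0`.
-/

open MeasureTheory Set Filter Topology

namespace PCM

private theorem t7_bound (h : ℝ → ℂ) (N : ℝ) (hN : 0 < N) (hh : ContinuousOn h (Icc 0 N)) :
    ∃ B : ℝ, 0 ≤ B ∧ ∀ t ∈ Icc (0 : ℝ) N, ‖h t‖ ≤ B := by
  obtain ⟨C, hC⟩ := isCompact_Icc.exists_bound_of_continuousOn hh
  exact ⟨C, (norm_nonneg _).trans (hC 0 (left_mem_Icc.2 hN.le)), hC⟩

private theorem t7_mem {N : ℝ} (hN : 0 < N) {t : ℝ} (ht : t ∈ uIoc (0 : ℝ) N) : t ∈ Icc (0 : ℝ) N := by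
  rw [uIoc_of_le hN.le] at ht
  exact Ioc_subset_Icc_self ht

private theorem t7_cont {N : ℝ} (hN : 0 < N) {h : ℝ → ℂ} (hh : ContinuousOn h (Icc 0 N)) (g : ℝ → ℂ)
    (hg : Continuous g) : IntervalIntegrable (fun t => g t * h t) volume 0 N := by
  apply ContinuousOn.intervalIntegrable
  rw [uIcc_of_le hN.le]
  exact hg.continuousOn.mul hh

theorem laplace_entire (h : ℝ → ℂ) (N : ℝ) (hN : 0 < N) (hh : ContinuousOn h (Icc 0 N)) :
    Differentiable ℂ (fun w : ℂ => ∫ t in (0 : ℝ)..N, Complex.exp (w * t) * h t) ∧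
      ∃ a : ℝ, ∀ w : ℂ, ‖∫ t in (0 : ℝ)..N, Complex.exp (w * t) * h t‖ ≤
        a * Real.exp (a * ‖w‖) := by
  obtain ⟨B, hB0, hB⟩ := t7_bound h N hN hh
  have hexp : ∀ (w : ℂ) (t : ℝ), t ∈ Icc (0 : ℝ) N → ‖Complex.exp (w * t)‖ ≤ Real.exp (N * ‖w‖) := by
    intro w t ht
    rw [Complex.norm_exp]
    apply Real.exp_le_exp.2
    calc (w * t).re ≤ ‖w * t‖ := Complex.re_le_norm _
      _ = ‖w‖ * t := by rw [norm_mul, Complex.norm_real, Real.norm_of_nonneg ht.1]
      _ ≤ ‖w‖ * N := mul_le_mul_of_nonneg_left ht.2 (norm_nonneg _)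
      _ = N * ‖w‖ := mul_comm _ _
  have hmeas : ∀ g : ℝ → ℂ, Continuous g →
      AEStronglyMeasurable (fun t => g t * h t) (volume.restrict (uIoc (0 : ℝ) N)) := by
    intro g hg
    apply ContinuousOn.aestronglyMeasurable _ measurableSet_uIoc
    exact (hg.continuousOn.mul hh).mono fun t ht => t7_mem hN ht
  constructor
  · intro w₀
    have key := intervalIntegral.hasDerivAt_integral_of_dominated_loc_of_deriv_le
      (μ := volume) (a := (0 : ℝ)) (b := N) (x₀ := w₀) (s := Metric.ball w₀ 1)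
      (F := fun (w : ℂ) (t : ℝ) => Complex.exp (w * t) * h t)
      (F' := fun (w : ℂ) (t : ℝ) => (Complex.exp (w * t) * t) * h t)
      (bound := fun _ => Real.exp (N * (‖w₀‖ + 1)) * N * B)
      (Metric.ball_mem_nhds w₀ one_pos)
      (Eventually.of_forall fun w => hmeas _ (by fun_prop))
      (t7_cont hN hh _ (by fun_prop)) (hmeas _ (by fun_prop)) ?_ ?_ ?_
    · exact key.2.differentiableAt
    · refine Eventually.of_forall fun t ht w hw => ?_
      have ht' := t7_mem hN ht
      have h1 : ‖w‖ ≤ ‖w₀‖ + 1 := by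
        have h2 : ‖w - w₀‖ < 1 := by rwa [← dist_eq_norm]
        have h3 : w = w₀ + (w - w₀) := by ring
        calc ‖w‖ = ‖w₀ + (w - w₀)‖ := by rw [← h3]
          _ ≤ ‖w₀‖ + ‖w - w₀‖ := norm_add_le _ _
          _ ≤ ‖w₀‖ + 1 := by linarith
      have h4 : Real.exp (N * ‖w‖) ≤ Real.exp (N * (‖w₀‖ + 1)) :=
        Real.exp_le_exp.2 (mul_le_mul_of_nonneg_left h1 hN.le)
      rw [norm_mul, norm_mul]
      have h5 : ‖(t : ℂ)‖ ≤ N := by
        rw [Complex.norm_real, Real.norm_of_nonneg ht'.1]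
        exact ht'.2
      have h6 : ‖Complex.exp (w * t)‖ ≤ Real.exp (N * (‖w₀‖ + 1)) := (hexp w t ht').trans h4
      exact mul_le_mul (mul_le_mul h6 h5 (norm_nonneg _) (Real.exp_pos _).le) (hB t ht')
        (norm_nonneg _) (mul_nonneg (Real.exp_pos _).le hN.le)
    · exact intervalIntegrable_const
    · refine Eventually.of_forall fun t _ w _ => ?_
      have h1 : HasDerivAt (fun w : ℂ => w * (t : ℂ)) (t : ℂ) w := by
        simpa using (hasDerivAt_id w).mul_const (t : ℂ)
      exact (h1.cexp).mul_const (h t)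
  · refine ⟨N * B + N, fun w => ?_⟩
    have h1 : ‖∫ t in (0 : ℝ)..N, Complex.exp (w * t) * h t‖ ≤ (Real.exp (N * ‖w‖) * B) * |N - 0| := by
      apply intervalIntegral.norm_integral_le_of_norm_le_const
      intro t ht
      rw [norm_mul]
      exact mul_le_mul (hexp w t (t7_mem hN ht)) (hB t (t7_mem hN ht)) (norm_nonneg _)
        (Real.exp_pos _).le
    rw [sub_zero, abs_of_pos hN] at h1
    have h2 : Real.exp (N * ‖w‖) ≤ Real.exp ((N * B + N) * ‖w‖) := by
      apply Real.exp_le_exp.2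
      apply mul_le_mul_of_nonneg_right _ (norm_nonneg _)
      have := mul_nonneg hN.le hB0
      linarith
    calc ‖∫ t in (0 : ℝ)..N, Complex.exp (w * t) * h t‖ ≤ (Real.exp (N * ‖w‖) * B) * N := h1
      _ = (N * B) * Real.exp (N * ‖w‖) := by ring
      _ ≤ (N * B + N) * Real.exp (N * ‖w‖) := by
          apply mul_le_mul_of_nonneg_right _ (Real.exp_pos _).le
          linarith
      _ ≤ (N * B + N) * Real.exp ((N * B + N) * ‖w‖) := by
          apply mul_le_mul_of_nonneg_left h2
          have := mul_nonneg hN.le hB0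
          linarith

private theorem t7_int (N x : ℝ) (hx : 0 < x) :
    ∫ t in (0 : ℝ)..N, Real.exp (-x * t) = (1 - Real.exp (-x * N)) / x := by
  have h1 : ∀ t ∈ uIcc (0 : ℝ) N, HasDerivAt (fun t => -Real.exp (-x * t) / x) (Real.exp (-x * t)) t := by
    intro t _
    have h2 : HasDerivAt (fun t : ℝ => -x * t) (-x) t := by
      simpa using (hasDerivAt_id t).const_mul (-x)
    have h3 := (h2.exp.neg).div_const x
    have h4 : -(Real.exp (-x * t) * -x) / x = Real.exp (-x * t) := by
      field_simp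
    rw [h4] at h3
    exact h3
  rw [intervalIntegral.integral_eq_sub_of_hasDerivAt h1
    (Continuous.intervalIntegrable (by fun_prop) _ _)]
  rw [mul_zero, Real.exp_zero]
  ring

private theorem t7_cexp (x t : ℝ) : Complex.exp ((-(x : ℂ)) * t) = ((Real.exp (-x * t) : ℝ) : ℂ) := by
  push_cast
  rfl

theorem laplace_const (h : ℝ → ℂ) (N : ℝ) (hN : 0 < N) (hh : ContinuousOn h (Icc 0 N)) (c : ℂ)
    (hc : ∀ w : ℂ, ∫ t in (0 : ℝ)..N, Complex.exp (w * t) * h t = c) : h 0 = 0 := by
  obtain ⟨B, hB0, hB⟩ := t7_bound h N hN hh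
  have hJ : ∀ x : ℝ, 0 < x → ∫ t in (0 : ℝ)..N, Real.exp (-x * t) ≤ 1 / x := by
    intro x hx
    rw [t7_int N x hx]
    have := Real.exp_pos (-x * N)
    gcongr
    linarith
  have hc1 : ∀ x : ℝ, 0 < x → ‖c‖ ≤ B * (1 / x) := by
    intro x hx
    rw [← hc (-(x : ℂ))]
    have h1 : ‖∫ t in (0 : ℝ)..N, Complex.exp (-(x : ℂ) * t) * h t‖ ≤
        ∫ t in (0 : ℝ)..N, B * Real.exp (-x * t) := by
      apply intervalIntegral.norm_integral_le_of_norm_le hN.le
      · refine Eventually.of_forall fun t ht => ?_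
        rw [norm_mul, t7_cexp, Complex.norm_real, Real.norm_of_nonneg (Real.exp_pos _).le, mul_comm]
        exact mul_le_mul_of_nonneg_right (hB t (Ioc_subset_Icc_self ht)) (Real.exp_pos _).le
      · exact Continuous.intervalIntegrable (by fun_prop) _ _
    rw [intervalIntegral.integral_const_mul] at h1
    exact h1.trans (mul_le_mul_of_nonneg_left (hJ x hx) hB0)
  have hc0 : c = 0 := by
    have h1 : Tendsto (fun x : ℝ => B * (1 / x)) atTop (𝓝 (B * 0)) := by
      refine (tendsto_inv_atTop_zero.const_mul B).congr fun x => ?_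
      rw [one_div]
    rw [mul_zero] at h1
    have h2 : ‖c‖ ≤ 0 := ge_of_tendsto h1 ((eventually_gt_atTop 0).mono fun x hx => hc1 x hx)
    exact norm_le_zero_iff.1 h2
  subst hc0
  by_contra hne
  have hpos : 0 < ‖h 0‖ := norm_pos_iff.2 hne
  obtain ⟨η, hη0, hηN, hη⟩ : ∃ η : ℝ, 0 < η ∧ η ≤ N ∧ ∀ t ∈ Icc (0 : ℝ) η, ‖h t - h 0‖ ≤ ‖h 0‖ / 2 := by
    have h1 : ContinuousWithinAt h (Icc 0 N) 0 := hh 0 (left_mem_Icc.2 hN.le)
    rw [Metric.continuousWithinAt_iff] at h1
    obtain ⟨δ, hδ, h2⟩ := h1 (‖h 0‖ / 2) (by linarith)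
    refine ⟨min (δ / 2) N, lt_min (by linarith) hN, min_le_right _ _, fun t ht => ?_⟩
    have h3 : t ≤ δ / 2 := ht.2.trans (min_le_left _ _)
    have h4 : t ≤ N := ht.2.trans (min_le_right _ _)
    have h5 := h2 ⟨ht.1, h4⟩ (by
      rw [Real.dist_eq, sub_zero, abs_of_nonneg ht.1]
      linarith)
    rw [dist_eq_norm] at h5
    exact h5.le
  have key : ∀ x : ℝ, 0 < x → ‖h 0‖ / 2 * (1 - Real.exp (-x * N)) ≤
      2 * B * N * (x * Real.exp (-x * η)) := by
    intro x hx
    have h1 : ∫ t in (0 : ℝ)..N, Complex.exp (-(x : ℂ) * t) * (h t - h 0) =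
        - (((∫ t in (0 : ℝ)..N, Real.exp (-x * t) : ℝ) : ℂ) * h 0) := by
      have h2 : ∀ t : ℝ, Complex.exp (-(x : ℂ) * t) * (h t - h 0) =
          Complex.exp (-(x : ℂ) * t) * h t - Complex.exp (-(x : ℂ) * t) * h 0 := fun t => by ring
      simp only [h2]
      rw [intervalIntegral.integral_sub (t7_cont hN hh _ (by fun_prop))
        (Continuous.intervalIntegrable (by fun_prop) _ _), hc, zero_sub,
        intervalIntegral.integral_mul_const]
      congr 2
      rw [← intervalIntegral.integral_ofReal]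
      apply intervalIntegral.integral_congr
      intro t _
      exact t7_cexp x t
    have h3 : ‖∫ t in (0 : ℝ)..N, Complex.exp (-(x : ℂ) * t) * (h t - h 0)‖ ≤
        ∫ t in (0 : ℝ)..N, (‖h 0‖ / 2 * Real.exp (-x * t) + 2 * B * Real.exp (-x * η)) := by
      apply intervalIntegral.norm_integral_le_of_norm_le hN.le
      · refine Eventually.of_forall fun t ht => ?_
        rw [norm_mul, t7_cexp, Complex.norm_real, Real.norm_of_nonneg (Real.exp_pos _).le]
        rcases le_total t η with h4 | h4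
        · have h5 := hη t ⟨ht.1.le, h4⟩
          have h6 : 0 ≤ 2 * B * Real.exp (-x * η) := by positivity
          have h7 := mul_le_mul_of_nonneg_left h5 (Real.exp_pos (-x * t)).le
          linarith [mul_comm (Real.exp (-x * t)) (‖h 0‖ / 2)]
        · have h5 : ‖h t - h 0‖ ≤ 2 * B := by
            have h6 := norm_sub_le (h t) (h 0)
            have h7 := hB t (Ioc_subset_Icc_self ht)
            have h8 := hB 0 (left_mem_Icc.2 hN.le)
            linarith
          have h6 : Real.exp (-x * t) ≤ Real.exp (-x * η) := by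
            apply Real.exp_le_exp.2
            have := mul_le_mul_of_nonneg_left h4 hx.le
            linarith
          have h7 : Real.exp (-x * t) * ‖h t - h 0‖ ≤ Real.exp (-x * η) * (2 * B) :=
            mul_le_mul h6 h5 (norm_nonneg _) (Real.exp_pos _).le
          have h8 : 0 ≤ ‖h 0‖ / 2 * Real.exp (-x * t) := by positivity
          linarith [mul_comm (Real.exp (-x * η)) (2 * B)]
      · exact Continuous.intervalIntegrable (by fun_prop) _ _
    rw [h1, norm_neg, norm_mul, Complex.norm_real] at h3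
    rw [intervalIntegral.integral_add (Continuous.intervalIntegrable (by fun_prop) _ _)
      (Continuous.intervalIntegrable (by fun_prop) _ _), intervalIntegral.integral_const_mul,
      intervalIntegral.integral_const, sub_zero, smul_eq_mul, t7_int N x hx] at h3
    have h9 : 0 ≤ (1 - Real.exp (-x * N)) / x := by
      apply div_nonneg _ hx.le
      have : Real.exp (-x * N) ≤ 1 := by
        apply Real.exp_le_one_iff.2
        have := mul_pos hx hN
        linarith
      linarith
    rw [Real.norm_of_nonneg h9] at h3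
    have h10 := mul_le_mul_of_nonneg_left h3 hx.le
    have h11 : x * ((1 - Real.exp (-x * N)) / x * ‖h 0‖) = (1 - Real.exp (-x * N)) * ‖h 0‖ := by
      field_simp
    have h12 : x * (‖h 0‖ / 2 * ((1 - Real.exp (-x * N)) / x) + N * (2 * B * Real.exp (-x * η))) =
        ‖h 0‖ / 2 * (1 - Real.exp (-x * N)) + 2 * B * N * (x * Real.exp (-x * η)) := by
      field_simp
    rw [h11, h12] at h10
    linarith [mul_comm (1 - Real.exp (-x * N)) ‖h 0‖]
  have hL : Tendsto (fun x : ℝ => ‖h 0‖ / 2 * (1 - Real.exp (-x * N))) atTop (𝓝 (‖h 0‖ / 2 * (1 - 0))) := by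
    apply Tendsto.const_mul
    apply Tendsto.const_sub
    apply Real.tendsto_exp_atBot.comp
    have : (fun x : ℝ => -x * N) = fun x : ℝ => -(x * N) := by
      funext x
      ring
    rw [this]
    exact tendsto_neg_atTop_atBot.comp (tendsto_id.atTop_mul_const hN)
  have hR : Tendsto (fun x : ℝ => 2 * B * N * (x * Real.exp (-x * η))) atTop (𝓝 (2 * B * N * (1 / η * 0))) := by
    apply Tendsto.const_mul
    have h1 := (Real.tendsto_pow_mul_exp_neg_atTop_nhds_zero 1).comp (tendsto_id.atTop_mul_const hη0)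
    have h2 := h1.const_mul (1 / η)
    refine h2.congr fun x => ?_
    simp only [Function.comp_apply, pow_one, id_eq]
    have h3 : -x * η = -(x * η) := by ring
    rw [h3]
    field_simp
  rw [mul_zero, mul_zero] at hR
  have hfin := le_of_tendsto_of_tendsto hL hR ((eventually_gt_atTop 0).mono fun x hx => key x hx)
  linarith

end PCM
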