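import Pool.Agent.PCM.T2
import Pool.Agent.PCM.T5
import Pool.Agent.PCM.T6
import Pool.Agent.PCM.T7

/-!
# [PCM-T8] the range theorem
-/

open MeasureTheory Set Filter Topology

namespace PCM

variable {d : ℕ}

/-- the radial derivative of a logarithm -/
theorem mul_R_log {f F : A d} (hf : Conv f) (hF : Conv F)
    (hfF : ∀ z ∈ Ball d, ev f z = Complex.exp (-ev F z)) : f * R d F = -R d f := by
  have hfF' : ∀ z ∈ Ball d, ev f z = Complex.exp (-(1 * ev F z)) := by
    intro z hz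
    rw [one_mul]
    exact hfF z hz
  have hn : Conv (-R d f) := by
    have h := conv_smul (-1 : ℂ) (conv_R hf)
    rwa [neg_one_smul] at h
  refine ev_inj (conv_mul hf (conv_R hF)) hn fun z hz => ?_
  have h1 : ev (-R d f) z = -ev (R d f) z := by
    rw [← neg_one_smul ℂ (R d f), ev_smul]
    ring
  rw [h1, ev_mul hf (conv_R hF) hz, p20_deriv hf hF 1 hfF' hz, hfF' z hz]
  ring

/-- the radial derivative of an inverse -/
theorem R_of_mul_eq_one {a b : A d} (h : a * b = 1) : R d b = -(b * b * R d a) := by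
  have h1 : R d a * b + a * R d b = 0 := by
    rw [← R_mul, h, R_one]
  have h2 : b * a = 1 := by rw [mul_comm]; exact h
  calc R d b = (b * a) * R d b := by rw [h2, one_mul]
    _ = b * (R d a * b + a * R d b) - b * (R d a * b) := by ring
    _ = -(b * b * R d a) := by rw [h1]; ring

theorem R_sub_smul_one (F : A d) (w : ℂ) : R d (F - w • (1 : A d)) = R d F := by
  rw [map_sub, map_smul, R_one, smul_zero, sub_zero]

theorem ev_sub_smul_one {F : A d} (hF : Conv F) (w : ℂ) {z : Fin d → ℂ} (hz : z ∈ Ball d) :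
    ev (F - w • (1 : A d)) z = ev F z - w := by
  rw [ev_sub hF (conv_smul w conv_one) hz, ev_smul, ev_one, mul_one]

theorem mult_one_mul {φ : A d} (h : IsMult φ) : φ ∈ H2 d := mem_of_mult h

/-- **Range theorem.** -/
theorem core (d : ℕ) (f F : A d) (hf : IsMult f) (hF : Conv F)
    (hfF : ∀ z ∈ Ball d, ev f z = Complex.exp (-ev F z)) (δ : ℝ) (hδ : 0 < δ)
    (hD : Det (Om F δ)) : f ∈ C d (d / 2) := by
  obtain ⟨k, hk⟩ : ∃ k, k = d / 2 := ⟨_, rfl⟩
  rw [← hk]
  have hdk : d ≤ 2 * k + 1 := by omega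
  obtain ⟨μ, hμ⟩ := exists_law d (2 * k) hdk
  obtain ⟨M, hM1, hM⟩ := bounded_of_mult hf
  have hfH : f ∈ H2 d := mem_of_mult hf
  have hfc : Conv f := conv_of_mem hfH
  obtain ⟨P, hPc, hPe, hPd⟩ := exists_exp F hF
  obtain ⟨hP1, hP0, hPm, hPR⟩ := P_rel f F hfc hF hfF P hPc hPe
  have hPn : ∀ n : ℕ, P (n : ℂ) = f ^ n := by
    intro n
    induction n with
    | zero => simpa using hP0
    | succ n ih =>
      rw [pow_succ, ← ih, ← hP1, hPm]
      push_cast
      rfl
  obtain ⟨c, hcdef⟩ : ∃ c, c = Real.log M := ⟨_, rfl⟩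
  have hc0 : 0 ≤ c := hcdef ▸ Real.log_nonneg hM1
  have hre : ∀ z ∈ Ball d, -c ≤ (ev F z).re := by
    intro z hz
    have h := sup_bound hf hM1 hM hz
    rw [hfF z hz, Complex.norm_exp] at h
    have h2 := Real.log_le_log (Real.exp_pos _) h
    rw [Real.log_exp, ← hcdef] at h2
    simp only [Complex.neg_re] at h2
    linarith
  obtain ⟨C0, hC0, hmb⟩ := mult_bound k μ hμ hf hM1 hM P hPc hPR
  -- the powers `f^(k+t)`
  obtain ⟨B, hBdef⟩ : ∃ B : ℝ, B = C0 * (1 + (2 * (k : ℝ) + 1)) ^ k *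
    Real.exp (c * (2 * (k : ℝ) + 1)) := ⟨_, rfl⟩
  have hkey : ∀ t ∈ Icc (0 : ℝ) ((k : ℝ) + 1), P ((k : ℂ) + (t : ℂ)) ∈ H2 d ∧
      nrm (P ((k : ℂ) + (t : ℂ))) ≤ B := by
    intro t ht
    have h := hmb ((k : ℂ) + (t : ℂ)) (Real.exp (c * (2 * (k : ℝ) + 1))) (Real.exp_pos _).le
      (by
        intro i hi z hz
        rw [hPe _ z hz, Complex.norm_exp]
        apply Real.exp_le_exp.2
        have hi' : (i : ℝ) ≤ (k : ℝ) := by exact_mod_cast hi
        have e1 : (-(((k : ℂ) + (t : ℂ) - (i : ℂ)) * ev F z)).re =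
            -(((k : ℝ) + t - i) * (ev F z).re) := by
          have : ((k : ℂ) + (t : ℂ) - (i : ℂ)) = (((k : ℝ) + t - i : ℝ) : ℂ) := by push_cast; ring
          rw [this, Complex.neg_re, Complex.re_ofReal_mul]
        rw [e1]
        have h1 := hre z hz
        have h2 : 0 ≤ (k : ℝ) + t - i := by linarith [ht.1]
        have h3 : (k : ℝ) + t - i ≤ 2 * (k : ℝ) + 1 := by
          have : (0 : ℝ) ≤ i := Nat.cast_nonneg i
          linarith [ht.2]
        have h4 : -(((k : ℝ) + t - i) * (ev F z).re) ≤ ((k : ℝ) + t - i) * c := by nlinarith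
        have h5 : ((k : ℝ) + t - i) * c ≤ (2 * (k : ℝ) + 1) * c :=
          mul_le_mul_of_nonneg_right h3 hc0
        linarith) 1 one_mem
    rw [mul_one, nrm_one, mul_one] at h
    refine ⟨h.1, h.2.trans ?_⟩
    rw [hBdef]
    have h6 : ‖((k : ℂ) + (t : ℂ))‖ ≤ 2 * (k : ℝ) + 1 := by
      have : ((k : ℂ) + (t : ℂ)) = (((k : ℝ) + t : ℝ) : ℂ) := by push_cast; ring
      rw [this, Complex.norm_real, Real.norm_eq_abs, abs_of_nonneg]
      · linarith [ht.2]
      · have : (0 : ℝ) ≤ k := Nat.cast_nonneg k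
        linarith [ht.1]
    refine mul_le_mul_of_nonneg_right ?_ (Real.exp_pos _).le
    refine mul_le_mul_of_nonneg_left ?_ hC0
    exact pow_le_pow_left₀ (by positivity) (by linarith) k
  obtain ⟨S, hSc, hS⟩ := exists_submodule (f ^ (k + 1)) (mult_pow hf _)
  classical
  obtain ⟨x, hxdef⟩ : ∃ x : ℝ → E d, ∀ (t : ℝ) (h : P ((k : ℂ) + (t : ℂ)) ∈ H2 d),
      x t = toE (P ((k : ℂ) + (t : ℂ))) h :=
    ⟨fun t => if h : P ((k : ℂ) + (t : ℂ)) ∈ H2 d then toE _ h else 0, fun t h => by simp [h]⟩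
  have hxB : ∀ t ∈ Icc (0 : ℝ) ((k : ℝ) + 1), ‖x t‖ ≤ B := by
    intro t ht
    rw [hxdef t (hkey t ht).1, norm_toE]
    exact (hkey t ht).2
  have hxcont : ∀ α, ContinuousOn (fun t => x t α) (Icc (0 : ℝ) ((k : ℝ) + 1)) := by
    intro α
    have h1 : Continuous (fun t : ℝ => ((Real.sqrt (wt α) : ℝ) : ℂ) *
        MvPowerSeries.coeff α (P ((k : ℂ) + (t : ℂ)))) := by
      refine continuous_const.mul ((hPd α).continuous.comp ?_)
      fun_prop
    refine h1.continuousOn.congr fun t ht => ?_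
    rw [hxdef t (hkey t ht).1]
    rfl
  -- multipliers with the resolvent
  obtain ⟨C1, hC1, hmp⟩ := mult_poly k μ hμ hf hM1 hM (Polynomial.X ^ 2) δ⁻¹
  have hN : (0 : ℝ) < (k : ℝ) + 1 := by positivity
  have hkm : f ^ k ∈ H2 d := mem_of_mult (mult_pow hf k)
  -- the main point
  have hmain : toE (f ^ k) hkm ∈ S := by
    have : CompleteSpace S := hSc.completeSpace_coe
    rw [← Submodule.orthogonal_orthogonal S, Submodule.mem_orthogonal]
    intro y hy
    have hyS : ∀ v ∈ S, inner ℂ y v = 0 := (Submodule.mem_orthogonal' S y).1 hy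
    have hh : ContinuousOn (fun t => inner ℂ y (x t)) (Icc (0 : ℝ) ((k : ℝ) + 1)) :=
      lp_inner_continuousOn x _ B hxB hxcont y
    obtain ⟨hent, hexp⟩ := laplace_entire (fun t => inner ℂ y (x t)) _ hN hh
    have hbd : ∃ a : ℝ, ∀ w ∈ Om F δ,
        ‖∫ t in (0 : ℝ)..((k : ℝ) + 1), Complex.exp (w * t) * inner ℂ y (x t)‖ ≤ a := by
      refine ⟨‖y‖ * C1, fun w hw => ?_⟩
      have hac : Conv (F - w • (1 : A d)) := conv_sub hF (conv_smul w conv_one)
      have hal : ∀ z ∈ Ball d, δ ≤ ‖ev (F - w • (1 : A d)) z‖ := by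
        intro z hz
        rw [ev_sub_smul_one hF w hz]
        exact hw z hz
      obtain ⟨J, hJc, hJ1, hJe⟩ := exists_inv hac hδ hal
      have hJn : ∀ z ∈ Ball d, ‖ev J z‖ ≤ δ⁻¹ := by
        intro z hz
        rw [hJe z hz, norm_inv]
        exact inv_anti₀ hδ (hal z hz)
      have hJR : f * R d J = Polynomial.aeval J (Polynomial.X ^ 2 : Polynomial ℂ) * R d f := by
        rw [R_of_mul_eq_one hJ1, R_sub_smul_one, map_pow, Polynomial.aeval_X]
        have h1 := mul_R_log hfc hF hfF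
        calc f * -(J * J * R d F) = -(J * J) * (f * R d F) := by ring
          _ = J ^ 2 * R d f := by rw [h1]; ring
      have hJm := hmp J hJc hJn hJR
      have hm : IsMult (f ^ k * J) := fun g hg => (hJm g hg).1
      have hm1 : f ^ k * J ∈ H2 d := mem_of_mult hm
      have e1 : f ^ (2 * k + 1) * J = (f ^ k * J) * f ^ (k + 1) := by ring
      have hm2 : f ^ (2 * k + 1) * J ∈ H2 d := by
        rw [e1]
        exact mem_of_mult (mult_mul hm (mult_pow hf _))
      have hy2 : inner ℂ y (toE (f ^ (2 * k + 1) * J) hm2) = 0 := by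
        apply hyS
        rw [hS, ofE_toE, e1]
        exact mul_mem_inv (mult_pow hf _) hm
      have h2 := inner_resolvent k f F hF P hPc hPe hPd hPn B (fun t ht => (hkey t ht).1) x hxB
        (fun t ht => hxdef t (hkey t ht).1) y w J hJ1 hm1 hm2 hy2
      rw [← h2]
      refine (norm_inner_le_norm y _).trans ?_
      refine mul_le_mul_of_nonneg_left ?_ (norm_nonneg _)
      rw [norm_toE]
      have h3 := (hJm 1 one_mem).2
      rw [mul_one, nrm_one, mul_one] at h3
      exact h3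
    obtain ⟨c', hc'⟩ := hD _ hent hexp hbd
    have h0 := laplace_const (fun t => inner ℂ y (x t)) _ hN hh c' hc'
    have hk0 : P ((k : ℂ) + ((0 : ℝ) : ℂ)) = f ^ k := by
      rw [Complex.ofReal_zero, add_zero, hPn]
    have h4 : x 0 = toE (f ^ k) hkm := by
      rw [hxdef 0 (hkey 0 ⟨le_refl _, hN.le⟩).1]
      congr 1
    rw [h4] at h0
    exact h0
  rw [hS, ofE_toE] at hmain
  refine ⟨hf, ?_, inv_eq hf k hmain⟩
  intro h0
  have h1 := hfF _ (p20_zero_mem_ball (d := d))
  rw [h0, ev_zero_point] at h1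
  simp at h1
  exact Complex.exp_ne_zero _ h1.symm

end PCM
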