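import Pool.Agent.PCM.T6
import Pool.Agent.PCM.T8
import Pool.Agent.PCM.D1
import Pool.Agent.PCM.D2
import Pool.Agent.PCM.D3

/-!
# [PCM-D4] multipliers which omit discs
-/

open MeasureTheory Set Filter Topology

namespace PCM

variable {d : ℕ}

theorem isMult_one : IsMult (1 : A d) := fun g hg => by rwa [one_mul]

/-- **Omitted discs.** -/
theorem discs (d : ℕ) (f : A d) (hf : IsMult f) (hnz : ∀ z ∈ Ball d, ev f z ≠ 0) (c : ℝ)
    (hc : 0 < c) (l : ℕ → ℂ) (hl0 : ∀ j, l j ≠ 0) (hl : Tendsto l atTop (𝓝 0))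
    (h : ∀ j, ∀ z ∈ Ball d, c * ‖l j‖ ≤ ‖ev f z - l j‖) : f ∈ C d (d / 2) := by
  obtain ⟨k, hk⟩ : ∃ k, k = d / 2 := ⟨_, rfl⟩
  rw [← hk]
  have hdk : d ≤ 2 * k + 1 := by omega
  obtain ⟨μ, hμ⟩ := exists_law d (2 * k) hdk
  obtain ⟨M, hM1, hM⟩ := bounded_of_mult hf
  have hfH : f ∈ H2 d := mem_of_mult hf
  have hfc : Conv f := conv_of_mem hfH
  have hf0 : MvPowerSeries.coeff 0 f ≠ 0 := by
    rw [← ev_zero_point]
    exact hnz _ p20_zero_mem_ball
  have hJ : ∀ j, ∃ J : A d, Conv J ∧ (f - l j • (1 : A d)) * J = 1 ∧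
      ∀ z ∈ Ball d, ev J z = (ev (f - l j • (1 : A d)) z)⁻¹ := by
    intro j
    refine exists_inv (δ := c * ‖l j‖) (conv_sub hfc (conv_smul _ conv_one)) ?_ ?_
    · exact mul_pos hc (norm_pos_iff.2 (hl0 j))
    · intro z hz
      rw [ev_sub_smul_one hfc _ hz]
      exact h j z hz
  choose J hJc hJ1 hJe using hJ
  have hJm : ∀ j, IsMult (J j) := by
    intro j
    have ha : IsMult (f - l j • (1 : A d)) := by
      have h1 := mult_add hf (mult_smul (-(l j)) (isMult_one (d := d)))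
      rwa [neg_smul, ← sub_eq_add_neg] at h1
    refine isMult_inv ha (hJc j) (hJ1 j) (δ := c * ‖l j‖) (mul_pos hc (norm_pos_iff.2 (hl0 j))) ?_
    intro z hz
    rw [ev_sub_smul_one hfc _ hz]
    exact h j z hz
  obtain ⟨C1, hC1, hmp⟩ := mult_poly k μ hμ hf hM1 hM
    (-(Polynomial.X * (1 + Polynomial.X))) c⁻¹
  have hfJ : ∀ j, f * J j = 1 + l j • J j := by
    intro j
    have h1 := hJ1 j
    rw [sub_mul, smul_mul_assoc, one_mul] at h1
    rw [← h1]
    ring
  have hu : ∀ j, nrm (f ^ k * (l j • J j)) ≤ C1 ∧ f ^ k * (l j • J j) ∈ H2 d := by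
    intro j
    have hn : ∀ z ∈ Ball d, ‖ev (l j • J j) z‖ ≤ c⁻¹ := by
      intro z hz
      rw [ev_smul, hJe j z hz, ev_sub_smul_one hfc _ hz, norm_mul, norm_inv]
      have h1 := h j z hz
      have h2 : 0 < ‖l j‖ := norm_pos_iff.2 (hl0 j)
      have h3 : 0 < ‖ev f z - l j‖ := lt_of_lt_of_le (mul_pos hc h2) h1
      rw [← div_eq_mul_inv, div_le_iff₀ h3, inv_mul_eq_div, le_div_iff₀ hc]
      linarith
    have hR : f * R d (l j • J j) =
        Polynomial.aeval (l j • J j) (-(Polynomial.X * (1 + Polynomial.X)) : Polynomial ℂ) *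
          R d f := by
      rw [map_smul, R_of_mul_eq_one (hJ1 j), R_sub_smul_one, map_neg, map_mul, map_add, map_one,
        Polynomial.aeval_X]
      have e : f * (l j • -(J j * J j * R d f)) = -((l j • J j) * (f * J j)) * R d f := by
        simp only [MvPowerSeries.smul_eq_C_mul]
        ring
      rw [e, hfJ]
    have h4 := hmp (l j • J j) (conv_smul _ (hJc j)) hn hR 1 one_mem
    rw [mul_one, nrm_one, mul_one] at h4
    exact ⟨h4.2, h4.1⟩
  obtain ⟨S, hSc, hS⟩ := exists_submodule (f ^ (k + 1)) (mult_pow hf _)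
  have hkm : f ^ k ∈ H2 d := mem_of_mult (mult_pow hf k)
  have hmain : toE (f ^ k) hkm ∈ S := by
    refine mem_of_weak S hSc (fun j => toE (f ^ k + f ^ k * (l j • J j)) (add_mem hkm (hu j).2))
      _ (nrm (f ^ k) + C1) ?_ ?_ ?_
    · intro j
      rw [norm_toE]
      exact (nrm_add_le hkm (hu j).2).trans (by linarith [(hu j).1])
    · intro α
      have h1 := coeff_tendsto f (f ^ k) hf0 l hl J hJ1 α
      have h2 : Tendsto (fun j => ((Real.sqrt (wt α) : ℝ) : ℂ) *
          (MvPowerSeries.coeff α (f ^ k) + MvPowerSeries.coeff α (l j • (f ^ k * J j)))) atTop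
          (𝓝 (((Real.sqrt (wt α) : ℝ) : ℂ) * (MvPowerSeries.coeff α (f ^ k) + 0))) :=
        (tendsto_const_nhds.add h1).const_mul _
      rw [add_zero] at h2
      refine h2.congr fun j => ?_
      show _ = ((Real.sqrt (wt α) : ℝ) : ℂ) *
        MvPowerSeries.coeff α (f ^ k + f ^ k * (l j • J j))
      rw [map_add, mul_smul_comm]
    · intro j
      rw [hS, ofE_toE]
      have e : f ^ k + f ^ k * (l j • J j) = J j * f ^ (k + 1) := by
        have h1 := hfJ j
        calc f ^ k + f ^ k * (l j • J j) = f ^ k * (1 + l j • J j) := by ring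
          _ = f ^ k * (f * J j) := by rw [h1]
          _ = J j * f ^ (k + 1) := by ring
      rw [e]
      exact mul_mem_inv (mult_pow hf _) (hJm j)
  rw [hS, ofE_toE] at hmain
  refine ⟨hf, ?_, inv_eq hf k hmain⟩
  intro h0
  rw [h0] at hf0
  simp at hf0

end PCM
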