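import Mathlib

/-!
# [PCM] multipliers of the Drury-Arveson space: definitions
-/

open MeasureTheory Set Filter Topology

namespace PCM

/-- power series in `d` variables -/
abbrev A (d : ℕ) := MvPowerSeries (Fin d) ℂ

/-- the weight `α! / |α|!` -/
noncomputable def wt {d : ℕ} (α : Fin d →₀ ℕ) : ℝ :=
  (∏ i, ((α i).factorial : ℝ)) / ((∑ i, α i).factorial : ℝ)

/-- the Drury-Arveson space, as a set of power series -/
def H2 (d : ℕ) : Set (A d) := {f | Summable fun α => wt α * ‖MvPowerSeries.coeff α f‖ ^ 2}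

/-- the norm of the Drury-Arveson space -/
noncomputable def nrm {d : ℕ} (f : A d) : ℝ :=
  Real.sqrt (∑' α, wt α * ‖MvPowerSeries.coeff α f‖ ^ 2)

/-- `φ` is a multiplier -/
def IsMult {d : ℕ} (φ : A d) : Prop := ∀ f ∈ H2 d, φ * f ∈ H2 d

/-- `[f]`: the closure in `H2 d` of the multiplier multiples of `f` -/
def inv {d : ℕ} (f : A d) : Set (A d) :=
  {g | g ∈ H2 d ∧ ∀ ε : ℝ, 0 < ε → ∃ φ : A d, IsMult φ ∧ nrm (g - φ * f) < ε}

/-- the class `C_n` -/
def C (d n : ℕ) : Set (A d) := {φ | IsMult φ ∧ φ ≠ 0 ∧ inv (φ ^ n) = inv (φ ^ (n + 1))}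

/-- the open unit ball of `ℂ^d` -/
def Ball (d : ℕ) : Set (Fin d → ℂ) := {z | ∑ i, ‖z i‖ ^ 2 < 1}

/-- value of a power series at a point -/
noncomputable def ev {d : ℕ} (a : A d) (z : Fin d → ℂ) : ℂ :=
  ∑' α, MvPowerSeries.coeff α a * ∏ i, z i ^ α i

/-- `a` converges absolutely at every point of the ball -/
def Conv {d : ℕ} (a : A d) : Prop :=
  ∀ z ∈ Ball d, Summable fun α => ‖MvPowerSeries.coeff α a‖ * ∏ i, ‖z i‖ ^ α i

/-- the radial derivative: multiply the coefficient of index `α` by `|α|` -/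
noncomputable def R (d : ℕ) : A d →ₗ[ℂ] A d where
  toFun a := fun α => ((∑ i, α i : ℕ) : ℂ) * MvPowerSeries.coeff α a
  map_add' a b := by
    funext α
    show _ * MvPowerSeries.coeff α (a + b) = _ * MvPowerSeries.coeff α a
      + _ * MvPowerSeries.coeff α b
    rw [map_add, mul_add]
  map_smul' c a := by
    funext α
    show _ * MvPowerSeries.coeff α (c • a) = c * (_ * MvPowerSeries.coeff α a)
    rw [map_smul, smul_eq_mul]
    ring

theorem coeff_R {d : ℕ} (a : A d) (α : Fin d →₀ ℕ) :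
    MvPowerSeries.coeff α (R d a) = ((∑ i, α i : ℕ) : ℂ) * MvPowerSeries.coeff α a := rfl

/-- the moment `α! m! / (|α|+m)!` -/
noncomputable def vv {d : ℕ} (m : ℕ) (α : Fin d →₀ ℕ) : ℝ :=
  (∏ i, ((α i).factorial : ℝ)) * (m.factorial : ℝ) / (((∑ i, α i) + m).factorial : ℝ)

/-- `μ` is the law of the first `d` coordinates of a uniform point of the unit sphere of `ℂ^(m+1)` -/
structure IsLaw (d m : ℕ) (μ : Measure (Fin d → ℂ)) : Prop where
  prob : IsProbabilityMeasure μ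
  supp : ∀ᵐ z ∂μ, ∑ i, ‖z i‖ ^ 2 ≤ 1
  mom : ∀ α β : Fin d →₀ ℕ,
    ∫ z, (∏ i, z i ^ α i) * ∏ i, (starRingEnd ℂ) (z i) ^ β i ∂μ =
      if α = β then ((vv m α : ℝ) : ℂ) else 0

/-- the truncated Taylor expression -/
noncomputable def BB {d : ℕ} (f g : A d) (i m : ℕ) : A d :=
  ∑ q ∈ Finset.range (i + 1), (i.choose q : ℂ) • ((-f) ^ (i - q) * (R d ^ m) (f ^ q * g))

/-- `s (s-1) ... (s-i+1) / i!` -/
noncomputable def cc (s : ℂ) (i : ℕ) : ℂ := (∏ j ∈ Finset.range i, (s - j)) / (i.factorial : ℂ)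

end PCM
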