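import Pool.Agent.PCM.TDefs

/-!
# [PCM-E1] the classes `C_n` contain the units and are closed under products

`C_unit`: `u ^ n = v * u ^ (n+1)`, so `φ u^n = (φ v) u^{n+1}` and `φ u^{n+1} = (φ u) u^n`: the two closures agree
(`mult_mul`); `u ≠ 0` because `u * v = 1 ≠ 0`.
`C_mul`: it is enough (`inv_eq` for the multiplier `f * g`) that `(f g)^n ∈ inv ((f g)^(n+1))`.  From
`g^n ∈ inv (g^n) = inv (g^(n+1))` (`mul_mem_inv` with `φ = 1`, or directly) there is `ψ` with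
`nrm (g^n - ψ g^{n+1}) < ε/(2 M_f)` where `M_f` bounds multiplication by `f^n` (`bounded_of_mult`, `mult_pow`); then
`nrm (f^n g^n - ψ f^n g^{n+1}) < ε/2`.  From `f^n ∈ inv (f^(n+1))` there is `φ` with
`nrm (f^n - φ f^{n+1}) < ε/(2 M)`, `M` a bound for multiplication by `ψ g^{n+1}`; so
`nrm (ψ g^{n+1} f^n - φ ψ f^{n+1} g^{n+1}) < ε/2`.  `f g ≠ 0`: `A d` has no zero divisors.
-/

open MeasureTheory Set Filter Topology

namespace PCM

variable {d : ℕ}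

theorem e1_self_mem {f : A d} (hf : IsMult f) : f ∈ inv f := by
  have h1 : IsMult (1 : A d) := by
    have h := mult_pow hf 0
    rwa [pow_zero] at h
  have h := mul_mem_inv hf h1
  rwa [one_mul] at h

theorem C_unit (n : ℕ) {u v : A d} (hu : IsMult u) (hv : IsMult v) (huv : u * v = 1) :
    u ∈ C d n := by
  refine ⟨hu, ?_, inv_eq hu n ?_⟩
  · intro h0
    rw [h0, zero_mul] at huv
    exact zero_ne_one huv
  · have h1 : u ^ n = v * u ^ (n + 1) := by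
      have h2 : v * u ^ (n + 1) = u ^ n * (u * v) := by ring
      rw [h2, huv, mul_one]
    rw [h1]
    exact mul_mem_inv (mult_pow hu (n + 1)) hv

theorem C_mul (n : ℕ) {f g : A d} (hf : f ∈ C d n) (hg : g ∈ C d n) : f * g ∈ C d n := by
  obtain ⟨hfm, hf0, hfi⟩ := hf
  obtain ⟨hgm, hg0, hgi⟩ := hg
  refine ⟨mult_mul hfm hgm, mul_ne_zero hf0 hg0, inv_eq (mult_mul hfm hgm) n ?_⟩
  have hfn : f ^ n ∈ inv (f ^ (n + 1)) := by
    rw [← hfi]
    exact e1_self_mem (mult_pow hfm n)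
  have hgn : g ^ n ∈ inv (g ^ (n + 1)) := by
    rw [← hgi]
    exact e1_self_mem (mult_pow hgm n)
  have kf : f ^ n ∈ H2 d := mem_of_mult (mult_pow hfm n)
  have kf1 : f ^ (n + 1) ∈ H2 d := mem_of_mult (mult_pow hfm (n + 1))
  have kg : g ^ n ∈ H2 d := mem_of_mult (mult_pow hgm n)
  have kg1 : g ^ (n + 1) ∈ H2 d := mem_of_mult (mult_pow hgm (n + 1))
  refine ⟨mem_of_mult (mult_pow (mult_mul hfm hgm) n), fun ε hε => ?_⟩
  obtain ⟨M, hM1, hM⟩ := bounded_of_mult (mult_pow hfm n)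
  have hM0 : 0 < M := lt_of_lt_of_le one_pos hM1
  obtain ⟨ψ, hψ, h1⟩ := hgn.2 (ε / (2 * M)) (div_pos hε (by positivity))
  have hψg : IsMult (ψ * g ^ (n + 1)) := mult_mul hψ (mult_pow hgm (n + 1))
  obtain ⟨N, hN1, hN⟩ := bounded_of_mult hψg
  have hN0 : 0 < N := lt_of_lt_of_le one_pos hN1
  obtain ⟨φ, hφ, h2⟩ := hfn.2 (ε / (2 * N)) (div_pos hε (by positivity))
  refine ⟨φ * ψ, mult_mul hφ hψ, ?_⟩
  have h3 := hM _ (sub_mem kg (hψ _ kg1))
  have h4 := hN _ (sub_mem kf (hφ _ kf1))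
  rw [lt_div_iff₀ (by positivity)] at h1 h2
  have e1 : (f * g) ^ n - φ * ψ * (f * g) ^ (n + 1) =
      f ^ n * (g ^ n - ψ * g ^ (n + 1)) +
        ψ * g ^ (n + 1) * (f ^ n - φ * f ^ (n + 1)) := by
    rw [mul_pow, mul_pow]
    ring
  rw [e1]
  have h5 := nrm_add_le (mult_pow hfm n _ (sub_mem kg (hψ _ kg1)))
    (hψg _ (sub_mem kf (hφ _ kf1)))
  have h6 : M * nrm (g ^ n - ψ * g ^ (n + 1)) < ε / 2 := by linarith
  have h7 : N * nrm (f ^ n - φ * f ^ (n + 1)) < ε / 2 := by linarith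
  linarith

end PCM
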