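import Pool.Agent.PCM.TDefs

/-!
# [PCM-E2] bounded pointwise convergence implies convergence of the coefficients

`coeff_formula`: with the majorant of `exists_majorant a ha r` the series of `ev a (r z)` can be integrated termwise
against the bounded function `∏ conj (z i)^{α i}` (`hasSum_integral_of_summable_integral_norm` or dominated
convergence over finsets; `Σ ‖z i‖^2 ≤ 1` a.e., so `‖z i‖ ≤ 1`), and `hμ.mom` kills all terms except `β = α`.
`coeff_tendsto_of_ev`: `r = 1/2`, `μ` a law for `(d, d)` (`exists_law`).  For a.e. `z` the point `z/2` is in the ball,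
`‖ev (X j) (z/2)‖ ≤ B / √(3/4)` (`ev_bound`), so by dominated convergence the integrals of `coeff_formula` converge; divide by
`r^{|α|} vv d α > 0` (`vv_pos`).  Elements of `H2` are convergent (`conv_of_mem`); measurability:
`measurable_ev_dilate`.
-/

open MeasureTheory Set Filter Topology

namespace PCM

variable {d : ℕ}

theorem e2_cont (α : Fin d →₀ ℕ) :
    Continuous (fun z : Fin d → ℂ => ∏ i, (starRingEnd ℂ) (z i) ^ α i) := by
  refine continuous_finsetProd _ fun i _ => ?_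
  exact (Complex.continuous_conj.comp (continuous_apply i)).pow _

theorem e2_le {z : Fin d → ℂ} (hz : ∑ i, ‖z i‖ ^ 2 ≤ 1) (α : Fin d →₀ ℕ) :
    ‖∏ i, (starRingEnd ℂ) (z i) ^ α i‖ ≤ 1 := by
  rw [norm_prod]
  refine Finset.prod_le_one (fun i _ => norm_nonneg _) fun i _ => ?_
  rw [norm_pow, RCLike.norm_conj]
  exact pow_le_one₀ (norm_nonneg _) (p7_le_one hz i)

theorem e2_fin (a : A d) (r : ℝ) (m : ℕ) (μ : Measure (Fin d → ℂ)) (hμ : IsLaw d m μ)
    (α : Fin d →₀ ℕ) (s : Finset (Fin d →₀ ℕ)) (hs : α ∈ s) :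
    ∫ z, (∑ β ∈ s, p7_tm a r β z) * ∏ i, (starRingEnd ℂ) (z i) ^ α i ∂μ =
      MvPowerSeries.coeff α a * ((r ^ (∑ i, α i) * vv m α : ℝ) : ℂ) := by
  have h1 : ∀ z : Fin d → ℂ, (∑ β ∈ s, p7_tm a r β z) * ∏ i, (starRingEnd ℂ) (z i) ^ α i =
      ∑ β ∈ s, (MvPowerSeries.coeff β a * (r : ℂ) ^ (∑ i, β i)) *
        ((∏ i, z i ^ β i) * ∏ i, (starRingEnd ℂ) (z i) ^ α i) := by
    intro z
    rw [Finset.sum_mul]
    refine Finset.sum_congr rfl fun β _ => ?_
    rw [p7_eq]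
    ring
  simp only [h1]
  rw [integral_finsetSum s fun β _ => (p7_int m μ hμ β α).const_mul _, Finset.sum_eq_single α]
  · rw [integral_const_mul, hμ.mom, if_pos rfl]
    push_cast
    ring
  · intro β _ hβ
    rw [integral_const_mul, hμ.mom, if_neg hβ, mul_zero]
  · intro h; exact absurd hs h

theorem coeff_formula {a : A d} (ha : Conv a) {r : ℝ} (hr0 : 0 ≤ r) (hr : r < 1) (m : ℕ)
    (μ : Measure (Fin d → ℂ)) (hμ : IsLaw d m μ) (α : Fin d →₀ ℕ) :
    ∫ z, ev a (fun i => (r : ℂ) * z i) * ∏ i, (starRingEnd ℂ) (z i) ^ α i ∂μ =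
      MvPowerSeries.coeff α a * ((r ^ (∑ i, α i) * vv m α : ℝ) : ℂ) := by
  have := hμ.prob
  obtain ⟨b, hb, hbb⟩ := exists_majorant a ha r hr0 hr
  have h1 : Tendsto (fun s : Finset (Fin d →₀ ℕ) =>
      ∫ z, (∑ β ∈ s, p7_tm a r β z) * ∏ i, (starRingEnd ℂ) (z i) ^ α i ∂μ) atTop
      (𝓝 (∫ z, ev a (fun i => (r : ℂ) * z i) * ∏ i, (starRingEnd ℂ) (z i) ^ α i ∂μ)) := by
    refine tendsto_integral_filter_of_dominated_convergence (fun _ => ∑' α, b α)
      (Eventually.of_forall fun s => ?_) (Eventually.of_forall fun s => ?_)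
      (integrable_const _) ?_
    · exact ((continuous_finsetSum _ fun α _ => p7_cont a r α).mul
        (e2_cont α)).aestronglyMeasurable
    · filter_upwards [hμ.supp] with z hz
      rw [norm_mul]
      have h2 := p7_bound hr0 hb hbb hz s
      have h3 := e2_le hz α
      calc _ ≤ (∑' α, b α) * 1 := mul_le_mul h2 h3 (norm_nonneg _) (le_trans (norm_nonneg _) h2)
        _ = _ := mul_one _
    · filter_upwards [hμ.supp] with z hz
      exact Tendsto.mul_const _ (p7_hasSum hr0 hb hbb hz)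
  have h2 : Tendsto (fun s : Finset (Fin d →₀ ℕ) =>
      ∫ z, (∑ β ∈ s, p7_tm a r β z) * ∏ i, (starRingEnd ℂ) (z i) ^ α i ∂μ) atTop
      (𝓝 (MvPowerSeries.coeff α a * ((r ^ (∑ i, α i) * vv m α : ℝ) : ℂ))) := by
    refine tendsto_const_nhds.congr' ?_
    filter_upwards [eventually_ge_atTop ({α} : Finset (Fin d →₀ ℕ))] with s hs
    exact (e2_fin a r m μ hμ α s (hs (Finset.mem_singleton_self α))).symm
  exact tendsto_nhds_unique h1 h2

theorem coeff_tendsto_of_ev (X : ℕ → A d) (X0 : A d) (hX : ∀ j, X j ∈ H2 d) (hX0 : X0 ∈ H2 d)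
    (B : ℝ) (hB : ∀ j, nrm (X j) ≤ B)
    (h : ∀ z ∈ Ball d, Tendsto (fun j => ev (X j) z) atTop (𝓝 (ev X0 z))) (α : Fin d →₀ ℕ) :
    Tendsto (fun j => MvPowerSeries.coeff α (X j)) atTop (𝓝 (MvPowerSeries.coeff α X0)) := by
  obtain ⟨μ, hμ⟩ := exists_law d d (Nat.le_succ d)
  have := hμ.prob
  have hr0 : (0 : ℝ) ≤ 1 / 2 := by norm_num
  have hr : (1 / 2 : ℝ) < 1 := by norm_num
  have hsm : ∀ z : Fin d → ℂ, ∑ i, ‖z i‖ ^ 2 ≤ 1 →
      ∑ i, ‖(fun i => (((1 / 2 : ℝ)) : ℂ) * z i) i‖ ^ 2 ≤ 1 / 4 := by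
    intro z hz
    have e : ∑ i, ‖(fun i => (((1 / 2 : ℝ)) : ℂ) * z i) i‖ ^ 2 = 1 / 4 * ∑ i, ‖z i‖ ^ 2 := by
      rw [Finset.mul_sum]
      refine Finset.sum_congr rfl fun i _ => ?_
      show ‖(((1 / 2 : ℝ)) : ℂ) * z i‖ ^ 2 = _
      rw [norm_mul, Complex.norm_real, Real.norm_of_nonneg hr0]
      ring
    rw [e]
    linarith
  have hball : ∀ z : Fin d → ℂ, ∑ i, ‖z i‖ ^ 2 ≤ 1 →
      (fun i => (((1 / 2 : ℝ)) : ℂ) * z i) ∈ Ball d := by
    intro z hz
    show ∑ i, ‖(fun i => (((1 / 2 : ℝ)) : ℂ) * z i) i‖ ^ 2 < 1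
    have := hsm z hz
    linarith
  have h1 : Tendsto (fun j => ∫ z, ev (X j) (fun i => (((1 / 2 : ℝ)) : ℂ) * z i) *
      ∏ i, (starRingEnd ℂ) (z i) ^ α i ∂μ) atTop
      (𝓝 (∫ z, ev X0 (fun i => (((1 / 2 : ℝ)) : ℂ) * z i) *
      ∏ i, (starRingEnd ℂ) (z i) ^ α i ∂μ)) := by
    refine tendsto_integral_filter_of_dominated_convergence (fun _ => B / Real.sqrt (3 / 4))
      (Eventually.of_forall fun j => ?_) (Eventually.of_forall fun j => ?_)
      (integrable_const _) ?_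
    · exact (measurable_ev_dilate (conv_of_mem (hX j)) hr0 hr d μ hμ).mul
        (e2_cont α).aestronglyMeasurable
    · filter_upwards [hμ.supp] with z hz
      rw [norm_mul]
      have h2 := ev_bound (hX j) (hball z hz)
      have h3 := e2_le hz α
      have h4 : nrm (X j) / Real.sqrt (1 - ∑ i, ‖(fun i => (((1 / 2 : ℝ)) : ℂ) * z i) i‖ ^ 2) ≤
          B / Real.sqrt (3 / 4) := by
        refine div_le_div₀ (le_trans (Real.sqrt_nonneg _) (hB j)) (hB j)
          (Real.sqrt_pos.2 (by norm_num)) (Real.sqrt_le_sqrt ?_)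
        have := hsm z hz
        linarith
      calc _ ≤ (B / Real.sqrt (3 / 4)) * 1 :=
            mul_le_mul (h2.trans h4) h3 (norm_nonneg _) (le_trans (norm_nonneg _) (h2.trans h4))
        _ = _ := mul_one _
    · filter_upwards [hμ.supp] with z hz
      exact Tendsto.mul_const _ (h _ (hball z hz))
  rw [coeff_formula (conv_of_mem hX0) hr0 hr d μ hμ α] at h1
  have e1 : ∀ j, ∫ z, ev (X j) (fun i => (((1 / 2 : ℝ)) : ℂ) * z i) *
      ∏ i, (starRingEnd ℂ) (z i) ^ α i ∂μ =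
      MvPowerSeries.coeff α (X j) * (((1 / 2 : ℝ) ^ (∑ i, α i) * vv d α : ℝ) : ℂ) := fun j =>
    coeff_formula (conv_of_mem (hX j)) hr0 hr d μ hμ α
  simp only [e1] at h1
  have hc : (((1 / 2 : ℝ) ^ (∑ i, α i) * vv d α : ℝ) : ℂ) ≠ 0 := by
    rw [Complex.ofReal_ne_zero]
    have := vv_pos d α
    positivity
  have h2 := h1.div_const (((1 / 2 : ℝ) ^ (∑ i, α i) * vv d α : ℝ) : ℂ)
  simp only [mul_div_cancel_right₀ _ hc] at h2
  exact h2

end PCM
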