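import Pool.Agent.PCM.E2
import Pool.Agent.PCM.D2

/-!
# [PCM-E3] infinite products

`f ≠ 0`: otherwise `g j * h j = 0`, `g j ≠ 0` (member of `C d k`), so `h j = 0` for all `j` (no zero divisors), and
`ev (h j) 0 = 0` does not tend to `1`.
Let `S` be the closed subspace of `exists_submodule (f^(k+1))`.  `f^k * h j = (g j)^k * (h j)^(k+1)` (from `hfg`).
`(g j)^k ∈ inv ((g j)^k) = inv ((g j)^(k+1))`: for `ε > 0` there is a multiplier `φ` with
`nrm ((g j)^k - φ (g j)^(k+1)) < ε / M`, `M ≥ 1` a bound for multiplication by `(h j)^(k+1)` (`bounded_of_mult`,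
`mult_pow`); hence `nrm (f^k h j - φ f^(k+1)) < ε`, that is `f^k * h j ∈ inv (f^(k+1))`.
So `x j = toE (f^k * h j) ∈ S`, `‖x j‖ ≤ B`, and the coordinates converge to those of `toE (f^k)`
(`coeff_tendsto_of_ev`: `ev (f^k * h j) z = ev (f^k) z * ev (h j) z → ev (f^k) z`).  `mem_of_weak`: `toE (f^k) ∈ S`, so
`f^k ∈ inv (f^(k+1))`; `inv_eq`.
-/

open MeasureTheory Set Filter Topology

namespace PCM

variable {d : ℕ}

theorem C_lim (k : ℕ) {f : A d} (hf : IsMult f) (g h : ℕ → A d) (hg : ∀ j, g j ∈ C d k)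
    (hh : ∀ j, IsMult (h j)) (hfg : ∀ j, f = g j * h j)
    (hpt : ∀ z ∈ Ball d, Tendsto (fun j => ev (h j) z) atTop (𝓝 1)) (B : ℝ)
    (hB : ∀ j, nrm (f ^ k * h j) ≤ B) : f ∈ C d k := by
  have hfk : IsMult (f ^ k) := mult_pow hf k
  have hmul : ∀ j, IsMult (f ^ k * h j) := fun j => mult_mul hfk (hh j)
  refine ⟨hf, ?_, inv_eq hf k ?_⟩
  · intro h0
    have h1 : ∀ j, h j = 0 := fun j => by
      have h2 := hfg j
      rw [h0] at h2
      rcases mul_eq_zero.1 h2.symm with h3 | h3
      · exact absurd h3 (hg j).2.1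
      · exact h3
    have h2 := hpt _ (p20_zero_mem_ball (d := d))
    have h3 : ∀ j, ev (h j) (fun _ => (0 : ℂ)) = 0 := by
      intro j
      rw [h1 j, ev_zero_point, map_zero]
    simp only [h3] at h2
    exact zero_ne_one (tendsto_nhds_unique tendsto_const_nhds h2)
  · obtain ⟨S, hSc, hS⟩ := exists_submodule (f ^ (k + 1)) (mult_pow hf _)
    have hmem : ∀ j, toE (f ^ k * h j) (mem_of_mult (hmul j)) ∈ S := by
      intro j
      rw [hS, ofE_toE]
      refine ⟨mem_of_mult (hmul j), fun ε hε => ?_⟩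
      obtain ⟨M, hM1, hM⟩ := bounded_of_mult (mult_pow (hh j) (k + 1))
      have hM0 : 0 < M := lt_of_lt_of_le one_pos hM1
      have hgm : IsMult (g j) := (hg j).1
      have h1 : g j ^ k ∈ inv (g j ^ (k + 1)) := by
        rw [← (hg j).2.2]
        have h2 := mul_mem_inv (mult_pow hgm k) (φ := 1) (fun x hx => by rwa [one_mul])
        rwa [one_mul] at h2
      obtain ⟨φ, hφ, h2⟩ := h1.2 (ε / M) (div_pos hε hM0)
      refine ⟨φ, hφ, ?_⟩
      have h3 : f ^ k * h j - φ * f ^ (k + 1) =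
          h j ^ (k + 1) * (g j ^ k - φ * g j ^ (k + 1)) := by
        rw [hfg j]
        ring
      rw [h3]
      have h4 := hM _ (sub_mem (mem_of_mult (mult_pow hgm k))
        (mem_of_mult (mult_mul hφ (mult_pow hgm (k + 1)))))
      rw [lt_div_iff₀ hM0] at h2
      linarith
    have hlim : toE (f ^ k) (mem_of_mult hfk) ∈ S := by
      refine mem_of_weak S hSc (fun j => toE (f ^ k * h j) (mem_of_mult (hmul j)))
        (toE (f ^ k) (mem_of_mult hfk)) B (fun j => ?_) (fun α => ?_) hmem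
      · rw [norm_toE]
        exact hB j
      · have h5 := coeff_tendsto_of_ev (fun j => f ^ k * h j) (f ^ k)
          (fun j => mem_of_mult (hmul j)) (mem_of_mult hfk) B hB (fun z hz => ?_) α
        · exact h5.const_mul ((Real.sqrt (wt α) : ℝ) : ℂ)
        · have h6 : ∀ j, ev (f ^ k * h j) z = ev (f ^ k) z * ev (h j) z := fun j =>
            ev_mul (conv_of_mem (mem_of_mult hfk)) (conv_of_mem (mem_of_mult (hh j))) hz
          simp only [h6]
          have h7 := (hpt z hz).const_mul (ev (f ^ k) z)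
          rwa [mul_one] at h7
    rwa [hS, ofE_toE] at hlim

end PCM
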