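import Pool.Agent.PCM.CA9
import Pool.Agent.PCM.D4
import Pool.Agent.PCM.E1
import Pool.Agent.PCM.E3
import Pool.Agent.PCM.T8

/-!
# [PCM] the class of multipliers with restricted range
-/

open MeasureTheory Set Filter Topology

namespace PCM

/-- The smallest set of multipliers which is closed under products and under bounded infinite
products (`f = g j * h j` with `g j` in the set, `h j → 1` pointwise and `f^⌊d/2⌋ * h j` bounded in
`H²_d`), and contains
* the invertible multipliers;
* the zero-free multipliers whose values avoid the discs `D(l j, c |l j|)`, where `l j → 0`;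
* the multipliers `exp (-F)`, such that the points at distance at least `δ` from the values of `F`
  form a set which has infinite logarithmic area in the right half-plane, or form a set on which
  no nonconstant entire function of exponential type is bounded. -/
inductive Cls (d : ℕ) : A d → Prop
  | unit (u v : A d) (hu : IsMult u) (hv : IsMult v) (huv : u * v = 1) : Cls d u
  | discs (f : A d) (hf : IsMult f) (hnz : ∀ z ∈ Ball d, ev f z ≠ 0) (c : ℝ) (hc : 0 < c)
      (l : ℕ → ℂ) (hl0 : ∀ j, l j ≠ 0) (hl : Tendsto l atTop (𝓝 0))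
      (h : ∀ j, ∀ z ∈ Ball d, c * ‖l j‖ ≤ ‖ev f z - l j‖) : Cls d f
  | area (f F : A d) (hf : IsMult f) (hF : Conv F)
      (hfF : ∀ z ∈ Ball d, ev f z = Complex.exp (-ev F z)) (δ : ℝ) (hδ : 0 < δ)
      (h : ∫⁻ w in Om F δ ∩ {w : ℂ | 0 < w.re}, ENNReal.ofReal (1 / (1 + ‖w‖ ^ 2)) = ⊤) :
      Cls d f
  | det (f F : A d) (hf : IsMult f) (hF : Conv F)
      (hfF : ∀ z ∈ Ball d, ev f z = Complex.exp (-ev F z)) (δ : ℝ) (hδ : 0 < δ)
      (h : Det (Om F δ)) : Cls d f
  | mul (f g : A d) (hf : Cls d f) (hg : Cls d g) : Cls d (f * g)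
  | lim (f : A d) (hf : IsMult f) (g h : ℕ → A d) (hg : ∀ j, Cls d (g j))
      (hh : ∀ j, IsMult (h j)) (hfg : ∀ j, f = g j * h j)
      (hpt : ∀ z ∈ Ball d, Tendsto (fun j => ev (h j) z) atTop (𝓝 1)) (B : ℝ)
      (hB : ∀ j, nrm (f ^ (d / 2) * h j) ≤ B) : Cls d f

theorem main2 (d : ℕ) (f : A d) (hf : Cls d f) : f ∈ C d (d / 2) := by
  induction hf with
  | unit u v hu hv huv => exact C_unit _ hu hv huv
  | discs f hf hnz c hc l hl0 hl h => exact discs d f hf hnz c hc l hl0 hl h
  | area f F hf hF hfF δ hδ h =>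
    refine core d f F hf hF hfF δ hδ ?_
    obtain ⟨M, hM1, hM⟩ := bounded_of_mult hf
    refine det_of_area (Om F δ) (Real.log M + δ) ?_ h
    intro w hw z hz
    have h1 := sup_bound hf hM1 hM hz
    rw [hfF z hz, Complex.norm_exp] at h1
    have h2 := Real.log_le_log (Real.exp_pos _) h1
    rw [Real.log_exp] at h2
    simp only [Complex.neg_re] at h2
    have h3 : δ ≤ (ev F z - w).re := by
      rw [Complex.sub_re]
      linarith
    exact h3.trans (Complex.re_le_norm _)
  | det f F hf hF hfF δ hδ h => exact core d f F hf hF hfF δ hδ h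
  | mul f g hf hg ihf ihg => exact C_mul _ ihf ihg
  | lim f hf g h hg hh hfg hpt B hB ihg => exact C_lim _ hf g h ihg hh hfg hpt B hB

end PCM
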