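import Pool.Agent.PCM.Defs

/-!
# [PCM-P1] sums and products of absolutely convergent series

Write `m z α = ∏ i, z i ^ α i`; `m z (α+β) = m z α * m z β`.  Product: `coeff γ (a*b)` is the sum over
the antidiagonal (`MvPowerSeries.coeff_mul`).  The family `(α,β) ↦ a_α z^α b_β z^β` is absolutely
summable; regroup over the antidiagonals (`summable_mul_prod...`,
`tsum_mul_tsum_eq_tsum_sum_antidiagonal_of_summable_norm`-type lemmas for a type with
`Finset.HasAntidiagonal`, e.g. `Summable.tsum_mul_tsum_eq_tsum_sum_antidiagonal`,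
`summable_sum_mul_antidiagonal_of_summable_mul`; or `Finset.sigmaAntidiagonalEquivProd`).
For `absum_mul_le` use `‖coeff γ (a*b)‖ ≤ Σ ‖a_α‖ ‖b_β‖` and the same regrouping with real terms.
`conv_pow`, `ev_pow`, `ev_sum`, `conv_sum`: induction.
-/

open MeasureTheory Set Filter Topology

namespace PCM

variable {d : ℕ}

theorem p1_m_add (z : Fin d → ℂ) (α β : Fin d →₀ ℕ) :
    ∏ i, z i ^ (α + β) i = (∏ i, z i ^ α i) * ∏ i, z i ^ β i := by
  rw [← Finset.prod_mul_distrib]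
  exact Finset.prod_congr rfl fun i _ => by rw [Finsupp.add_apply, pow_add]

theorem p1_M_add (z : Fin d → ℂ) (α β : Fin d →₀ ℕ) :
    ∏ i, ‖z i‖ ^ (α + β) i = (∏ i, ‖z i‖ ^ α i) * ∏ i, ‖z i‖ ^ β i := by
  rw [← Finset.prod_mul_distrib]
  exact Finset.prod_congr rfl fun i _ => by rw [Finsupp.add_apply, pow_add]

theorem p1_M_nonneg (z : Fin d → ℂ) (α : Fin d →₀ ℕ) : 0 ≤ ∏ i, ‖z i‖ ^ α i :=
  Finset.prod_nonneg fun _ _ => pow_nonneg (norm_nonneg _) _

theorem p1_nn (a : A d) (z : Fin d → ℂ) (α : Fin d →₀ ℕ) :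
    0 ≤ ‖MvPowerSeries.coeff α a‖ * ∏ i, ‖z i‖ ^ α i :=
  mul_nonneg (norm_nonneg _) (p1_M_nonneg z α)

theorem p1_norm (a : A d) (z : Fin d → ℂ) (α : Fin d →₀ ℕ) :
    ‖MvPowerSeries.coeff α a * ∏ i, z i ^ α i‖ =
      ‖MvPowerSeries.coeff α a‖ * ∏ i, ‖z i‖ ^ α i := by
  rw [norm_mul, norm_prod]
  congr 1
  exact Finset.prod_congr rfl fun _ _ => norm_pow _ _

theorem p1_summable {a : A d} (ha : Conv a) {z : Fin d → ℂ} (hz : z ∈ Ball d) :
    Summable fun α => ‖MvPowerSeries.coeff α a * ∏ i, z i ^ α i‖ := by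
  have h := ha z hz
  have h2 : (fun α => ‖MvPowerSeries.coeff α a * ∏ i, z i ^ α i‖) =
      fun α => ‖MvPowerSeries.coeff α a‖ * ∏ i, ‖z i‖ ^ α i := funext fun α => p1_norm a z α
  rw [h2]
  exact h

theorem p1_S {f g : (Fin d →₀ ℕ) → ℝ} (hf : Summable f) (hg : Summable g) (f0 : ∀ α, 0 ≤ f α)
    (g0 : ∀ α, 0 ≤ g α) : Summable fun γ =>
      ∑ p ∈ Finset.HasAntidiagonal.antidiagonal γ, f p.1 * g p.2 :=
  summable_sum_mul_antidiagonal_of_summable_mul (Summable.mul_of_nonneg hf hg f0 g0)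

theorem p1_T {f g : (Fin d →₀ ℕ) → ℝ} (hf : Summable f) (hg : Summable g) (f0 : ∀ α, 0 ≤ f α)
    (g0 : ∀ α, 0 ≤ g α) : (∑' α, f α) * ∑' α, g α =
      ∑' γ, ∑ p ∈ Finset.HasAntidiagonal.antidiagonal γ, f p.1 * g p.2 :=
  Summable.tsum_mul_tsum_eq_tsum_sum_antidiagonal hf hg (Summable.mul_of_nonneg hf hg f0 g0)

theorem p1_TC {f g : (Fin d →₀ ℕ) → ℂ} (hf : Summable fun α => ‖f α‖)
    (hg : Summable fun α => ‖g α‖) : (∑' α, f α) * ∑' α, g α =
      ∑' γ, ∑ p ∈ Finset.HasAntidiagonal.antidiagonal γ, f p.1 * g p.2 :=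
  Summable.tsum_mul_tsum_eq_tsum_sum_antidiagonal hf.of_norm hg.of_norm
    (summable_mul_of_summable_norm hf hg)

theorem p1_le (a b : A d) (z : Fin d → ℂ) (γ : Fin d →₀ ℕ) :
    ‖MvPowerSeries.coeff γ (a * b)‖ * ∏ i, ‖z i‖ ^ γ i ≤
      ∑ p ∈ Finset.HasAntidiagonal.antidiagonal γ, (‖MvPowerSeries.coeff p.1 a‖ * ∏ i, ‖z i‖ ^ p.1 i) *
        (‖MvPowerSeries.coeff p.2 b‖ * ∏ i, ‖z i‖ ^ p.2 i) := by
  rw [MvPowerSeries.coeff_mul]
  refine (mul_le_mul_of_nonneg_right (norm_sum_le _ _) (p1_M_nonneg z γ)).trans ?_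
  rw [Finset.sum_mul]
  refine le_of_eq (Finset.sum_congr rfl fun p hp => ?_)
  rw [← Finset.HasAntidiagonal.mem_antidiagonal.1 hp, p1_M_add, norm_mul]
  ring

theorem p1_mul (a b : A d) (z : Fin d → ℂ) (γ : Fin d →₀ ℕ) :
    MvPowerSeries.coeff γ (a * b) * ∏ i, z i ^ γ i =
      ∑ p ∈ Finset.HasAntidiagonal.antidiagonal γ, (MvPowerSeries.coeff p.1 a * ∏ i, z i ^ p.1 i) *
        (MvPowerSeries.coeff p.2 b * ∏ i, z i ^ p.2 i) := by
  rw [MvPowerSeries.coeff_mul, Finset.sum_mul]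
  refine Finset.sum_congr rfl fun p hp => ?_
  rw [← Finset.HasAntidiagonal.mem_antidiagonal.1 hp, p1_m_add]
  ring

theorem conv_zero : Conv (0 : A d) := by
  intro z _
  have h : (fun α => ‖MvPowerSeries.coeff α (0 : A d)‖ * ∏ i, ‖z i‖ ^ α i) = fun _ => 0 := by
    funext α
    rw [map_zero, norm_zero, zero_mul]
  rw [h]
  exact summable_zero

theorem conv_one : Conv (1 : A d) := by
  classical
  intro z _
  refine (hasSum_single (0 : Fin d →₀ ℕ) ?_).summable
  intro α hα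
  rw [MvPowerSeries.coeff_one, if_neg hα, norm_zero, zero_mul]

theorem conv_add {a b : A d} (ha : Conv a) (hb : Conv b) : Conv (a + b) := by
  intro z hz
  refine Summable.of_nonneg_of_le (fun α => p1_nn _ z α) (fun α => ?_) ((ha z hz).add (hb z hz))
  rw [map_add, ← add_mul]
  exact mul_le_mul_of_nonneg_right (norm_add_le _ _) (p1_M_nonneg z α)

theorem conv_smul (c : ℂ) {a : A d} (ha : Conv a) : Conv (c • a) := by
  intro z hz
  have h : (fun α => ‖MvPowerSeries.coeff α (c • a)‖ * ∏ i, ‖z i‖ ^ α i) =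
      fun α => ‖c‖ * (‖MvPowerSeries.coeff α a‖ * ∏ i, ‖z i‖ ^ α i) := by
    funext α
    rw [map_smul, norm_smul, mul_assoc]
  rw [h]
  exact (ha z hz).mul_left _

theorem conv_sub {a b : A d} (ha : Conv a) (hb : Conv b) : Conv (a - b) := by
  have h : a - b = a + (-1 : ℂ) • b := by
    rw [neg_one_smul, sub_eq_add_neg]
  rw [h]
  exact conv_add ha (conv_smul _ hb)

theorem conv_mul {a b : A d} (ha : Conv a) (hb : Conv b) : Conv (a * b) := by
  intro z hz
  exact Summable.of_nonneg_of_le (fun α => p1_nn _ z α) (fun γ => p1_le a b z γ)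
    (p1_S (f := fun α => ‖MvPowerSeries.coeff α a‖ * ∏ i, ‖z i‖ ^ α i)
      (g := fun α => ‖MvPowerSeries.coeff α b‖ * ∏ i, ‖z i‖ ^ α i) (ha z hz) (hb z hz)
      (fun α => p1_nn a z α) (fun α => p1_nn b z α))

theorem absum_mul_le {a b : A d} (ha : Conv a) (hb : Conv b) {z : Fin d → ℂ} (hz : z ∈ Ball d) :
    ∑' α, ‖MvPowerSeries.coeff α (a * b)‖ * ∏ i, ‖z i‖ ^ α i ≤
      (∑' α, ‖MvPowerSeries.coeff α a‖ * ∏ i, ‖z i‖ ^ α i) *
        ∑' α, ‖MvPowerSeries.coeff α b‖ * ∏ i, ‖z i‖ ^ α i := by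
  have h1 := p1_S (f := fun α => ‖MvPowerSeries.coeff α a‖ * ∏ i, ‖z i‖ ^ α i)
      (g := fun α => ‖MvPowerSeries.coeff α b‖ * ∏ i, ‖z i‖ ^ α i) (ha z hz) (hb z hz)
      (fun α => p1_nn a z α) (fun α => p1_nn b z α)
  have h2 := p1_T (f := fun α => ‖MvPowerSeries.coeff α a‖ * ∏ i, ‖z i‖ ^ α i)
      (g := fun α => ‖MvPowerSeries.coeff α b‖ * ∏ i, ‖z i‖ ^ α i) (ha z hz) (hb z hz)
      (fun α => p1_nn a z α) (fun α => p1_nn b z α)
  refine le_trans ?_ (le_of_eq h2.symm)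
  exact Summable.tsum_le_tsum (fun γ => p1_le a b z γ) (conv_mul ha hb z hz) h1

theorem conv_pow {a : A d} (ha : Conv a) (n : ℕ) : Conv (a ^ n) := by
  induction n with
  | zero =>
    rw [pow_zero]
    exact conv_one
  | succ n ih =>
    rw [pow_succ]
    exact conv_mul ih ha

theorem conv_sum {ι : Type*} (s : Finset ι) (a : ι → A d) (ha : ∀ i ∈ s, Conv (a i)) :
    Conv (∑ i ∈ s, a i) := by
  classical
  induction s using Finset.induction_on with
  | empty =>
    rw [Finset.sum_empty]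
    exact conv_zero
  | insert i s hi ih =>
    rw [Finset.sum_insert hi]
    exact conv_add (ha i (Finset.mem_insert_self i s))
      (ih fun j hj => ha j (Finset.mem_insert_of_mem hj))

theorem ev_one (z : Fin d → ℂ) : ev (1 : A d) z = 1 := by
  classical
  unfold ev
  rw [tsum_eq_single (0 : Fin d →₀ ℕ)]
  · rw [MvPowerSeries.coeff_one, if_pos rfl, one_mul]
    exact Finset.prod_eq_one fun i _ => by rw [Finsupp.zero_apply, pow_zero]
  · intro α hα
    rw [MvPowerSeries.coeff_one, if_neg hα, zero_mul]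

theorem ev_add {a b : A d} (ha : Conv a) (hb : Conv b) {z : Fin d → ℂ} (hz : z ∈ Ball d) :
    ev (a + b) z = ev a z + ev b z := by
  unfold ev
  rw [← Summable.tsum_add (p1_summable ha hz).of_norm (p1_summable hb hz).of_norm]
  refine tsum_congr fun α => ?_
  rw [map_add, add_mul]

theorem ev_smul (c : ℂ) (a : A d) (z : Fin d → ℂ) : ev (c • a) z = c * ev a z := by
  unfold ev
  rw [← tsum_mul_left]
  refine tsum_congr fun α => ?_
  rw [map_smul, smul_eq_mul, mul_assoc]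

theorem ev_sub {a b : A d} (ha : Conv a) (hb : Conv b) {z : Fin d → ℂ} (hz : z ∈ Ball d) :
    ev (a - b) z = ev a z - ev b z := by
  unfold ev
  rw [← Summable.tsum_sub (p1_summable ha hz).of_norm (p1_summable hb hz).of_norm]
  refine tsum_congr fun α => ?_
  rw [map_sub, sub_mul]

theorem ev_mul {a b : A d} (ha : Conv a) (hb : Conv b) {z : Fin d → ℂ} (hz : z ∈ Ball d) :
    ev (a * b) z = ev a z * ev b z := by
  have h := p1_TC (f := fun α => MvPowerSeries.coeff α a * ∏ i, z i ^ α i)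
    (g := fun α => MvPowerSeries.coeff α b * ∏ i, z i ^ α i) (p1_summable ha hz)
    (p1_summable hb hz)
  refine Eq.trans ?_ h.symm
  exact tsum_congr fun γ => p1_mul a b z γ

theorem ev_pow {a : A d} (ha : Conv a) (n : ℕ) {z : Fin d → ℂ} (hz : z ∈ Ball d) :
    ev (a ^ n) z = ev a z ^ n := by
  induction n with
  | zero => rw [pow_zero, pow_zero, ev_one]
  | succ n ih => rw [pow_succ, pow_succ, ev_mul (conv_pow ha n) ha hz, ih]

theorem ev_sum {ι : Type*} (s : Finset ι) (a : ι → A d) (ha : ∀ i ∈ s, Conv (a i))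
    {z : Fin d → ℂ} (hz : z ∈ Ball d) : ev (∑ i ∈ s, a i) z = ∑ i ∈ s, ev (a i) z := by
  classical
  induction s using Finset.induction_on with
  | empty =>
    rw [Finset.sum_empty, Finset.sum_empty]
    unfold ev
    have h : (fun α => MvPowerSeries.coeff α (0 : A d) * ∏ i, z i ^ α i) = fun _ => 0 := by
      funext α
      rw [map_zero, zero_mul]
    rw [h, tsum_zero]
  | insert i s hi ih =>
    rw [Finset.sum_insert hi, Finset.sum_insert hi, ev_add (ha i (Finset.mem_insert_self i s))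
      (conv_sum s a fun j hj => ha j (Finset.mem_insert_of_mem hj)) hz,
      ih fun j hj => ha j (Finset.mem_insert_of_mem hj)]

theorem ev_zero_point (a : A d) : ev a (fun _ => 0) = MvPowerSeries.coeff 0 a := by
  unfold ev
  rw [tsum_eq_single (0 : Fin d →₀ ℕ)]
  · have h : ∏ i : Fin d, (0 : ℂ) ^ (0 : Fin d →₀ ℕ) i = 1 :=
      Finset.prod_eq_one fun i _ => by rw [Finsupp.zero_apply, pow_zero]
    rw [h, mul_one]
  · intro α hα
    obtain ⟨i, hi⟩ : ∃ i, α i ≠ 0 := by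
      by_contra h
      push Not at h
      exact hα (Finsupp.ext h)
    rw [Finset.prod_eq_zero (Finset.mem_univ i) (zero_pow hi), mul_zero]

end PCM
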