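import Pool.Agent.PCM.Defs

/-!
# [PCM-P3] `R` is a derivation; the Taylor lemma (pure algebra)

`R_mul`: coefficients, `|α+β| = |α|+|β|` on the antidiagonal.
Write `B_{i,m} = BB f g i m`.
`BB_zero`: `B_{0,m} = R^m g`; `B_{i,0} = (f-f)^i g = 0` for `i ≥ 1` (binomial theorem, commutative ring).
`R_BB`: `R B_{0,m} = B_{0,m+1}` and `R B_{i+1,m} = B_{i+1,m+1} - (i+1) • (R f * B_{i,m})`:
`R[(-f)^{i-q} R^m(f^q g)] = (-f)^{i-q} R^{m+1}(f^q g) - (i-q) (-f)^{i-q-1} R f * R^m(f^q g)` and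
`C(i,q) (i-q) = i C(i-1,q)`.
`BB_eq_zero`: `B_{i,m} = 0` for `m < i`, by induction on `m` from `R_BB`.
`taylor`: induction on `k`.  `(R^{k+1})(P s g) = R (Σ_{i≤k} cc s i • P(s-i) B_{i,k})`,
`R (P(s-i) B_{i,k}) = (s-i) P(s-i-1) R f B_{i,k} + P(s-i) R B_{i,k}`, `cc s i (s-i) = (i+1) cc s (i+1)`;
the terms with `R f` cancel in pairs (`i` and `i+1`), the last one (`i = k`) is
`(k+1) cc s (k+1) P(s-k-1) R f B_{k,k}`, which cancels against the `i = k+1` term of
`Σ_{i≤k+1} cc s i • P(s-i) B_{i,k+1}`, since `B_{k+1,k+1} = R B_{k+1,k} + (k+1) R f B_{k,k} = (k+1) R f B_{k,k}`.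
-/

open MeasureTheory Set Filter Topology

namespace PCM

variable {d : ℕ}

theorem R_mul (a b : A d) : R d (a * b) = R d a * b + a * R d b := by
  classical
  ext α
  rw [coeff_R, MvPowerSeries.coeff_mul, map_add, MvPowerSeries.coeff_mul, MvPowerSeries.coeff_mul,
    Finset.mul_sum, ← Finset.sum_add_distrib]
  refine Finset.sum_congr rfl fun x hx => ?_
  rw [Finset.HasAntidiagonal.mem_antidiagonal] at hx
  rw [coeff_R, coeff_R]
  have h1 : ((∑ i, α i : ℕ) : ℂ) = ((∑ i, x.1 i : ℕ) : ℂ) + ((∑ i, x.2 i : ℕ) : ℂ) := by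
    rw [← hx, ← Nat.cast_add, ← Finset.sum_add_distrib]
    rfl
  rw [h1]
  ring

theorem R_one : R d (1 : A d) = 0 := by
  classical
  ext α
  rw [coeff_R, MvPowerSeries.coeff_one, map_zero]
  by_cases h : α = 0
  · subst h
    simp
  · rw [if_neg h, mul_zero]

theorem R_pow_succ_apply (k : ℕ) (a : A d) : (R d ^ (k + 1)) a = R d ((R d ^ k) a) := by
  rw [pow_succ', Module.End.mul_apply]

private theorem p3_R_pow (h : A d) (p : ℕ) : R d (h ^ (p + 1)) = ((p + 1 : ℕ) : ℂ) • (h ^ p * R d h) := by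
  induction p with
  | zero => simp
  | succ p ih =>
    rw [pow_succ, R_mul, ih, MvPowerSeries.smul_eq_C_mul, MvPowerSeries.smul_eq_C_mul]
    push_cast
    rw [map_add, map_add, map_add, map_one]
    ring

private theorem p3_BB_zero (f g : A d) (m : ℕ) : BB f g 0 m = (R d ^ m) g := by
  unfold BB
  rw [Finset.sum_range_succ, Finset.sum_range_zero]
  simp

theorem R_BB (f g : A d) (i m : ℕ) :
    R d (BB f g (i + 1) m) =
      BB f g (i + 1) (m + 1) - ((i + 1 : ℕ) : ℂ) • (R d f * BB f g i m) := by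
  have hterm : ∀ q ∈ Finset.range (i + 1), R d (((i + 1).choose q : ℂ) •
      ((-f) ^ (i + 1 - q) * (R d ^ m) (f ^ q * g))) =
      ((i + 1).choose q : ℂ) • ((-f) ^ (i + 1 - q) * (R d ^ (m + 1)) (f ^ q * g)) -
      ((i + 1 : ℕ) : ℂ) • (R d f * ((i.choose q : ℂ) • ((-f) ^ (i - q) *
        (R d ^ m) (f ^ q * g)))) := by
    intro q hq
    rw [Finset.mem_range] at hq
    have e1 : i + 1 - q = (i - q) + 1 := by omega
    have e2 : ((i + 1).choose q : ℂ) * (((i - q + 1 : ℕ)) : ℂ) = ((i + 1 : ℕ) : ℂ) * (i.choose q : ℂ) := by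
      have h := Nat.choose_mul_succ_eq i q
      rw [e1] at h
      have h2 : ((i.choose q * (i + 1) : ℕ) : ℂ) = (((i + 1).choose q * (i - q + 1) : ℕ) : ℂ) := by
        rw [h]
      rw [Nat.cast_mul, Nat.cast_mul] at h2
      rw [← h2]
      ring
    rw [map_smul, R_mul, e1, p3_R_pow, R_pow_succ_apply, map_neg]
    generalize (R d ^ m) (f ^ q * g) = y
    simp only [MvPowerSeries.smul_eq_C_mul]
    have e3 : MvPowerSeries.C ((i + 1).choose q : ℂ) *
        MvPowerSeries.C (((i - q + 1 : ℕ)) : ℂ) =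
        (MvPowerSeries.C ((i + 1 : ℕ) : ℂ) * MvPowerSeries.C (i.choose q : ℂ) : A d) := by
      rw [← map_mul, ← map_mul, e2]
    linear_combination (-((-f) ^ (i - q) * R d f * y)) * e3
  have hlast : R d (((i + 1).choose (i + 1) : ℂ) • ((-f) ^ (i + 1 - (i + 1)) *
      (R d ^ m) (f ^ (i + 1) * g))) = ((i + 1).choose (i + 1) : ℂ) •
      ((-f) ^ (i + 1 - (i + 1)) * (R d ^ (m + 1)) (f ^ (i + 1) * g)) := by
    rw [map_smul, Nat.sub_self, pow_zero, one_mul, one_mul, R_pow_succ_apply]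
  have hA : R d (BB f g (i + 1) m) = ∑ q ∈ Finset.range (i + 1), R d (((i + 1).choose q : ℂ) •
      ((-f) ^ (i + 1 - q) * (R d ^ m) (f ^ q * g))) +
      R d (((i + 1).choose (i + 1) : ℂ) • ((-f) ^ (i + 1 - (i + 1)) *
      (R d ^ m) (f ^ (i + 1) * g))) := by
    unfold BB
    rw [map_sum]
    exact Finset.sum_range_succ _ (i + 1)
  have hB : BB f g (i + 1) (m + 1) = ∑ q ∈ Finset.range (i + 1), ((i + 1).choose q : ℂ) •
      ((-f) ^ (i + 1 - q) * (R d ^ (m + 1)) (f ^ q * g)) +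
      ((i + 1).choose (i + 1) : ℂ) • ((-f) ^ (i + 1 - (i + 1)) *
      (R d ^ (m + 1)) (f ^ (i + 1) * g)) := by
    unfold BB
    exact Finset.sum_range_succ _ (i + 1)
  have hC : ((i + 1 : ℕ) : ℂ) • (R d f * BB f g i m) = ∑ q ∈ Finset.range (i + 1),
      ((i + 1 : ℕ) : ℂ) • (R d f * ((i.choose q : ℂ) • ((-f) ^ (i - q) *
        (R d ^ m) (f ^ q * g)))) := by
    unfold BB
    rw [Finset.mul_sum, Finset.smul_sum]
  rw [hA, hB, hC, hlast, Finset.sum_congr rfl hterm, Finset.sum_sub_distrib]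
  abel

theorem BB_eq_zero (f g : A d) (i m : ℕ) (h : m < i) : BB f g i m = 0 := by
  induction m generalizing i with
  | zero =>
    unfold BB
    have h1 : ∑ q ∈ Finset.range (i + 1), (i.choose q : ℂ) •
        ((-f) ^ (i - q) * (R d ^ 0) (f ^ q * g)) = (f + -f) ^ i * g := by
      rw [add_pow, Finset.sum_mul]
      refine Finset.sum_congr rfl fun q _ => ?_
      rw [pow_zero, Module.End.one_apply, MvPowerSeries.smul_eq_C_mul, map_natCast]
      ring
    rw [h1, add_neg_cancel, zero_pow (by omega), zero_mul]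
  | succ m ih =>
    obtain ⟨i', rfl⟩ : ∃ i', i = i' + 1 := ⟨i - 1, by omega⟩
    have h1 := R_BB f g i' m
    rw [ih (i' + 1) (by omega), ih i' (by omega), map_zero, mul_zero, smul_zero, sub_zero] at h1
    exact h1.symm

private theorem p3_cc (s : ℂ) (i : ℕ) : ((i + 1 : ℕ) : ℂ) * cc s (i + 1) = cc s i * (s - i) := by
  unfold cc
  rw [Finset.prod_range_succ, Nat.factorial_succ]
  have h1 : ((i.factorial : ℕ) : ℂ) ≠ 0 := by exact_mod_cast Nat.factorial_ne_zero i
  have h2 : ((i + 1 : ℕ) : ℂ) ≠ 0 := by exact_mod_cast Nat.succ_ne_zero i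
  rw [Nat.cast_mul]
  field_simp

theorem taylor (f g : A d) (P : ℂ → A d) (hP : ∀ s, R d (P s) = s • (P (s - 1) * R d f))
    (k : ℕ) (s : ℂ) :
    (R d ^ k) (P s * g) =
      ∑ i ∈ Finset.range (k + 1), cc s i • (P (s - (i : ℂ)) * BB f g i k) := by
  induction k with
  | zero =>
    rw [Finset.sum_range_succ, Finset.sum_range_zero, p3_BB_zero]
    simp [cc]
  | succ k ih =>
    rw [R_pow_succ_apply, ih, map_sum]
    let V : ℕ → A d := fun j => ((j : ℕ) : ℂ) • cc s j • (P (s - (j : ℂ)) *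
      (R d f * BB f g (j - 1) k))
    let U : ℕ → A d := fun j => cc s j • (P (s - (j : ℂ)) * BB f g j (k + 1))
    have hV0 : V 0 = 0 := by
      simp only [V]
      rw [Nat.cast_zero, zero_smul]
    have hterm : ∀ i ∈ Finset.range (k + 1), R d (cc s i • (P (s - (i : ℂ)) * BB f g i k)) =
        (V (i + 1) - V i) + U i := by
      intro i _
      have hRB : R d (BB f g i k) = BB f g i (k + 1) - ((i : ℕ) : ℂ) • (R d f * BB f g (i - 1) k) := by
        cases i with
        | zero =>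
          rw [p3_BB_zero, p3_BB_zero, R_pow_succ_apply, Nat.cast_zero, zero_smul, sub_zero]
        | succ i =>
          rw [R_BB]
          rfl
      have e1 : s - (i : ℂ) - 1 = s - ((i + 1 : ℕ) : ℂ) := by
        push_cast
        ring
      have hV1 : V (i + 1) = (cc s i * (s - i)) • (P (s - ((i + 1 : ℕ) : ℂ)) *
          (R d f * BB f g i k)) := by
        simp only [V]
        rw [smul_smul, p3_cc, Nat.add_sub_cancel]
      rw [hV1, map_smul, R_mul, hP, hRB, e1]
      simp only [V, U]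
      simp only [MvPowerSeries.smul_eq_C_mul, map_mul, map_sub]
      ring
    rw [Finset.sum_congr rfl hterm, Finset.sum_add_distrib, Finset.sum_range_sub, hV0, sub_zero,
      Finset.sum_range_succ U (k + 1), add_comm]
    congr 1
    have h1 := R_BB f g k k
    rw [BB_eq_zero f g (k + 1) k (by omega), map_zero] at h1
    have h2 : BB f g (k + 1) (k + 1) = ((k + 1 : ℕ) : ℂ) • (R d f * BB f g k k) :=
      (sub_eq_zero.1 h1.symm)
    simp only [V, U]
    rw [h2, Nat.add_sub_cancel]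
    simp only [MvPowerSeries.smul_eq_C_mul]
    ring

end PCM
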