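import Pool.Agent.PCM.P5

/-!
# [PCM-P7] Parseval

Fix `r < 1` and the majorant `b` of `exists_majorant`.  On `Σ ‖z i‖^2 ≤ 1` (a.e.) the finite sums over
finsets `s` of `ev a (r z) = Σ a_α r^{|α|} z^α` are bounded by `Σ b` and converge to `ev a (r z)`.
For a finset `s`, `∫ ‖Σ_{α ∈ s} a_α r^{|α|} z^α‖^2 dμ = Σ_{α ∈ s} ‖a_α‖^2 r^{2|α|} vv m α`: expand
`‖w‖^2 = w * conj w` into a finite double sum and use `hμ.mom`.  Let `s → ∞` in `Filter.atTop` (the type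
`Finset (Fin d →₀ ℕ)` is countable, so `atTop` is countably generated) with dominated convergence
(`tendsto_integral_filter_of_dominated_convergence`, bound `(Σ b)^2`).
-/

open MeasureTheory Set Filter Topology

namespace PCM

variable {d : ℕ}

/-- the terms of the series -/
noncomputable def p7_tm (a : A d) (r : ℝ) (α : Fin d →₀ ℕ) (z : Fin d → ℂ) : ℂ :=
  MvPowerSeries.coeff α a * ∏ i, ((r : ℂ) * z i) ^ α i

theorem p7_norm (a : A d) {r : ℝ} (hr0 : 0 ≤ r) (α : Fin d →₀ ℕ) (z : Fin d → ℂ) :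
    ‖p7_tm a r α z‖ = ‖MvPowerSeries.coeff α a‖ * ∏ i, (r * ‖z i‖) ^ α i := by
  unfold p7_tm
  rw [norm_mul, norm_prod]
  refine congrArg _ (Finset.prod_congr rfl fun i _ => ?_)
  rw [norm_pow, norm_mul, Complex.norm_real, Real.norm_of_nonneg hr0]

theorem p7_cont (a : A d) (r : ℝ) (α : Fin d →₀ ℕ) : Continuous (p7_tm a r α) := by
  unfold p7_tm
  fun_prop

theorem p7_eq (a : A d) (r : ℝ) (α : Fin d →₀ ℕ) (z : Fin d → ℂ) :
    p7_tm a r α z = MvPowerSeries.coeff α a * (r : ℂ) ^ (∑ i, α i) * ∏ i, z i ^ α i := by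
  unfold p7_tm
  simp only [mul_pow]
  rw [Finset.prod_mul_distrib, Finset.prod_pow_eq_pow_sum]
  ring

theorem p7_nonneg {a : A d} {r : ℝ} (hr0 : 0 ≤ r) {b : (Fin d →₀ ℕ) → ℝ}
    (hbb : ∀ z : Fin d → ℂ, ∑ i, ‖z i‖ ^ 2 ≤ 1 → ∀ α,
      ‖MvPowerSeries.coeff α a‖ * ∏ i, (r * ‖z i‖) ^ α i ≤ b α) (α : Fin d →₀ ℕ) : 0 ≤ b α := by
  have h := hbb 0 (by simp) α
  exact le_trans (mul_nonneg (norm_nonneg _) (Finset.prod_nonneg fun i _ =>
    pow_nonneg (mul_nonneg hr0 (norm_nonneg _)) _)) h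

theorem p7_hasSum {a : A d} {r : ℝ} (hr0 : 0 ≤ r) {b : (Fin d →₀ ℕ) → ℝ} (hb : Summable b)
    (hbb : ∀ z : Fin d → ℂ, ∑ i, ‖z i‖ ^ 2 ≤ 1 → ∀ α,
      ‖MvPowerSeries.coeff α a‖ * ∏ i, (r * ‖z i‖) ^ α i ≤ b α) {z : Fin d → ℂ}
    (hz : ∑ i, ‖z i‖ ^ 2 ≤ 1) :
    HasSum (fun α => p7_tm a r α z) (ev a (fun i => (r : ℂ) * z i)) := by
  have h1 : Summable (fun α => p7_tm a r α z) := by
    refine Summable.of_norm_bounded hb fun α => ?_
    rw [p7_norm a hr0]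
    exact hbb z hz α
  exact h1.hasSum

theorem p7_bound {a : A d} {r : ℝ} (hr0 : 0 ≤ r) {b : (Fin d →₀ ℕ) → ℝ} (hb : Summable b)
    (hbb : ∀ z : Fin d → ℂ, ∑ i, ‖z i‖ ^ 2 ≤ 1 → ∀ α,
      ‖MvPowerSeries.coeff α a‖ * ∏ i, (r * ‖z i‖) ^ α i ≤ b α) {z : Fin d → ℂ}
    (hz : ∑ i, ‖z i‖ ^ 2 ≤ 1) (s : Finset (Fin d →₀ ℕ)) :
    ‖∑ α ∈ s, p7_tm a r α z‖ ≤ ∑' α, b α := by
  refine (norm_sum_le _ _).trans ((Finset.sum_le_sum fun α _ => ?_).trans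
    (hb.sum_le_tsum s fun α _ => p7_nonneg hr0 hbb α))
  rw [p7_norm a hr0]
  exact hbb z hz α

theorem p7_bound' {a : A d} {r : ℝ} (hr0 : 0 ≤ r) {b : (Fin d →₀ ℕ) → ℝ} (hb : Summable b)
    (hbb : ∀ z : Fin d → ℂ, ∑ i, ‖z i‖ ^ 2 ≤ 1 → ∀ α,
      ‖MvPowerSeries.coeff α a‖ * ∏ i, (r * ‖z i‖) ^ α i ≤ b α) {z : Fin d → ℂ}
    (hz : ∑ i, ‖z i‖ ^ 2 ≤ 1) : ‖ev a (fun i => (r : ℂ) * z i)‖ ≤ ∑' α, b α := by
  have h1 : Tendsto (fun s => ‖∑ α ∈ s, p7_tm a r α z‖) atTop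
      (𝓝 ‖ev a (fun i => (r : ℂ) * z i)‖) := (p7_hasSum hr0 hb hbb hz).norm
  exact le_of_tendsto h1 (Eventually.of_forall fun s => p7_bound hr0 hb hbb hz s)

theorem p7_le_one {z : Fin d → ℂ} (hz : ∑ i, ‖z i‖ ^ 2 ≤ 1) (i : Fin d) : ‖z i‖ ≤ 1 := by
  have h1 : ‖z i‖ ^ 2 ≤ ∑ i, ‖z i‖ ^ 2 :=
    Finset.single_le_sum (f := fun i => ‖z i‖ ^ 2) (fun j _ => sq_nonneg _) (Finset.mem_univ i)
  have h2 : ‖z i‖ ^ 2 ≤ 1 := h1.trans hz
  have h3 := norm_nonneg (z i)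
  nlinarith

theorem p7_int (m : ℕ) (μ : Measure (Fin d → ℂ)) (hμ : IsLaw d m μ) (α β : Fin d →₀ ℕ) :
    Integrable (fun z : Fin d → ℂ => (∏ i, z i ^ α i) * ∏ i, (starRingEnd ℂ) (z i) ^ β i) μ := by
  have := hμ.prob
  have hc : Continuous (fun z : Fin d → ℂ =>
      (∏ i, z i ^ α i) * ∏ i, (starRingEnd ℂ) (z i) ^ β i) := by
    refine Continuous.mul (continuous_finsetProd _ fun i _ => (continuous_apply i).pow _)
      (continuous_finsetProd _ fun i _ => ?_)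
    exact (Complex.continuous_conj.comp (continuous_apply i)).pow _
  refine Integrable.of_bound hc.aestronglyMeasurable 1 ?_
  filter_upwards [hμ.supp] with z hz
  rw [norm_mul, norm_prod, norm_prod]
  have h1 : ∏ i, ‖z i ^ α i‖ ≤ 1 := by
    refine Finset.prod_le_one (fun i _ => norm_nonneg _) fun i _ => ?_
    rw [norm_pow]
    exact pow_le_one₀ (norm_nonneg _) (p7_le_one hz i)
  have h2 : ∏ i, ‖(starRingEnd ℂ) (z i) ^ β i‖ ≤ 1 := by
    refine Finset.prod_le_one (fun i _ => norm_nonneg _) fun i _ => ?_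
    rw [norm_pow, RCLike.norm_conj]
    exact pow_le_one₀ (norm_nonneg _) (p7_le_one hz i)
  exact mul_le_one₀ h1 (Finset.prod_nonneg fun i _ => norm_nonneg _) h2

theorem p7_fin (a : A d) (r : ℝ) (m : ℕ) (μ : Measure (Fin d → ℂ)) (hμ : IsLaw d m μ)
    (s : Finset (Fin d →₀ ℕ)) :
    ∫ z, ‖∑ α ∈ s, p7_tm a r α z‖ ^ 2 ∂μ =
      ∑ α ∈ s, ‖MvPowerSeries.coeff α a‖ ^ 2 * r ^ (2 * ∑ i, α i) * vv m α := by
  have h1 : ∀ z : Fin d → ℂ, ((‖∑ α ∈ s, p7_tm a r α z‖ ^ 2 : ℝ) : ℂ) =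
      ∑ α ∈ s, ∑ β ∈ s, (MvPowerSeries.coeff α a * (r : ℂ) ^ (∑ i, α i) *
        ((starRingEnd ℂ) (MvPowerSeries.coeff β a) * (r : ℂ) ^ (∑ i, β i))) *
        ((∏ i, z i ^ α i) * ∏ i, (starRingEnd ℂ) (z i) ^ β i) := by
    intro z
    rw [Complex.ofReal_pow, ← Complex.mul_conj', map_sum, Finset.sum_mul_sum]
    refine Finset.sum_congr rfl fun α _ => Finset.sum_congr rfl fun β _ => ?_
    rw [p7_eq, p7_eq, map_mul, map_mul, map_pow, Complex.conj_ofReal, map_prod]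
    simp only [map_pow]
    ring
  apply Complex.ofReal_injective
  rw [← integral_complex_ofReal]
  simp only [h1]
  rw [integral_finsetSum s fun α _ => integrable_finsetSum s fun β _ =>
    (p7_int m μ hμ α β).const_mul _]
  rw [Complex.ofReal_sum]
  refine Finset.sum_congr rfl fun α hα => ?_
  rw [integral_finsetSum s fun β _ => (p7_int m μ hμ α β).const_mul _]
  rw [Finset.sum_eq_single α]
  · rw [integral_const_mul, hμ.mom, if_pos rfl]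
    have h2 : MvPowerSeries.coeff α a * (starRingEnd ℂ) (MvPowerSeries.coeff α a) =
        (‖MvPowerSeries.coeff α a‖ : ℂ) ^ 2 := Complex.mul_conj' _
    push_cast
    rw [two_mul, pow_add]
    linear_combination ((r : ℂ) ^ (∑ i, α i) * (r : ℂ) ^ (∑ i, α i) * (vv m α : ℂ)) * h2
  · intro β _ hβ
    rw [integral_const_mul, hμ.mom, if_neg (Ne.symm hβ), mul_zero]
  · intro h; exact absurd hα h

theorem measurable_ev_dilate {a : A d} (ha : Conv a) {r : ℝ} (hr0 : 0 ≤ r) (hr : r < 1)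
    (m : ℕ) (μ : Measure (Fin d → ℂ)) (hμ : IsLaw d m μ) :
    AEStronglyMeasurable (fun z => ev a (fun i => (r : ℂ) * z i)) μ := by
  obtain ⟨b, hb, hbb⟩ := exists_majorant a ha r hr0 hr
  refine aestronglyMeasurable_of_tendsto_ae (atTop : Filter (Finset (Fin d →₀ ℕ)))
    (f := fun s z => ∑ α ∈ s, p7_tm a r α z) (fun s => ?_) ?_
  · exact (continuous_finsetSum _ fun α _ => p7_cont a r α).aestronglyMeasurable
  · filter_upwards [hμ.supp] with z hz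
    exact p7_hasSum hr0 hb hbb hz

theorem parseval {a : A d} (ha : Conv a) {r : ℝ} (hr0 : 0 ≤ r) (hr : r < 1)
    (m : ℕ) (μ : Measure (Fin d → ℂ)) (hμ : IsLaw d m μ) :
    HasSum (fun α : Fin d →₀ ℕ =>
      ‖MvPowerSeries.coeff α a‖ ^ 2 * r ^ (2 * ∑ i, α i) * vv m α)
      (∫ z, ‖ev a (fun i => (r : ℂ) * z i)‖ ^ 2 ∂μ) := by
  have := hμ.prob
  obtain ⟨b, hb, hbb⟩ := exists_majorant a ha r hr0 hr
  have h1 : Tendsto (fun s : Finset (Fin d →₀ ℕ) => ∫ z, ‖∑ α ∈ s, p7_tm a r α z‖ ^ 2 ∂μ) atTop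
      (𝓝 (∫ z, ‖ev a (fun i => (r : ℂ) * z i)‖ ^ 2 ∂μ)) := by
    refine tendsto_integral_filter_of_dominated_convergence (fun _ => (∑' α, b α) ^ 2)
      (Eventually.of_forall fun s => ?_) (Eventually.of_forall fun s => ?_)
      (integrable_const _) ?_
    · exact ((continuous_finsetSum _ fun α _ => p7_cont a r α).norm.pow 2).aestronglyMeasurable
    · filter_upwards [hμ.supp] with z hz
      rw [Real.norm_of_nonneg (sq_nonneg _)]
      exact pow_le_pow_left₀ (norm_nonneg _) (p7_bound hr0 hb hbb hz s) 2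
    · filter_upwards [hμ.supp] with z hz
      exact (p7_hasSum hr0 hb hbb hz).norm.pow 2
  simp only [p7_fin a r m μ hμ] at h1
  exact h1

theorem integrable_sq {a : A d} (ha : Conv a) {r : ℝ} (hr0 : 0 ≤ r) (hr : r < 1)
    (m : ℕ) (μ : Measure (Fin d → ℂ)) (hμ : IsLaw d m μ) :
    Integrable (fun z => ‖ev a (fun i => (r : ℂ) * z i)‖ ^ 2) μ := by
  have := hμ.prob
  obtain ⟨b, hb, hbb⟩ := exists_majorant a ha r hr0 hr
  refine Integrable.of_bound ((measurable_ev_dilate ha hr0 hr m μ hμ).norm.pow 2)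
    ((∑' α, b α) ^ 2) ?_
  filter_upwards [hμ.supp] with z hz
  rw [Real.norm_of_nonneg (sq_nonneg _)]
  exact pow_le_pow_left₀ (norm_nonneg _) (p7_bound' hr0 hb hbb hz) 2

end PCM
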