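import Pool.Agent.PCM.Defs

/-!
# [PCM-P9] comparison of the weights

With `n = |α|`: `vv m α / wt α = m! n!/(n+m)!`, and `(n+m)!/n! = ∏_{j=1}^m (n+j)`.
`n^m n!/(n+m)! = ∏ n/(n+j) ≤ 1`, and for `n ≥ 1`, `n/(n+j) ≥ 1/(1+j)`, so
`m! n^m n!/(n+m)! ≥ m!/(m+1)! = 1/(m+1)`.  (Induction on `m`.)
-/

open MeasureTheory Set Filter Topology

namespace PCM

variable {d : ℕ}

theorem wt_pos (α : Fin d →₀ ℕ) : 0 < wt α := by
  unfold wt
  refine div_pos (Finset.prod_pos fun i _ => ?_) ?_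
  · exact_mod_cast Nat.factorial_pos _
  · exact_mod_cast Nat.factorial_pos _

private theorem p9_prod (α : Fin d →₀ ℕ) : 0 < ∏ i, ((α i).factorial : ℝ) := by
  refine Finset.prod_pos fun i _ => ?_
  exact_mod_cast Nat.factorial_pos _

theorem vv_pos (m : ℕ) (α : Fin d →₀ ℕ) : 0 < vv m α := by
  unfold vv
  refine div_pos (mul_pos (p9_prod α) ?_) ?_
  · exact_mod_cast Nat.factorial_pos _
  · exact_mod_cast Nat.factorial_pos _

private theorem p9_up (n m : ℕ) : n ^ m * n.factorial ≤ (n + m).factorial := by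
  induction m with
  | zero => simp
  | succ m ih =>
    rw [← Nat.add_assoc, Nat.factorial_succ, pow_succ]
    nlinarith [Nat.factorial_pos (n + m)]

private theorem p9_lo (n m : ℕ) (h : 1 ≤ n) :
    (n + m).factorial ≤ (m + 1).factorial * (n ^ m * n.factorial) := by
  induction m with
  | zero => simp
  | succ m ih =>
    rw [← Nat.add_assoc, Nat.factorial_succ (n + m), Nat.factorial_succ (m + 1), pow_succ]
    have h1 : n + m + 1 ≤ (m + 1 + 1) * n := by nlinarith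
    calc (n + m + 1) * (n + m).factorial
        ≤ ((m + 1 + 1) * n) * ((m + 1).factorial * (n ^ m * n.factorial)) :=
          Nat.mul_le_mul h1 ih
      _ = (m + 1 + 1) * (m + 1).factorial * (n ^ m * n * n.factorial) := by ring

theorem wt_le (m : ℕ) (α : Fin d →₀ ℕ) (h : 1 ≤ ∑ i, α i) :
    wt α ≤ ((m : ℝ) + 1) * (((∑ i, α i : ℕ) : ℝ) ^ m * vv m α) := by
  unfold wt vv
  have hP := p9_prod α
  set P : ℝ := ∏ i, ((α i).factorial : ℝ) with hPdef
  set n : ℕ := ∑ i, α i with hn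
  have h1 : ((n + m).factorial : ℝ) ≤ ((m + 1).factorial : ℝ) * ((n : ℝ) ^ m * (n.factorial : ℝ)) := by
    exact_mod_cast p9_lo n m h
  have h2 : (0 : ℝ) < (n.factorial : ℝ) := by exact_mod_cast Nat.factorial_pos _
  have h3 : (0 : ℝ) < ((n + m).factorial : ℝ) := by exact_mod_cast Nat.factorial_pos _
  have h4 : ((m + 1).factorial : ℝ) = ((m : ℝ) + 1) * (m.factorial : ℝ) := by
    rw [Nat.factorial_succ]
    push_cast
    ring
  rw [h4] at h1
  rw [div_le_iff₀ h2]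
  have e1 : ((m : ℝ) + 1) * ((n : ℝ) ^ m * (P * (m.factorial : ℝ) / ((n + m).factorial : ℝ))) * (n.factorial : ℝ) =
      P * (((m : ℝ) + 1) * (m.factorial : ℝ) * ((n : ℝ) ^ m * (n.factorial : ℝ))) / ((n + m).factorial : ℝ) := by
    ring
  rw [e1, le_div_iff₀ h3]
  exact mul_le_mul_of_nonneg_left h1 hP.le

theorem vv_le (m : ℕ) (α : Fin d →₀ ℕ) :
    ((∑ i, α i : ℕ) : ℝ) ^ m * vv m α ≤ (m.factorial : ℝ) * wt α := by
  unfold wt vv
  have hP := p9_prod α
  set P : ℝ := ∏ i, ((α i).factorial : ℝ) with hPdef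
  set n : ℕ := ∑ i, α i with hn
  have h1 : (n : ℝ) ^ m * (n.factorial : ℝ) ≤ ((n + m).factorial : ℝ) := by
    exact_mod_cast p9_up n m
  have h2 : (0 : ℝ) < (n.factorial : ℝ) := by exact_mod_cast Nat.factorial_pos _
  have h3 : (0 : ℝ) < ((n + m).factorial : ℝ) := by exact_mod_cast Nat.factorial_pos _
  have h4 : (0 : ℝ) < (m.factorial : ℝ) := by exact_mod_cast Nat.factorial_pos _
  have e1 : (n : ℝ) ^ m * (P * (m.factorial : ℝ) / ((n + m).factorial : ℝ)) =
      (P * (m.factorial : ℝ) * (n : ℝ) ^ m) / ((n + m).factorial : ℝ) := by ring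
  have e2 : (m.factorial : ℝ) * (P / (n.factorial : ℝ)) = (P * (m.factorial : ℝ)) / (n.factorial : ℝ) := by ring
  rw [e1, e2, div_le_div_iff₀ h3 h2]
  have h5 : 0 ≤ P * (m.factorial : ℝ) := (mul_pos hP h4).le
  calc P * (m.factorial : ℝ) * (n : ℝ) ^ m * (n.factorial : ℝ)
      = P * (m.factorial : ℝ) * ((n : ℝ) ^ m * (n.factorial : ℝ)) := by ring
    _ ≤ P * (m.factorial : ℝ) * ((n + m).factorial : ℝ) := mul_le_mul_of_nonneg_left h1 h5

end PCM
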