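import Pool.Agent.PCM.P2
import Pool.Agent.PCM.P3
import Pool.Agent.PCM.P7
import Pool.Agent.PCM.P9

/-!
# [PCM-P10] the norm of `H2 d` through the `k`-th radial derivative

`coeff α (R^k a) = |α|^k coeff α a` (`coeff_R_pow`, induction).  `parseval` with `m = 2k` for `R^k a`
(`conv_R_pow`): `∫ ‖ev (R^k a)(r z)‖^2 = Σ |α|^{2k} ‖a_α‖^2 r^{2|α|} vv (2k) α`.
`le` direction: `|α|^{2k} vv ≤ (2k)! wt` and `r ≤ 1`.
`mem` direction: for a finset `s` not containing `0`,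
`Σ_{α ∈ s} wt α ‖a_α‖^2 r^{2|α|} ≤ (2k+1) Σ |α|^{2k} vv ‖a_α‖^2 r^{2|α|} ≤ (2k+1) B`; let `r → 1` (finite sum,
continuity), then `summable_of_sum_le`; `α = 0` contributes `wt 0 ‖a_0‖^2 = ‖a_0‖^2`.
-/

open MeasureTheory Set Filter Topology

namespace PCM

variable {d : ℕ}

theorem coeff_R_pow (a : A d) (k : ℕ) (α : Fin d →₀ ℕ) :
    MvPowerSeries.coeff α ((R d ^ k) a) =
      ((∑ i, α i : ℕ) : ℂ) ^ k * MvPowerSeries.coeff α a := by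
  induction k with
  | zero => rw [pow_zero, pow_zero, one_mul]; rfl
  | succ k ih => rw [R_pow_succ_apply, coeff_R, ih, pow_succ]; ring

private theorem p10_norm_sq (a : A d) (k : ℕ) (α : Fin d →₀ ℕ) :
    ‖MvPowerSeries.coeff α ((R d ^ k) a)‖ ^ 2 =
      ((∑ i, α i : ℕ) : ℝ) ^ (2 * k) * ‖MvPowerSeries.coeff α a‖ ^ 2 := by
  rw [coeff_R_pow, norm_mul, norm_pow, Complex.norm_natCast, mul_pow, ← pow_mul, mul_comm k 2]

private theorem p10_wt_zero : wt (0 : Fin d →₀ ℕ) = 1 := by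
  unfold wt
  simp

private theorem p10_nrm_sq (a : A d) :
    nrm a ^ 2 = ∑' α, wt α * ‖MvPowerSeries.coeff α a‖ ^ 2 := by
  unfold nrm
  refine Real.sq_sqrt (tsum_nonneg fun α => ?_)
  exact mul_nonneg (wt_pos α).le (by positivity)

private theorem p10_fin (k : ℕ) (μ : Measure (Fin d → ℂ)) (hμ : IsLaw d (2 * k) μ) {a : A d}
    (ha : Conv a) (B : ℝ) (r : ℝ) (hr0 : 0 ≤ r) (hr : r < 1)
    (hB : ∫ z, ‖ev ((R d ^ k) a) (fun i => (r : ℂ) * z i)‖ ^ 2 ∂μ ≤ B)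
    (s : Finset (Fin d →₀ ℕ)) :
    ∑ α ∈ s, wt α * ‖MvPowerSeries.coeff α a‖ ^ 2 * r ^ (2 * ∑ i, α i) ≤
      ‖MvPowerSeries.coeff 0 a‖ ^ 2 + (2 * (k : ℝ) + 1) * B := by
  classical
  have hp := parseval (conv_R_pow ha k) hr0 hr (2 * k) μ hμ
  have hnn : ∀ α : Fin d →₀ ℕ, 0 ≤ ‖MvPowerSeries.coeff α ((R d ^ k) a)‖ ^ 2 *
      r ^ (2 * ∑ i, α i) * vv (2 * k) α := fun α =>
    mul_nonneg (mul_nonneg (by positivity) (pow_nonneg hr0 _)) (vv_pos _ _).le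
  have hs : ∑ α ∈ s, ‖MvPowerSeries.coeff α ((R d ^ k) a)‖ ^ 2 *
      r ^ (2 * ∑ i, α i) * vv (2 * k) α ≤ B :=
    (sum_le_hasSum s (fun α _ => hnn α) hp).trans hB
  have hterm : ∀ α ∈ s, wt α * ‖MvPowerSeries.coeff α a‖ ^ 2 * r ^ (2 * ∑ i, α i) ≤
      (if α = 0 then ‖MvPowerSeries.coeff 0 a‖ ^ 2 else 0) + (2 * (k : ℝ) + 1) *
        (‖MvPowerSeries.coeff α ((R d ^ k) a)‖ ^ 2 * r ^ (2 * ∑ i, α i) * vv (2 * k) α) := by
    intro α _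
    by_cases h0 : α = 0
    · subst h0
      have h1 := hnn 0
      have h2 : (0 : ℝ) ≤ (2 * (k : ℝ) + 1) := by positivity
      have h3 := mul_nonneg h2 h1
      rw [if_pos rfl]
      have h4 : wt (0 : Fin d →₀ ℕ) * ‖MvPowerSeries.coeff 0 a‖ ^ 2 *
          r ^ (2 * ∑ i, (0 : Fin d →₀ ℕ) i) = ‖MvPowerSeries.coeff 0 a‖ ^ 2 := by
        rw [p10_wt_zero]
        simp
      rw [h4]
      linarith
    · rw [if_neg h0, zero_add, p10_norm_sq]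
      have h1 : 1 ≤ ∑ i, α i := by
        by_contra hlt
        have hz : ∑ i, α i = 0 := by omega
        apply h0
        ext i
        exact (Finset.sum_eq_zero_iff.mp hz) i (Finset.mem_univ i)
      have h2 := wt_le (2 * k) α h1
      have h3 : (((2 * k : ℕ) : ℝ) + 1) = 2 * (k : ℝ) + 1 := by push_cast; ring
      rw [h3] at h2
      have h4 : 0 ≤ ‖MvPowerSeries.coeff α a‖ ^ 2 * r ^ (2 * ∑ i, α i) :=
        mul_nonneg (by positivity) (pow_nonneg hr0 _)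
      have h5 := mul_le_mul_of_nonneg_right h2 h4
      calc wt α * ‖MvPowerSeries.coeff α a‖ ^ 2 * r ^ (2 * ∑ i, α i)
          = wt α * (‖MvPowerSeries.coeff α a‖ ^ 2 * r ^ (2 * ∑ i, α i)) := by ring
        _ ≤ (2 * (k : ℝ) + 1) * (((∑ i, α i : ℕ) : ℝ) ^ (2 * k) * vv (2 * k) α) *
              (‖MvPowerSeries.coeff α a‖ ^ 2 * r ^ (2 * ∑ i, α i)) := h5
        _ = (2 * (k : ℝ) + 1) * (((∑ i, α i : ℕ) : ℝ) ^ (2 * k) *
              ‖MvPowerSeries.coeff α a‖ ^ 2 * r ^ (2 * ∑ i, α i) * vv (2 * k) α) := by ring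
  have hsum := Finset.sum_le_sum hterm
  rw [Finset.sum_add_distrib, ← Finset.mul_sum] at hsum
  have h6 : ∑ α ∈ s, (if α = 0 then ‖MvPowerSeries.coeff 0 a‖ ^ 2 else 0) ≤
      ‖MvPowerSeries.coeff 0 a‖ ^ 2 := by
    rw [Finset.sum_ite_eq']
    split_ifs
    · exact le_rfl
    · positivity
  have h7 : (2 * (k : ℝ) + 1) * ∑ α ∈ s, ‖MvPowerSeries.coeff α ((R d ^ k) a)‖ ^ 2 *
      r ^ (2 * ∑ i, α i) * vv (2 * k) α ≤ (2 * (k : ℝ) + 1) * B :=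
    mul_le_mul_of_nonneg_left hs (by positivity)
  linarith

theorem mem_of_bound (k : ℕ) (μ : Measure (Fin d → ℂ)) (hμ : IsLaw d (2 * k) μ) {a : A d}
    (ha : Conv a) (B : ℝ)
    (hB : ∀ r : ℝ, 0 ≤ r → r < 1 → ∫ z, ‖ev ((R d ^ k) a) (fun i => (r : ℂ) * z i)‖ ^ 2 ∂μ ≤ B) :
    a ∈ H2 d ∧ nrm a ^ 2 ≤ ‖MvPowerSeries.coeff 0 a‖ ^ 2 + (2 * (k : ℝ) + 1) * B := by
  have hfin : ∀ s : Finset (Fin d →₀ ℕ), ∑ α ∈ s, wt α * ‖MvPowerSeries.coeff α a‖ ^ 2 ≤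
      ‖MvPowerSeries.coeff 0 a‖ ^ 2 + (2 * (k : ℝ) + 1) * B := by
    intro s
    have hcont : Continuous fun r : ℝ =>
        ∑ α ∈ s, wt α * ‖MvPowerSeries.coeff α a‖ ^ 2 * r ^ (2 * ∑ i, α i) :=
      continuous_finsetSum s fun α _ => continuous_const.mul (continuous_pow _)
    have ht : Tendsto (fun r : ℝ =>
        ∑ α ∈ s, wt α * ‖MvPowerSeries.coeff α a‖ ^ 2 * r ^ (2 * ∑ i, α i))
        (𝓝[<] 1) (𝓝 (∑ α ∈ s, wt α * ‖MvPowerSeries.coeff α a‖ ^ 2 *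
          (1 : ℝ) ^ (2 * ∑ i, α i))) :=
      (hcont.tendsto 1).mono_left nhdsWithin_le_nhds
    have hev : ∀ᶠ r : ℝ in 𝓝[<] 1,
        ∑ α ∈ s, wt α * ‖MvPowerSeries.coeff α a‖ ^ 2 * r ^ (2 * ∑ i, α i) ≤
          ‖MvPowerSeries.coeff 0 a‖ ^ 2 + (2 * (k : ℝ) + 1) * B := by
      have h0 : ∀ᶠ r : ℝ in 𝓝[<] 1, r ∈ Ioo (0 : ℝ) 1 :=
        Ioo_mem_nhdsLT one_pos
      filter_upwards [h0] with r hr
      exact p10_fin k μ hμ ha B r hr.1.le hr.2 (hB r hr.1.le hr.2) s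
    have h := le_of_tendsto ht hev
    simpa only [one_pow, mul_one] using h
  have hnn : ∀ α : Fin d →₀ ℕ, 0 ≤ wt α * ‖MvPowerSeries.coeff α a‖ ^ 2 := fun α =>
    mul_nonneg (wt_pos α).le (by positivity)
  have hsm : Summable fun α : Fin d →₀ ℕ => wt α * ‖MvPowerSeries.coeff α a‖ ^ 2 :=
    summable_of_sum_le hnn hfin
  refine ⟨hsm, ?_⟩
  rw [p10_nrm_sq]
  exact hsm.tsum_le_of_sum_le hfin

theorem bound_of_mem (k : ℕ) (μ : Measure (Fin d → ℂ)) (hμ : IsLaw d (2 * k) μ) {a : A d}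
    (ha : Conv a) (ha' : a ∈ H2 d) (r : ℝ) (hr0 : 0 ≤ r) (hr : r < 1) :
    ∫ z, ‖ev ((R d ^ k) a) (fun i => (r : ℂ) * z i)‖ ^ 2 ∂μ
      ≤ ((2 * k).factorial : ℝ) * nrm a ^ 2 := by
  have hp := parseval (conv_R_pow ha k) hr0 hr (2 * k) μ hμ
  have hsm : Summable fun α : Fin d →₀ ℕ => wt α * ‖MvPowerSeries.coeff α a‖ ^ 2 := ha'
  have hq := hsm.hasSum.mul_left (((2 * k).factorial : ℕ) : ℝ)
  rw [p10_nrm_sq]
  refine hasSum_le (fun α => ?_) hp hq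
  rw [p10_norm_sq]
  have h1 := vv_le (2 * k) α
  have h2 : r ^ (2 * ∑ i, α i) ≤ 1 := pow_le_one₀ hr0 hr.le
  have h3 : 0 ≤ ((∑ i, α i : ℕ) : ℝ) ^ (2 * k) * vv (2 * k) α :=
    mul_nonneg (by positivity) (vv_pos _ _).le
  have h4 : (0 : ℝ) ≤ ‖MvPowerSeries.coeff α a‖ ^ 2 := by positivity
  calc ((∑ i, α i : ℕ) : ℝ) ^ (2 * k) * ‖MvPowerSeries.coeff α a‖ ^ 2 *
        r ^ (2 * ∑ i, α i) * vv (2 * k) α
      = (((∑ i, α i : ℕ) : ℝ) ^ (2 * k) * vv (2 * k) α * ‖MvPowerSeries.coeff α a‖ ^ 2) *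
          r ^ (2 * ∑ i, α i) := by ring
    _ ≤ (((∑ i, α i : ℕ) : ℝ) ^ (2 * k) * vv (2 * k) α * ‖MvPowerSeries.coeff α a‖ ^ 2) * 1 :=
        mul_le_mul_of_nonneg_left h2 (mul_nonneg h3 h4)
    _ = (((∑ i, α i : ℕ) : ℝ) ^ (2 * k) * vv (2 * k) α) * ‖MvPowerSeries.coeff α a‖ ^ 2 := by ring
    _ ≤ ((2 * k).factorial : ℝ) * wt α * ‖MvPowerSeries.coeff α a‖ ^ 2 :=
        mul_le_mul_of_nonneg_right h1 h4
    _ = ((2 * k).factorial : ℝ) * (wt α * ‖MvPowerSeries.coeff α a‖ ^ 2) := by ring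

end PCM
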