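import Pool.Agent.PCM.P9

/-!
# [PCM-P11] elements of `H2 d` converge; evaluation bound

`hasSum_multinomial`: for `x : Fin d → ℝ` nonnegative with `Σ x i < 1`,
`Σ_α (|α|!/α!) ∏ (x i)^{α i} = 1/(1 - Σ x i)`: group by `n = |α|` (`Finset.sum_pow` / `Finset.sum_pow_of_commute`,
multinomial theorem `(Σ x i)^n = Σ_{|α| = n} n!/α! x^α`) and sum the geometric series; all terms are `≥ 0`.
For `g ∈ H2 d`, `z` in the ball, Cauchy-Schwarz:
`Σ ‖g_α‖ ∏ ‖z i‖^{α i} ≤ (Σ wt α ‖g_α‖^2)^{1/2} (Σ (1/wt α) ∏ ‖z i‖^{2 α i})^{1/2} = nrm g / √(1 - Σ ‖z i‖^2)`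
(`Real.inner_le_Lp_mul_Lq_tsum_of_nonneg` or `summable_and_inner_le...` with exponents `2, 2`).
-/

open MeasureTheory Set Filter Topology

namespace PCM

variable {d : ℕ}

theorem p11_wt_inv (k : Fin d → ℕ) :
    (wt (Finsupp.equivFunOnFinite.symm k))⁻¹ = (Nat.multinomial Finset.univ k : ℝ) := by
  unfold wt
  have h1 : ∀ i, (Finsupp.equivFunOnFinite.symm k : Fin d →₀ ℕ) i = k i := fun i => rfl
  simp only [h1]
  have h2 := Nat.multinomial_spec Finset.univ k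
  have h3 : (∏ i, ((k i).factorial : ℝ)) * (Nat.multinomial Finset.univ k : ℝ)
      = ((∑ i, k i).factorial : ℝ) := by exact_mod_cast h2
  have h4 : (∏ i, ((k i).factorial : ℝ)) ≠ 0 := by positivity
  rw [inv_div, ← h3]
  exact mul_div_cancel_left₀ _ h4

theorem p11_fiber (x : Fin d → ℝ) (n : ℕ) :
    HasSum (fun k : {k : Fin d → ℕ // ∑ i, k i = n} =>
      (Nat.multinomial Finset.univ k.1 : ℝ) * ∏ i, x i ^ k.1 i) ((∑ i, x i) ^ n) := by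
  rw [Finset.sum_pow_eq_sum_piAntidiag]
  have hfun : (fun k : {k : Fin d → ℕ // ∑ i, k i = n} =>
      (Nat.multinomial Finset.univ k.1 : ℝ) * ∏ i, x i ^ k.1 i)
      = (fun k : Fin d → ℕ => (Nat.multinomial Finset.univ k : ℝ) * ∏ i, x i ^ k i) ∘
        (Subtype.val : {k : Fin d → ℕ | ∑ i, k i = n} → (Fin d → ℕ)) := rfl
  rw [hfun]
  refine (hasSum_subtype_iff_indicator (s := {k : Fin d → ℕ | ∑ i, k i = n})).2 ?_
  have h1 : ∑ k ∈ Finset.piAntidiag Finset.univ n,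
      (Nat.multinomial Finset.univ k : ℝ) * ∏ i, x i ^ k i
      = ∑ k ∈ Finset.piAntidiag Finset.univ n, Set.indicator {k : Fin d → ℕ | ∑ i, k i = n}
        (fun k : Fin d → ℕ => (Nat.multinomial Finset.univ k : ℝ) * ∏ i, x i ^ k i) k := by
    refine Finset.sum_congr rfl fun k hk => ?_
    have hk' : k ∈ {k : Fin d → ℕ | ∑ i, k i = n} := (Finset.mem_piAntidiag.1 hk).1
    rw [Set.indicator_of_mem hk']
  rw [h1]
  refine hasSum_sum_of_ne_finset_zero fun k hk => ?_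
  refine Set.indicator_of_notMem (fun hk' => hk ?_) _
  exact Finset.mem_piAntidiag.2 ⟨hk', fun i _ => Finset.mem_univ i⟩

theorem p11_fun (x : Fin d → ℝ) (h0 : ∀ i, 0 ≤ x i) (h1 : ∑ i, x i < 1) :
    HasSum (fun k : Fin d → ℕ => (Nat.multinomial Finset.univ k : ℝ) * ∏ i, x i ^ k i)
      (1 - ∑ i, x i)⁻¹ := by
  have hs0 : 0 ≤ ∑ i, x i := Finset.sum_nonneg fun i _ => h0 i
  have hgeo : HasSum (fun n : ℕ => (∑ i, x i) ^ n) (1 - ∑ i, x i)⁻¹ :=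
    hasSum_geometric_of_lt_one hs0 h1
  have hnn : ∀ k : Fin d → ℕ, 0 ≤ (Nat.multinomial Finset.univ k : ℝ) * ∏ i, x i ^ k i :=
    fun k => mul_nonneg (Nat.cast_nonneg _) (Finset.prod_nonneg fun i _ => pow_nonneg (h0 i) _)
  let e := Equiv.sigmaFiberEquiv (fun k : Fin d → ℕ => ∑ i, k i)
  rw [← e.hasSum_iff]
  have hfib := p11_fiber x
  refine HasSum.sigma_of_hasSum (g := fun n : ℕ => (∑ i, x i) ^ n) hgeo (fun n => hfib n) ?_
  refine (summable_sigma_of_nonneg (fun y => hnn _)).2 ⟨fun n => (hfib n).summable, ?_⟩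
  have h2 : (fun n : ℕ => ∑' y : {k : Fin d → ℕ // ∑ i, k i = n},
      ((fun k : Fin d → ℕ => (Nat.multinomial Finset.univ k : ℝ) * ∏ i, x i ^ k i) ∘ e) ⟨n, y⟩)
      = fun n : ℕ => (∑ i, x i) ^ n := funext fun n => (hfib n).tsum_eq
  exact (congrArg Summable h2).mpr hgeo.summable

theorem hasSum_multinomial (x : Fin d → ℝ) (h0 : ∀ i, 0 ≤ x i) (h1 : ∑ i, x i < 1) :
    HasSum (fun α : Fin d →₀ ℕ => (wt α)⁻¹ * ∏ i, x i ^ α i) (1 - ∑ i, x i)⁻¹ := by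
  have h := p11_fun x h0 h1
  rw [← (Finsupp.equivFunOnFinite : (Fin d →₀ ℕ) ≃ (Fin d → ℕ)).hasSum_iff] at h
  refine h.congr_fun ?_
  intro α
  have h2 := p11_wt_inv (Finsupp.equivFunOnFinite α)
  rw [Equiv.symm_apply_apply] at h2
  show (wt α)⁻¹ * ∏ i, x i ^ α i = (Nat.multinomial Finset.univ (Finsupp.equivFunOnFinite α) : ℝ)
    * ∏ i, x i ^ α i
  rw [h2]

/-- the two families for the Cauchy-Schwarz inequality -/
theorem p11_cs {g : A d} (hg : g ∈ H2 d) {z : Fin d → ℂ} (hz : z ∈ Ball d) :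
    (Summable fun α => ‖MvPowerSeries.coeff α g‖ * ∏ i, ‖z i‖ ^ α i) ∧
      ∑' α, ‖MvPowerSeries.coeff α g‖ * ∏ i, ‖z i‖ ^ α i
        ≤ nrm g / Real.sqrt (1 - ∑ i, ‖z i‖ ^ 2) := by
  have hz' : ∑ i, ‖z i‖ ^ 2 < 1 := hz
  have hm := hasSum_multinomial (fun i => ‖z i‖ ^ 2) (fun i => by positivity) hz'
  have hf0 : ∀ α : Fin d →₀ ℕ, 0 ≤ Real.sqrt (wt α) * ‖MvPowerSeries.coeff α g‖ :=
    fun α => by positivity
  have hg0 : ∀ α : Fin d →₀ ℕ, 0 ≤ (Real.sqrt (wt α))⁻¹ * ∏ i, ‖z i‖ ^ α i :=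
    fun α => by positivity
  have hf2 : ∀ α : Fin d →₀ ℕ, (Real.sqrt (wt α) * ‖MvPowerSeries.coeff α g‖) ^ (2 : ℝ)
      = wt α * ‖MvPowerSeries.coeff α g‖ ^ 2 := by
    intro α
    rw [Real.rpow_two, mul_pow, Real.sq_sqrt (wt_pos α).le]
  have hg2 : ∀ α : Fin d →₀ ℕ, ((Real.sqrt (wt α))⁻¹ * ∏ i, ‖z i‖ ^ α i) ^ (2 : ℝ)
      = (wt α)⁻¹ * ∏ i, (‖z i‖ ^ 2) ^ α i := by
    intro α
    rw [Real.rpow_two, mul_pow, inv_pow, Real.sq_sqrt (wt_pos α).le, ← Finset.prod_pow]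
    congr 1
    refine Finset.prod_congr rfl fun i _ => ?_
    rw [← pow_mul, ← pow_mul, mul_comm]
  have hfs : Summable fun α : Fin d →₀ ℕ =>
      (Real.sqrt (wt α) * ‖MvPowerSeries.coeff α g‖) ^ (2 : ℝ) := by
    rw [funext hf2]
    exact hg
  have hgs : Summable fun α : Fin d →₀ ℕ =>
      ((Real.sqrt (wt α))⁻¹ * ∏ i, ‖z i‖ ^ α i) ^ (2 : ℝ) := by
    rw [funext hg2]
    exact hm.summable
  have hpq : (2 : ℝ).HolderConjugate 2 := Real.HolderConjugate.two_two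
  obtain ⟨h1, h2⟩ := Real.summable_and_inner_le_Lp_mul_Lq_tsum_of_nonneg hpq hf0 hg0 hfs hgs
  have e : ∀ α : Fin d →₀ ℕ, Real.sqrt (wt α) * ‖MvPowerSeries.coeff α g‖
      * ((Real.sqrt (wt α))⁻¹ * ∏ i, ‖z i‖ ^ α i)
      = ‖MvPowerSeries.coeff α g‖ * ∏ i, ‖z i‖ ^ α i := by
    intro α
    have h3 : Real.sqrt (wt α) ≠ 0 := (Real.sqrt_pos.2 (wt_pos α)).ne'
    field_simp
  rw [funext e] at h1
  rw [tsum_congr e, tsum_congr hf2, tsum_congr hg2, hm.tsum_eq] at h2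
  refine ⟨h1, h2.trans (le_of_eq ?_)⟩
  unfold nrm
  have h5 : 0 ≤ 1 - ∑ i, ‖z i‖ ^ 2 := by linarith
  rw [Real.sqrt_eq_rpow, Real.sqrt_eq_rpow, Real.inv_rpow h5, ← div_eq_mul_inv]

theorem conv_of_mem {g : A d} (hg : g ∈ H2 d) : Conv g := by
  intro z hz
  exact (p11_cs hg hz).1

theorem ev_bound {g : A d} (hg : g ∈ H2 d) {z : Fin d → ℂ} (hz : z ∈ Ball d) :
    ‖ev g z‖ ≤ nrm g / Real.sqrt (1 - ∑ i, ‖z i‖ ^ 2) := by
  obtain ⟨h1, h2⟩ := p11_cs hg hz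
  refine le_trans ?_ h2
  unfold ev
  have e : ∀ α : Fin d →₀ ℕ, ‖MvPowerSeries.coeff α g * ∏ i, z i ^ α i‖
      = ‖MvPowerSeries.coeff α g‖ * ∏ i, ‖z i‖ ^ α i := by
    intro α
    rw [norm_mul, norm_prod]
    congr 1
    exact Finset.prod_congr rfl fun i _ => norm_pow _ _
  rw [← tsum_congr e]
  exact norm_tsum_le_tsum_norm (by rw [funext e]; exact h1)

end PCM
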