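import Pool.Agent.PCM.P9

/-!
# [PCM-P12] the Hilbert space model `lp (fun _ => ℂ) 2`

`toE` multiplies the coefficient of index `α` by `√(wt α)`; `memℓp_gen_iff` with exponent `2`,
`‖√(wt α) c‖^2 = wt α ‖c‖^2`; `lp.norm_rpow_eq_tsum` / `lp.norm_eq_tsum_rpow` for the norm.
`ofE` divides by `√(wt α)`.  The statements on `nrm` follow by transport.
-/

open MeasureTheory Set Filter Topology

namespace PCM

variable {d : ℕ}

/-- the Hilbert space `ℓ^2` over the multi-indices -/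
noncomputable abbrev E (d : ℕ) := lp (fun _ : (Fin d →₀ ℕ) => ℂ) 2

theorem p12_pos (α : Fin d →₀ ℕ) : 0 < wt α := by
  unfold wt
  positivity

theorem p12_sq (α : Fin d →₀ ℕ) (c : ℂ) :
    ‖((Real.sqrt (wt α) : ℝ) : ℂ) * c‖ ^ (2 : ENNReal).toReal = wt α * ‖c‖ ^ 2 := by
  have h2 : (2 : ENNReal).toReal = ((2 : ℕ) : ℝ) := by norm_num
  rw [h2, Real.rpow_natCast, norm_mul, Complex.norm_real, Real.norm_of_nonneg (Real.sqrt_nonneg _),
    mul_pow, Real.sq_sqrt (p12_pos α).le]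

theorem mem_iff (a : A d) :
    a ∈ H2 d ↔ Memℓp (fun α => ((Real.sqrt (wt α) : ℝ) : ℂ) * MvPowerSeries.coeff α a) 2 := by
  have h2 : 0 < (2 : ENNReal).toReal := by norm_num
  rw [memℓp_gen_iff h2]
  have e : (fun α : Fin d →₀ ℕ => ‖((Real.sqrt (wt α) : ℝ) : ℂ) * MvPowerSeries.coeff α a‖
      ^ (2 : ENNReal).toReal) = fun α => wt α * ‖MvPowerSeries.coeff α a‖ ^ 2 :=
    funext fun α => p12_sq α _
  rw [e]
  exact Iff.rfl

/-- the model of an element of `H2 d` -/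
noncomputable def toE (a : A d) (ha : a ∈ H2 d) : E d :=
  ⟨fun α => ((Real.sqrt (wt α) : ℝ) : ℂ) * MvPowerSeries.coeff α a, (mem_iff a).1 ha⟩

/-- the power series of an element of the model -/
noncomputable def ofE (x : E d) : A d := fun α => ((Real.sqrt (wt α) : ℝ) : ℂ)⁻¹ * x α

theorem p12_ne (α : Fin d →₀ ℕ) : ((Real.sqrt (wt α) : ℝ) : ℂ) ≠ 0 := by
  have : Real.sqrt (wt α) ≠ 0 := (Real.sqrt_pos.2 (p12_pos α)).ne'
  exact_mod_cast this

theorem p12_coeff_ofE (x : E d) (α : Fin d →₀ ℕ) :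
    MvPowerSeries.coeff α (ofE x) = ((Real.sqrt (wt α) : ℝ) : ℂ)⁻¹ * x α := rfl

theorem p12_mul (x : E d) :
    (fun α => ((Real.sqrt (wt α) : ℝ) : ℂ) * MvPowerSeries.coeff α (ofE x)) = fun α => x α := by
  funext α
  rw [p12_coeff_ofE, mul_inv_cancel_left₀ (p12_ne α)]

theorem ofE_mem (x : E d) : ofE x ∈ H2 d := by
  rw [mem_iff, p12_mul]
  exact x.2

theorem toE_ofE (x : E d) : toE (ofE x) (ofE_mem x) = x := by
  apply Subtype.ext
  exact p12_mul x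

theorem ofE_toE (a : A d) (ha : a ∈ H2 d) : ofE (toE a ha) = a := by
  funext α
  have h1 : ofE (toE a ha) α = ((Real.sqrt (wt α) : ℝ) : ℂ)⁻¹
      * (((Real.sqrt (wt α) : ℝ) : ℂ) * MvPowerSeries.coeff α a) := rfl
  rw [h1, inv_mul_cancel_left₀ (p12_ne α)]
  rfl

theorem p12_norm_sq (a : A d) (ha : a ∈ H2 d) :
    ‖toE a ha‖ ^ 2 = ∑' α, wt α * ‖MvPowerSeries.coeff α a‖ ^ 2 := by
  have h2 : 0 < (2 : ENNReal).toReal := by norm_num
  have h := lp.norm_rpow_eq_tsum h2 (toE a ha)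
  have h3 : (2 : ENNReal).toReal = ((2 : ℕ) : ℝ) := by norm_num
  have e : ∀ α, ‖(toE a ha : E d) α‖ ^ (2 : ENNReal).toReal
      = wt α * ‖MvPowerSeries.coeff α a‖ ^ 2 := fun α => p12_sq α _
  rw [tsum_congr e, h3, Real.rpow_natCast] at h
  exact h

theorem norm_toE (a : A d) (ha : a ∈ H2 d) : ‖toE a ha‖ = nrm a := by
  unfold nrm
  rw [← p12_norm_sq a ha, Real.sqrt_sq (norm_nonneg _)]

theorem ofE_add (x y : E d) : ofE (x + y) = ofE x + ofE y := by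
  funext α
  show ((Real.sqrt (wt α) : ℝ) : ℂ)⁻¹ * (x α + y α) = ((Real.sqrt (wt α) : ℝ) : ℂ)⁻¹ * x α
    + ((Real.sqrt (wt α) : ℝ) : ℂ)⁻¹ * y α
  rw [mul_add]

theorem ofE_smul (c : ℂ) (x : E d) : ofE (c • x) = c • ofE x := by
  funext α
  show ((Real.sqrt (wt α) : ℝ) : ℂ)⁻¹ * (c * x α) = c * (((Real.sqrt (wt α) : ℝ) : ℂ)⁻¹ * x α)
  ring

theorem p12_add {a b : A d} (ha : a ∈ H2 d) (hb : b ∈ H2 d) :
    ofE (toE a ha + toE b hb) = a + b := by
  rw [ofE_add, ofE_toE, ofE_toE]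

theorem p12_smul (c : ℂ) {a : A d} (ha : a ∈ H2 d) : ofE (c • toE a ha) = c • a := by
  rw [ofE_smul, ofE_toE]

theorem add_mem {a b : A d} (ha : a ∈ H2 d) (hb : b ∈ H2 d) : a + b ∈ H2 d := by
  rw [← p12_add ha hb]
  exact ofE_mem _

theorem smul_mem' (c : ℂ) {a : A d} (ha : a ∈ H2 d) : c • a ∈ H2 d := by
  rw [← p12_smul c ha]
  exact ofE_mem _

theorem p12_neg {a : A d} (ha : a ∈ H2 d) : -a ∈ H2 d := by
  have := smul_mem' (-1) ha
  rwa [neg_one_smul] at this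

theorem sub_mem {a b : A d} (ha : a ∈ H2 d) (hb : b ∈ H2 d) : a - b ∈ H2 d := by
  rw [sub_eq_add_neg]
  exact add_mem ha (p12_neg hb)

theorem smul_mem (c : ℂ) {a : A d} (ha : a ∈ H2 d) : c • a ∈ H2 d := smul_mem' c ha

theorem zero_mem : (0 : A d) ∈ H2 d := by
  have h := ofE_mem (0 : E d)
  have e : ofE (0 : E d) = 0 := by
    funext α
    show ((Real.sqrt (wt α) : ℝ) : ℂ)⁻¹ * 0 = 0
    rw [mul_zero]
  rwa [e] at h

theorem p12_one_term (α : Fin d →₀ ℕ) :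
    wt α * ‖MvPowerSeries.coeff α (1 : A d)‖ ^ 2 = if α = 0 then 1 else 0 := by
  classical
  rw [MvPowerSeries.coeff_one]
  by_cases h : α = 0
  · subst h
    rw [if_pos rfl, if_pos rfl]
    unfold wt
    simp
  · rw [if_neg h, if_neg h]
    simp

theorem one_mem : (1 : A d) ∈ H2 d := by
  show Summable fun α => wt α * ‖MvPowerSeries.coeff α (1 : A d)‖ ^ 2
  have e : (fun α : Fin d →₀ ℕ => wt α * ‖MvPowerSeries.coeff α (1 : A d)‖ ^ 2)
      = fun α => if α = 0 then 1 else 0 := funext p12_one_term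
  rw [e]
  exact (hasSum_ite_eq 0 1).summable

theorem nrm_one : nrm (1 : A d) = 1 := by
  unfold nrm
  rw [tsum_congr p12_one_term, tsum_ite_eq, Real.sqrt_one]

theorem nrm_zero : nrm (0 : A d) = 0 := by
  unfold nrm
  simp

theorem nrm_nonneg (a : A d) : 0 ≤ nrm a := Real.sqrt_nonneg _

theorem p12_norm (x : E d) : nrm (ofE x) = ‖x‖ := by
  rw [← norm_toE (ofE x) (ofE_mem x), toE_ofE]

theorem nrm_add_le {a b : A d} (ha : a ∈ H2 d) (hb : b ∈ H2 d) : nrm (a + b) ≤ nrm a + nrm b := by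
  rw [← p12_add ha hb, p12_norm, ← norm_toE a ha, ← norm_toE b hb]
  exact norm_add_le _ _

theorem nrm_sub_comm (a b : A d) : nrm (a - b) = nrm (b - a) := by
  unfold nrm
  congr 1
  refine tsum_congr fun α => ?_
  rw [map_sub, map_sub, norm_sub_rev]

theorem p12_nrm_neg (a : A d) : nrm (-a) = nrm a := by
  have := nrm_sub_comm (0 : A d) a
  rwa [zero_sub, sub_zero] at this

theorem nrm_sub_le {a b : A d} (ha : a ∈ H2 d) (hb : b ∈ H2 d) : nrm (a - b) ≤ nrm a + nrm b := by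
  rw [sub_eq_add_neg, ← p12_nrm_neg b]
  exact nrm_add_le ha (p12_neg hb)

theorem nrm_smul (c : ℂ) (a : A d) : nrm (c • a) = ‖c‖ * nrm a := by
  unfold nrm
  have e : ∀ α : Fin d →₀ ℕ, wt α * ‖MvPowerSeries.coeff α (c • a)‖ ^ 2
      = ‖c‖ ^ 2 * (wt α * ‖MvPowerSeries.coeff α a‖ ^ 2) := by
    intro α
    rw [map_smul, smul_eq_mul, norm_mul]
    ring
  rw [tsum_congr e, tsum_mul_left, Real.sqrt_mul (by positivity), Real.sqrt_sq (norm_nonneg _)]

theorem norm_coeff_le {a : A d} (ha : a ∈ H2 d) (α : Fin d →₀ ℕ) :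
    Real.sqrt (wt α) * ‖MvPowerSeries.coeff α a‖ ≤ nrm a := by
  unfold nrm
  refine Real.le_sqrt_of_sq_le ?_
  rw [mul_pow, Real.sq_sqrt (p12_pos α).le]
  have hs : Summable fun α => wt α * ‖MvPowerSeries.coeff α a‖ ^ 2 := ha
  exact hs.le_tsum α fun β _ => mul_nonneg (p12_pos β).le (by positivity)

end PCM
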