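import Pool.Agent.PCM.P12

/-!
# [PCM-P13] multipliers are bounded (closed graph theorem)

The map `T : E d → E d`, `T x = toE (φ * ofE x) _` is linear.  Its graph is closed: if `x_n → x` and
`T x_n → y` then coefficientwise `coeff α (ofE x_n) → coeff α (ofE x)` (coordinates are continuous on `lp`,
`norm_coeff_le`), `coeff α (φ * ofE x_n)` is a finite sum over the antidiagonal, so it tends to
`coeff α (φ * ofE x)`; hence `y = T x`.  `LinearMap.continuous_of_isClosed_graph` (or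
`LinearMap.continuous_of_seq_closed_graph`); `E d` is complete.  Take `M = max 1 ‖T‖`.
-/

open MeasureTheory Set Filter Topology

namespace PCM

variable {d : ℕ}

theorem p13_toE (a : A d) (ha : a ∈ H2 d) (α : Fin d →₀ ℕ) :
    (toE a ha : ∀ _ : (Fin d →₀ ℕ), ℂ) α =
      ((Real.sqrt (wt α) : ℝ) : ℂ) * MvPowerSeries.coeff α a := rfl

theorem p13_coord {u : ℕ → E d} {x : E d} (h : Tendsto u atTop (𝓝 x)) (α : Fin d →₀ ℕ) :
    Tendsto (fun n => (u n : ∀ _ : (Fin d →₀ ℕ), ℂ) α) atTop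
      (𝓝 ((x : ∀ _ : (Fin d →₀ ℕ), ℂ) α)) := by
  rw [tendsto_iff_norm_sub_tendsto_zero] at h ⊢
  refine squeeze_zero (fun n => norm_nonneg _) (fun n => ?_) h
  exact lp.norm_apply_le_norm (by norm_num) (u n - x) α

theorem p13_coeff (φ : A d) (z : E d) (α : Fin d →₀ ℕ) :
    MvPowerSeries.coeff α (φ * ofE z) = ∑ p ∈ Finset.HasAntidiagonal.antidiagonal α,
      MvPowerSeries.coeff p.1 φ *
        (((Real.sqrt (wt p.2) : ℝ) : ℂ)⁻¹ * (z : ∀ _ : (Fin d →₀ ℕ), ℂ) p.2) := by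
  rw [MvPowerSeries.coeff_mul]
  rfl

/-- multiplication by a multiplier in the model -/
noncomputable def p13_T {φ : A d} (hφ : IsMult φ) : E d →ₗ[ℂ] E d where
  toFun x := toE (φ * ofE x) (hφ _ (ofE_mem x))
  map_add' x y := by
    apply lp.ext
    funext α
    show ((Real.sqrt (wt α) : ℝ) : ℂ) * MvPowerSeries.coeff α (φ * ofE (x + y)) =
      ((Real.sqrt (wt α) : ℝ) : ℂ) * MvPowerSeries.coeff α (φ * ofE x) +
      ((Real.sqrt (wt α) : ℝ) : ℂ) * MvPowerSeries.coeff α (φ * ofE y)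
    rw [ofE_add, mul_add, map_add, mul_add]
  map_smul' c x := by
    apply lp.ext
    funext α
    show ((Real.sqrt (wt α) : ℝ) : ℂ) * MvPowerSeries.coeff α (φ * ofE (c • x)) =
      c * (((Real.sqrt (wt α) : ℝ) : ℂ) * MvPowerSeries.coeff α (φ * ofE x))
    rw [ofE_smul, mul_smul_comm, map_smul, smul_eq_mul]
    ring

theorem p13_T_apply {φ : A d} (hφ : IsMult φ) (x : E d) :
    p13_T hφ x = toE (φ * ofE x) (hφ _ (ofE_mem x)) := rfl

theorem p13_cont {φ : A d} (hφ : IsMult φ) : Continuous (p13_T hφ) := by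
  refine LinearMap.continuous_of_seq_closed_graph (g := p13_T hφ) ?_
  intro u x y hu hy
  apply lp.ext
  funext α
  have h1 := p13_coord hy α
  have h2 : Tendsto (fun n => ((p13_T hφ (u n) : E d) : ∀ _ : (Fin d →₀ ℕ), ℂ) α) atTop
      (𝓝 (((p13_T hφ x : E d) : ∀ _ : (Fin d →₀ ℕ), ℂ) α)) := by
    simp only [p13_T_apply, p13_toE, p13_coeff]
    refine Tendsto.const_mul _ ?_
    refine tendsto_finsetSum _ fun p _ => ?_
    exact Tendsto.const_mul _ (Tendsto.const_mul _ (p13_coord hu p.2))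
  exact tendsto_nhds_unique h1 h2

theorem bounded_of_mult {φ : A d} (hφ : IsMult φ) :
    ∃ M : ℝ, 1 ≤ M ∧ ∀ g ∈ H2 d, nrm (φ * g) ≤ M * nrm g := by
  obtain ⟨T, hT⟩ : ∃ T : E d →L[ℂ] E d, ∀ x, T x = p13_T hφ x :=
    ⟨⟨p13_T hφ, p13_cont hφ⟩, fun _ => rfl⟩
  refine ⟨max 1 ‖T‖, le_max_left _ _, fun g hg => ?_⟩
  have h1 : T (toE g hg) = toE (φ * g) (hφ g hg) := by
    rw [hT, p13_T_apply]
    apply lp.ext
    funext α
    rw [p13_toE, p13_toE, ofE_toE]
  have h2 := T.le_opNorm (toE g hg)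
  rw [h1, norm_toE, norm_toE] at h2
  exact h2.trans (mul_le_mul_of_nonneg_right (le_max_right _ _) (nrm_nonneg g))

end PCM
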