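import Pool.Agent.PCM.P1
import Pool.Agent.PCM.P11
import Pool.Agent.PCM.P12

/-!
# [PCM-P14] a multiplier is bounded on the ball by its norm

`φ = φ * 1 ∈ H2 d` is convergent.  By induction `nrm (φ^n) ≤ M^n` (`φ^{n+1} = φ * φ^n`, `nrm 1 = 1`), so by
`ev_bound`, `‖ev φ z‖^n ≤ M^n / √(1 - Σ ‖z i‖^2)` for all `n`; hence `‖ev φ z‖ ≤ M` (otherwise
`(‖ev φ z‖/M)^n → ∞`).
-/

open MeasureTheory Set Filter Topology

namespace PCM

variable {d : ℕ}

theorem mem_of_mult {φ : A d} (hφ : IsMult φ) : φ ∈ H2 d := by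
  have h := hφ 1 one_mem
  rwa [mul_one] at h

theorem mult_mul {φ ψ : A d} (hφ : IsMult φ) (hψ : IsMult ψ) : IsMult (φ * ψ) := by
  intro f hf
  rw [mul_assoc]
  exact hφ _ (hψ _ hf)

theorem mult_pow {φ : A d} (hφ : IsMult φ) (n : ℕ) : IsMult (φ ^ n) := by
  induction n with
  | zero =>
    intro f hf
    rwa [pow_zero, one_mul]
  | succ n ih =>
    rw [pow_succ]
    exact mult_mul ih hφ

theorem mult_add {φ ψ : A d} (hφ : IsMult φ) (hψ : IsMult ψ) : IsMult (φ + ψ) := by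
  intro f hf
  rw [add_mul]
  exact add_mem (hφ _ hf) (hψ _ hf)

theorem mult_smul (c : ℂ) {φ : A d} (hφ : IsMult φ) : IsMult (c • φ) := by
  intro f hf
  rw [smul_mul_assoc]
  exact smul_mem c (hφ _ hf)

theorem sup_bound {φ : A d} (hφ : IsMult φ) {M : ℝ} (hM1 : 1 ≤ M)
    (hM : ∀ g ∈ H2 d, nrm (φ * g) ≤ M * nrm g) {z : Fin d → ℂ} (hz : z ∈ Ball d) :
    ‖ev φ z‖ ≤ M := by
  have hconv : Conv φ := conv_of_mem (mem_of_mult hφ)
  have hM0 : 0 < M := by linarith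
  have hmem : ∀ n, φ ^ n ∈ H2 d := fun n => mem_of_mult (mult_pow hφ n)
  have hn : ∀ n, nrm (φ ^ n) ≤ M ^ n := by
    intro n
    induction n with
    | zero =>
      rw [pow_zero, pow_zero, nrm_one]
    | succ n ih =>
      rw [pow_succ', pow_succ']
      exact (hM _ (hmem n)).trans (mul_le_mul_of_nonneg_left ih hM0.le)
  have hz' : ∑ i, ‖z i‖ ^ 2 < 1 := hz
  have hs : 0 < Real.sqrt (1 - ∑ i, ‖z i‖ ^ 2) := Real.sqrt_pos.2 (by linarith)
  set s := Real.sqrt (1 - ∑ i, ‖z i‖ ^ 2) with hsdef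
  by_contra hcon
  rw [not_le] at hcon
  have h1 : 1 < ‖ev φ z‖ / M := (one_lt_div hM0).2 hcon
  obtain ⟨n, hn1⟩ := pow_unbounded_of_one_lt (1 / s) h1
  have h2 : ‖ev φ z‖ ^ n ≤ M ^ n / s := by
    have h3 := ev_bound (hmem n) hz
    rw [ev_pow hconv n hz, norm_pow] at h3
    exact h3.trans (div_le_div_of_nonneg_right (hn n) hs.le)
  have h4 : 1 / s < ‖ev φ z‖ ^ n / M ^ n := by rwa [div_pow] at hn1
  rw [lt_div_iff₀ (pow_pos hM0 n)] at h4
  have h5 : 1 / s * M ^ n = M ^ n / s := by ring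
  linarith

end PCM
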