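import Pool.Agent.PCM.P10
import Pool.Agent.PCM.P14

/-!
# [PCM-P15] `L^2` bound of the Taylor expressions

For `g ∈ H2 d` and `q ≤ i`, `f^q g ∈ H2 d` with `nrm ≤ M^q nrm g`, convergent (`conv_of_mem`).  For a.e. `z`
(`Σ ‖z i‖^2 ≤ 1`), `r z` is in the ball and `‖ev f (r z)‖ ≤ M`, so
`‖ev (BB f g i k) (r z)‖ ≤ Σ_q C(i,q) M^{i-q} ‖ev (R^k (f^q g)) (r z)‖`; by Minkowski (or Cauchy-Schwarz for
the finite sum) and `bound_of_mem`,
`∫ ‖ev (BB f g i k) (r z)‖^2 ≤ ((2M)^i √((2k)!) nrm g)^2`.  With Cauchy-Schwarz for the finite sum the weaker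
constant below suffices: `(Σ_q x_q)^2 ≤ (i+1) Σ_q x_q^2`, `C(i,q) ≤ 2^i`.
-/

open MeasureTheory Set Filter Topology

namespace PCM

variable {d : ℕ}

private theorem p15_neg (f : A d) : -f = (-1 : ℂ) • f := by
  rw [neg_one_smul]

theorem BB_conv {f g : A d} (hf : Conv f) (hg : Conv g) (i k : ℕ) : Conv (BB f g i k) := by
  unfold BB
  refine conv_sum _ _ fun q _ => conv_smul _ (conv_mul (conv_pow ?_ _)
    (conv_R_pow (conv_mul (conv_pow hf q) hg) k))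
  rw [p15_neg]
  exact conv_smul _ hf

private theorem p15_mem {f g : A d} (hf : IsMult f) {M : ℝ} (hM1 : 1 ≤ M)
    (hM : ∀ g ∈ H2 d, nrm (f * g) ≤ M * nrm g) (hg : g ∈ H2 d) (q : ℕ) :
    f ^ q * g ∈ H2 d ∧ nrm (f ^ q * g) ≤ M ^ q * nrm g := by
  induction q with
  | zero =>
    rw [pow_zero, one_mul, pow_zero, one_mul]
    exact ⟨hg, le_rfl⟩
  | succ q ih =>
    obtain ⟨h1, h2⟩ := ih
    have e : f ^ (q + 1) * g = f * (f ^ q * g) := by ring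
    rw [e]
    refine ⟨hf _ h1, (hM _ h1).trans ?_⟩
    calc M * nrm (f ^ q * g) ≤ M * (M ^ q * nrm g) := mul_le_mul_of_nonneg_left h2 (by linarith)
      _ = M ^ (q + 1) * nrm g := by ring

private theorem p15_ball {r : ℝ} (hr0 : 0 ≤ r) (hr : r < 1) {z : Fin d → ℂ} (hz : ∑ i, ‖z i‖ ^ 2 ≤ 1) :
    (fun j => (r : ℂ) * z j) ∈ Ball d := by
  show ∑ i, ‖(r : ℂ) * z i‖ ^ 2 < 1
  have h1 : ∑ i, ‖(r : ℂ) * z i‖ ^ 2 = r ^ 2 * ∑ i, ‖z i‖ ^ 2 := by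
    rw [Finset.mul_sum]
    refine Finset.sum_congr rfl fun i _ => ?_
    rw [norm_mul, Complex.norm_real, Real.norm_eq_abs, abs_of_nonneg hr0, mul_pow]
  rw [h1]
  have h2 : 0 ≤ ∑ i, ‖z i‖ ^ 2 := Finset.sum_nonneg fun i _ => by positivity
  have h3 : r ^ 2 < 1 := by nlinarith
  have h4 : r ^ 2 * ∑ i, ‖z i‖ ^ 2 ≤ r ^ 2 * 1 := mul_le_mul_of_nonneg_left hz (sq_nonneg r)
  linarith

private theorem p15_point {f g : A d} (hf : IsMult f) {M : ℝ} (hM1 : 1 ≤ M)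
    (hM : ∀ g ∈ H2 d, nrm (f * g) ≤ M * nrm g) (hg : g ∈ H2 d) (i k : ℕ) {w : Fin d → ℂ}
    (hw : w ∈ Ball d) :
    ‖ev (BB f g i k) w‖ ≤ ∑ q ∈ Finset.range (i + 1),
      (i.choose q : ℝ) * M ^ (i - q) * ‖ev ((R d ^ k) (f ^ q * g)) w‖ := by
  have hfc : Conv f := conv_of_mem (mem_of_mult hf)
  have hfn : Conv (-f) := by
    rw [p15_neg]
    exact conv_smul _ hfc
  have hgc : Conv g := conv_of_mem hg
  unfold BB
  rw [ev_sum _ _ (fun q _ => conv_smul _ (conv_mul (conv_pow hfn _)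
    (conv_R_pow (conv_mul (conv_pow hfc q) hgc) k))) hw]
  refine (norm_sum_le _ _).trans (Finset.sum_le_sum fun q _ => ?_)
  rw [ev_smul, ev_mul (conv_pow hfn _) (conv_R_pow (conv_mul (conv_pow hfc q) hgc) k) hw,
    ev_pow hfn _ hw, norm_mul, norm_mul, norm_pow, Complex.norm_natCast, ← mul_assoc]
  refine mul_le_mul_of_nonneg_right ?_ (norm_nonneg _)
  refine mul_le_mul_of_nonneg_left ?_ (Nat.cast_nonneg _)
  refine pow_le_pow_left₀ (norm_nonneg _) ?_ _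
  rw [p15_neg, ev_smul, norm_mul, norm_neg, norm_one, one_mul]
  exact sup_bound hf hM1 hM hw

theorem BB_bound (k : ℕ) (μ : Measure (Fin d → ℂ)) (hμ : IsLaw d (2 * k) μ) {f g : A d}
    (hf : IsMult f) {M : ℝ} (hM1 : 1 ≤ M) (hM : ∀ g ∈ H2 d, nrm (f * g) ≤ M * nrm g)
    (hg : g ∈ H2 d) (i : ℕ) (r : ℝ) (hr0 : 0 ≤ r) (hr : r < 1) :
    ∫ z, ‖ev (BB f g i k) (fun j => (r : ℂ) * z j)‖ ^ 2 ∂μ
      ≤ ((i : ℝ) + 1) ^ 2 * (2 * M) ^ (2 * i) * ((2 * k).factorial : ℝ) * nrm g ^ 2 := by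
  have hfc : Conv f := conv_of_mem (mem_of_mult hf)
  have hgc : Conv g := conv_of_mem hg
  have hM0 : 0 ≤ M := by linarith
  have hint : ∀ q, Integrable (fun z => ‖ev ((R d ^ k) (f ^ q * g)) (fun j => (r : ℂ) * z j)‖ ^ 2) μ :=
    fun q => integrable_sq (conv_R_pow (conv_mul (conv_pow hfc q) hgc) k) hr0 hr (2 * k) μ hμ
  have h1 : ∀ᵐ z ∂μ, ‖ev (BB f g i k) (fun j => (r : ℂ) * z j)‖ ^ 2 ≤
      ((i : ℝ) + 1) * ∑ q ∈ Finset.range (i + 1), ((i.choose q : ℝ) * M ^ (i - q)) ^ 2 *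
        ‖ev ((R d ^ k) (f ^ q * g)) (fun j => (r : ℂ) * z j)‖ ^ 2 := by
    filter_upwards [hμ.supp] with z hz
    have h2 := p15_point hf hM1 hM hg i k (p15_ball hr0 hr hz)
    have h3 := pow_le_pow_left₀ (norm_nonneg _) h2 2
    refine h3.trans ?_
    have h4 := sq_sum_le_card_mul_sum_sq (s := Finset.range (i + 1))
      (f := fun q => (i.choose q : ℝ) * M ^ (i - q) *
        ‖ev ((R d ^ k) (f ^ q * g)) (fun j => (r : ℂ) * z j)‖)
    rw [Finset.card_range] at h4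
    refine h4.trans (le_of_eq ?_)
    push_cast
    congr 1
    exact Finset.sum_congr rfl fun q _ => mul_pow _ _ _
  have hI : Integrable (fun z => ((i : ℝ) + 1) * ∑ q ∈ Finset.range (i + 1),
      ((i.choose q : ℝ) * M ^ (i - q)) ^ 2 *
        ‖ev ((R d ^ k) (f ^ q * g)) (fun j => (r : ℂ) * z j)‖ ^ 2) μ :=
    (integrable_finsetSum _ fun q _ => (hint q).const_mul _).const_mul _
  refine (integral_mono_ae (integrable_sq (BB_conv hfc hgc i k) hr0 hr (2 * k) μ hμ) hI h1).trans ?_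
  rw [integral_const_mul, integral_finsetSum _ (fun q _ => (hint q).const_mul _)]
  have h5 : ∀ q ∈ Finset.range (i + 1), ∫ z, ((i.choose q : ℝ) * M ^ (i - q)) ^ 2 *
      ‖ev ((R d ^ k) (f ^ q * g)) (fun j => (r : ℂ) * z j)‖ ^ 2 ∂μ ≤
      (2 * M) ^ (2 * i) * ((2 * k).factorial : ℝ) * nrm g ^ 2 := by
    intro q hq
    obtain ⟨hm, hn⟩ := p15_mem hf hM1 hM hg q
    rw [integral_const_mul]
    have hqi : q ≤ i := Nat.lt_succ_iff.1 (Finset.mem_range.1 hq)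
    have h6 := bound_of_mem k μ hμ (conv_mul (conv_pow hfc q) hgc) hm r hr0 hr
    have h7 : nrm (f ^ q * g) ^ 2 ≤ (M ^ q * nrm g) ^ 2 := pow_le_pow_left₀ (nrm_nonneg _) hn 2
    have h8 : (0 : ℝ) ≤ ((2 * k).factorial : ℝ) := Nat.cast_nonneg _
    have h9 : (i.choose q : ℝ) ≤ 2 ^ i := by
      have h10 : i.choose q ≤ 2 ^ i := Nat.choose_le_two_pow i q
      exact_mod_cast h10
    have h11 : ((i.choose q : ℝ)) ^ 2 ≤ (2 ^ i) ^ 2 := pow_le_pow_left₀ (Nat.cast_nonneg _) h9 2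
    have h12 : M ^ (i - q) * M ^ q = M ^ i := by
      rw [← pow_add, Nat.sub_add_cancel hqi]
    calc _ ≤ ((i.choose q : ℝ) * M ^ (i - q)) ^ 2 *
          (((2 * k).factorial : ℝ) * (M ^ q * nrm g) ^ 2) :=
          mul_le_mul_of_nonneg_left (h6.trans (mul_le_mul_of_nonneg_left h7 h8)) (sq_nonneg _)
      _ = ((i.choose q : ℝ)) ^ 2 * ((M ^ (i - q) * M ^ q) ^ 2 *
          ((2 * k).factorial : ℝ) * nrm g ^ 2) := by ring
      _ ≤ (2 ^ i) ^ 2 * ((M ^ (i - q) * M ^ q) ^ 2 * ((2 * k).factorial : ℝ) * nrm g ^ 2) :=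
          mul_le_mul_of_nonneg_right h11 (by positivity)
      _ = (2 * M) ^ (2 * i) * ((2 * k).factorial : ℝ) * nrm g ^ 2 := by
          rw [h12, mul_pow 2 M, pow_mul 2, pow_mul M, ← pow_mul 2 i, ← pow_mul 2 2]
          ring
  calc _ ≤ ((i : ℝ) + 1) * ∑ q ∈ Finset.range (i + 1),
        ((2 * M) ^ (2 * i) * ((2 * k).factorial : ℝ) * nrm g ^ 2) :=
        mul_le_mul_of_nonneg_left (Finset.sum_le_sum h5) (by positivity)
    _ = _ := by
        rw [Finset.sum_const, Finset.card_range, nsmul_eq_mul]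
        push_cast
        ring

end PCM
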