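import Pool.Agent.PCM.P15

/-!
# [PCM-P16] multiplier norm of `P s`

`taylor` gives `ev (R^k (P s g)) (r z) = Σ_{i≤k} cc s i ev (P (s-i)) (r z) ev (BB f g i k) (r z)` for a.e. `z`,
`‖cc s i‖ ≤ (‖s‖ + k)^i ≤ (k+1)^k (1+‖s‖)^k` (`i ≤ k`), `‖ev (P (s-i)) (r z)‖ ≤ A0`.  Cauchy-Schwarz for the sum of
`k+1` terms and `BB_bound`: `∫ ‖ev (R^k (P s g)) (r z)‖^2 ≤ (constant) (1+‖s‖)^{2k} A0^2 nrm g^2`.  Also
`‖coeff 0 (P s g)‖ = ‖ev (P s) 0‖ ‖ev g 0‖ ≤ A0 nrm g` (`i = 0`; `coeff 0` is the value at `0`).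
`mem_of_bound` concludes.
-/

open MeasureTheory Set Filter Topology

namespace PCM

variable {d : ℕ}

private theorem p16_ball {r : ℝ} (hr0 : 0 ≤ r) (hr : r < 1) {z : Fin d → ℂ}
    (hz : ∑ i, ‖z i‖ ^ 2 ≤ 1) : (fun j => (r : ℂ) * z j) ∈ Ball d := by
  show ∑ i, ‖(r : ℂ) * z i‖ ^ 2 < 1
  have h1 : ∑ i, ‖(r : ℂ) * z i‖ ^ 2 = r ^ 2 * ∑ i, ‖z i‖ ^ 2 := by
    rw [Finset.mul_sum]
    refine Finset.sum_congr rfl fun i _ => ?_
    rw [norm_mul, Complex.norm_real, Real.norm_eq_abs, abs_of_nonneg hr0, mul_pow]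
  rw [h1]
  have h3 : r ^ 2 < 1 := by nlinarith
  have h4 : r ^ 2 * ∑ i, ‖z i‖ ^ 2 ≤ r ^ 2 * 1 := mul_le_mul_of_nonneg_left hz (sq_nonneg r)
  linarith

private theorem p16_cc (s : ℂ) {i k : ℕ} (hi : i ≤ k) :
    ‖cc s i‖ ≤ (((k : ℝ) + 1) * (1 + ‖s‖)) ^ k := by
  have h0 : 0 ≤ ‖s‖ := norm_nonneg _
  have hk : (0 : ℝ) ≤ k := Nat.cast_nonneg _
  have hone : 1 ≤ ((k : ℝ) + 1) * (1 + ‖s‖) := by nlinarith
  unfold cc
  rw [norm_div, norm_prod, Complex.norm_natCast]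
  have h1 : ∏ j ∈ Finset.range i, ‖s - (j : ℂ)‖ ≤ (((k : ℝ) + 1) * (1 + ‖s‖)) ^ i := by
    have h2 : ∏ j ∈ Finset.range i, ‖s - (j : ℂ)‖ ≤
        ∏ _j ∈ Finset.range i, (((k : ℝ) + 1) * (1 + ‖s‖)) := by
      refine Finset.prod_le_prod (fun j _ => norm_nonneg _) fun j hj => ?_
      have h3 : ‖s - (j : ℂ)‖ ≤ ‖s‖ + j := by
        refine (norm_sub_le _ _).trans ?_
        rw [Complex.norm_natCast]
      have h4 : (j : ℝ) ≤ k := by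
        have h5 : j ≤ k := by
          have := Finset.mem_range.1 hj
          omega
        exact_mod_cast h5
      nlinarith
    rwa [Finset.prod_const, Finset.card_range] at h2
  have hf : (1 : ℝ) ≤ (i.factorial : ℝ) := by
    exact_mod_cast Nat.one_le_iff_ne_zero.2 (Nat.factorial_ne_zero i)
  calc _ ≤ (((k : ℝ) + 1) * (1 + ‖s‖)) ^ i / (i.factorial : ℝ) :=
        div_le_div_of_nonneg_right h1 (by linarith)
    _ ≤ (((k : ℝ) + 1) * (1 + ‖s‖)) ^ i := div_le_self (by positivity) hf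
    _ ≤ _ := pow_le_pow_right₀ hone hi

private theorem p16_point (k : ℕ) {f : A d} (hfc : Conv f) (P : ℂ → A d) (hPc : ∀ s, Conv (P s))
    (hP : ∀ s, R d (P s) = s • (P (s - 1) * R d f)) (s : ℂ) {A0 : ℝ}
    (hA : ∀ i ≤ k, ∀ z ∈ Ball d, ‖ev (P (s - (i : ℂ))) z‖ ≤ A0) {g : A d} (hgc : Conv g)
    {w : Fin d → ℂ} (hw : w ∈ Ball d) :
    ‖ev ((R d ^ k) (P s * g)) w‖ ≤ ∑ i ∈ Finset.range (k + 1),
      ((((k : ℝ) + 1) * (1 + ‖s‖)) ^ k * A0) * ‖ev (BB f g i k) w‖ := by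
  rw [taylor f g P hP k s, ev_sum _ _ (fun i _ => conv_smul _ (conv_mul (hPc _)
    (BB_conv hfc hgc i k))) hw]
  refine (norm_sum_le _ _).trans (Finset.sum_le_sum fun i hi => ?_)
  have hik : i ≤ k := Nat.lt_succ_iff.1 (Finset.mem_range.1 hi)
  rw [ev_smul, ev_mul (hPc _) (BB_conv hfc hgc i k) hw, norm_mul, norm_mul, ← mul_assoc]
  refine mul_le_mul_of_nonneg_right ?_ (norm_nonneg _)
  exact mul_le_mul (p16_cc s hik) (hA i hik w hw) (norm_nonneg _) (by positivity)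

theorem mult_bound (k : ℕ) (μ : Measure (Fin d → ℂ)) (hμ : IsLaw d (2 * k) μ) {f : A d}
    (hf : IsMult f) {M : ℝ} (hM1 : 1 ≤ M) (hM : ∀ g ∈ H2 d, nrm (f * g) ≤ M * nrm g)
    (P : ℂ → A d) (hPc : ∀ s, Conv (P s)) (hP : ∀ s, R d (P s) = s • (P (s - 1) * R d f)) :
    ∃ C0 : ℝ, 0 ≤ C0 ∧ ∀ (s : ℂ) (A0 : ℝ), 0 ≤ A0 →
      (∀ i ≤ k, ∀ z ∈ Ball d, ‖ev (P (s - (i : ℂ))) z‖ ≤ A0) →
      ∀ g ∈ H2 d, P s * g ∈ H2 d ∧ nrm (P s * g) ≤ C0 * (1 + ‖s‖) ^ k * A0 * nrm g := by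
  have hfc : Conv f := conv_of_mem (mem_of_mult hf)
  have hM0 : 0 ≤ M := by linarith
  set Q : ℝ := ∑ i ∈ Finset.range (k + 1),
    ((i : ℝ) + 1) ^ 2 * (2 * M) ^ (2 * i) * ((2 * k).factorial : ℝ) with hQ
  have hQ0 : 0 ≤ Q := Finset.sum_nonneg fun i _ => by positivity
  have hk0 : (0 : ℝ) ≤ k := Nat.cast_nonneg _
  set T : ℝ := 1 + (2 * (k : ℝ) + 1) * (((k : ℝ) + 1) * (((k : ℝ) + 1) ^ k) ^ 2 * Q) with hT
  have hT0 : 0 ≤ T := by positivity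
  refine ⟨Real.sqrt T, Real.sqrt_nonneg _, fun s A0 hA0 hA g hg => ?_⟩
  have hgc : Conv g := conv_of_mem hg
  have hs0 : 0 ≤ ‖s‖ := norm_nonneg _
  set Z : ℝ := (((k : ℝ) + 1) * (1 + ‖s‖)) ^ k with hZ
  have hZ0 : 0 ≤ Z := by positivity
  have hconv : Conv (P s * g) := conv_mul (hPc s) hgc
  have hB : ∀ r : ℝ, 0 ≤ r → r < 1 →
      ∫ z, ‖ev ((R d ^ k) (P s * g)) (fun i => (r : ℂ) * z i)‖ ^ 2 ∂μ ≤
      ((k : ℝ) + 1) * ((Z * A0) ^ 2 * (Q * nrm g ^ 2)) := by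
    intro r hr0 hr
    have hint : ∀ i, Integrable (fun z => ‖ev (BB f g i k) (fun j => (r : ℂ) * z j)‖ ^ 2) μ :=
      fun i => integrable_sq (BB_conv hfc hgc i k) hr0 hr (2 * k) μ hμ
    have h1 : ∀ᵐ z ∂μ, ‖ev ((R d ^ k) (P s * g)) (fun j => (r : ℂ) * z j)‖ ^ 2 ≤
        ((k : ℝ) + 1) * ∑ i ∈ Finset.range (k + 1), (Z * A0) ^ 2 *
          ‖ev (BB f g i k) (fun j => (r : ℂ) * z j)‖ ^ 2 := by
      filter_upwards [hμ.supp] with z hz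
      have h2 := p16_point k hfc P hPc hP s hA hgc (p16_ball hr0 hr hz)
      have h3 := pow_le_pow_left₀ (norm_nonneg _) h2 2
      refine h3.trans ?_
      have h4 := sq_sum_le_card_mul_sum_sq (s := Finset.range (k + 1))
        (f := fun i => (Z * A0) * ‖ev (BB f g i k) (fun j => (r : ℂ) * z j)‖)
      rw [Finset.card_range] at h4
      refine h4.trans (le_of_eq ?_)
      push_cast
      congr 1
      exact Finset.sum_congr rfl fun i _ => mul_pow _ _ _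
    have hI : Integrable (fun z => ((k : ℝ) + 1) * ∑ i ∈ Finset.range (k + 1), (Z * A0) ^ 2 *
          ‖ev (BB f g i k) (fun j => (r : ℂ) * z j)‖ ^ 2) μ :=
      (integrable_finsetSum _ fun i _ => (hint i).const_mul _).const_mul _
    refine (integral_mono_ae (integrable_sq (conv_R_pow hconv k) hr0 hr (2 * k) μ hμ) hI h1).trans ?_
    rw [integral_const_mul, integral_finsetSum _ (fun i _ => (hint i).const_mul _)]
    refine mul_le_mul_of_nonneg_left ?_ (by positivity)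
    have h5 : ∀ i ∈ Finset.range (k + 1), ∫ z, (Z * A0) ^ 2 *
        ‖ev (BB f g i k) (fun j => (r : ℂ) * z j)‖ ^ 2 ∂μ ≤ (Z * A0) ^ 2 *
        (((i : ℝ) + 1) ^ 2 * (2 * M) ^ (2 * i) * ((2 * k).factorial : ℝ) * nrm g ^ 2) := by
      intro i _
      rw [integral_const_mul]
      exact mul_le_mul_of_nonneg_left (BB_bound k μ hμ hf hM1 hM hg i r hr0 hr) (sq_nonneg _)
    refine (Finset.sum_le_sum h5).trans (le_of_eq ?_)
    rw [← Finset.mul_sum, ← Finset.sum_mul]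
  obtain ⟨hmem, hn⟩ := mem_of_bound k μ hμ hconv _ hB
  refine ⟨hmem, ?_⟩
  have hz0 : (fun _ => 0 : Fin d → ℂ) ∈ Ball d := by
    show ∑ i : Fin d, ‖(0 : ℂ)‖ ^ 2 < 1
    simp
  have hc : ‖MvPowerSeries.coeff 0 (P s * g)‖ ≤ A0 * nrm g := by
    rw [← ev_zero_point, ev_mul (hPc s) hgc hz0, norm_mul]
    refine mul_le_mul ?_ ?_ (norm_nonneg _) hA0
    · have h1 := hA 0 (Nat.zero_le k) _ hz0
      rwa [Nat.cast_zero, sub_zero] at h1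
    · have h1 := ev_bound hg hz0
      have h2 : Real.sqrt (1 - ∑ i : Fin d, ‖(0 : ℂ)‖ ^ 2) = 1 := by simp
      rw [h2, div_one] at h1
      exact h1
  have hc2 : ‖MvPowerSeries.coeff 0 (P s * g)‖ ^ 2 ≤ (A0 * nrm g) ^ 2 :=
    pow_le_pow_left₀ (norm_nonneg _) hc 2
  have hng : 0 ≤ nrm g := nrm_nonneg g
  have hone : 1 ≤ ((1 + ‖s‖) ^ k) ^ 2 := by
    have h1 : 1 ≤ (1 + ‖s‖) ^ k := one_le_pow₀ (by linarith)
    nlinarith
  have hfin : nrm (P s * g) ^ 2 ≤ (Real.sqrt T * (1 + ‖s‖) ^ k * A0 * nrm g) ^ 2 := by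
    have e1 : (Real.sqrt T * (1 + ‖s‖) ^ k * A0 * nrm g) ^ 2 =
        T * (((1 + ‖s‖) ^ k) ^ 2 * (A0 * nrm g) ^ 2) := by
      rw [mul_pow, mul_pow, mul_pow, Real.sq_sqrt hT0]
      ring
    rw [e1]
    have e2 : Z ^ 2 = (((k : ℝ) + 1) ^ k) ^ 2 * ((1 + ‖s‖) ^ k) ^ 2 := by
      rw [hZ, mul_pow, mul_pow]
    have e3 : ((k : ℝ) + 1) * ((Z * A0) ^ 2 * (Q * nrm g ^ 2)) =
        (((k : ℝ) + 1) * (((k : ℝ) + 1) ^ k) ^ 2 * Q) * (((1 + ‖s‖) ^ k) ^ 2 * (A0 * nrm g) ^ 2) := by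
      rw [mul_pow, e2]
      ring
    rw [e3] at hn
    have h1 : (A0 * nrm g) ^ 2 ≤ ((1 + ‖s‖) ^ k) ^ 2 * (A0 * nrm g) ^ 2 := by
      have := mul_le_mul_of_nonneg_right hone (sq_nonneg (A0 * nrm g))
      rwa [one_mul] at this
    rw [hT]
    calc _ ≤ _ := hn
      _ ≤ ((1 + ‖s‖) ^ k) ^ 2 * (A0 * nrm g) ^ 2 + (2 * (k : ℝ) + 1) *
          ((((k : ℝ) + 1) * (((k : ℝ) + 1) ^ k) ^ 2 * Q) *
            (((1 + ‖s‖) ^ k) ^ 2 * (A0 * nrm g) ^ 2)) := by linarith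
      _ = _ := by ring
  exact (pow_le_pow_iff_left₀ (nrm_nonneg _) (by positivity) two_ne_zero).1 hfin

end PCM
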