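import Pool.Agent.PCM.Defs

/-!
# [PCM-P17] growth in the sector (pure complex analysis, one point)

`Re (-(s-i) w) = -(Re s - i) Re w + Im s Im w ≤ -(Re s - i) Re w + K |Im s| (1 + |Re w|)`.
If `Re w ≥ 0`: `≤ K |Im s| - (Re s - i - K |Im s|) Re w ≤ K |Im s|`.
If `Re w < 0`: `|Re w| ≤ c`, so `≤ (Re s - i) c + K |Im s| (1+c) ≤ c Re s + K |Im s| (1 + c)` (`Re s ≥ i ≥ 0`).
-/

open MeasureTheory Set Filter Topology

namespace PCM

theorem growth (K c : ℝ) (hK : 0 ≤ K) (hc : 0 ≤ c) (w s : ℂ) (i : ℕ) (hw : -c ≤ w.re)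
    (hw' : |w.im| ≤ K * (1 + |w.re|)) (hs : (i : ℝ) ≤ s.re - K * |s.im|) :
    ‖Complex.exp (-((s - (i : ℂ)) * w))‖ ≤ Real.exp (c * s.re + K * |s.im| * (1 + c)) := by
  rw [Complex.norm_exp]
  refine Real.exp_le_exp.2 ?_
  have e : (-((s - (i : ℂ)) * w)).re = -((s.re - i) * w.re) + s.im * w.im := by
    rw [Complex.neg_re, Complex.mul_re, Complex.sub_re, Complex.sub_im, Complex.natCast_re,
      Complex.natCast_im]
    ring
  rw [e]
  have hi : (0 : ℝ) ≤ i := Nat.cast_nonneg i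
  have hsi : 0 ≤ |s.im| := abs_nonneg _
  have hK' : 0 ≤ K * |s.im| := mul_nonneg hK hsi
  have h1 : s.im * w.im ≤ K * |s.im| * (1 + |w.re|) := by
    calc s.im * w.im ≤ |s.im * w.im| := le_abs_self _
      _ = |s.im| * |w.im| := abs_mul _ _
      _ ≤ |s.im| * (K * (1 + |w.re|)) := mul_le_mul_of_nonneg_left hw' hsi
      _ = _ := by ring
  have hre : 0 ≤ s.re := by linarith
  rcases le_or_gt 0 w.re with h | h
  · rw [abs_of_nonneg h] at h1
    have h2 : 0 ≤ (s.re - i - K * |s.im|) * w.re := mul_nonneg (by linarith) h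
    have h3 : 0 ≤ c * s.re := mul_nonneg hc hre
    have h4 : 0 ≤ K * |s.im| * c := mul_nonneg hK' hc
    nlinarith
  · rw [abs_of_neg h] at h1
    have h2 : 0 ≤ K * |s.im| * (c + w.re) := mul_nonneg hK' (by linarith)
    have h3 : 0 ≤ (s.re - i) * (c + w.re) := mul_nonneg (by linarith) (by linarith)
    have h4 : 0 ≤ (i : ℝ) * c := mul_nonneg hi hc
    nlinarith

end PCM
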