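import Pool.Agent.PCM.Defs

/-!
# [PCM-P18] identity theorem for weakly holomorphic families in `ℓ^2`

Let `y` be orthogonal to `S`, `Φ s = ⟪y, x s⟫ = Σ conj (y i) c s i` on `Ū = {k ≤ Re s - K |Im s|}`.  For a
finset `F` let `Φ_F s = Σ_{i ∈ F} conj (y i) c s i`, an entire function; for `s ∈ Ū`, `‖s‖ ≤ ρ`,
`‖Φ s - Φ_F s‖ ≤ ‖y - y_F‖ * B(ρ)` (`y_F` = truncation of `y`, `‖y - y_F‖ → 0`), so `Φ_F → Φ` uniformly on
bounded parts of `Ū`.  Hence `Φ` is continuous on `Ū` and holomorphic on the open convex set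
`U = {k < Re s - K |Im s|}` (`TendstoLocallyUniformlyOn.differentiableOn`).  `Φ = 0` on the nonempty open set
`{max k k' < Re s - K |Im s|}`, so `Φ = 0` on `U`
(`AnalyticOnNhd.eqOn_zero_of_preconnected_of_eventuallyEq_zero`), and by continuity `Φ k = 0`
(`k + ε → k`).  So `x k ∈ Sᗮᗮ = S` (`Submodule.orthogonal_orthogonal`, `S` closed in a complete space).
-/

open MeasureTheory Set Filter Topology

namespace PCM

private theorem p18_convex (K k : ℝ) (hK : 0 ≤ K) : Convex ℝ {s : ℂ | k < s.re - K * |s.im|} := by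
  intro a ha b hb t u ht hu htu
  change k < a.re - K * |a.im| at ha
  change k < b.re - K * |b.im| at hb
  change k < (t • a + u • b).re - K * |(t • a + u • b).im|
  have h1 : (t • a + u • b).re = t * a.re + u * b.re := by simp
  have h2 : (t • a + u • b).im = t * a.im + u * b.im := by simp
  rw [h1, h2]
  have h3 : |t * a.im + u * b.im| ≤ t * |a.im| + u * |b.im| := by
    refine (abs_add_le _ _).trans ?_
    rw [abs_mul, abs_mul, abs_of_nonneg ht, abs_of_nonneg hu]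
  have h4 : K * |t * a.im + u * b.im| ≤ K * (t * |a.im| + u * |b.im|) :=
    mul_le_mul_of_nonneg_left h3 hK
  have h5 : t * (a.re - K * |a.im| - k) + u * (b.re - K * |b.im| - k) > 0 := by
    rcases eq_or_lt_of_le ht with h | h
    · have hu1 : u = 1 := by linarith
      rw [← h, hu1]
      linarith
    · have h6 : 0 < t * (a.re - K * |a.im| - k) := mul_pos h (by linarith)
      have h7 : 0 ≤ u * (b.re - K * |b.im| - k) := mul_nonneg hu (by linarith)
      linarith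
  have h6 : t * k + u * k = k := by rw [← add_mul, htu, one_mul]
  nlinarith

private theorem p18_open (K k : ℝ) : IsOpen {s : ℂ | k < s.re - K * |s.im|} := by
  refine isOpen_lt continuous_const ?_
  exact Complex.continuous_re.sub (continuous_const.mul (Complex.continuous_im.abs))

theorem hilbert_identity {ι : Type*} (c : ℂ → ι → ℂ)
    (hc : ∀ i, Differentiable ℂ (fun s => c s i)) (K k k' : ℝ) (hK : 0 ≤ K)
    (x : ℂ → lp (fun _ : ι => ℂ) 2)
    (hx : ∀ s : ℂ, k ≤ s.re - K * |s.im| → ∀ i, x s i = c s i)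
    (hbd : ∀ ρ : ℝ, ∃ B : ℝ, ∀ s : ℂ, k ≤ s.re - K * |s.im| → ‖s‖ ≤ ρ → ‖x s‖ ≤ B)
    (S : Submodule ℂ (lp (fun _ : ι => ℂ) 2)) (hS : IsClosed (S : Set (lp (fun _ : ι => ℂ) 2)))
    (hfar : ∀ s : ℂ, k ≤ s.re - K * |s.im| → k' ≤ s.re - K * |s.im| → x s ∈ S) :
    x (k : ℂ) ∈ S := by
  classical
  have : CompleteSpace S := hS.completeSpace_coe
  rw [← Submodule.orthogonal_orthogonal S, Submodule.mem_orthogonal]
  intro y hy
  set Φ : ℂ → ℂ := fun s => inner ℂ y (x s) with hΦ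
  set ΦF : Finset ι → ℂ → ℂ := fun F s => ∑ i ∈ F, inner ℂ (y i) (c s i) with hΦF
  -- the truncations
  have htr : Tendsto (fun F : Finset ι => ∑ i ∈ F, lp.single 2 i (y i)) atTop (𝓝 y) :=
    lp.hasSum_single (by norm_num) y
  have hΦF' : ∀ (F : Finset ι) (s : ℂ), k ≤ s.re - K * |s.im| →
      ΦF F s = inner ℂ (∑ i ∈ F, lp.single 2 i (y i) : lp (fun _ : ι => ℂ) 2) (x s) := by
    intro F s hs
    rw [sum_inner]
    refine Finset.sum_congr rfl fun i _ => ?_
    rw [lp.inner_single_left, hx s hs i]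
  have hloc : TendstoLocallyUniformlyOn ΦF Φ atTop {s : ℂ | k ≤ s.re - K * |s.im|} := by
    rw [Metric.tendstoLocallyUniformlyOn_iff]
    intro ε hε s₀ hs₀
    obtain ⟨B, hB⟩ := hbd (‖s₀‖ + 1)
    refine ⟨{s : ℂ | k ≤ s.re - K * |s.im|} ∩ Metric.ball s₀ 1,
      inter_mem_nhdsWithin _ (Metric.ball_mem_nhds s₀ one_pos), ?_⟩
    have hB0 : 0 < |B| + 1 := by positivity
    have h1 : ∀ᶠ F : Finset ι in atTop,
        dist (∑ i ∈ F, lp.single 2 i (y i) : lp (fun _ : ι => ℂ) 2) y < ε / (|B| + 1) :=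
      Metric.tendsto_nhds.1 htr _ (div_pos hε hB0)
    filter_upwards [h1] with F hF s hs
    obtain ⟨hs1, hs2⟩ := hs
    rw [hΦF' F s hs1, dist_eq_norm]
    have h2 : Φ s - inner ℂ (∑ i ∈ F, lp.single 2 i (y i) : lp (fun _ : ι => ℂ) 2) (x s) =
        inner ℂ (y - ∑ i ∈ F, lp.single 2 i (y i) : lp (fun _ : ι => ℂ) 2) (x s) := by
      rw [inner_sub_left]
    rw [h2]
    have h3 : ‖x s‖ ≤ |B| + 1 := by
      have h4 : ‖s‖ ≤ ‖s₀‖ + 1 := by
        have h5 : ‖s - s₀‖ < 1 := by rwa [← dist_eq_norm]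
        have h6 : ‖s‖ ≤ ‖s - s₀‖ + ‖s₀‖ := by
          have := norm_add_le (s - s₀) s₀
          rwa [sub_add_cancel] at this
        linarith
      have h5 := hB s hs1 h4
      have h6 := le_abs_self B
      linarith
    have h4 : ‖(y - ∑ i ∈ F, lp.single 2 i (y i) : lp (fun _ : ι => ℂ) 2)‖ < ε / (|B| + 1) := by
      rw [← dist_eq_norm, dist_comm]
      exact hF
    calc _ ≤ ‖(y - ∑ i ∈ F, lp.single 2 i (y i) : lp (fun _ : ι => ℂ) 2)‖ * ‖x s‖ :=
          norm_inner_le_norm _ _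
      _ ≤ ‖(y - ∑ i ∈ F, lp.single 2 i (y i) : lp (fun _ : ι => ℂ) 2)‖ * (|B| + 1) :=
          mul_le_mul_of_nonneg_left h3 (norm_nonneg _)
      _ < ε / (|B| + 1) * (|B| + 1) := mul_lt_mul_of_pos_right h4 hB0
      _ = ε := div_mul_cancel₀ _ hB0.ne'
  have hdiff : ∀ F : Finset ι, Differentiable ℂ (ΦF F) := by
    intro F
    have h1 : ΦF F = fun s => ∑ i ∈ F, c s i * (starRingEnd ℂ) (y i) := by
      funext s
      exact Finset.sum_congr rfl fun i _ => RCLike.inner_apply _ _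
    rw [h1]
    exact Differentiable.fun_sum fun i _ => (hc i).mul_const _
  have hcont : ContinuousOn Φ {s : ℂ | k ≤ s.re - K * |s.im|} :=
    hloc.continuousOn (Eventually.frequently (Eventually.of_forall fun F =>
      (hdiff F).continuous.continuousOn))
  have hsub : {s : ℂ | k < s.re - K * |s.im|} ⊆ {s : ℂ | k ≤ s.re - K * |s.im|} :=
    fun s (hs : k < s.re - K * |s.im|) => (le_of_lt hs : k ≤ s.re - K * |s.im|)
  have hdo : DifferentiableOn ℂ Φ {s : ℂ | k < s.re - K * |s.im|} :=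
    (hloc.mono hsub).differentiableOn (Eventually.of_forall fun F => (hdiff F).differentiableOn)
      (p18_open K k)
  have hz : EqOn Φ 0 {s : ℂ | k < s.re - K * |s.im|} := by
    have hz0 : ((max k k' + 1 : ℝ) : ℂ) ∈ {s : ℂ | max k k' < s.re - K * |s.im|} := by
      show max k k' < ((max k k' + 1 : ℝ) : ℂ).re - K * |((max k k' + 1 : ℝ) : ℂ).im|
      rw [Complex.ofReal_re, Complex.ofReal_im, abs_zero, mul_zero]
      linarith
    refine (hdo.analyticOnNhd (p18_open K k)).eqOn_zero_of_preconnected_of_eventuallyEq_zero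
      (p18_convex K k hK).isPreconnected (z₀ := ((max k k' + 1 : ℝ) : ℂ)) ?_ ?_
    · exact lt_of_le_of_lt (le_max_left k k') hz0
    · filter_upwards [(p18_open K (max k k')).mem_nhds hz0] with s hs
      have h1 : x s ∈ S := hfar s (le_of_lt (lt_of_le_of_lt (le_max_left k k') hs))
        (le_of_lt (lt_of_le_of_lt (le_max_right k k') hs))
      exact (Submodule.mem_orthogonal' S y).1 hy (x s) h1
  -- the boundary point
  have hk : (k : ℂ) ∈ {s : ℂ | k ≤ s.re - K * |s.im|} := by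
    show k ≤ (k : ℂ).re - K * |(k : ℂ).im|
    rw [Complex.ofReal_re, Complex.ofReal_im, abs_zero, mul_zero, sub_zero]
  have hu : ∀ n : ℕ, ((k + 1 / ((n : ℝ) + 1) : ℝ) : ℂ) ∈ {s : ℂ | k < s.re - K * |s.im|} := by
    intro n
    show k < ((k + 1 / ((n : ℝ) + 1) : ℝ) : ℂ).re - K * |((k + 1 / ((n : ℝ) + 1) : ℝ) : ℂ).im|
    rw [Complex.ofReal_re, Complex.ofReal_im, abs_zero, mul_zero, sub_zero]
    have : (0 : ℝ) < 1 / ((n : ℝ) + 1) := by positivity
    linarith
  have hlim : Tendsto (fun n : ℕ => ((k + 1 / ((n : ℝ) + 1) : ℝ) : ℂ)) atTop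
      (𝓝[{s : ℂ | k ≤ s.re - K * |s.im|}] (k : ℂ)) := by
    refine tendsto_nhdsWithin_iff.2 ⟨?_, Eventually.of_forall fun n => hsub (hu n)⟩
    have h1 : Tendsto (fun n : ℕ => k + 1 / ((n : ℝ) + 1)) atTop (𝓝 (k + 0)) :=
      tendsto_const_nhds.add tendsto_one_div_add_atTop_nhds_zero_nat
    rw [add_zero] at h1
    exact (Complex.continuous_ofReal.tendsto k).comp h1
  have h1 : Tendsto (fun n : ℕ => Φ ((k + 1 / ((n : ℝ) + 1) : ℝ) : ℂ)) atTop (𝓝 (Φ (k : ℂ))) :=
    (hcont (k : ℂ) hk).tendsto.comp hlim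
  have h2 : (fun n : ℕ => Φ ((k + 1 / ((n : ℝ) + 1) : ℝ) : ℂ)) = fun _ => 0 :=
    funext fun n => hz (hu n)
  rw [h2] at h1
  exact (tendsto_nhds_unique h1 tendsto_const_nhds)

end PCM
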