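import Pool.Agent.PCM.P13
import Pool.Agent.PCM.P14

/-!
# [PCM-P19] the closed submodule `[f]`

`invS f`: the set `{x | ofE x ∈ inv f}` is a submodule (if `φ_1 f → g_1`, `φ_2 f → g_2` then
`(φ_1+φ_2) f → g_1+g_2`, `(c φ) f → c g`; multipliers of `f ∈ H2`, so `φ f ∈ H2`) and closed
(`ε/2` argument with `norm_toE`).
`inv_eq`: `f` multiplier, `f^k ∈ inv (f^(k+1))` implies `inv (f^k) = inv (f^(k+1))`.  Inclusion `⊇`:
`φ f^{k+1} = (φ f) f^k`.  Inclusion `⊆`: let `g ∈ inv (f^k)`, `nrm (g - φ f^k) < ε/2`; `φ` has a bound `M`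
(`bounded_of_mult`), choose `ψ` with `nrm (f^k - ψ f^{k+1}) < ε/(2M)`; then
`nrm (g - (φ ψ) f^{k+1}) ≤ nrm (g - φ f^k) + nrm (φ (f^k - ψ f^{k+1})) < ε`.
-/

open MeasureTheory Set Filter Topology

namespace PCM

variable {d : ℕ}

theorem p19_tri {a b c : A d} (ha : a ∈ H2 d) (hb : b ∈ H2 d) (hc : c ∈ H2 d) :
    nrm (a - c) ≤ nrm (a - b) + nrm (b - c) := by
  have h := nrm_add_le (sub_mem ha hb) (sub_mem hb hc)
  rwa [sub_add_sub_cancel] at h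

theorem p19_norm (x : E d) : ‖x‖ = nrm (ofE x) := by
  rw [← norm_toE (ofE x) (ofE_mem x), toE_ofE]

theorem p19_sub (x y : E d) : ofE (x - y) = ofE x - ofE y := by
  have h : x - y = x + (-1 : ℂ) • y := by
    rw [neg_one_smul, sub_eq_add_neg]
  rw [h, ofE_add, ofE_smul, neg_one_smul, sub_eq_add_neg]

theorem p19_mult_zero : IsMult (0 : A d) := by
  intro f _
  rw [zero_mul]
  exact zero_mem

theorem exists_submodule (f : A d) (hf : IsMult f) :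
    ∃ S : Submodule ℂ (E d), IsClosed (S : Set (E d)) ∧ ∀ x : E d, x ∈ S ↔ ofE x ∈ inv f := by
  have hfm : f ∈ H2 d := mem_of_mult hf
  have hm : ∀ {φ : A d}, IsMult φ → φ * f ∈ H2 d := fun h => h f hfm
  refine ⟨{ carrier := {x | ofE x ∈ inv f}
            add_mem' := ?_
            zero_mem' := ?_
            smul_mem' := ?_ }, ?_, fun x => Iff.rfl⟩
  · rintro x y ⟨hx, hx'⟩ ⟨hy, hy'⟩
    refine ⟨ofE_mem _, fun ε hε => ?_⟩
    obtain ⟨φ, hφ, h1⟩ := hx' (ε / 2) (half_pos hε)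
    obtain ⟨ψ, hψ, h2⟩ := hy' (ε / 2) (half_pos hε)
    refine ⟨φ + ψ, mult_add hφ hψ, ?_⟩
    have h3 : ofE (x + y) - (φ + ψ) * f = (ofE x - φ * f) + (ofE y - ψ * f) := by
      rw [ofE_add]
      ring
    rw [h3]
    have h4 := nrm_add_le (sub_mem hx (hm hφ)) (sub_mem hy (hm hψ))
    linarith
  · refine ⟨ofE_mem _, fun ε hε => ⟨0, p19_mult_zero, ?_⟩⟩
    have h0 : ofE (0 : E d) = 0 := by
      have h := ofE_smul (0 : ℂ) (0 : E d)
      rwa [smul_zero, zero_smul] at h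
    rw [h0, zero_mul, sub_zero, nrm_zero]
    exact hε
  · rintro c x ⟨hx, hx'⟩
    refine ⟨ofE_mem _, fun ε hε => ?_⟩
    have hc : 0 < ‖c‖ + 1 := by positivity
    obtain ⟨φ, hφ, h1⟩ := hx' (ε / (‖c‖ + 1)) (div_pos hε hc)
    refine ⟨c • φ, mult_smul c hφ, ?_⟩
    have h3 : ofE (c • x) - (c • φ) * f = c • (ofE x - φ * f) := by
      rw [ofE_smul, smul_mul_assoc, smul_sub]
    rw [h3, nrm_smul]
    rw [lt_div_iff₀ hc] at h1
    have h5 := nrm_nonneg (ofE x - φ * f)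
    nlinarith [norm_nonneg c]
  · refine isClosed_of_closure_subset fun x hx => ?_
    refine ⟨ofE_mem _, fun ε hε => ?_⟩
    obtain ⟨y, hy, hxy⟩ := Metric.mem_closure_iff.1 hx (ε / 2) (half_pos hε)
    obtain ⟨φ, hφ, h1⟩ := hy.2 (ε / 2) (half_pos hε)
    refine ⟨φ, hφ, ?_⟩
    rw [dist_eq_norm, p19_norm, p19_sub] at hxy
    have h2 := p19_tri (ofE_mem x) (ofE_mem y) (hm hφ)
    linarith

theorem mul_mem_inv {f φ : A d} (hf : IsMult f) (hφ : IsMult φ) : φ * f ∈ inv f := by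
  refine ⟨hφ f (mem_of_mult hf), fun ε hε => ⟨φ, hφ, ?_⟩⟩
  rw [sub_self, nrm_zero]
  exact hε

theorem inv_eq {f : A d} (hf : IsMult f) (k : ℕ) (h : f ^ k ∈ inv (f ^ (k + 1))) :
    inv (f ^ k) = inv (f ^ (k + 1)) := by
  have hk : f ^ k ∈ H2 d := mem_of_mult (mult_pow hf k)
  have hk1 : f ^ (k + 1) ∈ H2 d := mem_of_mult (mult_pow hf (k + 1))
  apply Set.Subset.antisymm
  · rintro g ⟨hg, hg'⟩
    refine ⟨hg, fun ε hε => ?_⟩
    obtain ⟨φ, hφ, h1⟩ := hg' (ε / 2) (half_pos hε)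
    obtain ⟨M, hM1, hM⟩ := bounded_of_mult hφ
    have hM0 : 0 < M := lt_of_lt_of_le one_pos hM1
    obtain ⟨ψ, hψ, h2⟩ := h.2 (ε / (2 * M)) (div_pos hε (by positivity))
    refine ⟨φ * ψ, mult_mul hφ hψ, ?_⟩
    have h3 := p19_tri hg (hφ _ hk) (mult_mul hφ hψ _ hk1)
    have h4 : φ * f ^ k - φ * ψ * f ^ (k + 1) = φ * (f ^ k - ψ * f ^ (k + 1)) := by ring
    have h5 := hM _ (sub_mem hk (hψ _ hk1))
    rw [h4] at h3
    rw [lt_div_iff₀ (by positivity)] at h2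
    have h6 : M * nrm (f ^ k - ψ * f ^ (k + 1)) < ε / 2 := by linarith
    linarith
  · rintro g ⟨hg, hg'⟩
    refine ⟨hg, fun ε hε => ?_⟩
    obtain ⟨φ, hφ, h1⟩ := hg' ε hε
    refine ⟨φ * f, mult_mul hφ hf, ?_⟩
    rwa [mul_assoc, ← pow_succ']

end PCM
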