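import Pool.Agent.PCM.Defs

/-!
# [PCM-P2] the radial derivative of a convergent series

`conv_R`: for `z` in the ball choose `t > 1` with `t z` in the ball; `n ≤ C t^n`, so
`‖coeff α (R a)‖ ∏ ‖z i‖^{α i} ≤ C ‖coeff α a‖ ∏ ‖t z i‖^{α i}`.
`hasDerivAt_ev`: `ev a (t z) = Σ_α a_α t^{|α|} z^α` for complex `t` near `1`; term by term derivative
`|α| a_α t^{|α|-1} z^α`, dominated for `|t| < ρ` (with `ρ > 1`, `ρ z` in the ball, take `ρ' > ρ` too) by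
`C ‖a_α‖ ∏ ‖ρ' z i‖^{α i}`: `hasDerivAt_tsum_of_isPreconnected` on `Metric.ball 0 ρ`.
`conv_R_pow`: induction.
-/

open MeasureTheory Set Filter Topology

namespace PCM

variable {d : ℕ}

private theorem p2_big {z : Fin d → ℂ} (hz : z ∈ Ball d) :
    ∃ ρ : ℝ, 1 < ρ ∧ (fun i => (ρ : ℂ) * z i) ∈ Ball d := by
  have h0 : 0 ≤ ∑ i, ‖z i‖ ^ 2 := Finset.sum_nonneg fun i _ => by positivity
  have h1 : ∑ i, ‖z i‖ ^ 2 < 1 := hz
  set S := ∑ i, ‖z i‖ ^ 2 with hS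
  refine ⟨1 + (1 - S) / 4, by linarith, ?_⟩
  change ∑ i, ‖((1 + (1 - S) / 4 : ℝ) : ℂ) * z i‖ ^ 2 < 1
  have h2 : ∑ i, ‖((1 + (1 - S) / 4 : ℝ) : ℂ) * z i‖ ^ 2 = (1 + (1 - S) / 4) ^ 2 * S := by
    rw [hS, Finset.mul_sum]
    refine Finset.sum_congr rfl fun i _ => ?_
    rw [norm_mul, Complex.norm_real, Real.norm_of_nonneg (by linarith), mul_pow]
  rw [h2]
  have h3 : (1 + (1 - S) / 4) ^ 2 * S < 1 := by
    have h4 : (1 + (1 - S) / 4) ^ 2 * S - 1 = -(1 - S) * (1 - S / 2 + S * (1 - S) * (-1) / 16) := by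
      ring
    nlinarith [mul_nonneg h0 (by linarith : (0 : ℝ) ≤ 1 - S), sq_nonneg S]
  exact h3

private theorem p2_le_pow {ρ : ℝ} (hρ : 1 < ρ) (n : ℕ) : (n : ℝ) ≤ (ρ - 1)⁻¹ * ρ ^ n := by
  have h1 := one_add_mul_le_pow (a := ρ - 1) (by linarith) n
  have h2 : (1 + (ρ - 1)) ^ n = ρ ^ n := by congr 1; ring
  rw [h2] at h1
  have h3 : 0 < ρ - 1 := by linarith
  rw [inv_mul_eq_div, le_div_iff₀ h3]
  linarith

private theorem p2_prod_smul (z : Fin d → ℂ) (t : ℂ) (α : Fin d →₀ ℕ) :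
    ∏ i, (t * z i) ^ α i = t ^ (∑ i, α i) * ∏ i, z i ^ α i := by
  rw [← Finset.prod_pow_eq_pow_sum, ← Finset.prod_mul_distrib]
  refine Finset.prod_congr rfl fun i _ => mul_pow _ _ _

private theorem p2_prod_norm (z : Fin d → ℂ) (t : ℂ) (α : Fin d →₀ ℕ) :
    ∏ i, ‖t * z i‖ ^ α i = ‖t‖ ^ (∑ i, α i) * ∏ i, ‖z i‖ ^ α i := by
  rw [← Finset.prod_pow_eq_pow_sum, ← Finset.prod_mul_distrib]
  refine Finset.prod_congr rfl fun i _ => by rw [norm_mul, mul_pow]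

theorem conv_R {a : A d} (ha : Conv a) : Conv (R d a) := by
  intro z hz
  obtain ⟨ρ, hρ, hρz⟩ := p2_big hz
  have h1 := (ha _ hρz).mul_left (ρ - 1)⁻¹
  refine Summable.of_nonneg_of_le (fun α => ?_) (fun α => ?_) h1
  · positivity
  · rw [coeff_R, norm_mul, Complex.norm_natCast, p2_prod_norm, Complex.norm_real,
      Real.norm_of_nonneg (by linarith)]
    have h2 := p2_le_pow hρ (∑ i, α i)
    have h3 : 0 ≤ ‖MvPowerSeries.coeff α a‖ * ∏ i, ‖z i‖ ^ α i := by positivity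
    calc ((∑ i, α i : ℕ) : ℝ) * ‖MvPowerSeries.coeff α a‖ * ∏ i, ‖z i‖ ^ α i
        = ((∑ i, α i : ℕ) : ℝ) * (‖MvPowerSeries.coeff α a‖ * ∏ i, ‖z i‖ ^ α i) := by ring
      _ ≤ ((ρ - 1)⁻¹ * ρ ^ (∑ i, α i)) * (‖MvPowerSeries.coeff α a‖ * ∏ i, ‖z i‖ ^ α i) :=
          mul_le_mul_of_nonneg_right h2 h3
      _ = (ρ - 1)⁻¹ * (‖MvPowerSeries.coeff α a‖ *
          (ρ ^ (∑ i, α i) * ∏ i, ‖z i‖ ^ α i)) := by ring

theorem conv_R_pow {a : A d} (ha : Conv a) (k : ℕ) : Conv ((R d ^ k) a) := by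
  induction k with
  | zero => exact ha
  | succ k ih =>
    rw [pow_succ']
    exact conv_R ih

theorem hasDerivAt_ev {a : A d} (ha : Conv a) {z : Fin d → ℂ} (hz : z ∈ Ball d) :
    HasDerivAt (fun t : ℂ => ev a (fun i => t * z i)) (ev (R d a) z) 1 := by
  obtain ⟨ρ, hρ, hρz⟩ := p2_big hz
  have hρ0 : 0 < ρ := by linarith
  have hR := conv_R ha _ hρz
  -- term by term
  have hg : ∀ (α : Fin d →₀ ℕ) (t : ℂ), t ∈ Metric.ball (0 : ℂ) ρ →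
      HasDerivAt (fun t : ℂ => MvPowerSeries.coeff α a * ∏ i, (t * z i) ^ α i)
        (MvPowerSeries.coeff α a * ((((∑ i, α i : ℕ) : ℂ) * t ^ (∑ i, α i - 1)) *
          ∏ i, z i ^ α i)) t := by
    intro α t _
    have h1 : (fun t : ℂ => MvPowerSeries.coeff α a * ∏ i, (t * z i) ^ α i) =
        fun t : ℂ => MvPowerSeries.coeff α a * (t ^ (∑ i, α i) * ∏ i, z i ^ α i) := by
      funext t
      rw [p2_prod_smul]
    rw [h1]
    exact ((hasDerivAt_pow (∑ i, α i) t).mul_const _).const_mul _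
  have hbound : ∀ (α : Fin d →₀ ℕ) (t : ℂ), t ∈ Metric.ball (0 : ℂ) ρ →
      ‖MvPowerSeries.coeff α a * ((((∑ i, α i : ℕ) : ℂ) * t ^ (∑ i, α i - 1)) *
          ∏ i, z i ^ α i)‖ ≤
        ‖MvPowerSeries.coeff α (R d a)‖ * ∏ i, ‖(ρ : ℂ) * z i‖ ^ α i := by
    intro α t ht
    rw [mem_ball_zero_iff] at ht
    rw [coeff_R, p2_prod_norm, norm_mul, norm_mul, norm_mul, norm_mul, norm_pow, norm_prod,
      Complex.norm_real, Real.norm_of_nonneg hρ0.le]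
    simp only [norm_pow]
    have h2 : ‖t‖ ^ (∑ i, α i - 1) ≤ ρ ^ (∑ i, α i) := by
      calc ‖t‖ ^ (∑ i, α i - 1) ≤ ρ ^ (∑ i, α i - 1) :=
            pow_le_pow_left₀ (norm_nonneg t) ht.le _
        _ ≤ ρ ^ (∑ i, α i) := pow_le_pow_right₀ hρ.le (Nat.sub_le _ _)
    have h3 : 0 ≤ ‖MvPowerSeries.coeff α a‖ * ‖((∑ i, α i : ℕ) : ℂ)‖ * ∏ i, ‖z i‖ ^ α i := by
      positivity
    calc ‖MvPowerSeries.coeff α a‖ * (‖((∑ i, α i : ℕ) : ℂ)‖ * ‖t‖ ^ (∑ i, α i - 1) *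
          ∏ i, ‖z i‖ ^ α i)
        = (‖MvPowerSeries.coeff α a‖ * ‖((∑ i, α i : ℕ) : ℂ)‖ * ∏ i, ‖z i‖ ^ α i) *
            ‖t‖ ^ (∑ i, α i - 1) := by ring
      _ ≤ (‖MvPowerSeries.coeff α a‖ * ‖((∑ i, α i : ℕ) : ℂ)‖ * ∏ i, ‖z i‖ ^ α i) *
            ρ ^ (∑ i, α i) := mul_le_mul_of_nonneg_left h2 h3
      _ = ‖((∑ i, α i : ℕ) : ℂ)‖ * ‖MvPowerSeries.coeff α a‖ *
            (ρ ^ (∑ i, α i) * ∏ i, ‖z i‖ ^ α i) := by ring
  have h1mem : (1 : ℂ) ∈ Metric.ball (0 : ℂ) ρ := by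
    rw [mem_ball_zero_iff, norm_one]
    exact hρ
  have hsum1 : Summable fun α : Fin d →₀ ℕ =>
      MvPowerSeries.coeff α a * ∏ i, ((1 : ℂ) * z i) ^ α i := by
    refine Summable.of_norm ?_
    refine (ha z hz).congr fun α => ?_
    rw [norm_mul, norm_prod]
    simp only [norm_pow, one_mul]
  have hmain := hasDerivAt_tsum_of_isPreconnected hR Metric.isOpen_ball
    (convex_ball (0 : ℂ) ρ).isPreconnected hg hbound h1mem hsum1 h1mem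
  have hval : ∑' α : Fin d →₀ ℕ, MvPowerSeries.coeff α a *
      ((((∑ i, α i : ℕ) : ℂ) * (1 : ℂ) ^ (∑ i, α i - 1)) * ∏ i, z i ^ α i) = ev (R d a) z := by
    unfold ev
    refine tsum_congr fun α => ?_
    rw [coeff_R, one_pow, mul_one]
    ring
  rw [hval] at hmain
  exact hmain

end PCM
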