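import Pool.Agent.PCM.Defs

/-!
# [PCM-P6] existence of the law

Induction on `d`, for all `m` with `d ≤ m + 1`.
`d = 0`: Dirac mass at the unique point; `vv m 0 = 1`.
`d = 1`, `m = 0`: the law of `exp (2π i θ)`, `θ` uniform on `[0,1]`; `vv 0 α = 1`,
`∫ z^a conj z^b = ∫ exp (2π i (a-b) θ) = [a = b]`.
Step `d → d+1` with `m ≥ 1`, `d ≤ m`: let `ν` be a law for `(d, m-1)`, `x` with density `m (1-x)^{m-1}` on
`[0,1]`, `θ` uniform on `[0,1]`, independent (product measure), and let `μ` be the law of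
`Fin.cons (√x exp (2π i θ)) (fun i => √(1-x) z' i)`.  Support: `x + (1-x) Σ ‖z' i‖^2 ≤ 1`.  Moments: for
`α = cons a α'`, `β = cons b β'` the integral factors (`integral_prod_mul`, bounded continuous functions) as
`[∫ √x^{a+b} √(1-x)^{|α'|+|β'|} m (1-x)^{m-1} dx] [∫ exp (2π i (a-b) θ) dθ] [∫ z'^α' conj z'^β' dν]`, which is
`0` unless `α = β`, and then `m ∫ x^a (1-x)^{|α'|+m-1} dx = m a! (|α'|+m-1)!/(a+|α'|+m)!` (beta integral,
`Complex.betaIntegral` / `Real` version or induction by parts) times `α'! (m-1)!/(|α'|+m-1)!` equals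
`α! m!/(|α|+m)!`.
(Alternative: Gaussian integral over `ℂ^(m+1)` and `MeasureTheory.Measure.toSphere`.)
-/

open MeasureTheory Set Filter Topology

namespace PCM

theorem beta_nat (a n : ℕ) :
    ∫ x in (0 : ℝ)..1, x ^ a * (1 - x) ^ n =
      (a.factorial : ℝ) * (n.factorial : ℝ) / ((a + n + 1).factorial : ℝ) := by
  induction n generalizing a with
  | zero =>
    simp only [pow_zero, mul_one]
    rw [integral_pow, Nat.factorial_zero, Nat.cast_one, mul_one, Nat.add_zero, Nat.factorial_succ]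
    have h1 : (a.factorial : ℝ) ≠ 0 := by positivity
    have h2 : (a : ℝ) + 1 ≠ 0 := by positivity
    push_cast
    rw [one_pow, zero_pow (Nat.succ_ne_zero a)]
    field_simp
    ring
  | succ n ih =>
    have h2 : (a : ℝ) + 1 ≠ 0 := by positivity
    have hu : ∀ x ∈ Set.uIcc (0 : ℝ) 1, HasDerivAt (fun x : ℝ => x ^ (a + 1) / ((a : ℝ) + 1)) (x ^ a) x := by
      intro x _
      have h := (hasDerivAt_pow (a + 1) x).div_const ((a : ℝ) + 1)
      have e : ((a + 1 : ℕ) : ℝ) * x ^ (a + 1 - 1) / ((a : ℝ) + 1) = x ^ a := by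
        push_cast
        field_simp
      rw [e] at h
      exact h
    have hv : ∀ x ∈ Set.uIcc (0 : ℝ) 1, HasDerivAt (fun x : ℝ => (1 - x) ^ (n + 1))
        (-(((n : ℝ) + 1) * (1 - x) ^ n)) x := by
      intro x _
      have h := ((hasDerivAt_id x).const_sub 1).pow (n + 1)
      have e : ((n + 1 : ℕ) : ℝ) * (1 - id x) ^ (n + 1 - 1) * (-1) = -(((n : ℝ) + 1) * (1 - x) ^ n) := by
        push_cast
        simp only [id]
        ring
      rw [e] at h
      exact h
    have hp := intervalIntegral.integral_mul_deriv_eq_deriv_mul (a := (0 : ℝ)) (b := 1)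
      (u := fun x : ℝ => (1 - x) ^ (n + 1)) (v := fun x : ℝ => x ^ (a + 1) / ((a : ℝ) + 1))
      (u' := fun x : ℝ => -(((n : ℝ) + 1) * (1 - x) ^ n)) (v' := fun x : ℝ => x ^ a) hv hu
      (Continuous.intervalIntegrable (by fun_prop) _ _) (Continuous.intervalIntegrable (by fun_prop) _ _)
    have e1 : (fun x : ℝ => x ^ a * (1 - x) ^ (n + 1)) = fun x : ℝ => (1 - x) ^ (n + 1) * x ^ a := by
      funext x
      ring
    have e2 : (fun x : ℝ => -(((n : ℝ) + 1) * (1 - x) ^ n) * (x ^ (a + 1) / ((a : ℝ) + 1))) =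
        fun x : ℝ => -(((n : ℝ) + 1) / ((a : ℝ) + 1)) * (x ^ (a + 1) * (1 - x) ^ n) := by
      funext x
      field_simp
    rw [e1, hp, e2, intervalIntegral.integral_const_mul, ih (a + 1)]
    simp only [sub_self]
    rw [zero_pow (Nat.succ_ne_zero n), zero_pow (Nat.succ_ne_zero a)]
    have e3 : a + 1 + n + 1 = a + (n + 1) + 1 := by ring
    rw [e3, Nat.factorial_succ a, Nat.factorial_succ n]
    push_cast
    field_simp
    ring

private theorem p6_angle (a b : ℕ) :
    ∫ θ in Set.Ioc (0 : ℝ) 1, Complex.exp (2 * Real.pi * Complex.I * θ) ^ a *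
      (starRingEnd ℂ) (Complex.exp (2 * Real.pi * Complex.I * θ)) ^ b = if a = b then 1 else 0 := by
  have e : ∀ θ : ℝ, Complex.exp (2 * Real.pi * Complex.I * θ) ^ a *
      (starRingEnd ℂ) (Complex.exp (2 * Real.pi * Complex.I * θ)) ^ b =
      Complex.exp ((((a : ℤ) - (b : ℤ) : ℤ) : ℂ) * (2 * Real.pi * Complex.I) * θ) := by
    intro θ
    rw [← Complex.exp_conj, ← Complex.exp_nat_mul, ← Complex.exp_nat_mul, ← Complex.exp_add]
    congr 1
    simp only [map_mul, Complex.conj_I, Complex.conj_ofReal, map_ofNat]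
    push_cast
    ring
  simp only [e]
  rw [← intervalIntegral.integral_of_le zero_le_one]
  by_cases hab : a = b
  · subst hab
    simp
  · rw [if_neg hab]
    have hne : ((a : ℤ) - (b : ℤ)) ≠ 0 := by omega
    have hc : ((((a : ℤ) - (b : ℤ) : ℤ) : ℂ) * (2 * Real.pi * Complex.I)) ≠ 0 := by
      refine mul_ne_zero (by exact_mod_cast hne) Complex.two_pi_I_ne_zero
    rw [integral_exp_mul_complex hc]
    have h1 : Complex.exp ((((a : ℤ) - (b : ℤ) : ℤ) : ℂ) * (2 * Real.pi * Complex.I) * ((1 : ℝ) : ℂ)) = 1 := by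
      rw [Complex.ofReal_one, mul_one]
      exact Complex.exp_int_mul_two_pi_mul_I _
    rw [h1, Complex.ofReal_zero, mul_zero, Complex.exp_zero, sub_self, zero_div]

private theorem p6_ext {d : ℕ} (α β : Fin (d + 1) →₀ ℕ) : α = β ↔ α 0 = β 0 ∧ α.tail = β.tail := by
  constructor
  · rintro rfl
    exact ⟨rfl, rfl⟩
  · rintro ⟨h1, h2⟩
    ext i
    refine Fin.cases h1 (fun j => ?_) i
    exact DFunLike.congr_fun h2 j

private theorem p6_step {d m m' : ℕ} (ρ : Measure ℝ) [SFinite ρ] (hρ : ∀ᵐ x ∂ρ, 0 ≤ x ∧ x ≤ 1)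
    (ν : Measure (Fin d → ℂ)) (hν : IsLaw d m' ν)
    (hm : ∀ α : Fin (d + 1) →₀ ℕ,
      (∫ x, x ^ α 0 * (1 - x) ^ (∑ i, α.tail i) ∂ρ) * vv m' α.tail = vv m α) :
    ∃ μ : Measure (Fin (d + 1) → ℂ), IsLaw (d + 1) m μ := by
  have hprob := hν.prob
  set lam : Measure ℝ := (volume : Measure ℝ).restrict (Set.Ioc 0 1) with hlam
  set T : ℝ × (ℝ × (Fin d → ℂ)) → (Fin (d + 1) → ℂ) := fun p =>
    Fin.cons (((√p.1 : ℝ) : ℂ) * Complex.exp (2 * Real.pi * Complex.I * p.2.1))
      (fun i => ((√(1 - p.1) : ℝ) : ℂ) * p.2.2 i) with hT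
  have hTc : Continuous T := by
    refine continuous_pi fun i => ?_
    refine Fin.cases ?_ (fun j => ?_) i
    · simp only [hT, Fin.cons_zero]
      fun_prop
    · simp only [hT, Fin.cons_succ]
      fun_prop
  have hmom : ∀ α β : Fin (d + 1) →₀ ℕ,
      ∫ z, (∏ i, z i ^ α i) * ∏ i, (starRingEnd ℂ) (z i) ^ β i ∂(Measure.map T (ρ.prod (lam.prod ν))) =
      if α = β then ((vv m α : ℝ) : ℂ) else 0 := by
    intro α β
    have hfc : Continuous fun z : Fin (d + 1) → ℂ =>
        (∏ i, z i ^ α i) * ∏ i, (starRingEnd ℂ) (z i) ^ β i := by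
      have := Complex.continuous_conj
      fun_prop
    rw [integral_map hTc.measurable.aemeasurable hfc.aestronglyMeasurable]
    have key : ∀ p : ℝ × (ℝ × (Fin d → ℂ)),
        ((∏ i, T p i ^ α i) * ∏ i, (starRingEnd ℂ) (T p i) ^ β i) =
        (((√p.1 : ℝ) : ℂ) ^ (α 0 + β 0) *
          ((√(1 - p.1) : ℝ) : ℂ) ^ ((∑ i, α.tail i) + ∑ i, β.tail i)) *
        ((fun q : ℝ × (Fin d → ℂ) => (Complex.exp (2 * Real.pi * Complex.I * q.1) ^ α 0 *
            (starRingEnd ℂ) (Complex.exp (2 * Real.pi * Complex.I * q.1)) ^ β 0) *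
          ((∏ i, q.2 i ^ α.tail i) * ∏ i, (starRingEnd ℂ) (q.2 i) ^ β.tail i)) p.2) := by
      intro p
      rw [Fin.prod_univ_succ, Fin.prod_univ_succ]
      simp only [hT, Fin.cons_zero, Fin.cons_succ, map_mul, Complex.conj_ofReal, mul_pow,
        Finset.prod_mul_distrib, Finset.prod_pow_eq_pow_sum, Finsupp.tail_apply, pow_add]
      ring
    refine (integral_congr_ae (Filter.Eventually.of_forall key)).trans ?_
    refine (integral_prod_mul (μ := ρ) (ν := lam.prod ν)
      (fun x : ℝ => ((√x : ℝ) : ℂ) ^ (α 0 + β 0) *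
          ((√(1 - x) : ℝ) : ℂ) ^ ((∑ i, α.tail i) + ∑ i, β.tail i))
      (fun q : ℝ × (Fin d → ℂ) => (Complex.exp (2 * Real.pi * Complex.I * q.1) ^ α 0 *
            (starRingEnd ℂ) (Complex.exp (2 * Real.pi * Complex.I * q.1)) ^ β 0) *
          ((∏ i, q.2 i ^ α.tail i) * ∏ i, (starRingEnd ℂ) (q.2 i) ^ β.tail i))).trans ?_
    rw [integral_prod_mul (μ := lam) (ν := ν)
      (fun θ : ℝ => (Complex.exp (2 * Real.pi * Complex.I * θ) ^ α 0 *
            (starRingEnd ℂ) (Complex.exp (2 * Real.pi * Complex.I * θ)) ^ β 0))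
      (fun z : Fin d → ℂ => ((∏ i, z i ^ α.tail i) * ∏ i, (starRingEnd ℂ) (z i) ^ β.tail i)),
      hν.mom, hlam, p6_angle]
    by_cases h0 : α 0 = β 0
    · by_cases ht : α.tail = β.tail
      · have hab : α = β := (p6_ext α β).2 ⟨h0, ht⟩
        subst hab
        rw [if_pos rfl, if_pos rfl, if_pos rfl, ← hm α, one_mul]
        push_cast
        congr 1
        rw [← integral_complex_ofReal]
        refine integral_congr_ae ?_
        filter_upwards [hρ] with x hx
        have f1 : ((√x : ℝ) : ℂ) ^ 2 = (x : ℂ) := by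
          rw [← Complex.ofReal_pow, Real.sq_sqrt hx.1]
        have f2 : ((√(1 - x) : ℝ) : ℂ) ^ 2 = ((1 - x : ℝ) : ℂ) := by
          rw [← Complex.ofReal_pow, Real.sq_sqrt (sub_nonneg.2 hx.2)]
        rw [← two_mul, ← two_mul, pow_mul, pow_mul, f1, f2, ← Complex.ofReal_pow, ← Complex.ofReal_pow,
          ← Complex.ofReal_mul]
      · rw [if_neg ht, if_neg (fun h => ht ((p6_ext α β).1 h).2), mul_zero, mul_zero]
    · rw [if_neg h0, if_neg (fun h => h0 ((p6_ext α β).1 h).1), zero_mul, mul_zero]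
  refine ⟨Measure.map T (ρ.prod (lam.prod ν)), ?_, ?_, hmom⟩
  · have h := hmom 0 0
    simp only [Finsupp.coe_zero, Pi.zero_apply, pow_zero, Finset.prod_const_one, mul_one, if_true] at h
    have h1 : vv m (0 : Fin (d + 1) →₀ ℕ) = 1 := by
      unfold vv
      simp only [Finsupp.coe_zero, Pi.zero_apply, Nat.factorial_zero, Nat.cast_one,
        Finset.prod_const_one, one_mul, Finset.sum_const_zero, zero_add]
      exact div_self (by positivity)
    rw [h1, integral_const, Complex.ofReal_one] at h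
    have h2 : (Measure.map T (ρ.prod (lam.prod ν))).real univ = 1 := by
      rw [Complex.real_smul, mul_one] at h
      exact_mod_cast h
    constructor
    rw [measureReal_def] at h2
    exact (ENNReal.toReal_eq_one_iff _).1 h2
  · rw [ae_map_iff hTc.measurable.aemeasurable]
    · have h1 : ∀ᵐ p ∂(ρ.prod (lam.prod ν)), 0 ≤ p.1 ∧ p.1 ≤ 1 :=
        Measure.quasiMeasurePreserving_fst.ae hρ
      have h2 : ∀ᵐ p ∂(lam.prod ν), ∑ i, ‖p.2 i‖ ^ 2 ≤ 1 :=
        Measure.quasiMeasurePreserving_snd.ae hν.supp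
      have h3 : ∀ᵐ p ∂(ρ.prod (lam.prod ν)), ∑ i, ‖p.2.2 i‖ ^ 2 ≤ 1 :=
        Measure.quasiMeasurePreserving_snd.ae h2
      filter_upwards [h1, h3] with p hp1 hp3
      rw [Fin.sum_univ_succ]
      simp only [hT, Fin.cons_zero, Fin.cons_succ, norm_mul, mul_pow]
      have e1 : ‖Complex.exp (2 * Real.pi * Complex.I * p.2.1)‖ = 1 := by
        rw [show (2 * Real.pi * Complex.I * p.2.1 : ℂ) = ((2 * Real.pi * p.2.1 : ℝ) : ℂ) * Complex.I by
          push_cast
          ring]
        exact Complex.norm_exp_ofReal_mul_I _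
      rw [e1, ← Finset.mul_sum, Complex.norm_real, Complex.norm_real, Real.norm_eq_abs, Real.norm_eq_abs,
        sq_abs, sq_abs, Real.sq_sqrt hp1.1, Real.sq_sqrt (sub_nonneg.2 hp1.2)]
      have := mul_le_mul_of_nonneg_left hp3 (sub_nonneg.2 hp1.2)
      linarith
    · refine IsClosed.measurableSet ?_
      refine isClosed_le ?_ continuous_const
      fun_prop

theorem exists_law (d m : ℕ) (h : d ≤ m + 1) : ∃ μ : Measure (Fin d → ℂ), IsLaw d m μ := by
  induction d generalizing m with
  | zero =>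
    refine ⟨Measure.dirac default, inferInstance, ?_, ?_⟩
    · refine Filter.Eventually.of_forall fun z => ?_
      simp
    · intro α β
      rw [if_pos (Subsingleton.elim α β), integral_dirac]
      unfold vv
      simp only [Finset.univ_eq_empty, Finset.prod_empty, Finset.sum_empty, one_mul, zero_add]
      rw [div_self (by positivity), Complex.ofReal_one]
  | succ d ih =>
    rcases m with _ | m
    · have hd : d = 0 := by omega
      subst hd
      obtain ⟨ν, hν⟩ := ih 0 (by omega)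
      refine p6_step (Measure.dirac (1 : ℝ)) ?_ ν hν ?_
      · rw [ae_dirac_eq]
        exact ⟨zero_le_one, le_rfl⟩
      · intro α
        rw [integral_dirac]
        unfold vv
        simp only [Finset.univ_eq_empty, Finset.prod_empty, Finset.sum_empty, one_mul,
          Fin.prod_univ_succ, Fin.sum_univ_succ, pow_zero, one_pow, mul_one, add_zero]
        norm_num
        rw [div_self (by positivity)]
    · obtain ⟨ν, hν⟩ := ih m (by omega)
      have hmeas : Measurable fun x : ℝ => Real.toNNReal (((m : ℝ) + 1) * (1 - x) ^ m) := by fun_prop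
      refine p6_step (((volume : Measure ℝ).restrict (Set.Ioc 0 1)).withDensity
        fun x => ((Real.toNNReal (((m : ℝ) + 1) * (1 - x) ^ m) : NNReal) : ENNReal)) ?_ ν hν ?_
      · refine (withDensity_absolutelyContinuous _ _).ae_le ?_
        refine (ae_restrict_mem measurableSet_Ioc).mono fun x hx => ?_
        exact ⟨hx.1.le, hx.2⟩
      · intro α
        rw [integral_withDensity_eq_integral_smul hmeas]
        set a := α 0 with ha
        set k := ∑ i, α.tail i with hk
        have e : ∫ x in Set.Ioc (0 : ℝ) 1, Real.toNNReal (((m : ℝ) + 1) * (1 - x) ^ m) • (x ^ a * (1 - x) ^ k) =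
            ∫ x in Set.Ioc (0 : ℝ) 1, ((m : ℝ) + 1) * (x ^ a * (1 - x) ^ (k + m)) := by
          refine setIntegral_congr_fun measurableSet_Ioc fun x hx => ?_
          have h1 : 0 ≤ ((m : ℝ) + 1) * (1 - x) ^ m := by
            have : 0 ≤ 1 - x := sub_nonneg.2 hx.2
            positivity
          simp only [NNReal.smul_def, Real.coe_toNNReal _ h1, smul_eq_mul, pow_add]
          ring
        rw [e, ← intervalIntegral.integral_of_le zero_le_one, intervalIntegral.integral_const_mul,
          beta_nat]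
        unfold vv
        rw [Fin.prod_univ_succ, Fin.sum_univ_succ]
        have h2 : ∑ i : Fin d, α i.succ = k := rfl
        have h3 : ∏ i : Fin d, ((α i.succ).factorial : ℝ) = ∏ i : Fin d, ((α.tail i).factorial : ℝ) := rfl
        rw [h2, h3, ← ha, ← hk]
        have e3 : a + (k + m) + 1 = a + k + (m + 1) := by ring
        rw [e3, Nat.factorial_succ m]
        have h4 : ((k + m).factorial : ℝ) ≠ 0 := by positivity
        have h5 : ((a + k + (m + 1)).factorial : ℝ) ≠ 0 := by positivity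
        push_cast
        field_simp

end PCM
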