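import Pool.Agent.PCM.P1
import Pool.Agent.PCM.P6
import Pool.Agent.PCM.P7

/-!
# [PCM-P8] a convergent series is determined by its values

Apply `parseval` (law for `m = d`, `r = 1/2`) to `a - b`: for a.e. `z`, `Σ ‖z i‖^2 ≤ 1`, so `z/2` is in the
ball and `ev (a-b) (z/2) = 0`; the integral is `0`, all terms are nonnegative, so every
`‖coeff α (a-b)‖^2 (1/2)^{2|α|} vv d α = 0`, and `vv d α > 0`.
-/

open MeasureTheory Set Filter Topology

namespace PCM

variable {d : ℕ}

theorem ev_inj {a b : A d} (ha : Conv a) (hb : Conv b) (h : ∀ z ∈ Ball d, ev a z = ev b z) :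
    a = b := by
  obtain ⟨μ, hμ⟩ := exists_law d d (Nat.le_succ d)
  have hc : Conv (a - b) := conv_sub ha hb
  have h1 := parseval hc (r := 1 / 2) (by norm_num) (by norm_num) d μ hμ
  have h2 : ∫ z, ‖ev (a - b) (fun i => (((1 / 2 : ℝ)) : ℂ) * z i)‖ ^ 2 ∂μ = 0 := by
    apply integral_eq_zero_of_ae
    filter_upwards [hμ.supp] with z hz
    have hw : (fun i => (((1 / 2 : ℝ)) : ℂ) * z i) ∈ Ball d := by
      show ∑ i, ‖(((1 / 2 : ℝ)) : ℂ) * z i‖ ^ 2 < 1
      have h3 : ∀ i : Fin d, ‖(((1 / 2 : ℝ)) : ℂ) * z i‖ ^ 2 = 1 / 4 * ‖z i‖ ^ 2 := by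
        intro i
        rw [norm_mul, Complex.norm_real, Real.norm_of_nonneg (by norm_num), mul_pow]
        norm_num
      rw [Finset.sum_congr rfl fun i _ => h3 i, ← Finset.mul_sum]
      linarith
    have h4 : ev (a - b) (fun i => (((1 / 2 : ℝ)) : ℂ) * z i) = 0 := by
      rw [ev_sub ha hb hw, h _ hw, sub_self]
    rw [h4, norm_zero]
    norm_num
  rw [h2] at h1
  have hvv : ∀ α : Fin d →₀ ℕ, 0 < vv d α := by
    intro α
    unfold vv
    apply div_pos
    · apply mul_pos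
      · exact Finset.prod_pos fun i _ => by exact_mod_cast Nat.factorial_pos (α i)
      · exact_mod_cast Nat.factorial_pos d
    · exact_mod_cast Nat.factorial_pos _
  have h5 : ∀ α : Fin d →₀ ℕ, 0 ≤ ‖MvPowerSeries.coeff α (a - b)‖ ^ 2 *
      (1 / 2 : ℝ) ^ (2 * ∑ i, α i) * vv d α := by
    intro α
    have := (hvv α).le
    positivity
  have h6 := (hasSum_zero_iff_of_nonneg h5).1 h1
  have h7 : a - b = 0 := by
    apply MvPowerSeries.ext
    intro α
    have h8 := congrFun h6 α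
    have h9 : ‖MvPowerSeries.coeff α (a - b)‖ ^ 2 * (1 / 2 : ℝ) ^ (2 * ∑ i, α i) * vv d α = 0 := h8
    rw [mul_eq_zero, mul_eq_zero] at h9
    rcases h9 with (h9 | h9) | h9
    · rw [map_zero]
      exact norm_eq_zero.1 (pow_eq_zero_iff (two_ne_zero)|>.1 h9)
    · exact absurd h9 (pow_ne_zero _ (by norm_num))
    · exact absurd h9 (hvv α).ne'
  exact sub_eq_zero.1 h7

end PCM
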