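import Pool.Agent.PCM.P4
import Pool.Agent.PCM.P8
import Pool.Agent.PCM.P16
import Pool.Agent.PCM.P17
import Pool.Agent.PCM.P18
import Pool.Agent.PCM.P19

/-!
# [PCM-P20] assembly
-/

open MeasureTheory Set Filter Topology

namespace PCM

variable {d : ℕ}

theorem p20_zero_mem_ball : (fun _ => (0 : ℂ)) ∈ Ball d := by
  simp [Ball]

/-- points `t z`, `t` near `1`, stay in the ball -/
theorem p20_eventually {z : Fin d → ℂ} (hz : z ∈ Ball d) :
    ∀ᶠ t : ℂ in 𝓝 1, (fun i => t * z i) ∈ Ball d := by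
  have hc : Continuous (fun t : ℂ => ∑ i, ‖t * z i‖ ^ 2) := by fun_prop
  have h1 : (∑ i, ‖(1 : ℂ) * z i‖ ^ 2) < 1 := by
    have h : (∑ i, ‖z i‖ ^ 2) < 1 := hz
    simpa using h
  exact hc.continuousAt.eventually (gt_mem_nhds h1)

/-- the radial derivative of a series whose values are `exp (-(s F))` -/
theorem p20_deriv {a F : A d} (ha : Conv a) (hF : Conv F) (s : ℂ)
    (h : ∀ z ∈ Ball d, ev a z = Complex.exp (-(s * ev F z))) {z : Fin d → ℂ} (hz : z ∈ Ball d) :
    ev (R d a) z = Complex.exp (-(s * ev F z)) * (-(s * ev (R d F) z)) := by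
  have h1 := hasDerivAt_ev ha hz
  have h2 := hasDerivAt_ev hF hz
  have h3 : HasDerivAt (fun t : ℂ => Complex.exp (-(s * ev F (fun i => t * z i))))
      (Complex.exp (-(s * ev F (fun i => 1 * z i))) * (-(s * ev (R d F) z))) 1 :=
    ((h2.const_mul s).neg).cexp
  have h4 : HasDerivAt (fun t : ℂ => ev a (fun i => t * z i))
      (Complex.exp (-(s * ev F (fun i => 1 * z i))) * (-(s * ev (R d F) z))) 1 := by
    refine h3.congr_of_eventuallyEq ?_
    filter_upwards [p20_eventually hz] with t ht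
    exact h _ ht
  have h5 := h1.unique h4
  simpa using h5

/-- the algebraic relations of the family `exp (-s F)` -/
theorem P_rel (f F : A d) (hf : Conv f) (hF : Conv F)
    (hfF : ∀ z ∈ Ball d, ev f z = Complex.exp (-ev F z)) (P : ℂ → A d)
    (hPc : ∀ s, Conv (P s))
    (hPe : ∀ s, ∀ z ∈ Ball d, ev (P s) z = Complex.exp (-(s * ev F z))) :
    P 1 = f ∧ P 0 = 1 ∧ (∀ s t, P s * P t = P (s + t)) ∧
      (∀ s, R d (P s) = s • (P (s - 1) * R d f)) := by
  refine ⟨?_, ?_, ?_, ?_⟩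
  · refine ev_inj (hPc 1) hf fun z hz => ?_
    rw [hPe 1 z hz, hfF z hz, one_mul]
  · refine ev_inj (hPc 0) conv_one fun z hz => ?_
    rw [hPe 0 z hz, ev_one, zero_mul, neg_zero, Complex.exp_zero]
  · intro s t
    refine ev_inj (conv_mul (hPc s) (hPc t)) (hPc _) fun z hz => ?_
    rw [ev_mul (hPc s) (hPc t) hz, hPe s z hz, hPe t z hz, hPe _ z hz, ← Complex.exp_add]
    congr 1
    ring
  · intro s
    have hfF' : ∀ z ∈ Ball d, ev f z = Complex.exp (-(1 * ev F z)) := by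
      intro z hz
      rw [one_mul]
      exact hfF z hz
    refine ev_inj (conv_R (hPc s)) (conv_smul s (conv_mul (hPc _) (conv_R hf))) fun z hz => ?_
    rw [ev_smul, ev_mul (hPc _) (conv_R hf) hz, p20_deriv (hPc s) hF s (hPe s) hz,
      p20_deriv hf hF 1 hfF' hz, hPe (s - 1) z hz]
    have h : Complex.exp (-(s * ev F z)) =
        Complex.exp (-((s - 1) * ev F z)) * Complex.exp (-(1 * ev F z)) := by
      rw [← Complex.exp_add]
      congr 1
      ring
    rw [h]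
    ring

theorem main (d : ℕ) (f F : A d) (hf : IsMult f) (hF : Conv F)
    (hfF : ∀ z ∈ Ball d, ev f z = Complex.exp (-ev F z))
    (K : ℝ) (hK : ∀ z ∈ Ball d, |(ev F z).im| ≤ K * (1 + |(ev F z).re|)) :
    f ∈ C d (d / 2) := by
  obtain ⟨k, hk⟩ : ∃ k, k = d / 2 := ⟨_, rfl⟩
  rw [← hk]
  have hdk : d ≤ 2 * k + 1 := by omega
  obtain ⟨μ, hμ⟩ := exists_law d (2 * k) hdk
  obtain ⟨M, hM1, hM⟩ := bounded_of_mult hf
  have hfH : f ∈ H2 d := mem_of_mult hf
  have hfc : Conv f := conv_of_mem hfH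
  obtain ⟨P, hPc, hPe, hPd⟩ := exists_exp F hF
  obtain ⟨hP1, hP0, hPm, hPR⟩ := P_rel f F hfc hF hfF P hPc hPe
  have hPn : ∀ n : ℕ, P (n : ℂ) = f ^ n := by
    intro n
    induction n with
    | zero => simpa using hP0
    | succ n ih =>
      rw [pow_succ, ← ih, ← hP1, hPm]
      push_cast
      rfl
  -- constants
  have hK0 : 0 ≤ K := by
    have h := (abs_nonneg _).trans (hK _ p20_zero_mem_ball)
    have h2 : 0 < 1 + |(ev F (fun _ : Fin d => (0 : ℂ))).re| := by positivity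
    by_contra hneg
    push Not at hneg
    nlinarith
  obtain ⟨c, hcdef⟩ : ∃ c, c = Real.log M := ⟨_, rfl⟩
  have hc0 : 0 ≤ c := hcdef ▸ Real.log_nonneg hM1
  have hre : ∀ z ∈ Ball d, -c ≤ (ev F z).re := by
    intro z hz
    have h := sup_bound hf hM1 hM hz
    rw [hfF z hz, Complex.norm_exp] at h
    have h2 := Real.log_le_log (Real.exp_pos _) h
    rw [Real.log_exp, ← hcdef] at h2
    simp only [Complex.neg_re] at h2
    linarith
  obtain ⟨C0, hC0, hmb⟩ := mult_bound k μ hμ hf hM1 hM P hPc hPR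
  -- bound
  have key : ∀ s : ℂ, (k : ℝ) ≤ s.re - K * |s.im| → ∀ g ∈ H2 d, P s * g ∈ H2 d ∧
      nrm (P s * g) ≤ C0 * (1 + ‖s‖) ^ k *
        Real.exp (c * s.re + K * |s.im| * (1 + c)) * nrm g := by
    intro s hs
    refine hmb s _ (Real.exp_pos _).le ?_
    intro i hi z hz
    rw [hPe _ z hz]
    refine growth K c hK0 hc0 (ev F z) s i (hre z hz) (hK z hz) ?_
    have : (i : ℝ) ≤ (k : ℝ) := by exact_mod_cast hi
    linarith
  have hPmult : ∀ s : ℂ, (k : ℝ) ≤ s.re - K * |s.im| → IsMult (P s) :=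
    fun s hs g hg => (key s hs g hg).1
  have hPmem : ∀ s : ℂ, (k : ℝ) ≤ s.re - K * |s.im| → P s ∈ H2 d :=
    fun s hs => mem_of_mult (hPmult s hs)
  obtain ⟨S, hSc, hS⟩ := exists_submodule (f ^ (k + 1)) (mult_pow hf _)
  classical
  obtain ⟨x, hxdef⟩ : ∃ x : ℂ → E d, ∀ s (h : P s ∈ H2 d), x s = toE (P s) h :=
    ⟨fun s => if h : P s ∈ H2 d then toE (P s) h else 0, fun s h => by simp [h]⟩
  have hfar : ∀ s : ℂ, (k : ℝ) ≤ s.re - K * |s.im| →
      (2 * (k : ℝ) + 1) ≤ s.re - K * |s.im| → x s ∈ S := by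
    intro s hs hs'
    rw [hxdef s (hPmem s hs), hS, ofE_toE]
    have h1 : P s = P (s - ((k + 1 : ℕ) : ℂ)) * f ^ (k + 1) := by
      rw [← hPn (k + 1), hPm]
      congr 1
      ring
    rw [h1]
    refine mul_mem_inv (mult_pow hf _) (hPmult _ ?_)
    have h2 : (s - ((k + 1 : ℕ) : ℂ)).re = s.re - ((k : ℝ) + 1) := by
      simp
    have h3 : (s - ((k + 1 : ℕ) : ℂ)).im = s.im := by
      simp
    rw [h2, h3]
    linarith
  have hfin := hilbert_identity
    (fun s α => ((Real.sqrt (wt α) : ℝ) : ℂ) * MvPowerSeries.coeff α (P s))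
    (fun α => (hPd α).const_mul _) K k (2 * (k : ℝ) + 1) hK0 x
    (by
      intro s hs α
      rw [hxdef s (hPmem s hs)]
      rfl)
    (by
      intro ρ
      refine ⟨C0 * (1 + ρ) ^ k * Real.exp (c * ρ + K * ρ * (1 + c)), ?_⟩
      intro s hs hρ
      rw [hxdef s (hPmem s hs), norm_toE]
      have h1 := (key s hs 1 one_mem).2
      rw [mul_one, nrm_one, mul_one] at h1
      refine h1.trans ?_
      have hρ0 : 0 ≤ ρ := (norm_nonneg _).trans hρ
      have hre' : s.re ≤ ρ := (Complex.re_le_norm s).trans hρ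
      have him' : |s.im| ≤ ρ := (Complex.abs_im_le_norm s).trans hρ
      have e1 : Real.exp (c * s.re + K * |s.im| * (1 + c)) ≤
          Real.exp (c * ρ + K * ρ * (1 + c)) := by
        apply Real.exp_le_exp.2
        have a1 : c * s.re ≤ c * ρ := mul_le_mul_of_nonneg_left hre' hc0
        have a2 : K * |s.im| ≤ K * ρ := mul_le_mul_of_nonneg_left him' hK0
        have a3 : K * |s.im| * (1 + c) ≤ K * ρ * (1 + c) :=
          mul_le_mul_of_nonneg_right a2 (by linarith)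
        linarith
      have e2 : (1 + ‖s‖) ^ k ≤ (1 + ρ) ^ k :=
        pow_le_pow_left₀ (by positivity) (by linarith) k
      have e3 : C0 * (1 + ‖s‖) ^ k ≤ C0 * (1 + ρ) ^ k := mul_le_mul_of_nonneg_left e2 hC0
      exact mul_le_mul e3 e1 (Real.exp_pos _).le (by positivity))
    S hSc hfar
  have hkk : (k : ℝ) ≤ (((k : ℝ) : ℂ)).re - K * |(((k : ℝ) : ℂ)).im| := by simp
  rw [hxdef _ (hPmem _ hkk), hS, ofE_toE] at hfin
  have hPk : P (((k : ℝ) : ℂ)) = f ^ k := by
    rw [← hPn k]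
    simp
  rw [hPk] at hfin
  refine ⟨hf, ?_, inv_eq hf k hfin⟩
  intro h0
  have h1 := hfF _ (p20_zero_mem_ball (d := d))
  rw [h0, ev_zero_point] at h1
  simp at h1
  exact Complex.exp_ne_zero _ h1.symm

end PCM
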