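import Pool.Agent.PCM.P1

/-!
# [PCM-P4] the power series `exp (-s F)`

Let `a0 = coeff 0 F`, `G = F - a0 • 1` (constant coefficient `0`, so `coeff α (G^j) = 0` for `j > |α|`).
Put `coeff α (P s) = exp (-s a0) * Σ_{j ≤ |α|} (-s)^j / j! * coeff α (G^j)`: a polynomial in `s` times
`exp (-s a0)`, so differentiable in `s`.  For `z` in the ball, `N = Σ ‖coeff α G‖ ∏ ‖z i‖^{α i}`,
`Σ_α ‖coeff α (G^j)‖ ∏ ‖z i‖^{α i} ≤ N^j` (`absum_mul_le`, induction), so
`Σ_α Σ_j |s|^j/j! ‖coeff α (G^j)‖ ∏ ‖z i‖^{α i} ≤ exp (|s| N) < ∞`: convergence, and interchange of sums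
gives `ev (P s) z = exp (-s a0) Σ_j (-s)^j/j! (ev G z)^j = exp (-s a0) exp (-s ev G z) = exp (-s ev F z)`.
-/

open MeasureTheory Set Filter Topology

namespace PCM

variable {d : ℕ}

theorem p4_zero {G : A d} (h : MvPowerSeries.coeff 0 G = 0) (α : Fin d →₀ ℕ) {j : ℕ} (hj : α.degree + 1 ≤ j) :
    MvPowerSeries.coeff α (G ^ j) = 0 :=
  MvPowerSeries.coeff_eq_zero_of_constantCoeff_nilpotent (m := 1) (by rw [pow_one]; exact h) (by omega)

theorem p4_one_sum (z : Fin d → ℂ) : ∑' α, ‖MvPowerSeries.coeff α (1 : A d)‖ * ∏ i, ‖z i‖ ^ α i = 1 := by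
  classical
  rw [tsum_eq_single 0]
  · simp
  · intro α hα
    rw [MvPowerSeries.coeff_one, if_neg hα]
    simp

theorem p4_pow {G : A d} (hG : Conv G) {z : Fin d → ℂ} (hz : z ∈ Ball d) (j : ℕ) :
    ∑' α, ‖MvPowerSeries.coeff α (G ^ j)‖ * ∏ i, ‖z i‖ ^ α i ≤
      (∑' α, ‖MvPowerSeries.coeff α G‖ * ∏ i, ‖z i‖ ^ α i) ^ j := by
  induction j with
  | zero => rw [pow_zero, pow_zero, p4_one_sum]
  | succ j ih =>
    rw [pow_succ, pow_succ]
    exact (absum_mul_le (conv_pow hG j) hG hz).trans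
      (mul_le_mul_of_nonneg_right ih (tsum_nonneg fun α => mul_nonneg (norm_nonneg _)
        (Finset.prod_nonneg fun i _ => pow_nonneg (norm_nonneg _) _)))

theorem p4_summable {G : A d} (hG : Conv G) {z : Fin d → ℂ} (hz : z ∈ Ball d) (s : ℂ) :
    Summable fun p : ℕ × (Fin d →₀ ℕ) => ‖(-s) ^ p.1 / (p.1.factorial : ℂ)‖ *
      (‖MvPowerSeries.coeff p.2 (G ^ p.1)‖ * ∏ i, ‖z i‖ ^ p.2 i) := by
  rw [summable_prod_of_nonneg]
  · refine ⟨fun j => (conv_pow hG j z hz).mul_left ‖(-s) ^ j / (j.factorial : ℂ)‖, ?_⟩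
    simp only [tsum_mul_left]
    refine Summable.of_nonneg_of_le (fun j => ?_) (fun j => ?_)
      (Real.summable_pow_div_factorial (‖s‖ * ∑' α, ‖MvPowerSeries.coeff α G‖ * ∏ i, ‖z i‖ ^ α i))
    · exact mul_nonneg (norm_nonneg _) (tsum_nonneg fun α => mul_nonneg (norm_nonneg _)
        (Finset.prod_nonneg fun i _ => pow_nonneg (norm_nonneg _) _))
    · have h1 : ‖(-s) ^ j / (j.factorial : ℂ)‖ = ‖s‖ ^ j / (j.factorial : ℝ) := by
        rw [norm_div, norm_pow, norm_neg, Complex.norm_natCast]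
      rw [h1, mul_pow, div_mul_eq_mul_div]
      refine div_le_div_of_nonneg_right ?_ (Nat.cast_nonneg _)
      exact mul_le_mul_of_nonneg_left (p4_pow hG hz j) (pow_nonneg (norm_nonneg _) _)
  · intro p
    exact mul_nonneg (norm_nonneg _) (mul_nonneg (norm_nonneg _)
        (Finset.prod_nonneg fun i _ => pow_nonneg (norm_nonneg _) _))

/-- the power series -/
noncomputable def p4_P (G : A d) (a0 s : ℂ) : A d := fun α =>
  Complex.exp (-(s * a0)) * ∑ j ∈ Finset.range (α.degree + 1),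
    ((-s) ^ j / (j.factorial : ℂ)) * MvPowerSeries.coeff α (G ^ j)

theorem p4_coeff (G : A d) (a0 s : ℂ) (α : Fin d →₀ ℕ) : MvPowerSeries.coeff α (p4_P G a0 s) =
    Complex.exp (-(s * a0)) * ∑ j ∈ Finset.range (α.degree + 1),
      ((-s) ^ j / (j.factorial : ℂ)) * MvPowerSeries.coeff α (G ^ j) := rfl

theorem p4_conv {G : A d} (hG : Conv G) (a0 s : ℂ) : Conv (p4_P G a0 s) := by
  intro z hz
  have h1 := ((p4_summable hG hz s).prod_symm)
  have h2 := (h1.prod).mul_left ‖Complex.exp (-(s * a0))‖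
  refine Summable.of_nonneg_of_le (fun α => mul_nonneg (norm_nonneg _)
        (Finset.prod_nonneg fun i _ => pow_nonneg (norm_nonneg _) _)) (fun α => ?_) h2
  rw [p4_coeff, norm_mul, mul_assoc]
  refine mul_le_mul_of_nonneg_left ?_ (norm_nonneg _)
  have hw : 0 ≤ ∏ i, ‖z i‖ ^ α i := Finset.prod_nonneg fun i _ => pow_nonneg (norm_nonneg _) _
  refine (mul_le_mul_of_nonneg_right (norm_sum_le _ _) hw).trans ?_
  rw [Finset.sum_mul]
  have h3 := h1.prod_factor α
  refine le_trans (le_of_eq ?_) (h3.sum_le_tsum (Finset.range (α.degree + 1)) fun j _ =>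
    mul_nonneg (norm_nonneg _) (mul_nonneg (norm_nonneg _) hw))
  refine Finset.sum_congr rfl fun j _ => ?_
  rw [norm_mul, mul_assoc]
  rfl

theorem p4_ev {G : A d} (hG : Conv G) (h0 : MvPowerSeries.coeff 0 G = 0) (a0 s : ℂ) {z : Fin d → ℂ}
    (hz : z ∈ Ball d) : ev (p4_P G a0 s) z = Complex.exp (-(s * a0)) * Complex.exp (-(s * ev G z)) := by
  have h1 : ∀ α : Fin d →₀ ℕ, MvPowerSeries.coeff α (p4_P G a0 s) * ∏ i, z i ^ α i =
      Complex.exp (-(s * a0)) * ∑' j : ℕ, ((-s) ^ j / (j.factorial : ℂ)) *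
        (MvPowerSeries.coeff α (G ^ j) * ∏ i, z i ^ α i) := by
    intro α
    rw [p4_coeff, mul_assoc, Finset.sum_mul, tsum_eq_sum (s := Finset.range (α.degree + 1))]
    · congr 1
      refine Finset.sum_congr rfl fun j _ => ?_
      rw [mul_assoc]
    · intro j hj
      rw [p4_zero h0 α (by rw [Finset.mem_range] at hj; omega), zero_mul, mul_zero]
  have h2 : Summable (Function.uncurry fun (j : ℕ) (α : Fin d →₀ ℕ) => ((-s) ^ j / (j.factorial : ℂ)) *
        (MvPowerSeries.coeff α (G ^ j) * ∏ i, z i ^ α i)) := by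
    apply Summable.of_norm
    refine (p4_summable hG hz s).congr fun p => ?_
    rw [Function.uncurry_def]
    simp only [norm_mul, norm_prod, norm_pow]
  unfold ev
  rw [tsum_congr h1, tsum_mul_left, h2.tsum_comm]
  congr 1
  have h3 : ∀ j : ℕ, ∑' α : Fin d →₀ ℕ, ((-s) ^ j / (j.factorial : ℂ)) *
        (MvPowerSeries.coeff α (G ^ j) * ∏ i, z i ^ α i) = (-(s * ev G z)) ^ j / (j.factorial : ℂ) := by
    intro j
    rw [tsum_mul_left]
    have h4 : ∑' α : Fin d →₀ ℕ, MvPowerSeries.coeff α (G ^ j) * ∏ i, z i ^ α i = ev G z ^ j := ev_pow hG j hz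
    rw [h4, ← neg_mul, mul_pow]
    ring
  rw [tsum_congr h3, Complex.exp_eq_exp_ℂ, NormedSpace.exp_eq_tsum_div]
  rfl

theorem p4_diff (G : A d) (a0 : ℂ) (α : Fin d →₀ ℕ) :
    Differentiable ℂ (fun s => MvPowerSeries.coeff α (p4_P G a0 s)) := by
  simp only [p4_coeff]
  fun_prop

theorem exists_exp (F : A d) (hF : Conv F) :
    ∃ P : ℂ → A d, (∀ s, Conv (P s)) ∧
      (∀ s, ∀ z ∈ Ball d, ev (P s) z = Complex.exp (-(s * ev F z))) ∧
      ∀ α, Differentiable ℂ (fun s => MvPowerSeries.coeff α (P s)) := by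
  have hG : Conv (F - MvPowerSeries.coeff 0 F • (1 : A d)) := conv_sub hF (conv_smul _ conv_one)
  have h0 : MvPowerSeries.coeff 0 (F - MvPowerSeries.coeff 0 F • (1 : A d)) = 0 := by
    rw [map_sub, map_smul]
    simp
  refine ⟨fun s => p4_P (F - MvPowerSeries.coeff 0 F • (1 : A d)) (MvPowerSeries.coeff 0 F) s,
    fun s => p4_conv hG _ s, fun s z hz => ?_, fun α => p4_diff _ _ α⟩
  rw [p4_ev hG h0 _ s hz, ev_sub hF (conv_smul _ conv_one) hz, ev_smul, ev_one, ← Complex.exp_add]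
  congr 1
  ring

end PCM
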