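import Pool.Agent.PCM.Defs

/-!
# [PCM-P5] a summable majorant on a smaller closed ball

Let `r < 1`.  Choose `n ≥ 1` with `(r + √d / n)^2 < 1` (or `r^2 + 2 r √d/n + d/n^2 < 1`).  For
`p : Fin d → Fin (n+1)` let `ζ_p i = (p i) / n`.  Let `b α = Σ_{p : ζ_p ∈ Ball d} ‖coeff α a‖ ∏ (ζ_p i)^{α i}`,
summable as a finite sum of summable families.  If `Σ ‖z i‖^2 ≤ 1`, let `p i = ⌈r ‖z i‖ n⌉` (`≤ n`); then
`r ‖z i‖ ≤ ζ_p i ≤ r ‖z i‖ + 1/n`, the Euclidean norm of `ζ_p` is `≤ r + √d/n < 1`, so `ζ_p ∈ Ball d`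
and `‖coeff α a‖ ∏ (r ‖z i‖)^{α i} ≤ ‖coeff α a‖ ∏ (ζ_p i)^{α i} ≤ b α`.
-/

open MeasureTheory Set Filter Topology

namespace PCM

variable {d : ℕ}

theorem exists_majorant (a : A d) (ha : Conv a) (r : ℝ) (hr0 : 0 ≤ r) (hr : r < 1) :
    ∃ b : (Fin d →₀ ℕ) → ℝ, Summable b ∧ ∀ z : Fin d → ℂ, ∑ i, ‖z i‖ ^ 2 ≤ 1 → ∀ α,
      ‖MvPowerSeries.coeff α a‖ * ∏ i, (r * ‖z i‖) ^ α i ≤ b α := by
  classical
  have hr2 : 0 < 1 - r ^ 2 := by nlinarith
  obtain ⟨n, hn⟩ := exists_nat_gt (3 * (d : ℝ) / (1 - r ^ 2) + 1)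
  have hd0 : (0 : ℝ) ≤ 3 * (d : ℝ) / (1 - r ^ 2) := by positivity
  have hn1 : (1 : ℝ) < n := by linarith
  have hn0 : (0 : ℝ) < n := by linarith
  have hnd : 3 * (d : ℝ) < (1 - r ^ 2) * n := by
    have h1 : 3 * (d : ℝ) / (1 - r ^ 2) < n := by linarith
    rw [div_lt_iff₀ hr2] at h1
    linarith
  let ζ : (Fin d → Fin (n + 1)) → Fin d → ℂ := fun p i => ((((p i : ℕ) : ℝ) / (n : ℝ) : ℝ) : ℂ)
  have hζ : ∀ p i, ‖ζ p i‖ = ((p i : ℕ) : ℝ) / (n : ℝ) := by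
    intro p i
    show ‖((((p i : ℕ) : ℝ) / (n : ℝ) : ℝ) : ℂ)‖ = _
    rw [Complex.norm_real, Real.norm_of_nonneg (by positivity)]
  refine ⟨fun α => ∑ p : Fin d → Fin (n + 1), if ζ p ∈ Ball d then
    ‖MvPowerSeries.coeff α a‖ * ∏ i, ‖ζ p i‖ ^ α i else 0, ?_, ?_⟩
  · refine summable_sum fun p _ => ?_
    by_cases hp : ζ p ∈ Ball d
    · simp only [if_pos hp]
      exact ha _ hp
    · simp only [if_neg hp]
      exact summable_zero
  · intro z hz α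
    have hz1 : ∀ i, ‖z i‖ ≤ 1 := by
      intro i
      have h1 : ‖z i‖ ^ 2 ≤ ∑ i, ‖z i‖ ^ 2 :=
        Finset.single_le_sum (f := fun i => ‖z i‖ ^ 2) (fun i _ => by positivity) (Finset.mem_univ i)
      have h2 := norm_nonneg (z i)
      nlinarith
    have hx0 : ∀ i, 0 ≤ r * ‖z i‖ := fun i => mul_nonneg hr0 (norm_nonneg _)
    have hx1 : ∀ i, r * ‖z i‖ ≤ 1 := fun i => by
      have h1 := hz1 i
      have h2 := norm_nonneg (z i)
      nlinarith
    have hceil : ∀ i, ⌈r * ‖z i‖ * n⌉₊ < n + 1 := by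
      intro i
      have h1 : ⌈r * ‖z i‖ * n⌉₊ ≤ n := by
        apply Nat.ceil_le.2
        have h2 := hx1 i
        nlinarith
      omega
    let p : Fin d → Fin (n + 1) := fun i => ⟨⌈r * ‖z i‖ * n⌉₊, hceil i⟩
    have hlo : ∀ i, r * ‖z i‖ ≤ ‖ζ p i‖ := by
      intro i
      rw [hζ, le_div_iff₀ hn0]
      exact Nat.le_ceil _
    have hup : ∀ i, ‖ζ p i‖ ≤ r * ‖z i‖ + 1 / n := by
      intro i
      rw [hζ, div_le_iff₀ hn0]
      have h1 : (⌈r * ‖z i‖ * n⌉₊ : ℝ) < r * ‖z i‖ * n + 1 :=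
        Nat.ceil_lt_add_one (mul_nonneg (hx0 i) hn0.le)
      have h2 : (r * ‖z i‖ + 1 / n) * n = r * ‖z i‖ * n + 1 := by
        field_simp
      rw [h2]
      exact h1.le
    have hball : ζ p ∈ Ball d := by
      show ∑ i, ‖ζ p i‖ ^ 2 < 1
      have hterm : ∀ i, ‖ζ p i‖ ^ 2 ≤ r ^ 2 * ‖z i‖ ^ 2 + 3 / n := by
        intro i
        have h1 : ‖ζ p i‖ ^ 2 ≤ (r * ‖z i‖ + 1 / n) ^ 2 :=
          pow_le_pow_left₀ (norm_nonneg _) (hup i) 2
        have h3 : (1 : ℝ) / n ≤ 1 := by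
          rw [div_le_one hn0]
          exact hn1.le
        have h4 : (0 : ℝ) < 1 / n := by positivity
        have h5 : (3 : ℝ) / n = 3 * (1 / n) := by ring
        have h6 := hx1 i
        have h7 := hx0 i
        rw [h5]
        nlinarith
      calc ∑ i, ‖ζ p i‖ ^ 2 ≤ ∑ i, (r ^ 2 * ‖z i‖ ^ 2 + 3 / n) :=
            Finset.sum_le_sum fun i _ => hterm i
        _ = r ^ 2 * ∑ i, ‖z i‖ ^ 2 + d * (3 / n) := by
            rw [Finset.sum_add_distrib, ← Finset.mul_sum, Finset.sum_const, Finset.card_univ,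
              Fintype.card_fin, nsmul_eq_mul]
        _ ≤ r ^ 2 * 1 + d * (3 / n) := by
            have h1 : 0 ≤ r ^ 2 := by positivity
            nlinarith
        _ < 1 := by
            have h1 : (d : ℝ) * (3 / n) = 3 * d / n := by ring
            rw [h1, mul_one]
            have h2 : 3 * (d : ℝ) / n < 1 - r ^ 2 := by
              rw [div_lt_iff₀ hn0]
              exact hnd
            linarith
    have hmain : ‖MvPowerSeries.coeff α a‖ * ∏ i, (r * ‖z i‖) ^ α i ≤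
        ‖MvPowerSeries.coeff α a‖ * ∏ i, ‖ζ p i‖ ^ α i := by
      refine mul_le_mul_of_nonneg_left ?_ (norm_nonneg _)
      refine Finset.prod_le_prod (fun i _ => pow_nonneg (hx0 i) _) fun i _ => ?_
      exact pow_le_pow_left₀ (hx0 i) (hlo i) _
    have hsum := Finset.single_le_sum (f := fun p : Fin d → Fin (n + 1) => if ζ p ∈ Ball d then
      ‖MvPowerSeries.coeff α a‖ * ∏ i, ‖ζ p i‖ ^ α i else 0) (fun q _ => by
        split_ifs
        · positivity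
        · exact le_rfl) (Finset.mem_univ p)
    beta_reduce at hsum
    rw [if_pos hball] at hsum
    exact hmain.trans hsum

end PCM
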