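import Pool.Agent.PCM.TDefs

/-!
# [PCM-T1] multiplier norm of functions of `F`, general form
-/

open MeasureTheory Set Filter Topology

namespace PCM

variable {d : ℕ}

theorem taylor_gen (f g : A d) (G : ℕ → A d) (k : ℕ)
    (hG : ∀ i < k, R d (G i) = G (i + 1) * R d f) :
    (R d ^ k) (G 0 * g) =
      ∑ i ∈ Finset.range (k + 1), ((i.factorial : ℂ)⁻¹) • (G i * BB f g i k) := by
  induction k with
  | zero =>
    rw [Finset.sum_range_succ, Finset.sum_range_zero]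
    unfold BB
    rw [Finset.sum_range_succ, Finset.sum_range_zero]
    simp
  | succ k ih =>
    have hBB0 : ∀ m, BB f g 0 m = (R d ^ m) g := by
      intro m
      unfold BB
      rw [Finset.sum_range_succ, Finset.sum_range_zero]
      simp
    rw [R_pow_succ_apply, ih (fun i hi => hG i (by omega)), map_sum]
    let V : ℕ → A d := fun j => ((j : ℕ) : ℂ) • ((j.factorial : ℂ)⁻¹) • (G j *
      (R d f * BB f g (j - 1) k))
    let U : ℕ → A d := fun j => ((j.factorial : ℂ)⁻¹) • (G j * BB f g j (k + 1))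
    have hV0 : V 0 = 0 := by
      simp only [V]
      rw [Nat.cast_zero, zero_smul]
    have hterm : ∀ i ∈ Finset.range (k + 1), R d (((i.factorial : ℂ)⁻¹) • (G i * BB f g i k)) =
        (V (i + 1) - V i) + U i := by
      intro i hi
      have hRB : R d (BB f g i k) = BB f g i (k + 1) - ((i : ℕ) : ℂ) • (R d f * BB f g (i - 1) k) := by
        cases i with
        | zero =>
          rw [hBB0, hBB0, R_pow_succ_apply, Nat.cast_zero, zero_smul, sub_zero]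
        | succ i =>
          rw [R_BB]
          rfl
      have hV1 : V (i + 1) = ((i.factorial : ℂ)⁻¹) • (G (i + 1) *
          (R d f * BB f g i k)) := by
        simp only [V]
        rw [smul_smul, Nat.add_sub_cancel]
        congr 1
        have h1 : ((i.factorial : ℕ) : ℂ) ≠ 0 := by exact_mod_cast Nat.factorial_ne_zero i
        have h2 : ((i + 1 : ℕ) : ℂ) ≠ 0 := by exact_mod_cast Nat.succ_ne_zero i
        rw [Nat.factorial_succ, Nat.cast_mul]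
        field_simp
      rw [hV1, map_smul, R_mul, hG i (by simpa using hi), hRB]
      simp only [V, U]
      simp only [MvPowerSeries.smul_eq_C_mul]
      ring
    rw [Finset.sum_congr rfl hterm, Finset.sum_add_distrib, Finset.sum_range_sub, hV0, sub_zero,
      Finset.sum_range_succ U (k + 1), add_comm]
    congr 1
    have h1 := R_BB f g k k
    rw [BB_eq_zero f g (k + 1) k (by omega), map_zero] at h1
    have h2 : BB f g (k + 1) (k + 1) = ((k + 1 : ℕ) : ℂ) • (R d f * BB f g k k) :=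
      (sub_eq_zero.1 h1.symm)
    simp only [V, U]
    rw [h2, Nat.add_sub_cancel]
    simp only [MvPowerSeries.smul_eq_C_mul]
    ring

private theorem t1_ball {r : ℝ} (hr0 : 0 ≤ r) (hr : r < 1) {z : Fin d → ℂ}
    (hz : ∑ i, ‖z i‖ ^ 2 ≤ 1) : (fun j => (r : ℂ) * z j) ∈ Ball d := by
  show ∑ i, ‖(r : ℂ) * z i‖ ^ 2 < 1
  have h1 : ∑ i, ‖(r : ℂ) * z i‖ ^ 2 = r ^ 2 * ∑ i, ‖z i‖ ^ 2 := by
    rw [Finset.mul_sum]
    refine Finset.sum_congr rfl fun i _ => ?_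
    rw [norm_mul, Complex.norm_real, Real.norm_eq_abs, abs_of_nonneg hr0, mul_pow]
  rw [h1]
  have h3 : r ^ 2 < 1 := by nlinarith
  have h4 : r ^ 2 * ∑ i, ‖z i‖ ^ 2 ≤ r ^ 2 * 1 := mul_le_mul_of_nonneg_left hz (sq_nonneg r)
  linarith

private theorem t1_point (k : ℕ) {f : A d} (hfc : Conv f) (G : ℕ → A d)
    (hGc : ∀ i ≤ k, Conv (G i)) (hG : ∀ i < k, R d (G i) = G (i + 1) * R d f) {A0 : ℝ}
    (hA : ∀ i ≤ k, ∀ z ∈ Ball d, ‖ev (G i) z‖ ≤ A0) {g : A d} (hgc : Conv g)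
    {w : Fin d → ℂ} (hw : w ∈ Ball d) :
    ‖ev ((R d ^ k) (G 0 * g)) w‖ ≤ ∑ i ∈ Finset.range (k + 1), A0 * ‖ev (BB f g i k) w‖ := by
  rw [taylor_gen f g G k hG, ev_sum _ _ (fun i hi => conv_smul _ (conv_mul
    (hGc i (Nat.lt_succ_iff.1 (Finset.mem_range.1 hi))) (BB_conv hfc hgc i k))) hw]
  refine (norm_sum_le _ _).trans (Finset.sum_le_sum fun i hi => ?_)
  have hik : i ≤ k := Nat.lt_succ_iff.1 (Finset.mem_range.1 hi)
  rw [ev_smul, ev_mul (hGc i hik) (BB_conv hfc hgc i k) hw, norm_mul, norm_mul, norm_inv,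
    Complex.norm_natCast]
  have hf : (1 : ℝ) ≤ (i.factorial : ℝ) := by
    exact_mod_cast Nat.one_le_iff_ne_zero.2 (Nat.factorial_ne_zero i)
  have h1 : ((i.factorial : ℝ))⁻¹ ≤ 1 := inv_le_one_of_one_le₀ hf
  have h2 : ‖ev (G i) w‖ * ‖ev (BB f g i k) w‖ ≤ A0 * ‖ev (BB f g i k) w‖ :=
    mul_le_mul_of_nonneg_right (hA i hik w hw) (norm_nonneg _)
  have h3 : 0 ≤ ‖ev (G i) w‖ * ‖ev (BB f g i k) w‖ := by positivity
  nlinarith

/-- the multiplier norm of `G 0` is bounded by the supremum of `G 0, …, G k` -/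
theorem mult_bound_gen (k : ℕ) (μ : Measure (Fin d → ℂ)) (hμ : IsLaw d (2 * k) μ) {f : A d}
    (hf : IsMult f) {M : ℝ} (hM1 : 1 ≤ M) (hM : ∀ g ∈ H2 d, nrm (f * g) ≤ M * nrm g) :
    ∃ C0 : ℝ, 0 ≤ C0 ∧ ∀ (G : ℕ → A d) (A0 : ℝ), 0 ≤ A0 → (∀ i ≤ k, Conv (G i)) →
      (∀ i < k, R d (G i) = G (i + 1) * R d f) →
      (∀ i ≤ k, ∀ z ∈ Ball d, ‖ev (G i) z‖ ≤ A0) →
      ∀ g ∈ H2 d, G 0 * g ∈ H2 d ∧ nrm (G 0 * g) ≤ C0 * A0 * nrm g := by
  have hfc : Conv f := conv_of_mem (mem_of_mult hf)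
  have hM0 : 0 ≤ M := by linarith
  obtain ⟨Q, hQ⟩ : ∃ Q : ℝ, Q = ∑ i ∈ Finset.range (k + 1),
    ((i : ℝ) + 1) ^ 2 * (2 * M) ^ (2 * i) * ((2 * k).factorial : ℝ) := ⟨_, rfl⟩
  have hQ0 : 0 ≤ Q := hQ ▸ Finset.sum_nonneg fun i _ => by positivity
  have hk0 : (0 : ℝ) ≤ k := Nat.cast_nonneg _
  obtain ⟨T, hT⟩ : ∃ T : ℝ, T = 1 + (2 * (k : ℝ) + 1) * (((k : ℝ) + 1) * Q) := ⟨_, rfl⟩
  have hT0 : 0 ≤ T := hT ▸ by positivity
  refine ⟨Real.sqrt T, Real.sqrt_nonneg _, fun G A0 hA0 hGc hG hA g hg => ?_⟩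
  have hgc : Conv g := conv_of_mem hg
  have hconv : Conv (G 0 * g) := conv_mul (hGc 0 (Nat.zero_le k)) hgc
  have hB : ∀ r : ℝ, 0 ≤ r → r < 1 →
      ∫ z, ‖ev ((R d ^ k) (G 0 * g)) (fun i => (r : ℂ) * z i)‖ ^ 2 ∂μ ≤
      ((k : ℝ) + 1) * (A0 ^ 2 * (Q * nrm g ^ 2)) := by
    intro r hr0 hr
    have hint : ∀ i, Integrable (fun z => ‖ev (BB f g i k) (fun j => (r : ℂ) * z j)‖ ^ 2) μ :=
      fun i => integrable_sq (BB_conv hfc hgc i k) hr0 hr (2 * k) μ hμ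
    have h1 : ∀ᵐ z ∂μ, ‖ev ((R d ^ k) (G 0 * g)) (fun j => (r : ℂ) * z j)‖ ^ 2 ≤
        ((k : ℝ) + 1) * ∑ i ∈ Finset.range (k + 1), A0 ^ 2 *
          ‖ev (BB f g i k) (fun j => (r : ℂ) * z j)‖ ^ 2 := by
      filter_upwards [hμ.supp] with z hz
      have h2 := t1_point k hfc G hGc hG hA hgc (t1_ball hr0 hr hz)
      have h3 := pow_le_pow_left₀ (norm_nonneg _) h2 2
      refine h3.trans ?_
      have h4 := sq_sum_le_card_mul_sum_sq (s := Finset.range (k + 1))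
        (f := fun i => A0 * ‖ev (BB f g i k) (fun j => (r : ℂ) * z j)‖)
      rw [Finset.card_range] at h4
      refine h4.trans (le_of_eq ?_)
      push_cast
      congr 1
      exact Finset.sum_congr rfl fun i _ => mul_pow _ _ _
    have hI : Integrable (fun z => ((k : ℝ) + 1) * ∑ i ∈ Finset.range (k + 1), A0 ^ 2 *
          ‖ev (BB f g i k) (fun j => (r : ℂ) * z j)‖ ^ 2) μ :=
      (integrable_finsetSum _ fun i _ => (hint i).const_mul _).const_mul _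
    refine (integral_mono_ae (integrable_sq (conv_R_pow hconv k) hr0 hr (2 * k) μ hμ) hI h1).trans ?_
    rw [integral_const_mul, integral_finsetSum _ (fun i _ => (hint i).const_mul _)]
    refine mul_le_mul_of_nonneg_left ?_ (by positivity)
    have h5 : ∀ i ∈ Finset.range (k + 1), ∫ z, A0 ^ 2 *
        ‖ev (BB f g i k) (fun j => (r : ℂ) * z j)‖ ^ 2 ∂μ ≤ A0 ^ 2 *
        (((i : ℝ) + 1) ^ 2 * (2 * M) ^ (2 * i) * ((2 * k).factorial : ℝ) * nrm g ^ 2) := by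
      intro i _
      rw [integral_const_mul]
      exact mul_le_mul_of_nonneg_left (BB_bound k μ hμ hf hM1 hM hg i r hr0 hr) (sq_nonneg _)
    refine (Finset.sum_le_sum h5).trans (le_of_eq ?_)
    rw [← Finset.mul_sum, ← Finset.sum_mul, hQ]
  obtain ⟨hmem, hn⟩ := mem_of_bound k μ hμ hconv _ hB
  refine ⟨hmem, ?_⟩
  have hz0 : (fun _ => 0 : Fin d → ℂ) ∈ Ball d := p20_zero_mem_ball
  have hc : ‖MvPowerSeries.coeff 0 (G 0 * g)‖ ≤ A0 * nrm g := by
    rw [← ev_zero_point, ev_mul (hGc 0 (Nat.zero_le k)) hgc hz0, norm_mul]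
    refine mul_le_mul ?_ ?_ (norm_nonneg _) hA0
    · exact hA 0 (Nat.zero_le k) _ hz0
    · have h1 := ev_bound hg hz0
      have h2 : Real.sqrt (1 - ∑ i : Fin d, ‖(0 : ℂ)‖ ^ 2) = 1 := by simp
      rw [h2, div_one] at h1
      exact h1
  have hc2 : ‖MvPowerSeries.coeff 0 (G 0 * g)‖ ^ 2 ≤ (A0 * nrm g) ^ 2 :=
    pow_le_pow_left₀ (norm_nonneg _) hc 2
  have hng : 0 ≤ nrm g := nrm_nonneg g
  have hfin : nrm (G 0 * g) ^ 2 ≤ (Real.sqrt T * A0 * nrm g) ^ 2 := by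
    have e1 : (Real.sqrt T * A0 * nrm g) ^ 2 = T * (A0 * nrm g) ^ 2 := by
      rw [mul_pow, mul_pow, Real.sq_sqrt hT0]
      ring
    rw [e1, hT]
    calc _ ≤ _ := hn
      _ ≤ (A0 * nrm g) ^ 2 + (2 * (k : ℝ) + 1) *
          (((k : ℝ) + 1) * (A0 ^ 2 * (Q * nrm g ^ 2))) := by linarith
      _ = _ := by ring
  exact (pow_le_pow_iff_left₀ (nrm_nonneg _) (by positivity) two_ne_zero).1 hfin

end PCM
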