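import Pool.Agent.PCM.TDefs

/-!
# [PCM-T2a] homogeneous parts

`hasSum_hp`: `t z` is in the ball (`‖t‖ ≤ 1`), so the family `a_α ∏ (t z i)^{α i} = a_α z^α t^{|α|}` is
absolutely summable (`Conv a`); sum it by degree (`HasSum.sigma` along the fibres of `α ↦ Σ α i`, which are
the finite sets `dg d n`; `mem_dg`; e.g. `Finset.sum` over `dg d n` is the `tsum` over the fibre).
`hp_mul`: both sides are the sum of `a_α b_β z^α z^β` over the pairs with `|α| + |β| = n`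
(`MvPowerSeries.coeff_mul`, `Finset.sum_sigma'`, `Finset.sum_bij'`; `z^(α+β) = z^α z^β`).
`hp_one`: `MvPowerSeries.coeff_one`; `0 ∈ dg d n` iff `n = 0`.
-/

open MeasureTheory Set Filter Topology

namespace PCM

variable {d : ℕ}

theorem t2a_ball {z : Fin d → ℂ} (hz : z ∈ Ball d) {t : ℂ} (ht : ‖t‖ ≤ 1) :
    (fun i => t * z i) ∈ Ball d := by
  have hz' : ∑ i, ‖z i‖ ^ 2 < 1 := hz
  show ∑ i, ‖t * z i‖ ^ 2 < 1
  refine lt_of_le_of_lt (Finset.sum_le_sum fun i _ => ?_) hz'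
  rw [norm_mul, mul_pow]
  have h1 : ‖t‖ ^ 2 ≤ 1 := pow_le_one₀ (norm_nonneg _) ht
  exact mul_le_of_le_one_left (sq_nonneg _) h1

theorem hasSum_hp {a : A d} (ha : Conv a) {z : Fin d → ℂ} (hz : z ∈ Ball d) {t : ℂ}
    (ht : ‖t‖ ≤ 1) : HasSum (fun n : ℕ => hp a n z * t ^ n) (ev a (fun i => t * z i)) := by
  have hw := t2a_ball hz ht
  have hs : Summable fun α => MvPowerSeries.coeff α a * ∏ i, (t * z i) ^ α i :=
    (p1_summable ha hw).of_norm
  have h1 := (hs.hasSum).tsum_fiberwise (fun α : Fin d →₀ ℕ => ∑ i, α i)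
  have h2 : (fun n : ℕ => ∑' b : ((fun α : Fin d →₀ ℕ => ∑ i, α i) ⁻¹' {n}),
      MvPowerSeries.coeff (b : Fin d →₀ ℕ) a * ∏ i, (t * z i) ^ (b : Fin d →₀ ℕ) i) =
      fun n => hp a n z * t ^ n := by
    funext n
    have hset : ((fun α : Fin d →₀ ℕ => ∑ i, α i) ⁻¹' {n}) = (↑(dg d n) : Set (Fin d →₀ ℕ)) := by
      ext α
      rw [Set.mem_preimage, Set.mem_singleton_iff, Finset.mem_coe, mem_dg]
    rw [tsum_congr_set_coe (fun b : Fin d →₀ ℕ =>
      MvPowerSeries.coeff b a * ∏ i, (t * z i) ^ b i) hset, Finset.tsum_subtype' (dg d n) (fun b : Fin d →₀ ℕ =>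
      MvPowerSeries.coeff b a * ∏ i, (t * z i) ^ b i)]
    unfold hp
    rw [Finset.sum_mul]
    refine Finset.sum_congr rfl fun α hα => ?_
    have h3 : ∏ i, (t * z i) ^ α i = t ^ n * ∏ i, z i ^ α i := by
      rw [← mem_dg.1 hα, ← Finset.prod_pow_eq_pow_sum, ← Finset.prod_mul_distrib]
      exact Finset.prod_congr rfl fun i _ => mul_pow _ _ _
    rw [h3]
    ring
  rw [h2] at h1
  exact h1

theorem hp_mul (a b : A d) (n : ℕ) (z : Fin d → ℂ) :
    hp (a * b) n z = ∑ p ∈ Finset.HasAntidiagonal.antidiagonal n, hp a p.1 z * hp b p.2 z := by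
  unfold hp
  have h1 : ∀ α ∈ dg d n, MvPowerSeries.coeff α (a * b) * ∏ i, z i ^ α i =
      ∑ p ∈ Finset.HasAntidiagonal.antidiagonal α,
        (MvPowerSeries.coeff p.1 a * ∏ i, z i ^ p.1 i) *
        (MvPowerSeries.coeff p.2 b * ∏ i, z i ^ p.2 i) := fun α _ => p1_mul a b z α
  rw [Finset.sum_congr rfl h1, Finset.sum_sigma']
  have h2 : ∀ p ∈ Finset.HasAntidiagonal.antidiagonal n,
      (∑ α ∈ dg d p.1, MvPowerSeries.coeff α a * ∏ i, z i ^ α i) *
        (∑ α ∈ dg d p.2, MvPowerSeries.coeff α b * ∏ i, z i ^ α i) =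
      ∑ q ∈ dg d p.1 ×ˢ dg d p.2, (MvPowerSeries.coeff q.1 a * ∏ i, z i ^ q.1 i) *
        (MvPowerSeries.coeff q.2 b * ∏ i, z i ^ q.2 i) := by
    intro p _
    rw [Finset.sum_mul_sum, ← Finset.sum_product']
  rw [Finset.sum_congr rfl h2, Finset.sum_sigma']
  refine Finset.sum_bij' (fun x _ => ⟨(∑ i, x.2.1 i, ∑ i, x.2.2 i), x.2⟩)
    (fun x _ => ⟨x.2.1 + x.2.2, x.2⟩) ?_ ?_ ?_ ?_ ?_
  · rintro ⟨α, q⟩ hx
    rw [Finset.mem_sigma] at hx ⊢
    obtain ⟨h3, h4⟩ := hx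
    simp only at h3 h4 ⊢
    rw [Finset.HasAntidiagonal.mem_antidiagonal] at h4 ⊢
    rw [mem_dg] at h3
    refine ⟨?_, ?_⟩
    · simp only
      rw [← Finset.sum_add_distrib, ← h3, ← h4]
      rfl
    · rw [Finset.mem_product, mem_dg, mem_dg]
      exact ⟨rfl, rfl⟩
  · rintro ⟨p, q⟩ hx
    rw [Finset.mem_sigma] at hx ⊢
    obtain ⟨h3, h4⟩ := hx
    simp only at h3 h4 ⊢
    rw [Finset.HasAntidiagonal.mem_antidiagonal] at h3 ⊢
    rw [Finset.mem_product, mem_dg, mem_dg] at h4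
    refine ⟨?_, rfl⟩
    rw [mem_dg, ← h3, ← h4.1, ← h4.2, ← Finset.sum_add_distrib]
    rfl
  · rintro ⟨α, q⟩ hx
    rw [Finset.mem_sigma] at hx
    have h4 := Finset.HasAntidiagonal.mem_antidiagonal.1 hx.2
    simp only at h4
    simp only
    rw [h4]
  · rintro ⟨p, q⟩ hx
    rw [Finset.mem_sigma] at hx
    have h4 := hx.2
    simp only at h4
    rw [Finset.mem_product, mem_dg, mem_dg] at h4
    simp only
    rw [h4.1, h4.2]
  · rintro ⟨α, q⟩ _
    rfl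

theorem hp_one (n : ℕ) (z : Fin d → ℂ) : hp (1 : A d) n z = if n = 0 then 1 else 0 := by
  classical
  unfold hp
  by_cases hn : n = 0
  · rw [if_pos hn, Finset.sum_eq_single (0 : Fin d →₀ ℕ)]
    · rw [MvPowerSeries.coeff_one, if_pos rfl]
      simp
    · intro α _ hα
      rw [MvPowerSeries.coeff_one, if_neg hα, zero_mul]
    · intro h
      exfalso
      apply h
      rw [mem_dg, hn]
      simp
  · rw [if_neg hn]
    refine Finset.sum_eq_zero fun α hα => ?_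
    have h1 : α ≠ 0 := by
      rintro rfl
      rw [mem_dg] at hα
      apply hn
      rw [← hα]
      simp
    rw [MvPowerSeries.coeff_one, if_neg h1, zero_mul]

end PCM
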