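import Pool.Agent.PCM.T2a

/-!
# [PCM-T2b] homogeneous parts of the inverse are bounded

Fix `z` in the ball.  `φ t = ev a (t z)` is on `‖t‖ < 1` the sum of the power series with coefficients
`a_n = hp a n z` (`hasSum_hp`), so it is analytic on the unit disc, and `‖φ‖ ≥ δ` there.  Let `b_n = hp b n z`;
`Σ_{i+j=n} a_i b_j = [n = 0]` (`hp_mul`, `hp_one`, `hab`).  Let `0 < r < 1`.
Way 1: `g = 1/φ` is analytic on the unit disc, `‖g‖ ≤ 1/δ`, its Taylor coefficients `c_n` satisfy
`Σ_{i+j=n} a_i c_j = [n = 0]` (Leibniz / Cauchy product), hence `c_n = b_n` by strong induction (`a_0 ≠ 0`), and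
Cauchy's estimate gives `‖b_n‖ ≤ δ⁻¹ r^{-n}`; let `r → 1`.
Way 2: with `q t = Σ_{m ≤ n} b_m t^m`, the function `q φ - 1` has the power series coefficients `0` up to order
`n`, so `q φ - 1 = t^{n+1} ψ` with `ψ` analytic on the disc (`ψ` = sum of the shifted power series), and
`b_n = (2πi)⁻¹ ∮_{|t|=r} q t^{-n-1} dt = (2πi)⁻¹ ∮ t^{-n-1}/φ dt + (2πi)⁻¹ ∮ ψ/φ dt`, and the last integral is
`0` (Cauchy); so `‖b_n‖ ≤ r^{-n}/δ`.
-/

open MeasureTheory Set Filter Topology

namespace PCM

variable {d : ℕ}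

/-- the recursion of the coefficients of the inverse has a unique solution -/
private theorem t2b_uniq {a b c : ℕ → ℂ}
    (hab : ∀ n, ∑ p ∈ Finset.HasAntidiagonal.antidiagonal n, a p.1 * b p.2
      = if n = 0 then 1 else 0)
    (hac : ∀ n, ∑ p ∈ Finset.HasAntidiagonal.antidiagonal n, a p.1 * c p.2
      = if n = 0 then 1 else 0) (n : ℕ) : b n = c n := by
  have h0 : a 0 * b 0 = 1 := by simpa using hab 0
  have ha0 : a 0 ≠ 0 := left_ne_zero_of_mul_eq_one h0
  induction n using Nat.strong_induction_on with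
  | _ n ih =>
    have h1 := (hab n).trans (hac n).symm
    rw [Finset.Nat.sum_antidiagonal_eq_sum_range_succ_mk,
      Finset.Nat.sum_antidiagonal_eq_sum_range_succ_mk, Finset.sum_range_succ',
      Finset.sum_range_succ'] at h1
    have h2 : ∑ k ∈ Finset.range n, a (k + 1) * b (n - (k + 1))
        = ∑ k ∈ Finset.range n, a (k + 1) * c (n - (k + 1)) := by
      refine Finset.sum_congr rfl fun k hk => ?_
      rw [ih (n - (k + 1)) (by have := Finset.mem_range.1 hk; omega)]
    simp only [Nat.sub_zero] at h1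
    rw [h2] at h1
    exact mul_left_cancel₀ ha0 (add_left_cancel h1)

/-- one complex variable: the coefficients of the inverse of a function bounded below -/
private theorem t2b_core {a b : ℕ → ℂ} {φ : ℂ → ℂ} {δ : ℝ} (hδ : 0 < δ)
    (hs : ∀ t : ℂ, ‖t‖ < 1 → HasSum (fun n => a n * t ^ n) (φ t))
    (hl : ∀ t : ℂ, ‖t‖ < 1 → δ ≤ ‖φ t‖)
    (hab : ∀ n, ∑ p ∈ Finset.HasAntidiagonal.antidiagonal n, a p.1 * b p.2
      = if n = 0 then 1 else 0) (n : ℕ) : ‖b n‖ ≤ δ⁻¹ := by
  -- the power series of `φ` at `0` and on the ball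
  have hrad : 1 ≤ (FormalMultilinearSeries.ofScalars ℂ a).radius := by
    refine ENNReal.le_of_forall_nnreal_lt fun r hr => ?_
    apply FormalMultilinearSeries.le_radius_of_summable
    have hr1 : (r : ℝ) < 1 := by exact_mod_cast hr
    have := (hs ((r : ℝ) : ℂ) (by simpa using hr1)).summable.norm
    refine this.congr fun n => ?_
    simp
  have hball : HasFPowerSeriesOnBall φ (FormalMultilinearSeries.ofScalars ℂ a) 0 1 := by
    refine ⟨hrad, one_pos, fun {y} hy => ?_⟩
    have hy1 : ‖y‖ < 1 := by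
      have h1 : Metric.eball (0 : ℂ) 1 = Metric.ball 0 1 := by
        rw [← ENNReal.ofReal_one, Metric.eball_ofReal]
      rw [h1] at hy
      simpa using hy
    have := hs y hy1
    simpa [FormalMultilinearSeries.ofScalars_apply_eq, mul_comm] using this
  have hdiff : DifferentiableOn ℂ φ (Metric.ball 0 1) := by
    have := hball.differentiableOn
    have h1 : Metric.eball (0 : ℂ) 1 = Metric.ball 0 1 := by
      rw [← ENNReal.ofReal_one, Metric.eball_ofReal]
    rwa [h1] at this
  have hne : ∀ t ∈ Metric.ball (0 : ℂ) 1, φ t ≠ 0 := fun t ht h0 => by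
    have := hl t (by simpa using ht)
    rw [h0, norm_zero] at this
    exact absurd this (not_le.2 hδ)
  set g : ℂ → ℂ := fun t => (φ t)⁻¹ with hg
  have hgd : DifferentiableOn ℂ g (Metric.ball 0 1) := fun t ht =>
    (hdiff t ht).inv (hne t ht)
  have h0 : (0 : ℂ) ∈ Metric.ball (0 : ℂ) 1 := Metric.mem_ball_self one_pos
  have hφa : AnalyticAt ℂ φ 0 := hball.analyticAt
  have hga : AnalyticAt ℂ g 0 := hφa.inv (hne 0 h0)
  -- Taylor coefficients
  have ha : ∀ k, a k = iteratedDeriv k φ 0 / (k.factorial : ℂ) := by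
    have := hball.hasFPowerSeriesAt.eq_formalMultilinearSeries hφa.hasFPowerSeriesAt
    have := FormalMultilinearSeries.ofScalars_series_injective ℂ ℂ this
    intro k
    exact congrFun this k
  have hac : ∀ n, ∑ p ∈ Finset.HasAntidiagonal.antidiagonal n,
      a p.1 * (iteratedDeriv p.2 g 0 / (p.2.factorial : ℂ)) = if n = 0 then 1 else 0 := by
    intro n
    have h1 : φ * g =ᶠ[𝓝 0] fun _ => (1 : ℂ) := by
      filter_upwards [Metric.ball_mem_nhds (0 : ℂ) one_pos] with t ht
      exact mul_inv_cancel₀ (hne t ht)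
    have h2 := h1.iteratedDeriv_eq n
    rw [iteratedDeriv_mul hφa.contDiffAt hga.contDiffAt, iteratedDeriv_const] at h2
    rw [Finset.Nat.sum_antidiagonal_eq_sum_range_succ_mk]
    have h3 : ∑ k ∈ Finset.range n.succ, a k * (iteratedDeriv (n - k) g 0 / ((n - k).factorial : ℂ))
        = (∑ k ∈ Finset.range (n + 1), (n.choose k : ℂ) * iteratedDeriv k φ 0
          * iteratedDeriv (n - k) g 0) / (n.factorial : ℂ) := by
      rw [Finset.sum_div]
      refine Finset.sum_congr rfl fun k hk => ?_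
      have hk' : k ≤ n := by have := Finset.mem_range.1 hk; omega
      rw [ha k, Nat.cast_choose ℂ hk']
      have f1 : (k.factorial : ℂ) ≠ 0 := Nat.cast_ne_zero.2 (Nat.factorial_ne_zero k)
      have f2 : ((n - k).factorial : ℂ) ≠ 0 := Nat.cast_ne_zero.2 (Nat.factorial_ne_zero _)
      have f3 : (n.factorial : ℂ) ≠ 0 := Nat.cast_ne_zero.2 (Nat.factorial_ne_zero n)
      field_simp
    rw [h3, h2]
    split_ifs with hn
    · subst hn; simp
    · simp
  have hbc := t2b_uniq (c := fun k => iteratedDeriv k g 0 / (k.factorial : ℂ)) hab hac n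
  -- Cauchy estimate
  have hest : ∀ r : ℝ, 0 < r → r < 1 → ‖b n‖ ≤ δ⁻¹ / r ^ n := by
    intro r hr0 hr1
    have hd : DiffContOnCl ℂ g (Metric.ball 0 r) := by
      apply DifferentiableOn.diffContOnCl
      rw [closure_ball _ hr0.ne']
      exact hgd.mono (Metric.closedBall_subset_ball hr1)
    have h1 := Complex.norm_iteratedDeriv_le_of_forall_mem_sphere_norm_le (C := δ⁻¹) n hr0 hd
      (fun z hz => by
        have hz1 : ‖z‖ < 1 := by
          have : ‖z‖ = r := by simpa using hz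
          rw [this]; exact hr1
        show ‖(φ z)⁻¹‖ ≤ δ⁻¹
        rw [norm_inv]
        exact inv_anti₀ hδ (hl z hz1))
    rw [hbc, norm_div]
    have f3 : (0 : ℝ) < n.factorial := Nat.cast_pos.2 (Nat.factorial_pos n)
    rw [Complex.norm_natCast, div_le_iff₀ f3]
    calc _ ≤ _ := h1
      _ = _ := by ring
  -- the limit
  have hlim : Tendsto (fun r : ℝ => δ⁻¹ / r ^ n) (𝓝[<] 1) (𝓝 (δ⁻¹ / 1 ^ n)) := by
    have : ContinuousAt (fun r : ℝ => δ⁻¹ / r ^ n) 1 := by
      apply ContinuousAt.div continuousAt_const (continuousAt_id.pow n)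
      simp
    exact this.tendsto.mono_left nhdsWithin_le_nhds
  rw [one_pow, div_one] at hlim
  refine ge_of_tendsto hlim ?_
  have : Ioo (0 : ℝ) 1 ∈ 𝓝[<] (1 : ℝ) := Ioo_mem_nhdsLT one_pos
  filter_upwards [this] with r hr
  exact hest r hr.1 hr.2

theorem hp_inv_bound {a b : A d} (ha : Conv a) (hab : a * b = 1) {δ : ℝ} (hδ : 0 < δ)
    (h : ∀ z ∈ Ball d, δ ≤ ‖ev a z‖) {z : Fin d → ℂ} (hz : z ∈ Ball d) (n : ℕ) :
    ‖hp b n z‖ ≤ δ⁻¹ := by
  refine t2b_core (a := fun n => hp a n z) (b := fun n => hp b n z)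
    (φ := fun t => ev a (fun i => t * z i)) hδ (fun t ht => hasSum_hp ha hz ht.le)
    (fun t ht => h _ ?_) (fun n => ?_) n
  · have hz' : ∑ i, ‖z i‖ ^ 2 < 1 := hz
    show ∑ i, ‖t * z i‖ ^ 2 < 1
    refine lt_of_le_of_lt (Finset.sum_le_sum fun i _ => ?_) hz'
    rw [norm_mul]
    exact pow_le_pow_left₀ (by positivity)
      (mul_le_of_le_one_left (norm_nonneg _) ht.le) 2
  · rw [← hp_mul, hab, hp_one]

end PCM
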