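import Pool.Agent.PCM.TDefs

/-!
# [PCM-T3] the derivative in `s` of the series `exp (-s F)`

Step 0: `P 0 = 1`, `P (s+t) = P s * P t` (`ev_inj`, `ev_mul`, `Complex.exp_add`, as in `P_rel` of `P20`).
Step 1: `R d (P s) = -(s • (P s * R d F))`: `ev_inj` and `p20_deriv` (in `P20`).  Taking the coefficient of `α`:
`|α| coeff α (P s) = -s coeff α (P s * R d F)`; the function `s ↦ coeff α (P s * R d F)` is continuous (finite sum over
the antidiagonal, `hPd`) and at `s = 0` equals `coeff α (R d F) = |α| coeff α F`; so the derivative at `s = 0` of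
`coeff α (P s)` is `- coeff α F` for `|α| ≥ 1`.  For `α = 0`: `coeff 0 (P s) = ev (P s) 0 = exp (-(s coeff 0 F))`
(`ev_zero_point`, `hPe`), derivative `- coeff 0 F` at `0`.
Step 2: at a general `s`: `coeff α (P (s+t)) = Σ coeff β (P s) coeff γ (P t)` over the antidiagonal; differentiate
at `t = 0`: `- Σ coeff β (P s) coeff γ F = - coeff α (F * P s)`.
`hasDerivAt_coeff_mul`: again a finite sum over the antidiagonal.
-/

open MeasureTheory Set Filter Topology

namespace PCM

variable {d : ℕ}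

private theorem t3_zero (F : A d) (P : ℂ → A d) (hPc : ∀ s, Conv (P s))
    (hPe : ∀ s, ∀ z ∈ Ball d, ev (P s) z = Complex.exp (-(s * ev F z))) : P 0 = 1 := by
  refine ev_inj (hPc 0) conv_one fun z hz => ?_
  rw [hPe 0 z hz, ev_one, zero_mul, neg_zero, Complex.exp_zero]

private theorem t3_add (F : A d) (P : ℂ → A d) (hPc : ∀ s, Conv (P s))
    (hPe : ∀ s, ∀ z ∈ Ball d, ev (P s) z = Complex.exp (-(s * ev F z))) (s t : ℂ) :
    P (s + t) = P s * P t := by
  symm
  refine ev_inj (conv_mul (hPc s) (hPc t)) (hPc _) fun z hz => ?_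
  rw [ev_mul (hPc s) (hPc t) hz, hPe s z hz, hPe t z hz, hPe _ z hz, ← Complex.exp_add]
  congr 1
  ring

private theorem t3_R (F : A d) (hF : Conv F) (P : ℂ → A d) (hPc : ∀ s, Conv (P s))
    (hPe : ∀ s, ∀ z ∈ Ball d, ev (P s) z = Complex.exp (-(s * ev F z))) (s : ℂ) :
    R d (P s) = (-s) • (P s * R d F) := by
  refine ev_inj (conv_R (hPc s)) (conv_smul (-s) (conv_mul (hPc _) (conv_R hF))) fun z hz => ?_
  rw [ev_smul, ev_mul (hPc _) (conv_R hF) hz, p20_deriv (hPc s) hF s (hPe s) hz, hPe s z hz]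
  ring

private theorem t3_diff (P : ℂ → A d)
    (hPd : ∀ α, Differentiable ℂ (fun s => MvPowerSeries.coeff α (P s))) (J : A d)
    (α : Fin d →₀ ℕ) : Differentiable ℂ (fun s => MvPowerSeries.coeff α (P s * J)) := by
  have h : (fun s => MvPowerSeries.coeff α (P s * J)) = fun s =>
      ∑ p ∈ Finset.HasAntidiagonal.antidiagonal α,
        MvPowerSeries.coeff p.1 (P s) * MvPowerSeries.coeff p.2 J := by
    funext s
    exact MvPowerSeries.coeff_mul α (P s) J
  rw [h]
  exact Differentiable.fun_sum fun p _ => (hPd p.1).mul_const _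

private theorem t3_at_zero (F : A d) (hF : Conv F) (P : ℂ → A d) (hPc : ∀ s, Conv (P s))
    (hPe : ∀ s, ∀ z ∈ Ball d, ev (P s) z = Complex.exp (-(s * ev F z)))
    (hPd : ∀ α, Differentiable ℂ (fun s => MvPowerSeries.coeff α (P s)))
    (α : Fin d →₀ ℕ) :
    HasDerivAt (fun s => MvPowerSeries.coeff α (P s)) (-MvPowerSeries.coeff α F) 0 := by
  by_cases hα : α = 0
  · subst hα
    have h1 : (fun s => MvPowerSeries.coeff 0 (P s)) =
        fun s => Complex.exp (-(s * MvPowerSeries.coeff 0 F)) := by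
      funext s
      have h2 := hPe s _ (p20_zero_mem_ball (d := d))
      rw [ev_zero_point, ev_zero_point] at h2
      exact h2
    rw [h1]
    have h3 : HasDerivAt (fun s : ℂ => -(s * MvPowerSeries.coeff 0 F))
        (-(1 * MvPowerSeries.coeff 0 F)) 0 :=
      ((hasDerivAt_id (0 : ℂ)).mul_const _).neg
    have h4 := h3.cexp
    have h5 : Complex.exp (-(0 * MvPowerSeries.coeff 0 F)) * (-(1 * MvPowerSeries.coeff 0 F)) =
        -MvPowerSeries.coeff 0 F := by
      rw [zero_mul, neg_zero, Complex.exp_zero]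
      ring
    rw [h5] at h4
    exact h4
  · have hn : ((∑ i, α i : ℕ) : ℂ) ≠ 0 := by
      intro h
      have h1 : ∑ i, α i = 0 := by exact_mod_cast h
      apply hα
      ext i
      exact Finset.sum_eq_zero_iff.1 h1 i (Finset.mem_univ i)
    have h1 : (fun s => MvPowerSeries.coeff α (P s)) = fun s =>
        (-s) * (MvPowerSeries.coeff α (P s * R d F) * ((∑ i, α i : ℕ) : ℂ)⁻¹) := by
      funext s
      have h2 := congrArg (MvPowerSeries.coeff α) (t3_R F hF P hPc hPe s)
      rw [coeff_R, map_smul, smul_eq_mul] at h2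
      rw [← mul_assoc, ← h2]
      field_simp
    rw [h1]
    have h3 : HasDerivAt (fun s : ℂ => -s) (-1) 0 := (hasDerivAt_id (0 : ℂ)).neg
    have h4 : HasDerivAt (fun s => MvPowerSeries.coeff α (P s * R d F) *
        ((∑ i, α i : ℕ) : ℂ)⁻¹)
        (deriv (fun s => MvPowerSeries.coeff α (P s * R d F)) 0 * ((∑ i, α i : ℕ) : ℂ)⁻¹) 0 :=
      ((t3_diff P hPd (R d F) α) 0).hasDerivAt.mul_const _
    have h5 := h3.mul h4
    have h6 : MvPowerSeries.coeff α (P 0 * R d F) =
        ((∑ i, α i : ℕ) : ℂ) * MvPowerSeries.coeff α F := by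
      rw [t3_zero F P hPc hPe, one_mul, coeff_R]
    have h7 : -1 * (MvPowerSeries.coeff α (P 0 * R d F) * ((∑ i, α i : ℕ) : ℂ)⁻¹) +
        -0 * (deriv (fun s => MvPowerSeries.coeff α (P s * R d F)) 0 *
          ((∑ i, α i : ℕ) : ℂ)⁻¹) = -MvPowerSeries.coeff α F := by
      rw [h6, neg_zero, zero_mul, add_zero]
      field_simp
    rw [h7] at h5
    exact h5

theorem hasDerivAt_coeff (F : A d) (hF : Conv F) (P : ℂ → A d) (hPc : ∀ s, Conv (P s))
    (hPe : ∀ s, ∀ z ∈ Ball d, ev (P s) z = Complex.exp (-(s * ev F z)))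
    (hPd : ∀ α, Differentiable ℂ (fun s => MvPowerSeries.coeff α (P s)))
    (α : Fin d →₀ ℕ) (s : ℂ) :
    HasDerivAt (fun s => MvPowerSeries.coeff α (P s)) (-MvPowerSeries.coeff α (F * P s)) s := by
  have h1 : HasDerivAt (fun t => MvPowerSeries.coeff α (P (s + t)))
      (-MvPowerSeries.coeff α (F * P s)) (s - s) := by
    rw [sub_self]
    have h2 : (fun t => MvPowerSeries.coeff α (P (s + t))) = fun t =>
        ∑ p ∈ Finset.HasAntidiagonal.antidiagonal α,
          MvPowerSeries.coeff p.1 (P s) * MvPowerSeries.coeff p.2 (P t) := by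
      funext t
      rw [t3_add F P hPc hPe]
      exact MvPowerSeries.coeff_mul α (P s) (P t)
    have h3 : -MvPowerSeries.coeff α (F * P s) =
        ∑ p ∈ Finset.HasAntidiagonal.antidiagonal α,
          MvPowerSeries.coeff p.1 (P s) * (-MvPowerSeries.coeff p.2 F) := by
      rw [mul_comm, MvPowerSeries.coeff_mul, ← Finset.sum_neg_distrib]
      exact Finset.sum_congr rfl fun p _ => (mul_neg _ _).symm
    rw [h2, h3]
    exact HasDerivAt.fun_sum fun p _ => (t3_at_zero F hF P hPc hPe hPd p.2).const_mul _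
  have h4 := HasDerivAt.comp_sub_const s s h1
  have h5 : (fun u => MvPowerSeries.coeff α (P (s + (u - s)))) =
      fun u => MvPowerSeries.coeff α (P u) := by
    funext u
    rw [add_sub_cancel]
  rw [h5] at h4
  exact h4

theorem hasDerivAt_coeff_mul (F : A d) (hF : Conv F) (P : ℂ → A d) (hPc : ∀ s, Conv (P s))
    (hPe : ∀ s, ∀ z ∈ Ball d, ev (P s) z = Complex.exp (-(s * ev F z)))
    (hPd : ∀ α, Differentiable ℂ (fun s => MvPowerSeries.coeff α (P s))) (J : A d)
    (α : Fin d →₀ ℕ) (s : ℂ) :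
    HasDerivAt (fun s => MvPowerSeries.coeff α (P s * J))
      (-MvPowerSeries.coeff α (F * (P s * J))) s := by
  have h2 : (fun s => MvPowerSeries.coeff α (P s * J)) = fun s =>
      ∑ p ∈ Finset.HasAntidiagonal.antidiagonal α,
        MvPowerSeries.coeff p.1 (P s) * MvPowerSeries.coeff p.2 J := by
    funext s
    exact MvPowerSeries.coeff_mul α (P s) J
  have h3 : -MvPowerSeries.coeff α (F * (P s * J)) =
      ∑ p ∈ Finset.HasAntidiagonal.antidiagonal α,
        -MvPowerSeries.coeff p.1 (F * P s) * MvPowerSeries.coeff p.2 J := by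
    rw [← mul_assoc, MvPowerSeries.coeff_mul, ← Finset.sum_neg_distrib]
    exact Finset.sum_congr rfl fun p _ => (neg_mul _ _).symm
  rw [h2, h3]
  exact HasDerivAt.fun_sum fun p _ => (hasDerivAt_coeff F hF P hPc hPe hPd p.1 s).mul_const _

end PCM
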